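import Mathlib

set_option autoImplicit false

open Polynomial Finset

namespace Pool.Agent.Helper428.AlphaN

/-- A monic integer polynomial has positive coefficients after a large translation. -/
lemma exists_shift (n : ℕ) : ∀ p : ℤ[X], p.Monic → p.natDegree = n →
    ∃ B0 : ℕ, ∀ B : ℕ, B0 ≤ B → ∀ j ≤ n, 0 < (p.comp (X + C (B : ℤ))).coeff j := by
  induction n with
  | zero =>
    intro p hp hn
    refine ⟨0, fun B _ j hj => ?_⟩
    have h1 : p = 1 := Polynomial.eq_one_of_monic_natDegree_zero hp hn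
    have hj0 : j = 0 := by omega
    subst hj0
    rw [h1]
    simp
  | succ n ih =>
    intro p hp hn
    have hdeg : p.divX.natDegree = n := by
      rw [natDegree_divX_eq_natDegree_tsub_one, hn]
      simp
    have hmon : p.divX.Monic := by
      unfold Monic leadingCoeff
      rw [hdeg, coeff_divX, ← hn]
      exact hp
    obtain ⟨B0, hB0⟩ := ih p.divX hmon hdeg
    refine ⟨B0 + (p.coeff 0).natAbs + 1, fun B hB j hj => ?_⟩
    have hQ := hB0 B (by omega)
    set Q := p.divX.comp (X + C (B : ℤ)) with hQdef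
    have hp' : p.comp (X + C (B : ℤ)) = Q * (X + C (B : ℤ)) + C (p.coeff 0) := by
      conv_lhs => rw [← divX_mul_X_add p]
      rw [add_comp, mul_comp, X_comp, C_comp]
    have hBpos : (0 : ℤ) < B := by exact_mod_cast (by omega : 0 < B)
    have hBc : -(B : ℤ) < p.coeff 0 := by
      have h1 : ((p.coeff 0).natAbs : ℤ) < B := by exact_mod_cast (by omega)
      have h2 := neg_abs_le (p.coeff 0)
      rw [Int.abs_eq_natAbs] at h2
      linarith
    rw [hp', mul_add, coeff_add, coeff_add, coeff_mul_C]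
    cases j with
    | zero =>
      rw [coeff_C_zero, mul_coeff_zero, coeff_X_zero, mul_zero, zero_add]
      have h0 := hQ 0 (Nat.zero_le _)
      nlinarith
    | succ j =>
      rw [coeff_mul_X, coeff_C_succ, add_zero]
      by_cases hjn : j + 1 ≤ n
      · have h1 := hQ j (by omega)
        have h2 := hQ (j + 1) hjn
        positivity
      · have hjn' : j = n := by omega
        subst hjn'
        have h1 := hQ j le_rfl
        have h2 : Q.coeff (j + 1) = 0 := by
          apply coeff_eq_zero_of_natDegree_lt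
          rw [hQdef, natDegree_comp, hdeg]
          have : (X + C (B : ℤ)).natDegree = 1 := natDegree_X_add_C _
          rw [this]
          omega
        rw [h2]
        linarith

/-- The generators `∏_{t<k} (X + m_t) - X^k`. -/
def gen (k : ℕ) : Set ℤ[X] :=
  {P | ∃ m : Fin k → ℕ, P = ∏ t, (X + C (m t : ℤ)) - X ^ k}

lemma pad {k : ℕ} {P : ℤ[X]} (h : P ∈ AddSubmonoid.closure (gen k)) :
    X * P ∈ AddSubmonoid.closure (gen (k + 1)) := by
  induction h using AddSubmonoid.closure_induction with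
  | mem P hP =>
    obtain ⟨m, rfl⟩ := hP
    apply AddSubmonoid.subset_closure
    refine ⟨Fin.cons 0 m, ?_⟩
    rw [Fin.prod_univ_succ]
    simp only [Fin.cons_zero, Fin.cons_succ, Nat.cast_zero, map_zero, add_zero]
    ring
  | zero =>
    rw [mul_zero]
    exact zero_mem _
  | add P Q _ _ hP hQ =>
    rw [mul_add]
    exact add_mem hP hQ

lemma claim (k : ℕ) : ∀ D U : ℕ, k ≤ D → ∃ V : ℕ, ∀ g : ℕ, 1 ≤ g → ∀ P : ℕ → ℤ,
    (∀ i < k, (V : ℤ) * g ^ (D - 1) ≤ P i ∧ P i ≤ U * g ^ D) →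
    (∑ i ∈ range k, C (P i) * X ^ i) ∈ AddSubmonoid.closure (gen k) := by
  induction k with
  | zero =>
    intro D U _
    refine ⟨0, fun g _ P _ => ?_⟩
    simp only [range_zero, sum_empty]
    exact zero_mem _
  | succ k ih =>
    intro D U hD
    obtain ⟨V', hV'⟩ := ih D U (by omega)
    set W : ℕ := 2 ^ k * (U + 1) + 2 ^ (k + 1) with hW
    refine ⟨V' + W, fun g hg P hP => ?_⟩
    have hgpos : (0 : ℤ) < g := by exact_mod_cast hg
    have hg1 : (1 : ℤ) ≤ g := by exact_mod_cast hg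
    obtain ⟨h0l, h0u⟩ := hP 0 (Nat.succ_pos k)
    have hP0 : 0 ≤ P 0 := le_trans (by positivity) h0l
    -- quotient and remainder
    obtain ⟨q, hq⟩ : ∃ q : ℕ, (q : ℤ) = P 0 / (g : ℤ) ^ k :=
      ⟨(P 0 / (g : ℤ) ^ k).toNat, Int.toNat_of_nonneg (Int.ediv_nonneg hP0 (by positivity))⟩
    obtain ⟨rem, hrem⟩ : ∃ rem : ℕ, (rem : ℤ) = P 0 % (g : ℤ) ^ k :=
      ⟨(P 0 % (g : ℤ) ^ k).toNat, Int.toNat_of_nonneg (Int.emod_nonneg _ (by positivity))⟩
    have hdiv : (g : ℤ) ^ k * q + rem = P 0 := by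
      rw [hq, hrem]
      exact Int.mul_ediv_add_emod _ _
    have hremlt : (rem : ℤ) ≤ (g : ℤ) ^ k := by
      rw [hrem]
      exact (Int.emod_lt_of_pos _ (by positivity)).le
    set A : ℤ[X] := (X + C (g : ℤ)) ^ k * (X + C (q : ℤ)) - X ^ (k + 1) with hA
    set R : ℤ[X] := (X + C (1 : ℤ)) ^ (k + 1) - X ^ (k + 1) with hR
    set T : ℤ[X] := A + rem • R with hT
    have hTmem : T ∈ AddSubmonoid.closure (gen (k + 1)) := by
      apply add_mem
      · apply AddSubmonoid.subset_closure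
        refine ⟨Fin.cons q (fun _ => g), ?_⟩
        rw [Fin.prod_univ_succ]
        simp only [Fin.cons_zero, Fin.cons_succ, prod_const, card_univ, Fintype.card_fin]
        rw [hA]
        ring
      · apply nsmul_mem
        apply AddSubmonoid.subset_closure
        refine ⟨fun _ => 1, ?_⟩
        simp only [prod_const, card_univ, Fintype.card_fin]
        rw [hR]
        norm_num
    -- coefficients of T
    have hAcoeff : ∀ i, A.coeff (i + 1) = (g : ℤ) ^ (k - i) * (k.choose i) +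
        (g : ℤ) ^ (k - (i + 1)) * (k.choose (i + 1)) * q - (X ^ (k + 1) : ℤ[X]).coeff (i + 1) := by
      intro i
      rw [hA, coeff_sub, mul_add, coeff_add, coeff_mul_X, coeff_mul_C, coeff_X_add_C_pow,
        coeff_X_add_C_pow]
    have hRcoeff : ∀ i, R.coeff (i + 1) = ((k + 1).choose (i + 1)) -
        (X ^ (k + 1) : ℤ[X]).coeff (i + 1) := by
      intro i
      rw [hR, coeff_sub, coeff_X_add_C_pow]
      simp
    have hA0 : A.coeff 0 = (g : ℤ) ^ k * q := by
      rw [hA, coeff_sub, mul_coeff_zero, coeff_X_add_C_pow]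
      simp
    have hR0 : R.coeff 0 = 1 := by
      rw [hR, coeff_sub, coeff_X_add_C_pow]
      simp
    have hT0 : T.coeff 0 = P 0 := by
      rw [hT, coeff_add, coeff_smul, hA0, hR0]
      simp
      linarith
    have hTcoeff : ∀ i < k, T.coeff (i + 1) = (g : ℤ) ^ (k - i) * (k.choose i) +
        (g : ℤ) ^ (k - (i + 1)) * (k.choose (i + 1)) * q + rem * ((k + 1).choose (i + 1)) := by
      intro i hi
      have h1 : (X ^ (k + 1) : ℤ[X]).coeff (i + 1) = 0 := by
        rw [coeff_X_pow, if_neg (by omega)]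
      rw [hT, coeff_add, coeff_smul, hAcoeff, hRcoeff, h1]
      simp
    have hTdeg : T.natDegree < k + 1 := by
      rw [Nat.lt_succ_iff, natDegree_le_iff_coeff_eq_zero]
      intro N hN
      obtain ⟨i, rfl⟩ : ∃ i, N = i + 1 := ⟨N - 1, by omega⟩
      rw [hT, coeff_add, coeff_smul, hAcoeff, hRcoeff, coeff_X_pow]
      rcases Nat.lt_or_ge k i with hi | hi
      · rw [Nat.choose_eq_zero_of_lt hi, Nat.choose_eq_zero_of_lt (by omega : k < i + 1),
          Nat.choose_eq_zero_of_lt (by omega : k + 1 < i + 1), if_neg (by omega)]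
        simp
      · have hik : i = k := by omega
        subst hik
        rw [Nat.choose_self, Nat.choose_self, Nat.choose_eq_zero_of_lt (by omega : i < i + 1),
          if_pos rfl]
        simp
    have hTbound : ∀ i < k, 0 ≤ T.coeff (i + 1) ∧ T.coeff (i + 1) ≤ W * (g : ℤ) ^ (D - 1) := by
      intro i hi
      rw [hTcoeff i hi]
      refine ⟨by positivity, ?_⟩
      have hpow : ∀ a, a ≤ D - 1 → (g : ℤ) ^ a ≤ (g : ℤ) ^ (D - 1) := fun a ha =>
        pow_le_pow_right₀ hg1 ha
      have hG : (0 : ℤ) < (g : ℤ) ^ (D - 1) := by positivity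
      have h1 : (g : ℤ) ^ (k - i) * (k.choose i) ≤ (g : ℤ) ^ (D - 1) * 2 ^ k := by
        apply mul_le_mul (hpow _ (by omega)) _ (by positivity) hG.le
        exact_mod_cast Nat.choose_le_two_pow k i
      have h2 : (g : ℤ) ^ (k - (i + 1)) * q ≤ U * (g : ℤ) ^ (D - 1) := by
        have e1 : (g : ℤ) ^ (k - (i + 1)) ≤ (g : ℤ) ^ (k - 1) := pow_le_pow_right₀ hg1 (by omega)
        have e2 : (g : ℤ) ^ (k - 1) * q * g ≤ U * (g : ℤ) ^ (D - 1) * g := by
          have e3 : (g : ℤ) ^ (k - 1) * g = g ^ k := by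
            rw [← pow_succ]
            congr 1
            omega
          have e4 : (g : ℤ) ^ (D - 1) * g = g ^ D := by
            rw [← pow_succ]
            congr 1
            omega
          calc (g : ℤ) ^ (k - 1) * q * g = (g : ℤ) ^ k * q := by rw [← e3]; ring
            _ ≤ P 0 := by
              have : (0 : ℤ) ≤ rem := Int.natCast_nonneg _
              linarith
            _ ≤ U * (g : ℤ) ^ D := h0u
            _ = U * (g : ℤ) ^ (D - 1) * g := by rw [← e4]; ring
        have e5 := le_of_mul_le_mul_right e2 hgpos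
        have e6 : (g : ℤ) ^ (k - (i + 1)) * q ≤ (g : ℤ) ^ (k - 1) * q :=
          mul_le_mul_of_nonneg_right e1 (Int.natCast_nonneg _)
        linarith
      have h3 : (g : ℤ) ^ (k - (i + 1)) * (k.choose (i + 1)) * q ≤ 2 ^ k * (U * (g : ℤ) ^ (D - 1)) := by
        have e1 : ((k.choose (i + 1) : ℕ) : ℤ) ≤ 2 ^ k := by
          exact_mod_cast Nat.choose_le_two_pow k (i + 1)
        have e2 : (g : ℤ) ^ (k - (i + 1)) * (k.choose (i + 1)) * q =
          (k.choose (i + 1) : ℤ) * ((g : ℤ) ^ (k - (i + 1)) * q) := by ring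
        rw [e2]
        exact mul_le_mul e1 h2 (by positivity) (by positivity)
      have h4 : (rem : ℤ) * ((k + 1).choose (i + 1)) ≤ (g : ℤ) ^ (D - 1) * 2 ^ (k + 1) := by
        apply mul_le_mul (hremlt.trans (hpow _ (by omega))) _ (by positivity) hG.le
        exact_mod_cast Nat.choose_le_two_pow (k + 1) (i + 1)
      have h5 : (W : ℤ) * (g : ℤ) ^ (D - 1) = (g : ℤ) ^ (D - 1) * 2 ^ k +
          2 ^ k * (U * (g : ℤ) ^ (D - 1)) + (g : ℤ) ^ (D - 1) * 2 ^ (k + 1) := by
        rw [hW]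
        push_cast
        ring
      rw [h5]
      linarith
    have hrest := hV' g hg (fun i => P (i + 1) - T.coeff (i + 1)) (by
      intro i hi
      obtain ⟨h1, h2⟩ := hP (i + 1) (by omega)
      obtain ⟨h3, h4⟩ := hTbound i hi
      constructor
      · push_cast at h1
        nlinarith
      · linarith)
    have key : ∀ (T' : ℤ[X]) (t : ℕ → ℤ), T' = ∑ i ∈ range (k + 1), C (t i) * X ^ i →
        t 0 = P 0 → (∑ i ∈ range (k + 1), C (P i) * X ^ i) =
        T' + X * ∑ i ∈ range k, C (P (i + 1) - t (i + 1)) * X ^ i := by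
      intro T' t hT' ht
      rw [hT', sum_range_succ', sum_range_succ' (fun i => C (t i) * X ^ i), ht, mul_sum]
      have : ∀ i, X * (C (P (i + 1) - t (i + 1)) * X ^ i) =
          C (P (i + 1)) * X ^ (i + 1) - C (t (i + 1)) * X ^ (i + 1) := by
        intro i
        rw [C_sub]
        ring
      rw [sum_congr rfl (fun i _ => this i), sum_sub_distrib]
      ring
    have hTs : T = ∑ i ∈ range (k + 1), C (T.coeff i) * X ^ i := by
      conv_lhs => rw [T.as_sum_range' (k + 1) hTdeg]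
      simp only [C_mul_X_pow_eq_monomial]
    have hsum := key T T.coeff hTs hT0
    rw [hsum]
    exact add_mem hTmem (pad hrest)

lemma exists_family {k : ℕ} {P : ℤ[X]} (h : P ∈ AddSubmonoid.closure (gen k)) :
    ∃ (M : ℕ) (m : Fin M → Fin k → ℕ),
      P = ∑ c, (∏ t, (X + C (m c t : ℤ)) - X ^ k) := by
  induction h using AddSubmonoid.closure_induction with
  | mem P hP =>
    obtain ⟨m, rfl⟩ := hP
    exact ⟨1, fun _ => m, by simp⟩
  | zero => exact ⟨0, fun c => c.elim0, by simp⟩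
  | add P Q _ _ hP hQ =>
    obtain ⟨M₁, m₁, h₁⟩ := hP
    obtain ⟨M₂, m₂, h₂⟩ := hQ
    refine ⟨M₁ + M₂, Fin.append m₁ m₂, ?_⟩
    rw [Fin.sum_univ_add, h₁, h₂]
    simp only [Fin.append_left, Fin.append_right]

/-- The multiple `r (X² - r_{d-1} X + g^(d+1))` of `r`. -/
noncomputable def mult (r : ℤ[X]) (d g : ℕ) : ℤ[X] :=
  r * X * X - C (r.coeff (d - 1)) * (r * X) + C ((g : ℤ) ^ (d + 1)) * r

lemma main_poly (r : ℤ[X]) (d : ℕ) (hd : 1 ≤ d) (hr : r.Monic) (hdeg : r.natDegree = d)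
    (hpos : ∀ j ≤ d, 0 < r.coeff j) :
    ∃ (g M : ℕ) (m : Fin M → Fin (d + 1) → ℕ),
      mult r d g = X ^ (d + 2) + ∑ c, (∏ t, (X + C (m c t : ℤ)) - X ^ (d + 1)) := by
  have hnn : ∀ j, 0 ≤ r.coeff j := by
    intro j
    by_cases hj : j ≤ d
    · exact (hpos j hj).le
    · rw [coeff_eq_zero_of_natDegree_lt (by omega)]
  obtain ⟨R, hR⟩ : ∃ R : ℕ, (R : ℤ) = ∑ j ∈ range (d + 1), r.coeff j :=
    ⟨(∑ j ∈ range (d + 1), r.coeff j).toNat,
      Int.toNat_of_nonneg (Finset.sum_nonneg fun j _ => hnn j)⟩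
  have hle : ∀ j, r.coeff j ≤ R := by
    intro j
    by_cases hj : j ≤ d
    · rw [hR]
      exact Finset.single_le_sum (f := fun j => r.coeff j) (fun j _ => hnn j)
        (mem_range.2 (by omega))
    · rw [coeff_eq_zero_of_natDegree_lt (by omega)]
      exact Int.natCast_nonneg _
  have hR0 : (0 : ℤ) ≤ R := Int.natCast_nonneg _
  have h1 : ∀ j : ℕ, 0 ≤ (r * X).coeff j ∧ (r * X).coeff j ≤ (R : ℤ) := by
    intro j
    cases j with
    | zero => rw [mul_coeff_zero, coeff_X_zero, mul_zero]; exact ⟨le_rfl, hR0⟩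
    | succ j => rw [coeff_mul_X]; exact ⟨hnn j, hle j⟩
  have h2 : ∀ j : ℕ, 0 ≤ (r * X * X).coeff j ∧ (r * X * X).coeff j ≤ (R : ℤ) := by
    intro j
    cases j with
    | zero => rw [mul_coeff_zero, coeff_X_zero, mul_zero]; exact ⟨le_rfl, hR0⟩
    | succ j => rw [coeff_mul_X]; exact h1 j
  obtain ⟨V, hV⟩ := claim (d + 1) (d + 1) (2 * R) le_rfl
  set g : ℕ := V + R * R + 1 with hg
  have hg1 : 1 ≤ g := by omega
  have hgz : (1 : ℤ) ≤ g := by exact_mod_cast hg1
  set Q := mult r d g with hQ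
  have hQc : ∀ j, Q.coeff j = (r * X * X).coeff j - r.coeff (d - 1) * (r * X).coeff j +
      (g : ℤ) ^ (d + 1) * r.coeff j := by
    intro j
    rw [hQ, mult, coeff_add, coeff_sub, coeff_C_mul, coeff_C_mul]
  have hG : (1 : ℤ) ≤ (g : ℤ) ^ (d + 1) := one_le_pow₀ hgz
  have hG' : (1 : ℤ) ≤ (g : ℤ) ^ d := one_le_pow₀ hgz
  have hmem := hV g hg1 Q.coeff (by
    intro i hi
    rw [hQc]
    have a1 := (h2 i).1
    have a2 := (h2 i).2
    have a3 := (h1 i).1
    have a4 := (h1 i).2
    have a5 := hnn (d - 1)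
    have a6 := hle (d - 1)
    have a7 := hpos i (by omega)
    have a8 := hle i
    have a9 : r.coeff (d - 1) * (r * X).coeff i ≤ R * R := mul_le_mul a6 a4 a3 hR0
    have a10 : 0 ≤ r.coeff (d - 1) * (r * X).coeff i := mul_nonneg a5 a3
    constructor
    · rw [Nat.add_sub_cancel]
      have b1 : (g : ℤ) ^ (d + 1) ≤ (g : ℤ) ^ (d + 1) * r.coeff i := by nlinarith
      have b2 : (g : ℤ) ^ (d + 1) = (V + R * R + 1) * (g : ℤ) ^ d := by
        rw [pow_succ, hg]
        push_cast
        ring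
      have b3 : (R : ℤ) * R ≤ (R * R) * (g : ℤ) ^ d := by nlinarith [mul_nonneg hR0 hR0]
      nlinarith
    · push_cast
      have b1 : (g : ℤ) ^ (d + 1) * r.coeff i ≤ (g : ℤ) ^ (d + 1) * R :=
        mul_le_mul_of_nonneg_left a8 (by linarith)
      have b2 : (R : ℤ) ≤ (g : ℤ) ^ (d + 1) * R := by nlinarith
      nlinarith)
  obtain ⟨M, m, hm⟩ := exists_family hmem
  refine ⟨g, M, m, ?_⟩
  rw [← hm]
  have hdegQ : Q.natDegree < d + 3 := by
    rw [Nat.lt_succ_iff, natDegree_le_iff_coeff_eq_zero]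
    intro N hN
    obtain ⟨i, rfl⟩ : ∃ i, N = i + 2 := ⟨N - 2, by omega⟩
    rw [hQc, coeff_mul_X, coeff_mul_X, coeff_mul_X,
      coeff_eq_zero_of_natDegree_lt (by omega : r.natDegree < i),
      coeff_eq_zero_of_natDegree_lt (by omega : r.natDegree < i + 1),
      coeff_eq_zero_of_natDegree_lt (by omega : r.natDegree < i + 2)]
    simp
  have hlead : r.coeff d = 1 := by
    rw [← hdeg]
    exact hr
  have c2 : Q.coeff (d + 2) = 1 := by
    rw [hQc, coeff_mul_X, coeff_mul_X, coeff_mul_X, hlead,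
      coeff_eq_zero_of_natDegree_lt (by omega : r.natDegree < d + 1),
      coeff_eq_zero_of_natDegree_lt (by omega : r.natDegree < d + 2)]
    simp
  have c1 : Q.coeff (d + 1) = 0 := by
    obtain ⟨e, rfl⟩ : ∃ e, d = e + 1 := ⟨d - 1, by omega⟩
    rw [hQc, coeff_mul_X, coeff_mul_X, coeff_mul_X, hlead,
      coeff_eq_zero_of_natDegree_lt (by omega : r.natDegree < e + 1 + 1)]
    simp
  have hQs : Q = ∑ i ∈ range (d + 3), C (Q.coeff i) * X ^ i := by
    conv_lhs => rw [Q.as_sum_range' (d + 3) hdegQ]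
    simp only [C_mul_X_pow_eq_monomial]
  rw [sum_range_succ, sum_range_succ, c1, c2, C_0, zero_mul, add_zero, C_1, one_mul] at hQs
  linear_combination hQs

/-- The algebraic part: an integral translate `s = α - B` of every algebraic integer satisfies
`s^(D+1) + Σ_c (∏_t (s + m_t(c)) - s^D) = 0` for suitable natural numbers `m_t(c)`. -/
theorem algebra_part (α : ℂ) (hα : IsIntegral ℤ α) :
    ∃ (B D M : ℕ) (m : Fin M → Fin D → ℕ), α - B ≠ 0 ∧
      (α - B) ^ (D + 1) + ∑ c, (∏ t, ((α - B) + (m c t : ℂ)) - (α - B) ^ D) = 0 := by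
  obtain ⟨p, hp, hroot⟩ := hα
  have hroot' : aeval α p = 0 := hroot
  obtain ⟨B0, hB0⟩ := exists_shift p.natDegree p hp rfl
  set B := B0 with hB
  set d := p.natDegree with hd
  have hpos := hB0 B le_rfl
  set r := p.comp (X + C (B : ℤ)) with hr
  have hrm : r.Monic := hp.comp_X_add_C _
  have hrdeg : r.natDegree = d := by
    rw [hr, natDegree_comp, natDegree_X_add_C, mul_one]
  have hrs : aeval (α - B) r = 0 := by
    rw [hr, aeval_comp]
    simp [hroot']
  have hd1 : 1 ≤ d := by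
    by_contra hcon
    have : d = 0 := by omega
    have h1 : p = 1 := Polynomial.eq_one_of_monic_natDegree_zero hp this
    rw [h1] at hroot'
    simp at hroot'
  obtain ⟨g, M, m, hm⟩ := main_poly r d hd1 hrm hrdeg hpos
  refine ⟨B, d + 1, M, m, ?_, ?_⟩
  · intro h0
    rw [h0] at hrs
    have h1 : aeval (0 : ℂ) r = (r.coeff 0 : ℂ) := by
      rw [← coeff_zero_eq_aeval_zero']
      simp
    rw [h1] at hrs
    have h2 := hpos 0 (Nat.zero_le _)
    have h3 : r.coeff 0 = 0 := by exact_mod_cast hrs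
    omega
  · have h1 : aeval (α - B) (mult r d g) = 0 := by
      simp only [mult, map_add, map_sub, map_mul, hrs, zero_mul, mul_zero, sub_zero, add_zero]
    rw [hm] at h1
    simpa using h1

end Pool.Agent.Helper428.AlphaN
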