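import Pool.Agent.Helper428.BrownStep

set_option autoImplicit false
set_option linter.unusedSectionVars false

open Polynomial Finset

namespace Pool.Agent.Helper428.Brown

variable {V : Type*} [DecidableEq V]

/-- real value of the chromatic polynomial of `G[S]` -/
noncomputable def Pr (G : SimpleGraph V) (S : Finset V) (x : ℝ) : ℝ := aeval x (pol G S)

/-- real value of the chromatic polynomial of `G[S]` plus a new vertex joined to `C` -/
noncomputable def Rr (G : SimpleGraph V) (S C : Finset V) (x : ℝ) : ℝ := aeval x (rpol G S C)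

lemma P_ofReal (G : SimpleGraph V) (S : Finset V) (x : ℝ) : P G S (x : ℂ) = (Pr G S x : ℂ) := by
  rw [P, Pr]
  have := Polynomial.aeval_algebraMap_apply ℂ x (pol G S)
  simpa using this

lemma R_ofReal (G : SimpleGraph V) (S C : Finset V) (x : ℝ) :
    R G S C (x : ℂ) = (Rr G S C x : ℂ) := by
  rw [R, Rr]
  have := Polynomial.aeval_algebraMap_apply ℂ x (rpol G S C)
  simpa using this

lemma rr_ofReal (G : SimpleGraph V) (S C : Finset V) (x : ℝ) :
    rr G S C (x : ℂ) = ((Rr G S C x / Pr G S x : ℝ) : ℂ) := by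
  rw [rr, P_ofReal, R_ofReal]
  push_cast
  rfl

lemma Pr_ne_zero (G : SimpleGraph V) (S : Finset V) (x : ℝ) (hx : (S.card : ℝ) ≤ x) :
    Pr G S x ≠ 0 := by
  intro h0
  have h1 : P G S (x : ℂ) = 0 := by rw [P_ofReal, h0]; simp
  rcases Nat.eq_zero_or_pos S.card with h | h
  · rw [Finset.card_eq_zero.1 h, P_empty] at h1
    exact one_ne_zero h1
  · obtain ⟨k, hk⟩ : ∃ k, S.card = k + 1 := ⟨S.card - 1, by omega⟩
    refine (stepD (facts k) G S hk (x : ℂ) ?_ ?_).1 h1
    · rw [hk] at hx
      push_cast at hx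
      simp
      linarith
    · simp

/-- derivative from the upper half plane -/
lemma deriv_re_nonneg {F : ℂ → ℂ} {F' : ℂ} {x : ℝ} (hF : HasDerivAt F F' (x : ℂ))
    (him : ∀ y : ℝ, 0 ≤ y → 0 ≤ (F (x + y * Complex.I)).im) (h0 : (F (x : ℂ)).im = 0) :
    0 ≤ F'.re := by
  have h1 : HasDerivAt (fun y : ℂ => (x : ℂ) + y * Complex.I) Complex.I ((0 : ℝ) : ℂ) := by
    have := ((hasDerivAt_id ((0 : ℝ) : ℂ)).mul_const Complex.I).const_add (x : ℂ)
    simpa using this
  have h2 : HasDerivAt (fun y : ℂ => F ((x : ℂ) + y * Complex.I)) (F' * Complex.I)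
      ((0 : ℝ) : ℂ) := by
    apply HasDerivAt.comp (h₂ := F) (h := fun y : ℂ => (x : ℂ) + y * Complex.I)
    · simpa using hF
    · exact h1
  have h3 : HasDerivAt (fun y : ℂ => -Complex.I * F ((x : ℂ) + y * Complex.I))
      (-Complex.I * (F' * Complex.I)) ((0 : ℝ) : ℂ) := h2.const_mul _
  have h4 := h3.real_of_complex
  have h5 : (-Complex.I * (F' * Complex.I)).re = F'.re := by
    have : -Complex.I * (F' * Complex.I) = F' * -(Complex.I * Complex.I) := by ring
    rw [this, Complex.I_mul_I]
    simp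
  rw [h5] at h4
  have h6 : ∀ y : ℝ, (-Complex.I * F ((x : ℂ) + (y : ℂ) * Complex.I)).re =
      (F ((x : ℂ) + (y : ℂ) * Complex.I)).im := by
    intro y
    simp [Complex.mul_re]
  simp only [h6] at h4
  by_contra hneg
  push Not at hneg
  have h7 := h4.hasDerivWithinAt (s := Set.Ici (0 : ℝ))
  -- the function is nonneg on Ici 0 and zero at 0
  have h8 : Filter.Tendsto (fun t : ℝ => t⁻¹ * ((F ((x : ℂ) + (t : ℂ) * Complex.I)).im - 0))
      (nhdsWithin 0 (Set.Ioi 0)) (nhds F'.re) := by
    have := (hasDerivAt_iff_tendsto_slope.1 h4).mono_left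
      (nhdsWithin_mono (0 : ℝ) (fun y (hy : 0 < y) => (ne_of_gt hy : y ≠ 0)))
    refine this.congr' ?_
    filter_upwards [self_mem_nhdsWithin] with t ht
    simp [slope, h0]
  have h9 : ∀ᶠ t : ℝ in nhdsWithin 0 (Set.Ioi 0),
      0 ≤ t⁻¹ * ((F ((x : ℂ) + (t : ℂ) * Complex.I)).im - 0) := by
    filter_upwards [self_mem_nhdsWithin] with t ht
    have ht' : (0 : ℝ) < t := ht
    rw [sub_zero]
    exact mul_nonneg (inv_nonneg.2 ht'.le) (him t ht'.le)
  exact absurd (ge_of_tendsto h8 h9) (not_le.2 hneg)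

lemma rr_hasDerivAt (G : SimpleGraph V) (S C : Finset V) (z : ℂ) (h : P G S z ≠ 0) :
    DifferentiableAt ℂ (rr G S C) z := by
  have h1 : DifferentiableAt ℂ (fun z : ℂ => aeval z (rpol G S C)) z :=
    (Polynomial.differentiable_aeval _).differentiableAt
  have h2 : DifferentiableAt ℂ (fun z : ℂ => aeval z (pol G S)) z :=
    (Polynomial.differentiable_aeval _).differentiableAt
  exact h1.div h2 h

/-- **Monotonicity.** For `C ⊆ S` the ratio `P(H + v_C, q) / P(H, q)` (`H = G[S]`) is
nondecreasing in real `q ≥ |S|`. -/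
theorem rr_mono (G : SimpleGraph V) (S C : Finset V) (hC : C ⊆ S) :
    MonotoneOn (fun x : ℝ => Rr G S C x / Pr G S x) (Set.Ici (S.card : ℝ)) := by
  have hd : ∀ x : ℝ, (S.card : ℝ) ≤ x →
      DifferentiableAt ℝ (fun x : ℝ => Rr G S C x / Pr G S x) x := by
    intro x hx
    have h1 : DifferentiableAt ℝ (fun z : ℝ => aeval z (rpol G S C)) x :=
      (Polynomial.differentiable_aeval _).differentiableAt
    have h2 : DifferentiableAt ℝ (fun z : ℝ => aeval z (pol G S)) x :=
      (Polynomial.differentiable_aeval _).differentiableAt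
    exact h1.div h2 (Pr_ne_zero G S x hx)
  apply monotoneOn_of_deriv_nonneg (convex_Ici _)
  · intro x hx
    exact (hd x hx).continuousAt.continuousWithinAt
  · intro x hx
    rw [interior_Ici] at hx
    exact (hd x (le_of_lt hx)).differentiableWithinAt
  · intro x hx
    rw [interior_Ici] at hx
    have hx' : (S.card : ℝ) < x := hx
    have hP : P G S (x : ℂ) ≠ 0 := by
      rw [P_ofReal]
      exact_mod_cast Pr_ne_zero G S x hx'.le
    obtain hF := (rr_hasDerivAt G S C (x : ℂ) hP).hasDerivAt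
    have h1 : 0 ≤ (deriv (rr G S C) (x : ℂ)).re := by
      apply deriv_re_nonneg hF
      · intro y hy
        exact (facts S.card G S rfl (x + y * Complex.I) (by simpa using hx')
          (by simpa using hy)).rim C hC
      · rw [rr_ofReal]
        exact Complex.ofReal_im _
    have h2 := hF.real_of_complex
    have h3 : (fun x : ℝ => (rr G S C (x : ℂ)).re) = fun x : ℝ => Rr G S C x / Pr G S x := by
      funext x
      rw [rr_ofReal]
      exact Complex.ofReal_re _
    rw [h3] at h2
    rw [h2.deriv]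
    exact h1

end Pool.Agent.Helper428.Brown
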