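import Mathlib

set_option autoImplicit false

open Complex Set Filter Topology

namespace Pool.Agent.Helper428.Becker

/-- `h M = M + e^M`. -/
noncomputable def h (M : ℂ) : ℂ := M + exp M

/-- The strip `|Im M| < π`. -/
def S : Set ℂ := {M | |M.im| < Real.pi}

lemma h_re (M : ℂ) : (h M).re = M.re + Real.exp M.re * Real.cos M.im := by
  simp [h, exp_re]

lemma h_im (M : ℂ) : (h M).im = M.im + Real.exp M.re * Real.sin M.im := by
  simp [h, exp_im]

lemma strict_h (M : ℂ) : HasStrictDerivAt h (1 + exp M) M :=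
  (hasStrictDerivAt_id M).add (Complex.hasStrictDerivAt_exp M)

lemma cont_h : Continuous h := by
  unfold h; fun_prop

lemma one_add_exp_ne {M : ℂ} (hM : |M.im| < Real.pi) : 1 + exp M ≠ 0 := by
  intro h0
  have h1 := congrArg Complex.im h0
  have h2 := congrArg Complex.re h0
  simp [exp_im, exp_re] at h1 h2
  rw [abs_lt] at hM
  have h3 : M.im = 0 := (Real.sin_eq_zero_iff_of_lt_of_lt hM.1 hM.2).1 h1
  rw [h3] at h2
  simp at h2
  have := Real.exp_pos M.re
  linarith

/-- injectivity for two points with nonnegative imaginary parts, not both zero -/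
lemma inj_up {M N : ℂ} (hM0 : 0 ≤ M.im) (hN0 : 0 ≤ N.im) (hM : M.im < Real.pi)
    (hN : N.im < Real.pi) (hne : M ≠ N) (hpos : 0 < M.im ∨ 0 < N.im) : h M ≠ h N := by
  intro heq
  set d : ℂ := M - N with hd
  have hd0 : d ≠ 0 := sub_ne_zero.2 hne
  -- φ t = Im (h (N + t d) / d)
  have hder : ∀ t : ℝ, HasDerivAt (fun t : ℝ => (h (N + (t : ℂ) * d) / d).im)
      ((1 + exp (N + (t : ℂ) * d)).im) t := by
    intro t
    have e1 : HasDerivAt (fun s : ℂ => N + s * d) d ((t : ℝ) : ℂ) := by
      simpa using ((hasDerivAt_id ((t : ℝ) : ℂ)).mul_const d).const_add N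
    have e2 : HasDerivAt (fun s : ℂ => h (N + s * d) / d)
        ((1 + exp (N + (t : ℂ) * d)) * d / d) ((t : ℝ) : ℂ) :=
      (((strict_h _).hasDerivAt).comp ((t : ℝ) : ℂ) e1).div_const d
    rw [mul_div_cancel_right₀ _ hd0] at e2
    have e3 := e2.comp_ofReal
    have e4 := (Complex.imCLM.hasFDerivAt (x := h (N + (t : ℂ) * d) / d)).comp_hasDerivAt t e3
    exact e4
  have hmono : StrictMonoOn (fun t : ℝ => (h (N + (t : ℂ) * d) / d).im) (Icc 0 1) := by
    apply strictMonoOn_of_deriv_pos (convex_Icc 0 1)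
    · exact (continuous_iff_continuousAt.2 fun t => (hder t).continuousAt).continuousOn
    · intro t ht
      rw [interior_Icc] at ht
      rw [(hder t).deriv]
      have him : (N + (t : ℂ) * d).im = (1 - t) * N.im + t * M.im := by
        simp [hd]; ring
      simp only [add_im, one_im, zero_add, exp_im]
      apply mul_pos (Real.exp_pos _)
      have : (N.im + ((t : ℂ) * d).im) = (N + (t : ℂ) * d).im := by simp
      rw [this, him]
      apply Real.sin_pos_of_pos_of_lt_pi
      · rcases hpos with hp | hp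
        · have := mul_pos ht.1 hp
          have := mul_nonneg (sub_nonneg.2 ht.2.le) hN0
          linarith
        · have := mul_pos (sub_pos.2 ht.2) hp
          have := mul_nonneg ht.1.le hM0
          linarith
      · nlinarith [ht.1, ht.2]
  have h01 := hmono (left_mem_Icc.2 zero_le_one) (right_mem_Icc.2 zero_le_one) zero_lt_one
  simp only [ofReal_zero, zero_mul, add_zero, ofReal_one, one_mul] at h01
  have : N + d = M := by rw [hd]; ring
  rw [this, heq] at h01
  exact lt_irrefl _ h01

lemma h_conj (M : ℂ) : h (star M) = star (h M) := by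
  have : exp (star M) = star (exp M) := Complex.exp_conj M
  unfold h
  rw [this, star_add]

lemma im_sign {M : ℂ} (hM : |M.im| < Real.pi) : (0 < M.im → 0 < (h M).im) ∧
    (M.im < 0 → (h M).im < 0) ∧ (M.im = 0 → (h M).im = 0) := by
  rw [abs_lt] at hM
  refine ⟨fun hp => ?_, fun hn => ?_, fun hz => ?_⟩
  · rw [h_im]
    have := mul_pos (Real.exp_pos M.re) (Real.sin_pos_of_pos_of_lt_pi hp hM.2)
    linarith
  · rw [h_im]
    have := Real.sin_neg_of_neg_of_neg_pi_lt hn hM.1
    have := mul_neg_of_pos_of_neg (Real.exp_pos M.re) this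
    linarith
  · rw [h_im, hz]; simp

lemma inj_S {M N : ℂ} (hM : M ∈ S) (hN : N ∈ S) (heq : h M = h N) : M = N := by
  by_contra hne
  have hM' : |M.im| < Real.pi := hM
  have hN' : |N.im| < Real.pi := hN
  obtain ⟨m1, m2, m3⟩ := im_sign hM'
  obtain ⟨n1, n2, n3⟩ := im_sign hN'
  have hM2 := abs_lt.1 hM'
  have hN2 := abs_lt.1 hN'
  rw [heq] at m1 m2 m3
  rcases lt_trichotomy M.im 0 with hm | hm | hm
  · have a := m2 hm
    have hn : N.im < 0 := by
      rcases lt_trichotomy N.im 0 with h1 | h1 | h1
      · exact h1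
      · linarith [n3 h1]
      · linarith [n1 h1]
    refine inj_up (M := star M) (N := star N) ?_ ?_ ?_ ?_ ?_ ?_ ?_
    · simp; linarith
    · simp; linarith
    · simp; linarith
    · simp; linarith
    · exact fun hc => hne (star_injective hc)
    · left; simp; linarith
    · rw [h_conj, h_conj, heq]
  · have a := m3 hm
    have hn : N.im = 0 := by
      rcases lt_trichotomy N.im 0 with h1 | h1 | h1
      · linarith [n2 h1]
      · exact h1
      · linarith [n1 h1]
    have hre := congrArg Complex.re heq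
    rw [h_re, h_re, hm, hn] at hre
    simp at hre
    have : M.re = N.re := by
      rcases lt_trichotomy M.re N.re with h1 | h1 | h1
      · have := Real.exp_lt_exp.2 h1; linarith
      · exact h1
      · have := Real.exp_lt_exp.2 h1; linarith
    exact hne (Complex.ext this (by rw [hm, hn]))
  · have a := m1 hm
    have hn : 0 < N.im := by
      rcases lt_trichotomy N.im 0 with h1 | h1 | h1
      · linarith [n2 h1]
      · linarith [n3 h1]
      · exact h1
    exact inj_up hm.le hn.le hM2.2 hN2.2 hne (Or.inl hm) heq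

/-- The open set of points of the strip which `h` maps into `Re > -1`. -/
def Om : Set ℂ := {M | |M.im| < Real.pi ∧ -1 < (h M).re}

lemma isOpen_Om : IsOpen Om :=
  IsOpen.inter (isOpen_lt (continuous_abs.comp Complex.continuous_im) continuous_const)
    (isOpen_lt continuous_const (Complex.continuous_re.comp cont_h))

lemma isOpen_image : IsOpen (h '' Om) := by
  rw [isOpen_iff_mem_nhds]
  rintro _ ⟨M, hM, rfl⟩
  have := (strict_h M).map_nhds_eq (one_add_exp_ne hM.1)
  rw [← this]
  exact image_mem_map (isOpen_Om.mem_nhds hM)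

lemma bound_of_norm_h {M : ℂ} {C : ℝ} (hM : |M.im| ≤ Real.pi) (hC : ‖h M‖ ≤ C) :
    ‖M‖ ≤ C + 2 * Real.pi + 3 := by
  have hC0 : 0 ≤ C := (norm_nonneg _).trans hC
  have hpi := Real.pi_pos
  have e1 : ‖M‖ ≤ |M.re| + |M.im| := Complex.norm_le_abs_re_add_abs_im M
  have e2 : ‖exp M‖ = Real.exp M.re := Complex.norm_exp M
  have e3 : ‖M‖ ≤ ‖h M‖ + ‖exp M‖ := by
    have : M = h M - exp M := by simp [h]
    calc ‖M‖ = ‖h M - exp M‖ := by rw [← this]
      _ ≤ _ := norm_sub_le _ _
  have e4 : ‖exp M‖ ≤ ‖h M‖ + ‖M‖ := by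
    have : exp M = h M - M := by simp [h]
    calc ‖exp M‖ = ‖h M - M‖ := by rw [← this]
      _ ≤ _ := norm_sub_le _ _
  rcases le_or_gt M.re 0 with hr | hr
  · have : Real.exp M.re ≤ 1 := Real.exp_le_one_iff.2 hr
    rw [e2] at e3
    linarith
  · have q : 1 + M.re + M.re ^ 2 / 2 ≤ Real.exp M.re := Real.quadratic_le_exp_of_nonneg hr.le
    rw [abs_of_pos hr] at e1
    rw [e2] at e4
    have : M.re ≤ C + Real.pi + 3 := by
      by_contra hcon
      rw [not_le] at hcon
      nlinarith
    linarith

lemma surj {η : ℂ} (hη : -1 < η.re) : ∃ M ∈ S, h M = η := by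
  have hP : IsPreconnected {z : ℂ | -1 < z.re} := (convex_halfSpace_re_gt (-1)).isPreconnected
  have hsub : {z : ℂ | -1 < z.re} ⊆ h '' Om := by
    apply hP.subset_of_closure_inter_subset isOpen_image
    · refine ⟨h 0, ?_, 0, ?_, rfl⟩
      · simp [h]
      · refine ⟨?_, ?_⟩
        · simp [Real.pi_pos]
        · simp [h]
    · rintro w ⟨hw, hwre⟩
      rw [mem_closure_iff_seq_limit] at hw
      obtain ⟨x, hx, hxw⟩ := hw
      choose M hM hMx using hx
      obtain ⟨C, hC⟩ := (Metric.isBounded_range_of_tendsto x hxw).exists_norm_le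
      have hb : ∀ n, M n ∈ Metric.closedBall (0 : ℂ) (C + 2 * Real.pi + 3) := by
        intro n
        rw [mem_closedBall_zero_iff]
        apply bound_of_norm_h (hM n).1.le
        rw [hMx]
        exact hC _ (mem_range_self n)
      obtain ⟨a, -, φ, hφ, hlim⟩ := (isCompact_closedBall (0 : ℂ) (C + 2 * Real.pi + 3)).tendsto_subseq hb
      have h1 : Tendsto (fun n => h (M (φ n))) atTop (𝓝 (h a)) :=
        (cont_h.tendsto a).comp hlim
      have h2 : Tendsto (fun n => h (M (φ n))) atTop (𝓝 w) := by
        have : (fun n => h (M (φ n))) = x ∘ φ := by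
          funext n; exact hMx _
        rw [this]
        exact hxw.comp hφ.tendsto_atTop
      have h3 : h a = w := tendsto_nhds_unique h1 h2
      have h4 : |a.im| ≤ Real.pi := by
        have : Tendsto (fun n => |(M (φ n)).im|) atTop (𝓝 |a.im|) :=
          ((continuous_abs.comp Complex.continuous_im).tendsto a).comp hlim
        exact le_of_tendsto' this fun n => (hM _).1.le
      refine ⟨a, ⟨?_, ?_⟩, h3⟩
      · refine lt_of_le_of_ne h4 fun h5 => ?_
        have hwre' : -1 < (h a).re := by rw [h3]; exact hwre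
        rw [h_re] at hwre'
        have hcos : Real.cos a.im = -1 := by
          rw [← Real.cos_abs, h5, Real.cos_pi]
        rw [hcos] at hwre'
        have := Real.add_one_le_exp a.re
        linarith
      · rw [h3]; exact hwre
  obtain ⟨M, hM, hMe⟩ := hsub hη
  exact ⟨M, hM.1, hMe⟩

/-- The inverse of `h` on the strip. -/
noncomputable def W : ℂ → ℂ := Function.invFunOn h S

lemma W_mem {η : ℂ} (hη : -1 < η.re) : W η ∈ S := Function.invFunOn_mem (surj hη)

lemma h_W {η : ℂ} (hη : -1 < η.re) : h (W η) = η := Function.invFunOn_eq (surj hη)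

lemma W_h {M : ℂ} (hM : M ∈ S) (hre : -1 < (h M).re) : W (h M) = M :=
  inj_S (W_mem hre) hM (h_W hre)

lemma isOpen_S : IsOpen S :=
  isOpen_lt (continuous_abs.comp Complex.continuous_im) continuous_const

lemma strict_W {η : ℂ} (hη : -1 < η.re) : HasStrictDerivAt W (1 + exp (W η))⁻¹ η := by
  have hne := one_add_exp_ne (W_mem hη)
  have hs := strict_h (W η)
  have hL := hs.to_localInverse hne
  rw [h_W hη] at hL
  apply hL.congr_of_eventuallyEq
  have hcont : ContinuousAt (hs.localInverse h (1 + exp (W η)) (W η) hne) η := hL.hasDerivAt.continuousAt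
  have hval : hs.localInverse h (1 + exp (W η)) (W η) hne η = W η := by
    have := HasStrictFDerivAt.localInverse_apply_image
      (hs.hasStrictFDerivAt_equiv hne)
    rw [h_W hη] at this
    exact this
  have h1 : ∀ᶠ y in 𝓝 η, hs.localInverse h (1 + exp (W η)) (W η) hne y ∈ S := by
    apply hcont
    rw [hval]
    exact isOpen_S.mem_nhds (W_mem hη)
  have h2 : ∀ᶠ y in 𝓝 η, h (hs.localInverse h (1 + exp (W η)) (W η) hne y) = y := by
    have := HasStrictFDerivAt.eventually_right_inverse (hs.hasStrictFDerivAt_equiv hne)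
    rw [h_W hη] at this
    exact this
  have h3 : ∀ᶠ y : ℂ in 𝓝 η, -1 < y.re :=
    (isOpen_lt continuous_const Complex.continuous_re).mem_nhds hη
  filter_upwards [h1, h2, h3] with y y1 y2 y3
  exact inj_S y1 (W_mem y3) (by rw [y2, h_W y3])

end Pool.Agent.Helper428.Becker
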