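import Mathlib

set_option autoImplicit false
set_option linter.unusedSectionVars false

/-!
Counting colourings of induced subgraphs of a graph `G` on a fixed vertex type.
-/

open Polynomial Finset

namespace Pool.Agent.Helper428.Brown

variable {V : Type*} [DecidableEq V]

/-- The star: `a` is joined to all elements of `C`. -/
def star (a : V) (C : Finset V) : SimpleGraph V :=
  SimpleGraph.fromRel (fun u v => u = a ∧ v ∈ C)

lemma star_adj (a : V) (C : Finset V) (u v : V) :
    (star a C).Adj u v ↔ u ≠ v ∧ ((u = a ∧ v ∈ C) ∨ (v = a ∧ u ∈ C)) := by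
  simp [star]

/-- `f` is a proper colouring of `G[S]`. -/
def Proper (G : SimpleGraph V) (S : Finset V) {q : ℕ} (f : S → Fin q) : Prop :=
  ∀ a b : S, G.Adj a b → f a ≠ f b

/-- Number of proper colourings of `G[S]` with `q` colours. -/
noncomputable def cnt (G : SimpleGraph V) (S : Finset V) (q : ℕ) : ℕ :=
  Nat.card {f : S → Fin q // Proper G S f}

/-- Number of proper colourings with `q` colours of `G[S]` plus a new vertex joined to `C`. -/
noncomputable def rcnt (G : SimpleGraph V) (S C : Finset V) (q : ℕ) : ℕ :=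
  Nat.card {fc : (S → Fin q) × Fin q // Proper G S fc.1 ∧ ∀ a : S, (a : V) ∈ C → fc.1 a ≠ fc.2}

open Classical in
/-- Neighbours of `x` in `S`. -/
noncomputable def nb (G : SimpleGraph V) (x : V) (S : Finset V) : Finset V :=
  S.filter (fun y => G.Adj x y)

lemma mem_nb {G : SimpleGraph V} {x : V} {S : Finset V} {y : V} :
    y ∈ nb G x S ↔ y ∈ S ∧ G.Adj x y := by
  simp [nb]

lemma nb_subset (G : SimpleGraph V) (x : V) (S : Finset V) : nb G x S ⊆ S := by
  intro y hy
  exact (mem_nb.1 hy).1

/-- the two graphs agree on `S`. -/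
def Agree (G G' : SimpleGraph V) (S : Finset V) : Prop :=
  ∀ a ∈ S, ∀ b ∈ S, (G.Adj a b ↔ G'.Adj a b)

lemma cnt_congr {G G' : SimpleGraph V} {S : Finset V} (h : Agree G G' S) (q : ℕ) :
    cnt G S q = cnt G' S q := by
  unfold cnt
  have : ∀ f : S → Fin q, Proper G S f ↔ Proper G' S f := by
    intro f
    constructor
    · intro hf a b hab
      exact hf a b ((h a a.2 b b.2).2 hab)
    · intro hf a b hab
      exact hf a b ((h a a.2 b b.2).1 hab)
  simp only [this]

lemma rcnt_congr {G G' : SimpleGraph V} {S : Finset V} (h : Agree G G' S) (C : Finset V) (q : ℕ) :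
    rcnt G S C q = rcnt G' S C q := by
  unfold rcnt
  have : ∀ f : S → Fin q, Proper G S f ↔ Proper G' S f := by
    intro f
    constructor
    · intro hf a b hab
      exact hf a b ((h a a.2 b b.2).2 hab)
    · intro hf a b hab
      exact hf a b ((h a a.2 b b.2).1 hab)
  simp only [this]

lemma cnt_empty (G : SimpleGraph V) (q : ℕ) : cnt G ∅ q = 1 := by
  unfold cnt
  rw [Nat.card_eq_one_iff_unique]
  constructor
  · constructor
    intro a b
    apply Subtype.ext
    funext x
    exact absurd x.2 (Finset.notMem_empty _)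
  · exact ⟨⟨fun x => absurd x.2 (Finset.notMem_empty _), fun a => absurd a.2 (Finset.notMem_empty _)⟩⟩

lemma rcnt_empty (G : SimpleGraph V) (S : Finset V) (q : ℕ) :
    rcnt G S ∅ q = q * cnt G S q := by
  unfold rcnt cnt
  have e : {fc : (S → Fin q) × Fin q // Proper G S fc.1 ∧ ∀ a : S, (a : V) ∈ (∅ : Finset V) → fc.1 a ≠ fc.2}
      ≃ Fin q × {f : S → Fin q // Proper G S f} :=
    { toFun := fun x => (x.1.2, ⟨x.1.1, x.2.1⟩)
      invFun := fun y => ⟨(y.2.1, y.1), y.2.2, fun a ha => absurd ha (Finset.notMem_empty _)⟩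
      left_inv := fun x => rfl
      right_inv := fun y => rfl }
  rw [Nat.card_congr e, Nat.card_prod, Nat.card_fin]

lemma proper_sup_star (G : SimpleGraph V) (S C : Finset V) (a : V) (ha : a ∈ S) (haC : a ∉ C)
    {q : ℕ} (f : S → Fin q) :
    Proper (G ⊔ star a C) S f ↔ Proper G S f ∧ ∀ b : S, (b : V) ∈ C → f b ≠ f ⟨a, ha⟩ := by
  constructor
  · intro h
    refine ⟨fun x y hxy => h x y (Or.inl hxy), fun b hb => ?_⟩
    apply h b ⟨a, ha⟩
    right
    rw [star_adj]
    refine ⟨?_, Or.inr ⟨rfl, hb⟩⟩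
    intro h'
    have h'' : (b : V) = a := h'
    exact haC (h'' ▸ hb)
  · rintro ⟨h1, h2⟩ x y hxy
    rcases hxy with hxy | hxy
    · exact h1 x y hxy
    · rw [star_adj] at hxy
      rcases hxy with ⟨_, ⟨hx, hy⟩ | ⟨hy, hx⟩⟩
      · have : x = ⟨a, ha⟩ := Subtype.ext hx
        rw [this]
        exact (h2 y hy).symm
      · have : y = ⟨a, ha⟩ := Subtype.ext hy
        rw [this]
        exact h2 x hx

lemma rcnt_step (G : SimpleGraph V) (S C : Finset V) (a : V) (ha : a ∈ S) (haC : a ∉ C) (q : ℕ) :
    rcnt G S C q = rcnt G S (insert a C) q + cnt (G ⊔ star a C) S q := by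
  classical
  have h1 : rcnt G S C q = Nat.card
      ({fc : (S → Fin q) × Fin q // Proper G S fc.1 ∧ ∀ b : S, (b : V) ∈ insert a C → fc.1 b ≠ fc.2}
        ⊕ {f : S → Fin q // Proper (G ⊔ star a C) S f}) := by
    unfold rcnt
    apply Nat.card_congr
    refine
      { toFun := fun x => if h : x.1.1 ⟨a, ha⟩ = x.1.2 then
            Sum.inr ⟨x.1.1, (proper_sup_star G S C a ha haC _).2 ⟨x.2.1, fun b hb => by
              rw [h]; exact x.2.2 b hb⟩⟩
          else Sum.inl ⟨x.1, x.2.1, fun b hb => by
            rcases Finset.mem_insert.1 hb with hb | hb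
            · have : b = ⟨a, ha⟩ := Subtype.ext hb
              rw [this]; exact h
            · exact x.2.2 b hb⟩
        invFun := fun y => match y with
          | Sum.inl y => ⟨y.1, y.2.1, fun b hb => y.2.2 b (Finset.mem_insert_of_mem hb)⟩
          | Sum.inr y => ⟨(y.1, y.1 ⟨a, ha⟩), ((proper_sup_star G S C a ha haC _).1 y.2).1,
              ((proper_sup_star G S C a ha haC _).1 y.2).2⟩
        left_inv := ?_
        right_inv := ?_ }
    · rintro ⟨⟨f, c⟩, h1, h2⟩
      by_cases h : f ⟨a, ha⟩ = c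
      · simp [h]
      · simp [h]
    · rintro (⟨⟨f, c⟩, h1, h2⟩ | ⟨f, h1⟩)
      · have : f ⟨a, ha⟩ ≠ c := h2 ⟨a, ha⟩ (Finset.mem_insert_self _ _)
        simp [this]
      · simp
  rw [h1, Nat.card_sum]
  rfl

lemma rcnt_insert_of_notMem (G : SimpleGraph V) (S C : Finset V) (a : V) (ha : a ∉ S) (q : ℕ) :
    rcnt G S (insert a C) q = rcnt G S C q := by
  unfold rcnt
  have : ∀ fc : (S → Fin q) × Fin q, (∀ b : S, (b : V) ∈ insert a C → fc.1 b ≠ fc.2) ↔
      (∀ b : S, (b : V) ∈ C → fc.1 b ≠ fc.2) := by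
    intro fc
    constructor
    · intro h b hb
      exact h b (Finset.mem_insert_of_mem hb)
    · intro h b hb
      rcases Finset.mem_insert.1 hb with hb | hb
      · exact absurd (hb ▸ b.2) ha
      · exact h b hb
  simp only [this]

lemma rcnt_self (G : SimpleGraph V) (S : Finset V) (q : ℕ) :
    rcnt G S S (q + 1) = (q + 1) * cnt G S q := by
  classical
  unfold rcnt cnt
  let φ : Fin (q + 1) × {f : S → Fin q // Proper G S f} →
      {fc : (S → Fin (q + 1)) × Fin (q + 1) // Proper G S fc.1 ∧
        ∀ a : S, (a : V) ∈ S → fc.1 a ≠ fc.2} := fun y =>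
    ⟨(fun a => y.1.succAbove (y.2.1 a), y.1), fun a b hab h =>
      y.2.2 a b hab (Fin.succAbove_right_injective h), fun a _ => Fin.succAbove_ne _ _⟩
  have hφ : Function.Bijective φ := by
    constructor
    · rintro ⟨c, f, hf⟩ ⟨c', f', hf'⟩ h
      simp only [φ, Subtype.mk.injEq, Prod.mk.injEq] at h
      obtain ⟨h1, h2⟩ := h
      subst h2
      have : f = f' := by
        funext a
        exact Fin.succAbove_right_injective (congrFun h1 a)
      subst this
      rfl
    · rintro ⟨⟨f, c⟩, h1, h2⟩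
      have h3 : ∀ a : S, ∃ y, c.succAbove y = f a := fun a =>
        Fin.exists_succAbove_eq (h2 a a.2)
      choose g hg using h3
      refine ⟨(c, ⟨g, fun a b hab h => h1 a b hab ?_⟩), ?_⟩
      · simp only
        rw [← hg a, ← hg b, h]
      · simp only [φ, Subtype.mk.injEq, Prod.mk.injEq, and_true]
        funext a
        exact hg a
  rw [← Nat.card_congr (Equiv.ofBijective φ hφ), Nat.card_prod, Nat.card_fin]

lemma cnt_insert (G : SimpleGraph V) (S : Finset V) (x : V) (hx : x ∉ S) (q : ℕ) :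
    cnt G (insert x S) q = rcnt G S (nb G x S) q := by
  classical
  unfold cnt rcnt
  have hmem : ∀ a : S, (a : V) ∈ insert x S := fun a => Finset.mem_insert_of_mem a.2
  have hne : ∀ a : S, (a : V) ≠ x := fun a h => hx (h ▸ a.2)
  have hS : ∀ a : (insert x S : Finset V), (a : V) ≠ x → (a : V) ∈ S := fun a h =>
    (Finset.mem_insert.1 a.2).resolve_left h
  have hadj : ∀ y z : V, y = x → G.Adj y z → G.Adj x z := by
    intro y z h h'
    rwa [h] at h'
  apply Nat.card_congr
  refine
    { toFun := fun f => ⟨(fun a => f.1 ⟨a, hmem a⟩, f.1 ⟨x, Finset.mem_insert_self _ _⟩),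
        fun a b hab => f.2 _ _ hab, fun a ha => f.2 _ _ (SimpleGraph.Adj.symm (mem_nb.1 ha).2)⟩
      invFun := fun g => ⟨fun a => if h : (a : V) = x then g.1.2 else g.1.1 ⟨a, hS a h⟩, ?_⟩
      left_inv := ?_
      right_inv := ?_ }
  · intro a b hab
    by_cases ha : (a : V) = x
    · by_cases hb : (b : V) = x
      · rw [ha, hb] at hab
        exact absurd hab (G.loopless.irrefl _)
      · simp only [ha, hb, dif_pos, dif_neg, not_false_iff]
        have hab' : G.Adj x b := hadj _ _ ha hab
        have := g.2.2 ⟨b, hS b hb⟩ (mem_nb.2 ⟨hS b hb, hab'⟩)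
        exact this.symm
    · by_cases hb : (b : V) = x
      · simp only [ha, hb, dif_pos, dif_neg, not_false_iff]
        have hab' : G.Adj x a := hadj _ _ hb hab.symm
        exact g.2.2 ⟨a, hS a ha⟩ (mem_nb.2 ⟨hS a ha, hab'⟩)
      · simp only [ha, hb, dif_neg, not_false_iff]
        exact g.2.1 ⟨a, hS a ha⟩ ⟨b, hS b hb⟩ hab
  · rintro ⟨f, hf⟩
    apply Subtype.ext
    funext a
    by_cases ha : (a : V) = x
    · simp only [ha, dif_pos]
      congr 1
      exact Subtype.ext ha.symm
    · simp only [ha, dif_neg, not_false_iff]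
  · rintro ⟨⟨f, c⟩, h1, h2⟩
    apply Subtype.ext
    refine Prod.ext ?_ ?_
    · funext a
      simp [hne a]
    · simp

/-! ### Polynomials -/

lemma exists_pol (S : Finset V) : ∀ G : SimpleGraph V, ∃ p : ℤ[X], ∀ q : ℕ,
    p.eval (q : ℤ) = cnt G S q := by
  induction S using Finset.induction_on with
  | empty =>
    intro G
    refine ⟨1, fun q => ?_⟩
    rw [cnt_empty]
    simp
  | insert x S hx ih =>
    intro G
    have key : ∀ C : Finset V, ∃ r : ℤ[X], ∀ q : ℕ, r.eval (q : ℤ) = rcnt G S C q := by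
      intro C
      induction C using Finset.induction_on with
      | empty =>
        obtain ⟨p, hp⟩ := ih G
        refine ⟨X * p, fun q => ?_⟩
        rw [rcnt_empty, eval_mul, eval_X, hp]
        push_cast
        ring
      | insert a C ha ihC =>
        obtain ⟨r, hr⟩ := ihC
        by_cases haS : a ∈ S
        · obtain ⟨p, hp⟩ := ih (G ⊔ star a C)
          refine ⟨r - p, fun q => ?_⟩
          rw [eval_sub, hr, hp, rcnt_step G S C a haS ha q]
          push_cast
          ring
        · refine ⟨r, fun q => ?_⟩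
          rw [rcnt_insert_of_notMem G S C a haS, hr]
    obtain ⟨r, hr⟩ := key (nb G x S)
    refine ⟨r, fun q => ?_⟩
    rw [cnt_insert G S x hx, hr]

lemma exists_rpol (G : SimpleGraph V) (S C : Finset V) : ∃ r : ℤ[X], ∀ q : ℕ,
    r.eval (q : ℤ) = rcnt G S C q := by
  induction C using Finset.induction_on with
  | empty =>
    obtain ⟨p, hp⟩ := exists_pol S G
    refine ⟨X * p, fun q => ?_⟩
    rw [rcnt_empty, eval_mul, eval_X, hp]
    push_cast
    ring
  | insert a C ha ihC =>
    obtain ⟨r, hr⟩ := ihC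
    by_cases haS : a ∈ S
    · obtain ⟨p, hp⟩ := exists_pol S (G ⊔ star a C)
      refine ⟨r - p, fun q => ?_⟩
      rw [eval_sub, hr, hp, rcnt_step G S C a haS ha q]
      push_cast
      ring
    · refine ⟨r, fun q => ?_⟩
      rw [rcnt_insert_of_notMem G S C a haS, hr]

/-- The chromatic polynomial of `G[S]`. -/
noncomputable def pol (G : SimpleGraph V) (S : Finset V) : ℤ[X] := (exists_pol S G).choose

lemma pol_eval (G : SimpleGraph V) (S : Finset V) (q : ℕ) :
    (pol G S).eval (q : ℤ) = cnt G S q := (exists_pol S G).choose_spec q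

/-- The chromatic polynomial of `G[S]` plus a new vertex joined to `C`. -/
noncomputable def rpol (G : SimpleGraph V) (S C : Finset V) : ℤ[X] := (exists_rpol G S C).choose

lemma rpol_eval (G : SimpleGraph V) (S C : Finset V) (q : ℕ) :
    (rpol G S C).eval (q : ℤ) = rcnt G S C q := (exists_rpol G S C).choose_spec q

lemma pol_ext {p p' : ℤ[X]} (h : ∀ q : ℕ, 0 < q → p.eval (q : ℤ) = p'.eval (q : ℤ)) : p = p' := by
  apply Polynomial.eq_of_infinite_eval_eq
  apply Set.Infinite.mono (s := Set.range (fun q : ℕ => ((q + 1 : ℕ) : ℤ)))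
  · rintro _ ⟨q, rfl⟩
    exact h (q + 1) (Nat.succ_pos q)
  · apply Set.infinite_range_of_injective
    intro a b hab
    simpa using hab

lemma pol_congr {G G' : SimpleGraph V} {S : Finset V} (h : Agree G G' S) :
    pol G S = pol G' S := by
  apply pol_ext
  intro q _
  rw [pol_eval, pol_eval, cnt_congr h]

lemma rpol_congr {G G' : SimpleGraph V} {S : Finset V} (h : Agree G G' S) (C : Finset V) :
    rpol G S C = rpol G' S C := by
  apply pol_ext
  intro q _
  rw [rpol_eval, rpol_eval, rcnt_congr h]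

lemma pol_empty (G : SimpleGraph V) : pol G ∅ = 1 := by
  apply pol_ext
  intro q _
  rw [pol_eval, cnt_empty]
  simp

lemma rpol_empty (G : SimpleGraph V) (S : Finset V) : rpol G S ∅ = X * pol G S := by
  apply pol_ext
  intro q _
  rw [rpol_eval, rcnt_empty, eval_mul, eval_X, pol_eval]
  push_cast
  ring

lemma rpol_step (G : SimpleGraph V) (S C : Finset V) (a : V) (ha : a ∈ S) (haC : a ∉ C) :
    rpol G S C = rpol G S (insert a C) + pol (G ⊔ star a C) S := by
  apply pol_ext
  intro q _
  rw [rpol_eval, eval_add, rpol_eval, pol_eval, rcnt_step G S C a ha haC]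
  push_cast
  ring

lemma rpol_self (G : SimpleGraph V) (S : Finset V) :
    rpol G S S = X * (pol G S).comp (X - 1) := by
  apply pol_ext
  intro q hq
  obtain ⟨q, rfl⟩ : ∃ q', q = q' + 1 := ⟨q - 1, by omega⟩
  rw [rpol_eval, rcnt_self, eval_mul, eval_X, eval_comp]
  have : ((q + 1 : ℕ) : ℤ) - 1 = (q : ℤ) := by push_cast; ring
  simp only [eval_sub, eval_X, eval_one]
  rw [this, pol_eval]
  push_cast
  ring

lemma pol_insert (G : SimpleGraph V) (S : Finset V) (x : V) (hx : x ∉ S) :
    pol G (insert x S) = rpol G S (nb G x S) := by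
  apply pol_ext
  intro q _
  rw [pol_eval, rpol_eval, cnt_insert G S x hx]

end Pool.Agent.Helper428.Brown
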