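import Pool.Agent.Helper428.BrownCount

set_option autoImplicit false
set_option linter.unusedSectionVars false

open Polynomial Finset

namespace Pool.Agent.Helper428.Brown

/-! ### Elementary facts on complex numbers -/

lemma re_div' (a b : ℂ) : (a / b).re = (a.re * b.re + a.im * b.im) / Complex.normSq b := by
  rw [Complex.div_re]; ring

lemma im_div' (a b : ℂ) : (a / b).im = (a.im * b.re - a.re * b.im) / Complex.normSq b := by
  rw [Complex.div_im]; ring

lemma re_div_nonneg {a b : ℂ} (hb : b ≠ 0) :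
    0 ≤ (a / b).re ↔ 0 ≤ a.re * b.re + a.im * b.im := by
  rw [re_div', le_div_iff₀ (Complex.normSq_pos.2 hb), zero_mul]

lemma im_div_nonpos {a b : ℂ} (hb : b ≠ 0) :
    (a / b).im ≤ 0 ↔ a.im * b.re - a.re * b.im ≤ 0 := by
  rw [im_div', div_le_iff₀ (Complex.normSq_pos.2 hb), zero_mul]

lemma im_div_nonneg {a b : ℂ} (hb : b ≠ 0) :
    0 ≤ (a / b).im ↔ 0 ≤ a.im * b.re - a.re * b.im := by
  rw [im_div', le_div_iff₀ (Complex.normSq_pos.2 hb), zero_mul]

lemma ne_zero_of_re_pos {a : ℂ} (h : 0 < a.re) : a ≠ 0 := by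
  rintro rfl
  simp at h

lemma cone_aux {a b c d p1 p2 : ℝ} (ha : 0 < a) (hc : 0 < c) (hd : 0 ≤ d)
    (h1 : d * a - c * b ≤ 0) (h2 : 0 ≤ p1 * a + p2 * b) (hp1 : 0 ≤ p1) :
    0 ≤ p1 * c + p2 * d := by
  by_cases hp2 : 0 ≤ p2
  · positivity
  · push Not at hp2
    have h3 : 0 ≤ c * (p1 * a + p2 * b) := mul_nonneg hc.le h2
    have h4 : 0 ≤ p2 * (d * a - c * b) := mul_nonneg_of_nonpos_of_nonpos hp2.le h1
    have h5 : 0 ≤ (p1 * c + p2 * d) * a := by nlinarith
    exact nonneg_of_mul_nonneg_left h5 ha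

/-- If `r` lies in the cone spanned by `1` and `g` then `Re (p / r) ≥ 0`. -/
lemma cone {g r p : ℂ} (hg : 0 < g.re) (hr : 0 < r.re) (hr' : 0 ≤ r.im)
    (h1 : (r / g).im ≤ 0) (h2 : 0 ≤ (p / g).re) (hp : 0 ≤ p.re) : 0 ≤ (p / r).re := by
  rw [re_div_nonneg (ne_zero_of_re_pos hr)]
  rw [im_div_nonpos (ne_zero_of_re_pos hg)] at h1
  rw [re_div_nonneg (ne_zero_of_re_pos hg)] at h2
  exact cone_aux hg hr hr' h1 h2 hp

/-- The disc `|p - 1/2| ≤ 1/2`. -/
lemma disc_of_inv {p : ℂ} (h : 1 ≤ (p⁻¹).re) : p ≠ 0 ∧ Complex.normSq p ≤ p.re := by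
  have hp : p ≠ 0 := by
    rintro rfl
    simp at h
    linarith
  refine ⟨hp, ?_⟩
  rw [Complex.inv_re, le_div_iff₀ (Complex.normSq_pos.2 hp), one_mul] at h
  exact h

lemma disc_re {p : ℂ} (h : Complex.normSq p ≤ p.re) : 0 ≤ p.re ∧ p.re ≤ 1 := by
  have h0 := Complex.normSq_nonneg p
  refine ⟨h0.trans h, ?_⟩
  rw [Complex.normSq_apply] at h
  nlinarith [mul_self_nonneg p.im, mul_self_nonneg (p.re - 1)]

lemma one_sub_add_mul {p q : ℂ} (hp : Complex.normSq p ≤ p.re) (hq : Complex.normSq q ≤ q.re) :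
    0 ≤ (1 - p + p * q).re := by
  have hp1 : Complex.normSq p ≤ 1 := hp.trans (disc_re hp).2
  have hq1 : Complex.normSq (1 - q) ≤ 1 := by
    have : Complex.normSq (1 - q) = 1 - 2 * q.re + Complex.normSq q := by
      rw [Complex.normSq_apply, Complex.normSq_apply]
      simp
      ring
    rw [this]
    linarith [(disc_re hq).1]
  have h1 : Complex.normSq (p * (1 - q)) ≤ 1 := by
    rw [Complex.normSq_mul]
    exact mul_le_one₀ hp1 (Complex.normSq_nonneg _) hq1
  have h2 : (p * (1 - q)).re ≤ 1 := by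
    rw [Complex.normSq_apply] at h1
    nlinarith [mul_self_nonneg (p * (1 - q)).im, mul_self_nonneg ((p * (1 - q)).re - 1)]
  have h3 : 1 - p + p * q = 1 - p * (1 - q) := by ring
  rw [h3, Complex.sub_re, Complex.one_re]
  linarith

/-- the product of two numbers of the closed fourth quadrant has nonpositive imaginary part -/
lemma q4_mul {a b : ℂ} (ha : 0 ≤ a.re) (ha' : a.im ≤ 0) (hb : 0 ≤ b.re) (hb' : b.im ≤ 0) :
    (a * b).im ≤ 0 := by
  rw [Complex.mul_im]
  nlinarith [mul_nonneg ha (neg_nonneg.2 hb'), mul_nonneg hb (neg_nonneg.2 ha')]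

lemma inv_q1 {b : ℂ} (hb : 0 ≤ b.re) (hb' : 0 ≤ b.im) : 0 ≤ (b⁻¹).re ∧ (b⁻¹).im ≤ 0 := by
  rw [Complex.inv_re, Complex.inv_im]
  constructor
  · exact div_nonneg hb (Complex.normSq_nonneg _)
  · exact div_nonpos_of_nonpos_of_nonneg (by linarith) (Complex.normSq_nonneg _)

/-- the product of two numbers of the closed first quadrant has nonnegative imaginary part -/
lemma q1_mul {a b : ℂ} (ha : 0 ≤ a.re) (ha' : 0 ≤ a.im) (hb : 0 ≤ b.re) (hb' : 0 ≤ b.im) :
    0 ≤ (a * b).im := by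
  rw [Complex.mul_im]
  nlinarith [mul_nonneg ha hb', mul_nonneg ha' hb]

lemma inv_q4 {b : ℂ} (hb : 0 ≤ b.re) (hb' : b.im ≤ 0) : 0 ≤ (b⁻¹).re ∧ 0 ≤ (b⁻¹).im := by
  rw [Complex.inv_re, Complex.inv_im]
  constructor
  · exact div_nonneg hb (Complex.normSq_nonneg _)
  · exact div_nonneg (by linarith) (Complex.normSq_nonneg _)

variable {V : Type*} [DecidableEq V]

/-- A set function on the subsets of `M` that does not increase when one element is added is
decreasing. -/
lemma anti_of_step {f : Finset V → ℝ} {M : Finset V}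
    (h : ∀ C ⊆ M, ∀ a ∈ M, a ∉ C → f (insert a C) ≤ f C) :
    ∀ C₁ C₂ : Finset V, C₁ ⊆ C₂ → C₂ ⊆ M → f C₂ ≤ f C₁ := by
  have key : ∀ C₁ T : Finset V, C₁ ⊆ M → T ⊆ M → f (C₁ ∪ T) ≤ f C₁ := by
    intro C₁ T hC₁
    induction T using Finset.induction_on with
    | empty => intro _; simp
    | insert a T ha ih =>
      intro hT
      have haM : a ∈ M := hT (Finset.mem_insert_self _ _)
      have hTM : T ⊆ M := fun x hx => hT (Finset.mem_insert_of_mem hx)
      have ih' := ih hTM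
      by_cases h1 : a ∈ C₁ ∪ T
      · have : C₁ ∪ insert a T = C₁ ∪ T := by
          rw [Finset.union_insert, Finset.insert_eq_of_mem h1]
        rw [this]
        exact ih'
      · rw [Finset.union_insert]
        exact (h _ (Finset.union_subset hC₁ hTM) a haM h1).trans ih'
  intro C₁ C₂ h12 h2
  have := key C₁ C₂ (h12.trans h2) h2
  rwa [Finset.union_eq_right.2 h12] at this

/-! ### The chromatic polynomial at complex numbers -/

/-- value of the chromatic polynomial of `G[S]` -/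
noncomputable def P (G : SimpleGraph V) (S : Finset V) (z : ℂ) : ℂ := aeval z (pol G S)

/-- value of the chromatic polynomial of `G[S]` plus a new vertex joined to `C` -/
noncomputable def R (G : SimpleGraph V) (S C : Finset V) (z : ℂ) : ℂ := aeval z (rpol G S C)

lemma P_congr {G G' : SimpleGraph V} {S : Finset V} (h : Agree G G' S) (z : ℂ) :
    P G S z = P G' S z := by
  rw [P, P, pol_congr h]

lemma R_congr {G G' : SimpleGraph V} {S : Finset V} (h : Agree G G' S) (C : Finset V) (z : ℂ) :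
    R G S C z = R G' S C z := by
  rw [R, R, rpol_congr h]

lemma P_empty (G : SimpleGraph V) (z : ℂ) : P G ∅ z = 1 := by
  rw [P, pol_empty, map_one]

lemma R_empty (G : SimpleGraph V) (S : Finset V) (z : ℂ) : R G S ∅ z = z * P G S z := by
  rw [R, P, rpol_empty, map_mul, aeval_X]

lemma R_step (G : SimpleGraph V) (S C : Finset V) (a : V) (ha : a ∈ S) (haC : a ∉ C) (z : ℂ) :
    R G S C z = R G S (insert a C) z + P (G ⊔ star a C) S z := by
  rw [R, R, P, rpol_step G S C a ha haC, map_add]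

lemma R_self (G : SimpleGraph V) (S : Finset V) (z : ℂ) :
    R G S S z = z * P G S (z - 1) := by
  rw [R, P, rpol_self, map_mul, aeval_X, aeval_comp]
  simp

lemma P_insert (G : SimpleGraph V) (S : Finset V) (x : V) (hx : x ∉ S) (z : ℂ) :
    P G (insert x S) z = R G S (nb G x S) z := by
  rw [P, R, pol_insert G S x hx]

lemma P_erase (G : SimpleGraph V) (S : Finset V) (x : V) (hx : x ∈ S) (z : ℂ) :
    P G S z = R G (S.erase x) (nb G x (S.erase x)) z := by
  conv_lhs => rw [← Finset.insert_erase hx]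
  exact P_insert G _ x (Finset.notMem_erase _ _) z

lemma agree_sup_star (G : SimpleGraph V) (S : Finset V) (x : V) (C : Finset V) :
    Agree (G ⊔ star x C) G (S.erase x) := by
  intro a ha b hb
  have ha' : a ≠ x := (Finset.mem_erase.1 ha).1
  have hb' : b ≠ x := (Finset.mem_erase.1 hb).1
  rw [SimpleGraph.sup_adj, star_adj]
  constructor
  · rintro (h | ⟨_, ⟨h, _⟩ | ⟨h, _⟩⟩)
    · exact h
    · exact absurd h ha'
    · exact absurd h hb'
  · intro h
    exact Or.inl h

lemma nb_sup_star (G : SimpleGraph V) (S : Finset V) (x : V) (C : Finset V) (hx : x ∉ C)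
    (hC : C ⊆ S) : nb (G ⊔ star x C) x (S.erase x) = nb G x (S.erase x) ∪ C := by
  ext y
  rw [Finset.mem_union, mem_nb, mem_nb, SimpleGraph.sup_adj, star_adj, Finset.mem_erase]
  constructor
  · rintro ⟨⟨h1, h2⟩, h | ⟨_, ⟨_, h⟩ | ⟨h, _⟩⟩⟩
    · exact Or.inl ⟨⟨h1, h2⟩, h⟩
    · exact Or.inr h
    · exact absurd h h1
  · rintro (⟨⟨h1, h2⟩, h⟩ | h)
    · exact ⟨⟨h1, h2⟩, Or.inl h⟩
    · have h1 : y ≠ x := fun h' => hx (h' ▸ h)
      exact ⟨⟨h1, hC h⟩, Or.inr ⟨h1.symm, Or.inl ⟨rfl, h⟩⟩⟩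

lemma P_sup_star (G : SimpleGraph V) (S : Finset V) (x : V) (hx : x ∈ S) (C : Finset V)
    (hxC : x ∉ C) (hC : C ⊆ S) (z : ℂ) :
    P (G ⊔ star x C) S z = R G (S.erase x) (nb G x (S.erase x) ∪ C) z := by
  rw [P_erase _ S x hx, nb_sup_star G S x C hxC hC]
  exact R_congr (agree_sup_star G S x C) _ z

/-! ### The ratios -/

noncomputable def rr (G : SimpleGraph V) (S C : Finset V) (z : ℂ) : ℂ := R G S C z / P G S z

noncomputable def gg (G : SimpleGraph V) (S : Finset V) (z : ℂ) : ℂ := rr G S S z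

noncomputable def pp (G : SimpleGraph V) (S : Finset V) (a : V) (C : Finset V) (z : ℂ) : ℂ :=
  P (G ⊔ star a C) S z / P G S z

lemma rr_empty {G : SimpleGraph V} {S : Finset V} {z : ℂ} (h : P G S z ≠ 0) :
    rr G S ∅ z = z := by
  rw [rr, R_empty, mul_div_assoc, div_self h, mul_one]

lemma rr_step (G : SimpleGraph V) (S C : Finset V) (a : V) (ha : a ∈ S) (haC : a ∉ C) (z : ℂ) :
    rr G S C z = rr G S (insert a C) z + pp G S a C z := by
  rw [rr, rr, pp, R_step G S C a ha haC, add_div]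

lemma gg_eq (G : SimpleGraph V) (S : Finset V) (z : ℂ) :
    gg G S z = z * P G S (z - 1) / P G S z := by
  rw [gg, rr, R_self]

/-- The facts for `G[S]` at `z`. -/
structure FactsAt (G : SimpleGraph V) (S : Finset V) (z : ℂ) : Prop where
  ne : P G S z ≠ 0
  pre : ∀ a ∈ S, ∀ C ⊆ S, a ∉ C → 0 ≤ (pp G S a C z).re
  pgre : ∀ a ∈ S, ∀ C ⊆ S, a ∉ C → 0 ≤ (pp G S a C z / gg G S z).re
  pgim : ∀ a ∈ S, ∀ C ⊆ S, a ∉ C → (pp G S a C z / gg G S z).im ≤ 0
  rim : ∀ C ⊆ S, 0 ≤ (rr G S C z).im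
  rre : ∀ C ⊆ S, z.re - C.card ≤ (rr G S C z).re
  rgim : ∀ C ⊆ S, (rr G S C z / gg G S z).im ≤ 0

def Facts (V : Type*) [DecidableEq V] (k : ℕ) : Prop :=
  ∀ (G : SimpleGraph V) (S : Finset V), S.card = k → ∀ z : ℂ, (k : ℝ) < z.re → 0 ≤ z.im →
    FactsAt G S z

lemma FactsAt.rpos {G : SimpleGraph V} {S : Finset V} {z : ℂ} (h : FactsAt G S z)
    (hz : (S.card : ℝ) < z.re) {C : Finset V} (hC : C ⊆ S) : 0 < (rr G S C z).re := by
  have h1 := h.rre C hC
  have h2 : (C.card : ℝ) ≤ S.card := by exact_mod_cast Finset.card_le_card hC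
  linarith

/-- `Re (R_C / R_M) ≥ 1` for `C ⊆ M`. -/
lemma FactsAt.ratio {G : SimpleGraph V} {S : Finset V} {z : ℂ} (h : FactsAt G S z)
    (hz : (S.card : ℝ) < z.re) {C M : Finset V} (hCM : C ⊆ M) (hM : M ⊆ S) :
    1 ≤ (rr G S C z / rr G S M z).re := by
  have hMpos := h.rpos hz hM
  have hgpos : 0 < (gg G S z).re := h.rpos hz (Finset.Subset.refl S)
  have key := anti_of_step (f := fun C => (rr G S C z / rr G S M z).re) (M := S) (by
    intro C hC a ha haC
    show (rr G S (insert a C) z / rr G S M z).re ≤ (rr G S C z / rr G S M z).re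
    rw [rr_step G S C a ha haC, add_div, Complex.add_re]
    have := cone hgpos hMpos (h.rim M hM) (h.rgim M hM) (h.pgre a ha C hC haC)
      (h.pre a ha C hC haC)
    linarith) C M hCM hM
  have h1 : (rr G S M z / rr G S M z).re = 1 := by
    rw [div_self (ne_zero_of_re_pos hMpos), Complex.one_re]
  linarith [key]

/-- Step D: for `|S| = k + 1` and `Re z > k`. -/
lemma stepD {k : ℕ} (h : Facts V k) (G : SimpleGraph V) (S : Finset V) (hS : S.card = k + 1)
    (z : ℂ) (hz : (k : ℝ) < z.re) (him : 0 ≤ z.im) :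
    P G S z ≠ 0 ∧ ∀ a ∈ S, ∀ C ⊆ S, a ∉ C → 1 ≤ ((pp G S a C z)⁻¹).re := by
  have hcard : ∀ a ∈ S, (S.erase a).card = k := by
    intro a ha
    rw [Finset.card_erase_of_mem ha, hS]
    simp
  constructor
  · obtain ⟨a, ha⟩ : S.Nonempty := by
      rw [← Finset.card_pos, hS]
      exact Nat.succ_pos k
    have hF := h G (S.erase a) (hcard a ha) z hz him
    have hz' : ((S.erase a).card : ℝ) < z.re := by rw [hcard a ha]; exact hz
    have h1 := hF.rpos hz' (nb_subset G a (S.erase a))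
    rw [P_erase G S a ha]
    intro h0
    rw [rr, h0, zero_div] at h1
    simp at h1
  · intro a ha C hC haC
    have hF := h G (S.erase a) (hcard a ha) z hz him
    have hz' : ((S.erase a).card : ℝ) < z.re := by rw [hcard a ha]; exact hz
    have hC' : C ⊆ S.erase a := fun x hx =>
      Finset.mem_erase.2 ⟨fun h' => haC (h' ▸ hx), hC hx⟩
    have h1 := hF.ratio hz' (C := nb G a (S.erase a)) (M := nb G a (S.erase a) ∪ C)
      Finset.subset_union_left (Finset.union_subset (nb_subset _ _ _) hC')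
    have h2 : (pp G S a C z)⁻¹ = rr G (S.erase a) (nb G a (S.erase a)) z /
        rr G (S.erase a) (nb G a (S.erase a) ∪ C) z := by
      rw [pp, P_sup_star G S a ha C haC hC, P_erase G S a ha, rr, rr, inv_div,
        div_div_div_cancel_right₀ hF.ne]
    rw [h2]
    exact h1

end Pool.Agent.Helper428.Brown
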