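import Pool.Agent.Helper428.BrownMain

set_option autoImplicit false
set_option linter.unusedSectionVars false

open Polynomial Finset

namespace Pool.Agent.Helper428.Brown

variable {V : Type*} [DecidableEq V]

lemma Agree.trans {G₁ G₂ G₃ : SimpleGraph V} {S : Finset V} (h : Agree G₁ G₂ S)
    (h' : Agree G₂ G₃ S) : Agree G₁ G₃ S := fun a ha b hb =>
  (h a ha b hb).trans (h' a ha b hb)

lemma Agree.symm {G₁ G₂ : SimpleGraph V} {S : Finset V} (h : Agree G₁ G₂ S) :
    Agree G₂ G₁ S := fun a ha b hb => (h a ha b hb).symm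

lemma Agree.sup {G₁ G₂ : SimpleGraph V} {S : Finset V} (h : Agree G₁ G₂ S)
    (K : SimpleGraph V) : Agree (G₁ ⊔ K) (G₂ ⊔ K) S := by
  intro a ha b hb
  rw [SimpleGraph.sup_adj, SimpleGraph.sup_adj, h a ha b hb]

/-- The discs for `G[S]` at `z`. -/
def DiscAt (G : SimpleGraph V) (S : Finset V) (z : ℂ) : Prop :=
  ∀ a ∈ S, ∀ C ⊆ S, a ∉ C → 1 ≤ ((pp G S a C z)⁻¹).re

lemma X_mono {G : SimpleGraph V} {S : Finset V} {z : ℂ} (hD : DiscAt G S z)
    {C M : Finset V} (hCM : C ⊆ M) (hM : M ⊆ S) :
    (rr G S C z).re + C.card ≤ (rr G S M z).re + M.card := by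
  have key := anti_of_step (f := fun C => -((rr G S C z).re + C.card)) (M := S) (by
    intro C hC a ha haC
    show -((rr G S (insert a C) z).re + (insert a C).card) ≤ -((rr G S C z).re + C.card)
    rw [rr_step G S C a ha haC, Complex.add_re, Finset.card_insert_of_notMem haC]
    have := (disc_re (disc_of_inv (hD a ha C hC haC)).2).2
    push_cast
    linarith) C M hCM hM
  linarith

lemma X_lower {G : SimpleGraph V} {S : Finset V} {z : ℂ} (hP : P G S z ≠ 0) (hD : DiscAt G S z)
    {C : Finset V} (hC : C ⊆ S) : z.re ≤ (rr G S C z).re + C.card := by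
  have := X_mono hD (Finset.empty_subset C) hC
  rw [rr_empty hP] at this
  simpa using this

lemma stepF {k : ℕ} (h : Facts V k) (G : SimpleGraph V) (S : Finset V) (hS : S.card = k + 1)
    (z : ℂ) (hz : (k : ℝ) + 1 < z.re) (him : 0 ≤ z.im) (x : V) (hx : x ∈ S) (C : Finset V)
    (hC : C ⊆ S) (hxC : x ∉ C) : 0 < (gg G S z / pp G S x C z).re := by
  have hDall : ∀ G' : SimpleGraph V, P G' S z ≠ 0 ∧ DiscAt G' S z := fun G' =>
    stepD h G' S hS z (by linarith) him
  set S' := S.erase x with hS'
  set N := nb G x S' with hN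
  set M := N ∪ C with hM
  set H := G ⊔ star x C with hH
  have hC' : C ⊆ S' := fun y hy =>
    Finset.mem_erase.2 ⟨fun h' => hxC (h' ▸ hy), hC hy⟩
  have hNS' : N ⊆ S' := nb_subset _ _ _
  have hMS' : M ⊆ S' := Finset.union_subset hNS' hC'
  have hS'S : S' ⊆ S := Finset.erase_subset _ _
  have hMS : M ⊆ S := hMS'.trans hS'S
  have hxS' : x ∉ S' := Finset.notMem_erase _ _
  have hPH : P H S z ≠ 0 := (hDall H).1
  set E : Finset V → ℂ := fun C₁ => z * R G S' C₁ (z - 1) / P H S z with hE
  have hstep : ∀ C₁ ⊆ M, ∀ a ∈ M, a ∉ C₁ →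
      (E (insert a C₁)).re - ((rr H S (insert a C₁) z).re + (insert a C₁).card) ≤
      (E C₁).re - ((rr H S C₁ z).re + C₁.card) := by
    intro C₁ hC₁ a ha haC₁
    have haS' : a ∈ S' := hMS' ha
    have haS : a ∈ S := hMS ha
    have hC₁S : C₁ ⊆ S := hC₁.trans hMS
    have hp := disc_of_inv ((hDall H).2 a haS C₁ hC₁S haC₁)
    have hq := disc_of_inv ((hDall (H ⊔ star a C₁)).2 x hx S' hS'S hxS')
    have e1 : R G S' C₁ (z - 1) = R G S' (insert a C₁) (z - 1) + P (G ⊔ star a C₁) S' (z - 1) :=
      R_step G S' C₁ a haS' haC₁ _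
    have e2 : z * P (G ⊔ star a C₁) S' (z - 1) = P (H ⊔ star a C₁ ⊔ star x S') S z := by
      rw [← R_self, P_sup_star _ S x hx S' hxS' hS'S, ← hS',
        Finset.union_eq_right.2 (nb_subset _ x S')]
      exact R_congr ((agree_sup_star G S x C).sup (star a C₁)).symm _ z
    have e3 : pp H S a C₁ z * pp (H ⊔ star a C₁) S x S' z =
        P (H ⊔ star a C₁ ⊔ star x S') S z / P H S z := by
      rw [pp, pp]
      have h1 : P (H ⊔ star a C₁) S z ≠ 0 := (hDall _).1
      field_simp
    have e4 : E C₁ = E (insert a C₁) + pp H S a C₁ z * pp (H ⊔ star a C₁) S x S' z := by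
      simp only [hE]
      rw [e1, mul_add, e2, add_div, e3]
    have e5 := one_sub_add_mul hp.2 hq.2
    rw [e4, rr_step H S C₁ a haS haC₁, Finset.card_insert_of_notMem haC₁]
    simp only [Complex.add_re, Complex.sub_re, Complex.one_re] at e5 ⊢
    push_cast
    linarith
  have key := anti_of_step
    (f := fun C₁ => (E C₁).re - ((rr H S C₁ z).re + C₁.card)) (M := M) hstep N M
    Finset.subset_union_left (Finset.Subset.refl _)
  have hEM : E M = gg H S z := by
    simp only [hE]
    rw [gg_eq, hH, P_sup_star G S x hx C hxC hC (z - 1)]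
  have hEN : E N = gg G S z / pp G S x C z := by
    simp only [hE]
    rw [gg_eq, pp, P_erase G S x hx (z - 1), ← hS', ← hN, ← hH,
      div_div_div_cancel_right₀ (hDall G).1]
  have h1 := X_mono (hDall H).2 hMS (Finset.Subset.refl S)
  have h2 := X_lower hPH (hDall H).2 (hNS'.trans hS'S)
  rw [hEM, hEN] at key
  have h3 : (gg H S z).re = (rr H S S z).re := rfl
  have h4 : (S.card : ℝ) = k + 1 := by rw [hS]; push_cast; ring
  linarith

lemma FactsAt.rr_gg_re {G : SimpleGraph V} {S : Finset V} {z : ℂ} (h : FactsAt G S z)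
    (hz : (S.card : ℝ) < z.re) {C : Finset V} (hC : C ⊆ S) : 0 ≤ (rr G S C z / gg G S z).re := by
  have h1 := h.rpos hz hC
  have h2 : 0 < (gg G S z).re := h.rpos hz (Finset.Subset.refl S)
  have h3 : 0 ≤ (gg G S z).im := h.rim S (Finset.Subset.refl S)
  rw [re_div_nonneg (ne_zero_of_re_pos h2)]
  have h4 := h.rim C hC
  positivity

/-- `(R_C - R_M) / G` lies in the closed fourth quadrant. -/
lemma FactsAt.diff {G : SimpleGraph V} {S : Finset V} {z : ℂ} (h : FactsAt G S z)
    {C M : Finset V} (hCM : C ⊆ M) (hM : M ⊆ S) :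
    0 ≤ ((rr G S C z - rr G S M z) / gg G S z).re ∧
      ((rr G S C z - rr G S M z) / gg G S z).im ≤ 0 := by
  constructor
  · have key := anti_of_step (f := fun C => (rr G S C z / gg G S z).re) (M := S) (by
      intro C hC a ha haC
      show (rr G S (insert a C) z / gg G S z).re ≤ (rr G S C z / gg G S z).re
      rw [rr_step G S C a ha haC, add_div, Complex.add_re]
      linarith [h.pgre a ha C hC haC]) C M hCM hM
    rw [sub_div, Complex.sub_re]
    linarith
  · have key := anti_of_step (f := fun C => -(rr G S C z / gg G S z).im) (M := S) (by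
      intro C hC a ha haC
      show -(rr G S (insert a C) z / gg G S z).im ≤ -(rr G S C z / gg G S z).im
      rw [rr_step G S C a ha haC, add_div, Complex.add_im]
      linarith [h.pgim a ha C hC haC]) C M hCM hM
    rw [sub_div, Complex.sub_im]
    linarith

lemma facts_succ {k : ℕ} (h : Facts V k) : Facts V (k + 1) := by
  intro G S hS z hz him
  have hz1 : (k : ℝ) + 1 < z.re := by push_cast at hz; exact hz
  have hzS : (S.card : ℝ) < z.re := by rw [hS]; exact hz
  obtain ⟨hP, hD⟩ := stepD h G S hS z (by linarith) him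
  have hrre : ∀ C ⊆ S, z.re - C.card ≤ (rr G S C z).re := by
    intro C hC
    have := X_lower hP hD hC
    linarith
  have hrpos : ∀ C ⊆ S, 0 < (rr G S C z).re := by
    intro C hC
    have h1 := hrre C hC
    have h2 : (C.card : ℝ) ≤ S.card := by exact_mod_cast Finset.card_le_card hC
    linarith
  have hg : 0 < (gg G S z).re := hrpos S (Finset.Subset.refl S)
  have hg0 := ne_zero_of_re_pos hg
  -- data on `S.erase a`
  have hcard : ∀ a ∈ S, (S.erase a).card = k := by
    intro a ha
    rw [Finset.card_erase_of_mem ha, hS]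
    simp
  have hF1 : ∀ a ∈ S, FactsAt G (S.erase a) z := fun a ha =>
    h G _ (hcard a ha) z (by linarith) him
  have hF2 : ∀ a ∈ S, FactsAt G (S.erase a) (z - 1) := fun a ha =>
    h G _ (hcard a ha) (z - 1) (by simp; linarith) (by simpa using him)
  have hz1' : ∀ a ∈ S, ((S.erase a).card : ℝ) < z.re := fun a ha => by
    rw [hcard a ha]; linarith
  have hz2' : ∀ a ∈ S, ((S.erase a).card : ℝ) < (z - 1).re := fun a ha => by
    rw [hcard a ha]; simp; linarith
  have hgeq : ∀ a ∈ S, gg G S z = gg G (S.erase a) z *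
      rr G (S.erase a) (nb G a (S.erase a)) (z - 1) /
      rr G (S.erase a) (nb G a (S.erase a)) z := by
    intro a ha
    have n1 := (hF1 a ha).ne
    have n2 := (hF2 a ha).ne
    have n3 := ne_zero_of_re_pos ((hF1 a ha).rpos (hz1' a ha) (nb_subset G a (S.erase a)))
    have n4 : R G (S.erase a) (nb G a (S.erase a)) z ≠ 0 := by
      intro h0
      rw [rr, h0, zero_div] at n3
      exact n3 rfl
    rw [gg_eq, gg_eq, rr, rr, P_erase G S a ha z, P_erase G S a ha (z - 1)]
    field_simp
  have hpg : ∀ a ∈ S, ∀ C ⊆ S, a ∉ C → pp G S a C z / gg G S z =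
      (rr G (S.erase a) (nb G a (S.erase a) ∪ C) z / gg G (S.erase a) z) *
        (rr G (S.erase a) (nb G a (S.erase a)) (z - 1))⁻¹ ∧
      (1 - pp G S a C z) / gg G S z =
      ((rr G (S.erase a) (nb G a (S.erase a)) z - rr G (S.erase a) (nb G a (S.erase a) ∪ C) z)
        / gg G (S.erase a) z) *
        (rr G (S.erase a) (nb G a (S.erase a)) (z - 1))⁻¹ := by
    intro a ha C hC haC
    have n1 := (hF1 a ha).ne
    have n3 := ne_zero_of_re_pos ((hF1 a ha).rpos (hz1' a ha) (nb_subset G a (S.erase a)))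
    have n5 := ne_zero_of_re_pos ((hF2 a ha).rpos (hz2' a ha) (nb_subset G a (S.erase a)))
    have n6 : gg G (S.erase a) z ≠ 0 :=
      ne_zero_of_re_pos ((hF1 a ha).rpos (hz1' a ha) (Finset.Subset.refl _))
    have hpp : pp G S a C z = rr G (S.erase a) (nb G a (S.erase a) ∪ C) z /
        rr G (S.erase a) (nb G a (S.erase a)) z := by
      rw [pp, P_sup_star G S a ha C haC hC, P_erase G S a ha, rr, rr,
        div_div_div_cancel_right₀ n1]
    rw [hgeq a ha, hpp]
    constructor
    · field_simp
    · field_simp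
  have hCsub : ∀ a ∈ S, ∀ C ⊆ S, a ∉ C → nb G a (S.erase a) ∪ C ⊆ S.erase a := by
    intro a ha C hC haC
    exact Finset.union_subset (nb_subset _ _ _) (fun x hx =>
      Finset.mem_erase.2 ⟨fun h' => haC (h' ▸ hx), hC hx⟩)
  have hinv : ∀ a ∈ S, 0 ≤ ((rr G (S.erase a) (nb G a (S.erase a)) (z - 1))⁻¹).re ∧
      ((rr G (S.erase a) (nb G a (S.erase a)) (z - 1))⁻¹).im ≤ 0 := fun a ha =>
    inv_q1 ((hF2 a ha).rpos (hz2' a ha) (nb_subset _ _ _)).le ((hF2 a ha).rim _ (nb_subset _ _ _))
  have hpgim : ∀ a ∈ S, ∀ C ⊆ S, a ∉ C → (pp G S a C z / gg G S z).im ≤ 0 := by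
    intro a ha C hC haC
    rw [(hpg a ha C hC haC).1]
    exact q4_mul ((hF1 a ha).rr_gg_re (hz1' a ha) (hCsub a ha C hC haC))
      ((hF1 a ha).rgim _ (hCsub a ha C hC haC)) (hinv a ha).1 (hinv a ha).2
  have h1pgim : ∀ a ∈ S, ∀ C ⊆ S, a ∉ C → ((1 - pp G S a C z) / gg G S z).im ≤ 0 := by
    intro a ha C hC haC
    rw [(hpg a ha C hC haC).2]
    have := (hF1 a ha).diff (C := nb G a (S.erase a)) Finset.subset_union_left
      (hCsub a ha C hC haC)
    exact q4_mul this.1 this.2 (hinv a ha).1 (hinv a ha).2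
  have hgim : 0 ≤ (gg G S z).im := by
    obtain ⟨a, ha⟩ : S.Nonempty := by
      rw [← Finset.card_pos, hS]
      exact Nat.succ_pos k
    have e : gg G S z = (rr G (S.erase a) (nb G a (S.erase a)) z / gg G (S.erase a) z)⁻¹ *
        rr G (S.erase a) (nb G a (S.erase a)) (z - 1) := by
      rw [hgeq a ha, inv_div]
      ring
    rw [e]
    have := inv_q4 ((hF1 a ha).rr_gg_re (hz1' a ha) (nb_subset G a _))
      ((hF1 a ha).rgim _ (nb_subset G a _))
    exact q1_mul this.1 this.2 ((hF2 a ha).rpos (hz2' a ha) (nb_subset _ _ _)).le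
      ((hF2 a ha).rim _ (nb_subset _ _ _))
  refine ⟨hP, ?_, ?_, hpgim, ?_, hrre, ?_⟩
  · intro a ha C hC haC
    exact (disc_re (disc_of_inv (hD a ha C hC haC)).2).1
  · intro a ha C hC haC
    have h1 := stepF h G S hS z hz1 him a ha C hC haC
    have h2 : pp G S a C z / gg G S z = (gg G S z / pp G S a C z)⁻¹ := by rw [inv_div]
    rw [h2, Complex.inv_re]
    exact div_nonneg h1.le (Complex.normSq_nonneg _)
  · intro C hC
    have key := anti_of_step
      (f := fun C => ((rr G S C z + C.card - S.card) / gg G S z).im) (M := S) (by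
      intro C hC a ha haC
      show ((rr G S (insert a C) z + ((insert a C).card : ℂ) - S.card) / gg G S z).im ≤
        ((rr G S C z + C.card - S.card) / gg G S z).im
      have e : (rr G S (insert a C) z + ((insert a C).card : ℂ) - S.card) / gg G S z =
          (rr G S C z + C.card - S.card) / gg G S z + (1 - pp G S a C z) / gg G S z := by
        rw [rr_step G S C a ha haC, Finset.card_insert_of_notMem haC]
        push_cast
        ring
      rw [e, Complex.add_im]
      linarith [h1pgim a ha C hC haC]) C S hC (Finset.Subset.refl S)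
    have e0 : ((rr G S S z + S.card - S.card) / gg G S z).im = 0 := by
      have : (rr G S S z + S.card - S.card) / gg G S z = 1 := by
        rw [add_sub_cancel_right]
        exact div_self hg0
      rw [this, Complex.one_im]
    rw [e0, im_div_nonneg hg0] at key
    have hre : (rr G S C z + C.card - S.card).re = (rr G S C z).re + C.card - S.card := by
      simp
    have him' : (rr G S C z + C.card - S.card).im = (rr G S C z).im := by
      simp
    rw [hre, him'] at key
    have h1 := hrre C hC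
    have h2 : 0 < (rr G S C z).re + C.card - S.card := by linarith
    have h3 : 0 ≤ ((rr G S C z).re + C.card - S.card) * (gg G S z).im :=
      mul_nonneg h2.le hgim
    have h4 : 0 ≤ (rr G S C z).im * (gg G S z).re := by linarith
    exact nonneg_of_mul_nonneg_left h4 hg
  · intro C hC
    have key := anti_of_step (f := fun C => -(rr G S C z / gg G S z).im) (M := S) (by
      intro C hC a ha haC
      show -(rr G S (insert a C) z / gg G S z).im ≤ -(rr G S C z / gg G S z).im
      rw [rr_step G S C a ha haC, add_div, Complex.add_im]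
      linarith [hpgim a ha C hC haC]) C S hC (Finset.Subset.refl S)
    have e0 : (rr G S S z / gg G S z).im = 0 := by
      have : rr G S S z / gg G S z = 1 := div_self hg0
      rw [this, Complex.one_im]
    linarith

lemma facts_zero : Facts V 0 := by
  intro G S hS z hz him
  have hS0 : S = ∅ := Finset.card_eq_zero.1 hS
  subst hS0
  have hz' : 0 < z.re := by simpa using hz
  have hz0 := ne_zero_of_re_pos hz'
  have hP : P G ∅ z ≠ 0 := by rw [P_empty]; exact one_ne_zero
  have hr : rr G ∅ ∅ z = z := rr_empty hP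
  refine ⟨hP, ?_, ?_, ?_, ?_, ?_, ?_⟩
  · intro a ha
    exact absurd ha (Finset.notMem_empty _)
  · intro a ha
    exact absurd ha (Finset.notMem_empty _)
  · intro a ha
    exact absurd ha (Finset.notMem_empty _)
  · intro C hC
    rw [Finset.subset_empty.1 hC, hr]
    exact him
  · intro C hC
    rw [Finset.subset_empty.1 hC, hr]
    simp
  · intro C hC
    rw [Finset.subset_empty.1 hC, gg, hr, div_self hz0, Complex.one_im]

theorem facts (k : ℕ) : Facts V k := by
  induction k with
  | zero => exact facts_zero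
  | succ k ih => exact facts_succ ih

/-- Main theorem, for `Im z ≥ 0`. -/
theorem P_ne_zero (G : SimpleGraph V) (S : Finset V) (x y : V) (hx : x ∈ S) (hy : y ∈ S)
    (hxy : x ≠ y) (hadj : ¬ G.Adj x y) (z : ℂ) (hz : (S.card : ℝ) - 1 ≤ z.re) (him : 0 ≤ z.im) :
    P G S z ≠ 0 := by
  have hy' : y ∈ S.erase x := Finset.mem_erase.2 ⟨hxy.symm, hy⟩
  have hcard : (S.erase x).card = S.card - 1 := Finset.card_erase_of_mem hx
  have hcard1 : 1 ≤ S.card := Finset.card_pos.2 ⟨x, hx⟩
  have hcard' : 1 ≤ (S.erase x).card := Finset.card_pos.2 ⟨y, hy'⟩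
  obtain ⟨k, hk⟩ : ∃ k, (S.erase x).card = k + 1 := ⟨(S.erase x).card - 1, by omega⟩
  have hkS : (S.card : ℝ) = k + 2 := by
    have : S.card = k + 2 := by omega
    rw [this]
    push_cast
    ring
  obtain ⟨hP, hD⟩ := stepD (facts k) G (S.erase x) hk z (by linarith) him
  set N := nb G x (S.erase x) with hN
  have hNsub : N ⊆ S.erase x := nb_subset _ _ _
  have hlow := X_lower hP hD hNsub
  have hNcard : N.card < k + 1 := by
    rw [← hk]
    apply Finset.card_lt_card
    refine ⟨hNsub, fun h' => ?_⟩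
    exact hadj (mem_nb.1 (h' hy')).2
  have hNcard' : (N.card : ℝ) ≤ k := by
    have : N.card ≤ k := by omega
    exact_mod_cast this
  have hpos : 0 < (rr G (S.erase x) N z).re := by linarith
  rw [P_erase G S x hx]
  intro h0
  rw [rr, h0, zero_div] at hpos
  simp at hpos

end Pool.Agent.Helper428.Brown
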