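import Pool.Agent.Helper428.BW

set_option autoImplicit false
set_option linter.unusedSectionVars false

open Polynomial Finset

namespace Pool.Agent.Helper428.Brown

variable {V : Type*} [DecidableEq V]

/-! ### Real evaluations -/

lemma Pr_empty (G : SimpleGraph V) (x : ℝ) : Pr G ∅ x = 1 := by
  rw [Pr, pol_empty, map_one]

lemma Rr_empty (G : SimpleGraph V) (S : Finset V) (x : ℝ) : Rr G S ∅ x = x * Pr G S x := by
  rw [Rr, Pr, rpol_empty, map_mul, aeval_X]

lemma Rr_step (G : SimpleGraph V) (S C : Finset V) (a : V) (ha : a ∈ S) (haC : a ∉ C) (x : ℝ) :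
    Rr G S (insert a C) x = Rr G S C x - Pr (G ⊔ star a C) S x := by
  rw [Rr, Rr, Pr, rpol_step G S C a ha haC, map_add]
  ring

lemma Pr_insert (G : SimpleGraph V) (S : Finset V) (v : V) (hv : v ∉ S) (x : ℝ) :
    Pr G (insert v S) x = Rr G S (nb G v S) x := by
  rw [Pr, Rr, pol_insert G S v hv]

lemma Pr_congr {G G' : SimpleGraph V} {S : Finset V} (h : Agree G G' S) (x : ℝ) :
    Pr G S x = Pr G' S x := by
  rw [Pr, Pr, pol_congr h]

/-! ### Monic -/

lemma pol_monic (S : Finset V) : ∀ G : SimpleGraph V,
    (pol G S).Monic ∧ (pol G S).natDegree = S.card := by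
  induction S using Finset.induction_on with
  | empty => intro G; rw [pol_empty]; simp
  | insert v S hv ih =>
    intro G
    have key : ∀ C ⊆ S, (rpol G S C).Monic ∧ (rpol G S C).natDegree = S.card + 1 := by
      intro C
      induction C using Finset.induction_on with
      | empty =>
        intro _
        obtain ⟨h1, h2⟩ := ih G
        rw [rpol_empty]
        refine ⟨monic_X.mul h1, ?_⟩
        rw [natDegree_X_mul h1.ne_zero, h2]
      | insert a C ha ihC =>
        intro hC
        have haS : a ∈ S := hC (Finset.mem_insert_self _ _)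
        obtain ⟨h1, h2⟩ := ihC (fun y hy => hC (Finset.mem_insert_of_mem hy))
        obtain ⟨h3, h4⟩ := ih (G ⊔ star a C)
        have e : rpol G S (insert a C) = rpol G S C - pol (G ⊔ star a C) S := by
          rw [rpol_step G S C a haS ha]; ring
        have hlt : (pol (G ⊔ star a C) S).degree < (rpol G S C).degree := by
          rw [degree_eq_natDegree h3.ne_zero, degree_eq_natDegree h1.ne_zero, h2, h4]
          exact_mod_cast Nat.lt_succ_self _
        rw [e]
        refine ⟨h1.sub_of_left hlt, ?_⟩
        rw [natDegree_sub_eq_left_of_natDegree_lt (by rw [h2, h4]; exact Nat.lt_succ_self _), h2]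
    rw [pol_insert G S v hv, Finset.card_insert_of_notMem hv]
    exact key _ (nb_subset _ _ _)

/-! ### Negative reals -/

lemma sign_neg (x : ℝ) (hx : x < 0) (S : Finset V) : ∀ G : SimpleGraph V,
    0 < (-1) ^ S.card * Pr G S x := by
  induction S using Finset.induction_on with
  | empty => intro G; rw [Pr_empty]; simp
  | insert v S hv ih =>
    intro G
    have key : ∀ C ⊆ S, 0 < (-1) ^ (S.card + 1) * Rr G S C x := by
      intro C
      induction C using Finset.induction_on with
      | empty =>
        intro _
        have h1 := ih G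
        rw [Rr_empty, pow_succ]
        have e : (-1 : ℝ) ^ S.card * -1 * (x * Pr G S x) = -x * ((-1) ^ S.card * Pr G S x) := by
          ring
        rw [e]
        exact mul_pos (by linarith) h1
      | insert a C ha ihC =>
        intro hC
        have haS : a ∈ S := hC (Finset.mem_insert_self _ _)
        have h1 := ihC (fun y hy => hC (Finset.mem_insert_of_mem hy))
        have h2 := ih (G ⊔ star a C)
        rw [Rr_step G S C a haS ha]
        rw [pow_succ] at h1 ⊢
        nlinarith
    rw [Pr_insert G S v hv, Finset.card_insert_of_notMem hv]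
    exact key _ (nb_subset _ _ _)

/-! ### Reals in (0,1) -/

/-- `S` is connected: it is built up by adding vertices with a neighbour in the previous set. -/
inductive Conn (G : SimpleGraph V) : Finset V → Prop
  | single (v : V) : Conn G {v}
  | insert (S : Finset V) (v : V) (h : Conn G S) (hv : v ∉ S) (hn : (nb G v S).Nonempty) :
      Conn G (insert v S)

lemma Conn.mono {G G' : SimpleGraph V} (hG : G ≤ G') {S : Finset V} (h : Conn G S) :
    Conn G' S := by
  induction h with
  | single v => exact Conn.single v
  | insert S v h hv hn ih =>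
    refine Conn.insert S v ih hv ?_
    obtain ⟨y, hy⟩ := hn
    rw [mem_nb] at hy
    exact ⟨y, mem_nb.2 ⟨hy.1, hG hy.2⟩⟩

lemma Conn.nonempty {G : SimpleGraph V} {S : Finset V} (h : Conn G S) : S.Nonempty := by
  cases h with
  | single v => exact ⟨v, Finset.mem_singleton_self v⟩
  | insert S v h hv hn => exact ⟨v, Finset.mem_insert_self _ _⟩

lemma sign_unit (x : ℝ) (hx0 : 0 < x) (hx1 : x < 1) (k : ℕ) : ∀ (S : Finset V)
    (G : SimpleGraph V), S.card = k + 1 → Conn G S → 0 < (-1) ^ k * Pr G S x := by
  induction k with
  | zero =>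
    intro S G hS _
    obtain ⟨v, rfl⟩ := Finset.card_eq_one.1 hS
    rw [← Finset.insert_empty, Pr_insert G ∅ v (Finset.notMem_empty _)]
    have : nb G v ∅ = ∅ := Finset.subset_empty.1 (nb_subset _ _ _)
    rw [this, Rr_empty, Pr_empty]
    simpa using hx0
  | succ k ih =>
    intro S G hS hconn
    cases hconn with
    | single v => simp at hS
    | insert S v h hv hn =>
      rw [Finset.card_insert_of_notMem hv] at hS
      have hS' : S.card = k + 1 := by omega
      have key : ∀ C ⊆ S, C.Nonempty → 0 < (-1) ^ (k + 1) * Rr G S C x := by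
        intro C
        induction C using Finset.induction_on with
        | empty => intro _ hne; exact absurd hne Finset.not_nonempty_empty
        | insert a C ha ihC =>
          intro hC _
          have haS : a ∈ S := hC (Finset.mem_insert_self _ _)
          have h2 := ih S (G ⊔ star a C) hS' (h.mono le_sup_left)
          rw [Rr_step G S C a haS ha]
          rcases C.eq_empty_or_nonempty with hCe | hCne
          · subst hCe
            have e : Pr (G ⊔ star a ∅) S x = Pr G S x := by
              apply Pr_congr
              intro y _ z _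
              rw [SimpleGraph.sup_adj, star_adj]
              simp
            rw [e] at h2 ⊢
            rw [Rr_empty, pow_succ]
            nlinarith
          · have h1 := ihC (fun y hy => hC (Finset.mem_insert_of_mem hy)) hCne
            rw [pow_succ] at h1 ⊢
            nlinarith
      rw [Pr_insert G S v hv]
      exact key _ (nb_subset _ _ _) hn

/-- multiplicativity over two sets without edges between them -/
lemma Pr_union (x : ℝ) (B : Finset V) (A : Finset V) : ∀ G : SimpleGraph V, Disjoint A B →
    (∀ a ∈ A, ∀ b ∈ B, ¬ G.Adj a b) → Pr G (A ∪ B) x = Pr G A x * Pr G B x := by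
  induction A using Finset.induction_on with
  | empty => intro G _ _; rw [Pr_empty, Finset.empty_union, one_mul]
  | insert v A hv ih =>
    intro G hd hadj
    rw [Finset.disjoint_insert_left] at hd
    have hvAB : v ∉ A ∪ B := by
      rw [Finset.mem_union]
      rintro (h | h)
      · exact hv h
      · exact hd.1 h
    have hadj' : ∀ a ∈ A, ∀ b ∈ B, ¬ G.Adj a b := fun a ha b hb =>
      hadj a (Finset.mem_insert_of_mem ha) b hb
    have key : ∀ C ⊆ A, Rr G (A ∪ B) C x = Rr G A C x * Pr G B x := by
      intro C
      induction C using Finset.induction_on with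
      | empty =>
        intro _
        rw [Rr_empty, Rr_empty, ih G hd.2 hadj']
        ring
      | insert a C ha ihC =>
        intro hC
        have haA : a ∈ A := hC (Finset.mem_insert_self _ _)
        have hCA : C ⊆ A := fun y hy => hC (Finset.mem_insert_of_mem hy)
        have hdj : ∀ y ∈ A, y ∉ B := fun y hy => Finset.disjoint_left.1 hd.2 hy
        rw [Rr_step G _ C a (Finset.mem_union_left _ haA) ha, Rr_step G A C a haA ha, ihC hCA]
        have h1 : Pr (G ⊔ star a C) (A ∪ B) x = Pr (G ⊔ star a C) A x * Pr (G ⊔ star a C) B x := by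
          apply ih _ hd.2
          intro y hy b hb hyb
          rw [SimpleGraph.sup_adj, star_adj] at hyb
          rcases hyb with h | ⟨_, ⟨_, h⟩ | ⟨h, _⟩⟩
          · exact hadj' y hy b hb h
          · exact hdj b (hCA h) hb
          · exact hdj b (h ▸ haA) hb
        have h2 : Pr (G ⊔ star a C) B x = Pr G B x := by
          apply Pr_congr
          intro y hy z hz
          rw [SimpleGraph.sup_adj, star_adj]
          constructor
          · rintro (h | ⟨_, ⟨h, _⟩ | ⟨h, _⟩⟩)
            · exact h
            · exact absurd hy (hdj y (h ▸ haA))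
            · exact absurd hz (hdj z (h ▸ haA))
          · exact fun h => Or.inl h
        rw [h1, h2]
        ring
    rw [Finset.insert_union, Pr_insert G _ v hvAB, Pr_insert G A v hv]
    have hnb : nb G v (A ∪ B) = nb G v A := by
      ext y
      rw [mem_nb, mem_nb, Finset.mem_union]
      constructor
      · rintro ⟨h1 | h1, h2⟩
        · exact ⟨h1, h2⟩
        · exact absurd h2 (hadj v (Finset.mem_insert_self _ _) y h1)
      · rintro ⟨h1, h2⟩
        exact ⟨Or.inl h1, h2⟩
    rw [hnb]
    exact key _ (nb_subset _ _ _)

lemma exists_component (G : SimpleGraph V) (S : Finset V) (hS : S.Nonempty) :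
    ∃ A ⊆ S, Conn G A ∧ ∀ a ∈ A, ∀ b ∈ S \ A, ¬ G.Adj a b := by
  classical
  obtain ⟨v, hv⟩ := hS
  set F := S.powerset.filter (fun A => Conn G A) with hF
  have hne : F.Nonempty := ⟨{v}, by
    rw [hF, Finset.mem_filter, Finset.mem_powerset, Finset.singleton_subset_iff]
    exact ⟨hv, Conn.single v⟩⟩
  obtain ⟨A, hA, hmax⟩ := Finset.exists_max_image F Finset.card hne
  rw [hF, Finset.mem_filter, Finset.mem_powerset] at hA
  refine ⟨A, hA.1, hA.2, ?_⟩
  intro a ha b hb hab
  rw [Finset.mem_sdiff] at hb
  have h1 : Insert.insert b A ∈ F := by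
    rw [hF, Finset.mem_filter, Finset.mem_powerset]
    exact ⟨Finset.insert_subset hb.1 hA.1,
      Conn.insert A b hA.2 hb.2 ⟨a, mem_nb.2 ⟨ha, hab.symm⟩⟩⟩
  have h2 := hmax _ h1
  rw [Finset.card_insert_of_notMem hb.2] at h2
  omega

lemma Pr_ne_zero_unit (x : ℝ) (hx0 : 0 < x) (hx1 : x < 1) (n : ℕ) : ∀ (S : Finset V)
    (G : SimpleGraph V), S.card = n → Pr G S x ≠ 0 := by
  induction n using Nat.strong_induction_on with
  | _ n ih =>
    intro S G hS
    rcases S.eq_empty_or_nonempty with h | h
    · subst h
      rw [Pr_empty]
      exact one_ne_zero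
    · obtain ⟨A, hAS, hconn, hno⟩ := exists_component G S h
      have hApos : 0 < A.card := Finset.card_pos.2 hconn.nonempty
      have h1 := sign_unit x hx0 hx1 (A.card - 1) A G (by omega) hconn
      have h2 : Pr G A x ≠ 0 := by
        intro h0
        rw [h0, mul_zero] at h1
        exact lt_irrefl _ h1
      have hcard : (S \ A).card < n := by
        rw [Finset.card_sdiff_of_subset hAS, hS]
        have := Finset.card_le_card hAS
        omega
      have h3 := ih _ hcard (S \ A) G rfl
      have h4 := Pr_union x (S \ A) A G Finset.disjoint_sdiff hno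
      rw [Finset.union_sdiff_of_subset hAS] at h4
      rw [h4]
      exact mul_ne_zero h2 h3

lemma real_root_pol (G : SimpleGraph V) (S : Finset V) (x : ℝ) (h : Pr G S x = 0) :
    x = 0 ∨ x = 1 ∨ 1 < x := by
  rcases lt_trichotomy x 0 with h1 | h1 | h1
  · have := sign_neg x h1 S G
    rw [h, mul_zero] at this
    exact absurd this (lt_irrefl _)
  · exact Or.inl h1
  · rcases lt_trichotomy x 1 with h2 | h2 | h2
    · exact absurd h (Pr_ne_zero_unit x h1 h2 _ S G rfl)
    · exact Or.inr (Or.inl h2)
    · exact Or.inr (Or.inr h2)

end Pool.Agent.Helper428.Brown
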