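import Mathlib

set_option autoImplicit false

namespace Pool.Agent.Helper428.CoshSqrt

open Complex Filter Topology Set

/-- the principal square root. -/
noncomputable def sq (z : ℂ) : ℂ := z ^ ((2 : ℕ)⁻¹ : ℂ)

lemma sq_mul_self (z : ℂ) : sq z * sq z = z := by
  have := Complex.cpow_nat_inv_pow z (n := 2) (by norm_num)
  unfold sq
  rw [← pow_two]
  exact this

/-- the entire function `cosh (sqrt z)`. -/
noncomputable def cs (z : ℂ) : ℂ := Complex.cosh (sq z)

lemma cs_eq {z s : ℂ} (h : s * s = z) : cs z = Complex.cosh s := by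
  have h1 : (sq z - s) * (sq z + s) = 0 := by
    have := sq_mul_self z
    linear_combination this - h
  unfold cs
  rcases mul_eq_zero.1 h1 with h2 | h2
  · rw [sub_eq_zero.1 h2]
  · rw [eq_neg_of_add_eq_zero_left h2, Complex.cosh_neg]

lemma sq_norm (z : ℂ) : ‖sq z‖ = √‖z‖ := by
  have h := congrArg norm (sq_mul_self z)
  rw [norm_mul] at h
  rw [← h, Real.sqrt_mul_self (norm_nonneg _)]

lemma cs_diff_ne (z₀ : ℂ) (h0 : z₀ ≠ 0) : DifferentiableAt ℂ cs z₀ := by
  have hfun : cs = fun z => Complex.cosh (sq z₀ * ((z / z₀) ^ ((2 : ℕ)⁻¹ : ℂ))) := by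
    funext z
    apply cs_eq
    have h1 := sq_mul_self z₀
    have h2 := sq_mul_self (z / z₀)
    unfold sq at h2
    calc sq z₀ * (z / z₀) ^ ((2 : ℕ)⁻¹ : ℂ) * (sq z₀ * (z / z₀) ^ ((2 : ℕ)⁻¹ : ℂ))
        = (sq z₀ * sq z₀) * ((z / z₀) ^ ((2 : ℕ)⁻¹ : ℂ) * (z / z₀) ^ ((2 : ℕ)⁻¹ : ℂ)) := by ring
      _ = z₀ * (z / z₀) := by rw [h1, h2]
      _ = z := by field_simp
  rw [hfun]
  apply DifferentiableAt.ccosh
  apply DifferentiableAt.const_mul
  have hdiv : DifferentiableAt ℂ (fun z : ℂ => z / z₀) z₀ := differentiableAt_id.div_const z₀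
  apply hdiv.cpow_const
  rw [div_self h0]
  exact Complex.one_mem_slitPlane

lemma cosh_near (s : ℂ) : ‖Complex.cosh s‖ ≤ Real.exp ‖s‖ := by
  rw [Complex.cosh, norm_div]
  have h1 : ‖Complex.exp s‖ ≤ Real.exp ‖s‖ := by
    rw [Complex.norm_exp]
    exact Real.exp_le_exp.2 ((le_abs_self _).trans (Complex.abs_re_le_norm s))
  have h2 : ‖Complex.exp (-s)‖ ≤ Real.exp ‖s‖ := by
    rw [Complex.norm_exp]
    apply Real.exp_le_exp.2
    have := Complex.abs_re_le_norm s
    rw [Complex.neg_re]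
    exact (neg_le_abs _).trans this
  have h3 := norm_add_le (Complex.exp s) (Complex.exp (-s))
  have h4 : ‖(2 : ℂ)‖ = 2 := by simp
  rw [h4, div_le_iff₀ (by norm_num)]
  linarith

lemma cs_diff : Differentiable ℂ cs := by
  have hcont : ContinuousAt cs 0 := by
    have h0 : Tendsto sq (𝓝 0) (𝓝 0) := by
      rw [tendsto_zero_iff_norm_tendsto_zero]
      have h1 : (fun z => ‖sq z‖) = fun z : ℂ => √‖z‖ := by
        funext z
        exact sq_norm z
      rw [h1]
      have h2 : Continuous (fun z : ℂ => √‖z‖) := Real.continuous_sqrt.comp continuous_norm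
      have h3 := h2.tendsto 0
      simpa using h3
    have hsq0 : sq 0 = 0 := by
      have := sq_norm 0
      simpa using this
    have h1 : Tendsto cs (𝓝 0) (𝓝 (Complex.cosh 0)) :=
      (Complex.continuous_cosh.tendsto 0).comp h0
    have h2 : cs 0 = Complex.cosh 0 := by
      unfold cs
      rw [hsq0]
    rw [ContinuousAt, h2]
    exact h1
  have h := (Complex.differentiableOn_compl_singleton_and_continuousAt_iff
    (f := cs) (s := univ) (c := 0) univ_mem).1 ⟨?_, hcont⟩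
  · exact fun z => (h z (mem_univ z)).differentiableAt univ_mem
  · intro z hz
    exact (cs_diff_ne z hz.2).differentiableWithinAt

lemma cs_upper (z : ℂ) : ‖cs z‖ ≤ Real.exp (√‖z‖) := by
  unfold cs
  have := cosh_near (sq z)
  rwa [sq_norm] at this

lemma norm_cosh_sq (s : ℂ) : ‖Complex.cosh s‖ ^ 2 = Real.sinh s.re ^ 2 + Real.cos s.im ^ 2 := by
  have h : Complex.cosh s = ((Real.cosh s.re * Real.cos s.im : ℝ) : ℂ) +
      ((Real.sinh s.re * Real.sin s.im : ℝ) : ℂ) * I := by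
    conv_lhs => rw [← Complex.re_add_im s]
    rw [Complex.cosh_add, Complex.cosh_mul_I, Complex.sinh_mul_I]
    push_cast
    ring
  rw [h, ← Complex.normSq_eq_norm_sq, Complex.normSq_add_mul_I]
  have h1 := Real.sin_sq_add_cos_sq s.im
  have h2 := Real.cosh_sq s.re
  have h3 : Real.sin s.im ^ 2 = 1 - Real.cos s.im ^ 2 := by linarith
  rw [mul_pow, mul_pow, h2, h3]
  ring

lemma cs_lower (z : ℂ) (hz : 0 ≤ z.re) : Real.sinh (√(‖z‖ / 2)) ≤ ‖cs z‖ := by
  unfold cs
  obtain ⟨s, hs⟩ : ∃ s, s = sq z := ⟨_, rfl⟩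
  rw [← hs]
  have h1 : s * s = z := by rw [hs]; exact sq_mul_self z
  have h2 : ‖s‖ ^ 2 = ‖z‖ := by rw [← h1, norm_mul]; ring
  have h3 : √(‖z‖ / 2) ≤ |s.re| := by
    apply Real.sqrt_le_iff.2
    refine ⟨abs_nonneg _, ?_⟩
    rw [sq_abs]
    have h4 := congrArg Complex.re h1
    rw [Complex.mul_re] at h4
    rw [← Complex.normSq_eq_norm_sq, Complex.normSq_apply] at h2
    nlinarith
  have h4 := norm_cosh_sq s
  have h5 : |Real.sinh s.re| ≤ ‖Complex.cosh s‖ := by
    apply abs_le_of_sq_le_sq _ (norm_nonneg _)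
    rw [h4]
    nlinarith [sq_nonneg (Real.cos s.im)]
  refine le_trans ?_ h5
  have h6 : |Real.sinh s.re| = Real.sinh |s.re| := by
    rcases le_total 0 s.re with h | h
    · rw [abs_of_nonneg h, abs_of_nonneg (Real.sinh_nonneg_iff.2 h)]
    · rw [abs_of_nonpos h, abs_of_nonpos (Real.sinh_nonpos_iff.2 h), Real.sinh_neg]
  rw [h6]
  exact Real.sinh_le_sinh.2 h3

end Pool.Agent.Helper428.CoshSqrt
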