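import Mathlib

set_option autoImplicit false

open Complex Set Filter Topology Metric

namespace Pool.Agent.Helper428.John

/-- `g` is locally injective and open at `x`. -/
def LH (g : ℂ → ℂ) (x : ℂ) : Prop :=
  (∃ U ∈ 𝓝 x, InjOn g U) ∧ Filter.map g (𝓝 x) = 𝓝 (g x)

theorem injective_of_LH (Φ : ℂ → ℂ) (hc : Continuous Φ) (h : ∀ x, LH Φ x)
    (hp : ∀ C : ℝ, ∃ R : ℝ, ∀ x, ‖Φ x‖ ≤ C → ‖x‖ ≤ R)
    (h1 : ∃ w, ∀ a b, Φ a = w → Φ b = w → a = b) : Function.Injective Φ := by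
  set E : Set ℂ := {w | ∃ a b, Φ a = w ∧ Φ b = w ∧ a ≠ b} with hE
  have hopen : IsOpen E := by
    rw [isOpen_iff_mem_nhds]
    rintro w ⟨a, b, ha, hb, hab⟩
    obtain ⟨U, V, hU, hV, haU, hbV, hUV⟩ := t2_separation hab
    have h2 : Φ '' U ∈ 𝓝 w := by
      rw [← ha, ← (h a).2]; exact image_mem_map (hU.mem_nhds haU)
    have h3 : Φ '' V ∈ 𝓝 w := by
      rw [← hb, ← (h b).2]; exact image_mem_map (hV.mem_nhds hbV)
    filter_upwards [h2, h3] with y hy1 hy2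
    obtain ⟨p, hp1, hp2⟩ := hy1
    obtain ⟨q, hq1, hq2⟩ := hy2
    refine ⟨p, q, hp2, hq2, ?_⟩
    rintro rfl
    exact (disjoint_left.1 hUV hp1) hq1
  have hclosed : IsClosed E := by
    rw [← isSeqClosed_iff_isClosed]
    intro w w₀ hw hlim
    choose a b ha hb hab using hw
    obtain ⟨C, hC⟩ := (Metric.isBounded_range_of_tendsto w hlim).exists_norm_le
    obtain ⟨R, hR⟩ := hp C
    have hba : ∀ n, a n ∈ closedBall (0:ℂ) R := fun n => by
      rw [mem_closedBall_zero_iff]; apply hR; rw [ha]; exact hC _ (mem_range_self n)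
    have hbb : ∀ n, b n ∈ closedBall (0:ℂ) R := fun n => by
      rw [mem_closedBall_zero_iff]; apply hR; rw [hb]; exact hC _ (mem_range_self n)
    obtain ⟨a₀, -, φ, hφ, hlima⟩ := (isCompact_closedBall (0:ℂ) R).tendsto_subseq hba
    obtain ⟨b₀, -, ψ, hψ, hlimb⟩ :=
      (isCompact_closedBall (0:ℂ) R).tendsto_subseq (fun n => hbb (φ n))
    have hlima' : Tendsto (fun n => a (φ (ψ n))) atTop (𝓝 a₀) := hlima.comp hψ.tendsto_atTop
    have hlimb' : Tendsto (fun n => b (φ (ψ n))) atTop (𝓝 b₀) := hlimb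
    have hlimw : Tendsto (fun n => w (φ (ψ n))) atTop (𝓝 w₀) :=
      hlim.comp (hφ.tendsto_atTop.comp hψ.tendsto_atTop)
    have e1 : Φ a₀ = w₀ := by
      refine tendsto_nhds_unique ((hc.tendsto a₀).comp hlima') ?_
      refine hlimw.congr fun n => ?_
      simp [ha]
    have e2 : Φ b₀ = w₀ := by
      refine tendsto_nhds_unique ((hc.tendsto b₀).comp hlimb') ?_
      refine hlimw.congr fun n => ?_
      simp [hb]
    refine ⟨a₀, b₀, e1, e2, ?_⟩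
    rintro rfl
    obtain ⟨U, hU, hinj⟩ := (h a₀).1
    have i1 := hlima'.eventually hU
    have i2 := hlimb'.eventually hU
    obtain ⟨n, hn1, hn2⟩ := (i1.and i2).exists
    exact hab (φ (ψ n)) (hinj hn1 hn2 (by rw [ha, hb]))
  have hclopen : IsClopen E := ⟨hclosed, hopen⟩
  rcases isClopen_iff.1 hclopen with h0 | h0
  · intro a b hab
    by_contra hne
    have : Φ b ∈ E := ⟨a, b, hab, rfl, hne⟩
    rw [h0] at this
    exact this
  · obtain ⟨w, hw⟩ := h1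
    have : w ∈ E := by rw [h0]; exact mem_univ _
    obtain ⟨a, b, ha, hb, hab⟩ := this
    exact absurd (hw a b ha hb) hab

theorem LH_of_approx (g : ℂ → ℂ) (x c : ℂ) (k : ℝ) (hk : k < ‖c‖)
    (U : Set ℂ) (hU : U ∈ 𝓝 x)
    (h : ∀ a ∈ U, ∀ b ∈ U, ‖g a - g b - c * (a - b)‖ ≤ k * ‖a - b‖) : LH g x := by
  have hc : c ≠ 0 := by
    rintro rfl
    -- k < 0, then take two distinct points
    simp only [norm_zero] at hk
    obtain ⟨ε, hε, hb⟩ := Metric.mem_nhds_iff.1 hU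
    have hx : x ∈ U := hb (mem_ball_self hε)
    have hy : x + (ε/2 : ℝ) ∈ U := by
      apply hb
      rw [mem_ball, dist_eq_norm]
      simp only [add_sub_cancel_left, Complex.norm_real, Real.norm_eq_abs]
      rw [abs_of_pos (by positivity)]; linarith
    have := h _ hy _ hx
    have h2 : 0 ≤ ‖g (x + (ε/2 : ℝ)) - g x - 0 * (x + (ε/2 : ℝ) - x)‖ := norm_nonneg _
    have h3 : 0 < ‖x + ((ε/2 : ℝ) : ℂ) - x‖ := by
      simp only [add_sub_cancel_left, Complex.norm_real, Real.norm_eq_abs]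
      positivity
    nlinarith
  have hcn : 0 < ‖c‖ := norm_pos_iff.2 hc
  obtain ⟨κ, hκ0, hκ1, hκk⟩ : ∃ κ : ℝ, 0 ≤ κ ∧ κ < 1 ∧ k ≤ κ * ‖c‖ := by
    refine ⟨max (k / ‖c‖) 0, le_max_right _ _, ?_, ?_⟩
    · rw [max_lt_iff]; exact ⟨(div_lt_one hcn).2 hk, one_pos⟩
    · calc k = k / ‖c‖ * ‖c‖ := by field_simp
        _ ≤ _ := mul_le_mul_of_nonneg_right (le_max_left _ _) hcn.le
  have key : ApproximatesLinearOn (fun y => c⁻¹ * g y)
      ((ContinuousLinearEquiv.refl ℂ ℂ : ℂ ≃L[ℂ] ℂ) : ℂ →L[ℂ] ℂ) U κ.toNNReal := by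
    intro a ha b hb
    have h1 := h a ha b hb
    rw [Real.coe_toNNReal _ hκ0]
    have h2 : c⁻¹ * g a - c⁻¹ * g b -
        ((ContinuousLinearEquiv.refl ℂ ℂ : ℂ ≃L[ℂ] ℂ) : ℂ →L[ℂ] ℂ) (a - b) =
        c⁻¹ * (g a - g b - c * (a - b)) := by
      simp only [ContinuousLinearEquiv.coe_coe, ContinuousLinearEquiv.refl_apply]
      field_simp
    show ‖c⁻¹ * g a - c⁻¹ * g b -
        ((ContinuousLinearEquiv.refl ℂ ℂ : ℂ ≃L[ℂ] ℂ) : ℂ →L[ℂ] ℂ) (a - b)‖ ≤ _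
    rw [h2, norm_mul, norm_inv]
    rw [inv_mul_le_iff₀ hcn]
    refine h1.trans ?_
    have := mul_le_mul_of_nonneg_right hκk (norm_nonneg (a - b))
    linarith
  have hN : Subsingleton ℂ ∨ κ.toNNReal <
      (‖((ContinuousLinearEquiv.refl ℂ ℂ : ℂ ≃L[ℂ] ℂ).symm : ℂ →L[ℂ] ℂ)‖₊)⁻¹ := by
    right
    have e1 : ‖((ContinuousLinearEquiv.refl ℂ ℂ : ℂ ≃L[ℂ] ℂ).symm : ℂ →L[ℂ] ℂ)‖₊ = 1 := by
      apply NNReal.eq
      simp
    rw [e1, inv_one]
    rw [← NNReal.coe_lt_coe, Real.coe_toNNReal _ hκ0]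
    exact_mod_cast hκ1
  refine ⟨⟨U, hU, ?_⟩, ?_⟩
  · intro a ha b hb hab
    exact key.injOn hN ha hb (by simp [hab])
  · have h3 : Filter.map (fun y => c⁻¹ * g y) (𝓝 x) = 𝓝 (c⁻¹ * g x) := by
      refine key.map_nhds_eq (ContinuousLinearEquiv.toNonlinearRightInverse
        (ContinuousLinearEquiv.refl ℂ ℂ)) hU ?_
      exact hN
    have h4 : g = (Homeomorph.mulLeft₀ c hc) ∘ (fun y => c⁻¹ * g y) := by
      funext y
      simp only [Function.comp, Homeomorph.coe_mulLeft₀]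
      field_simp
    have h5 : g x = (Homeomorph.mulLeft₀ c hc) (c⁻¹ * g x) := by
      simp only [Homeomorph.coe_mulLeft₀]
      field_simp
    conv_lhs => rw [h4]
    rw [← Filter.map_map, h3, Homeomorph.map_nhds_eq, ← h5]

/-- Wirtinger strict derivative: `g (x + v) = g x + c v + d (conj v) + o(v)`, strictly. -/
def SD (g : ℂ → ℂ) (x c d : ℂ) : Prop :=
  HasStrictFDerivAt g (c • (1 : ℂ →L[ℝ] ℂ) + d • (Complex.conjCLE : ℂ →L[ℝ] ℂ)) x

lemma SD.approx {g : ℂ → ℂ} {x c d : ℂ} (h : SD g x c d) {ε : ℝ} (hε : 0 < ε) :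
    ∃ U ∈ 𝓝 x, ∀ a ∈ U, ∀ b ∈ U,
      ‖g a - g b - (c * (a - b) + d * (starRingEnd ℂ) (a - b))‖ ≤ ε * ‖a - b‖ := by
  have h1 := (hasStrictFDerivAt_iff_isLittleO.1 h).def hε
  rw [nhds_prod_eq] at h1
  obtain ⟨U, hU, hUU⟩ := Filter.mem_prod_self_iff.1 h1
  exact ⟨U, hU, fun a ha b hb => hUU (mk_mem_prod ha hb)⟩

lemma SD.LH {g : ℂ → ℂ} {x c d : ℂ} (h : SD g x c d) (hcd : ‖d‖ < ‖c‖) : LH g x := by
  obtain ⟨U, hU, hb⟩ := h.approx (ε := (‖c‖ - ‖d‖) / 2) (by linarith)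
  refine LH_of_approx g x c (‖d‖ + (‖c‖ - ‖d‖) / 2) (by linarith) U hU fun a ha b hb' => ?_
  have h1 := hb a ha b hb'
  have h2 : g a - g b - c * (a - b) = (g a - g b - (c * (a - b) + d * (starRingEnd ℂ) (a - b)))
      + d * (starRingEnd ℂ) (a - b) := by ring
  rw [h2]
  refine (norm_add_le _ _).trans ?_
  rw [norm_mul, Complex.norm_conj]
  linarith

lemma SD.add {g h : ℂ → ℂ} {x c d c' d' : ℂ} (hg : SD g x c d) (hh : SD h x c' d') :
    SD (fun y => g y + h y) x (c + c') (d + d') :=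
  (HasStrictFDerivAt.add hg hh).congr_fderiv (by ext v; simp; ring)

lemma SD.sub {g h : ℂ → ℂ} {x c d c' d' : ℂ} (hg : SD g x c d) (hh : SD h x c' d') :
    SD (fun y => g y - h y) x (c - c') (d - d') :=
  (HasStrictFDerivAt.sub hg hh).congr_fderiv (by ext v; simp; ring)

lemma SD.mul {g h : ℂ → ℂ} {x c d c' d' : ℂ} (hg : SD g x c d) (hh : SD h x c' d') :
    SD (fun y => g y * h y) x (c * h x + g x * c') (d * h x + g x * d') :=
  (HasStrictFDerivAt.mul hg hh).congr_fderiv (by ext v; simp; ring)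

lemma SD.const (a x : ℂ) : SD (fun _ => a) x 0 0 :=
  (hasStrictFDerivAt_const (𝕜 := ℝ) a x).congr_fderiv (by ext v; simp)

lemma SD.id (x : ℂ) : SD (fun y => y) x 1 0 :=
  (hasStrictFDerivAt_id (𝕜 := ℝ) x).congr_fderiv (by ext v; simp)

lemma SD.conj {g : ℂ → ℂ} {x c d : ℂ} (hg : SD g x c d) :
    SD (fun y => (starRingEnd ℂ) (g y)) x ((starRingEnd ℂ) d) ((starRingEnd ℂ) c) :=
  ((Complex.conjCLE.toContinuousLinearMap.hasStrictFDerivAt (x := g x)).comp x hg).congr_fderiv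
    (by ext v; simp; ring)

/-- composition with a holomorphic map -/
lemma SD.comp_holo {g f : ℂ → ℂ} {x c d f' : ℂ} (hg : SD g x c d)
    (hf : HasStrictDerivAt f f' (g x)) : SD (fun y => f (g y)) x (f' * c) (f' * d) :=
  ((hf.hasStrictFDerivAt.restrictScalars ℝ).comp x hg).congr_fderiv (by ext v; simp; ring)

lemma SD.inv {g : ℂ → ℂ} {x c d : ℂ} (hg : SD g x c d) (h0 : g x ≠ 0) :
    SD (fun y => (g y)⁻¹) x (-(g x ^ 2)⁻¹ * c) (-(g x ^ 2)⁻¹ * d) :=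
  hg.comp_holo (hasStrictDerivAt_inv h0)

lemma SD.congr_of_eventuallyEq {g h : ℂ → ℂ} {x c d : ℂ} (hg : SD g x c d)
    (he : h =ᶠ[𝓝 x] g) : SD h x c d :=
  HasStrictFDerivAt.congr_of_eventuallyEq hg he.symm

end Pool.Agent.Helper428.John
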