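import Mathlib
import Pool.Agent.Helper428.John1

set_option autoImplicit false

open Complex Set Filter Topology Metric

namespace Pool.Agent.Helper428.John

/-- `log |a|` as a complex number, written as `½ log (a conj a)`. -/
noncomputable def lg (a : ℂ) : ℂ := (1/2 : ℂ) * Complex.log (a * (starRingEnd ℂ) a)

lemma lg_eq (a : ℂ) : lg a = ((Real.log ‖a‖ : ℝ) : ℂ) := by
  unfold lg
  rw [Complex.mul_conj, Complex.normSq_eq_norm_sq, ← Complex.ofReal_log (by positivity),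
    Real.log_pow]
  push_cast
  ring

/-- the multiplier `H z = G(log|f' z|) f' z`. -/
noncomputable def HG (G f1 : ℂ → ℂ) (z : ℂ) : ℂ := G (lg (f1 z)) * f1 z

/-- the outer map. -/
noncomputable def OutG (G f f1 : ℂ → ℂ) (ζ : ℂ) : ℂ :=
  f (((starRingEnd ℂ) ζ)⁻¹) + G (lg (f1 (((starRingEnd ℂ) ζ)⁻¹))) * f1 (((starRingEnd ℂ) ζ)⁻¹) *
      (ζ - ((starRingEnd ℂ) ζ)⁻¹)

lemma OutG_eq (G f f1 : ℂ → ℂ) (ζ : ℂ) : OutG G f f1 ζ =
    f (((starRingEnd ℂ) ζ)⁻¹) + HG G f1 (((starRingEnd ℂ) ζ)⁻¹) * (ζ - ((starRingEnd ℂ) ζ)⁻¹) := rfl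

lemma mul_conj_slit {a : ℂ} (ha : a ≠ 0) : a * (starRingEnd ℂ) a ∈ Complex.slitPlane := by
  rw [Complex.mul_conj]
  left
  rw [Complex.ofReal_re]
  exact Complex.normSq_pos.2 ha

lemma SD.lg {g : ℂ → ℂ} {x c d : ℂ} (h : SD g x c d) (h0 : g x ≠ 0) :
    SD (fun y => lg (g y)) x
      ((1/2) * (c / g x + (starRingEnd ℂ) d / (starRingEnd ℂ) (g x)))
      ((1/2) * (d / g x + (starRingEnd ℂ) c / (starRingEnd ℂ) (g x))) := by
  have h0' : (starRingEnd ℂ) (g x) ≠ 0 := by simpa using h0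
  have h1 := h.mul h.conj
  have h2 := h1.comp_holo (Complex.hasStrictDerivAt_log (mul_conj_slit h0))
  have h3 := (SD.const (1/2 : ℂ) x).mul h2
  have key : ∀ {c d c' d' : ℂ}, SD (fun y => Pool.Agent.Helper428.John.lg (g y)) x c d →
      c = c' → d = d' → SD (fun y => Pool.Agent.Helper428.John.lg (g y)) x c' d' := by
    intro c d c' d' h h1 h2; rw [← h1, ← h2]; exact h
  refine key h3 ?_ ?_
  · simp only [zero_mul, zero_add]
    field_simp
  · simp only [zero_mul, zero_add]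
    field_simp

lemma SD_HG {G f1 : ℂ → ℂ} {p2 z g1 : ℂ} (ha : f1 z ≠ 0)
    (hG : HasStrictDerivAt G g1 (lg (f1 z))) (hf1 : HasStrictDerivAt f1 p2 z) :
    ∃ c d, SD (HG G f1) z c d := by
  have h1 : SD f1 z (p2 * 1) (p2 * 0) := (SD.id z).comp_holo hf1
  have h2 := h1.lg ha
  have h3 := h2.comp_holo hG
  exact ⟨_, _, h3.mul h1⟩

/-- the Wirtinger derivatives of the outer map -/
lemma SD_OutG {G f f1 : ℂ → ℂ} {w p2 g1 : ℂ} (hw : w ≠ 0)
    (hf : HasStrictDerivAt f (f1 w) w) (hf1 : HasStrictDerivAt f1 p2 w) (ha : f1 w ≠ 0)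
    (hG : HasStrictDerivAt G g1 (lg (f1 w))) :
    SD (OutG G f f1) ((starRingEnd ℂ) w)⁻¹
      (f1 w * (G (lg (f1 w)) - g1 / 2 *
          (starRingEnd ℂ) ((1 - w * (starRingEnd ℂ) w) * w * (p2 / f1 w))))
      (-(w ^ 2) * f1 w * ((1 - G (lg (f1 w))) +
        (G (lg (f1 w)) + g1 / 2) * ((1 - w * (starRingEnd ℂ) w) * (p2 / f1 w)) /
          (starRingEnd ℂ) w)) := by
  have hw' : (starRingEnd ℂ) w ≠ 0 := by simpa using hw
  have ha' : (starRingEnd ℂ) (f1 w) ≠ 0 := by simpa using ha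
  have hx : (starRingEnd ℂ) (((starRingEnd ℂ) w)⁻¹) = w⁻¹ := by simp
  have hx2 : ((starRingEnd ℂ) (((starRingEnd ℂ) w)⁻¹))⁻¹ = w := by simp
  -- Z
  have hZ := ((SD.id (((starRingEnd ℂ) w)⁻¹)).conj).inv (by rw [hx]; exact inv_ne_zero hw)
  have hfZ := hZ.comp_holo (f := f) (f' := f1 w) (by
    show HasStrictDerivAt f (f1 w) (((starRingEnd ℂ) (((starRingEnd ℂ) w)⁻¹))⁻¹)
    rw [hx2]; exact hf)
  have hf1Z := hZ.comp_holo (f := f1) (f' := p2) (by
    show HasStrictDerivAt f1 p2 (((starRingEnd ℂ) (((starRingEnd ℂ) w)⁻¹))⁻¹)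
    rw [hx2]; exact hf1)
  have hlg := hf1Z.lg (by
    show f1 (((starRingEnd ℂ) (((starRingEnd ℂ) w)⁻¹))⁻¹) ≠ 0
    rw [hx2]; exact ha)
  have hGl := hlg.comp_holo (f := G) (f' := g1) (by
    show HasStrictDerivAt G g1 (lg (f1 (((starRingEnd ℂ) (((starRingEnd ℂ) w)⁻¹))⁻¹)))
    rw [hx2]; exact hG)
  have hH := hGl.mul hf1Z
  have hfin := hfZ.add (hH.mul ((SD.id (((starRingEnd ℂ) w)⁻¹)).sub hZ))
  have key : ∀ {c d c' d' : ℂ}, SD (OutG G f f1) ((starRingEnd ℂ) w)⁻¹ c d → c = c' → d = d' →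
      SD (OutG G f f1) ((starRingEnd ℂ) w)⁻¹ c' d' := by
    intro c d c' d' h h1 h2; rw [← h1, ← h2]; exact h
  refine key hfin ?_ ?_
  · generalize hGG : G (lg (f1 w)) = gg
    simp only [hx, inv_inv, map_mul, map_one, map_zero, map_neg, map_pow, map_inv₀,
      map_div₀, map_sub, Complex.conj_conj, hGG]
    field_simp
    ring
  · generalize hGG : G (lg (f1 w)) = gg
    simp only [hx, inv_inv, map_mul, map_one, map_zero, map_neg, map_pow, map_inv₀,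
      map_div₀, map_sub, Complex.conj_conj, hGG]
    field_simp
    ring

end Pool.Agent.Helper428.John
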