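import Mathlib
open Complex Set Filter Topology Metric
namespace Pool.Agent.Helper428.John
/-- Gluing two strictly differentiable maps along the unit circle: the glued map is still
close to the linear map `b` near the point `x` of the circle. -/
theorem seam_approx (f g Φ : ℂ → ℂ) (x b c d : ℂ) (k : ℝ)
    (hf : HasStrictFDerivAt f (b • (1 : ℂ →L[ℝ] ℂ)) x)
    (hg : HasStrictFDerivAt g (c • (1 : ℂ →L[ℝ] ℂ) + d • (Complex.conjCLE : ℂ →L[ℝ] ℂ)) x)
    (hk : ∀ v : ℂ, ‖c * v + d * (starRingEnd ℂ) v - b * v‖ ≤ k * ‖v‖) (hkb : k < ‖b‖)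
    (hfg : ∀ᶠ y in 𝓝 x, ‖y‖ = 1 → f y = g y)
    (hΦ : ∀ᶠ y in 𝓝 x, Φ y = if ‖y‖ ≤ 1 then f y else g y) :
    ∃ k' : ℝ, k' < ‖b‖ ∧ ∃ U ∈ 𝓝 x, ∀ p ∈ U, ∀ q ∈ U,
      ‖Φ p - Φ q - b * (p - q)‖ ≤ k' * ‖p - q‖ := by
  have hk0 : 0 ≤ k := by
    have h2 := (norm_nonneg _).trans (hk 1)
    simpa using h2
  obtain ⟨ε, hε, hεk⟩ : ∃ ε : ℝ, 0 < ε ∧ ε + k < ‖b‖ := ⟨(‖b‖ - k)/2, by linarith, by linarith⟩
  have hfo := hf.isLittleO.def hε
  have hgo := hg.isLittleO.def hε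
  obtain ⟨r1, hr1, h1⟩ := Metric.eventually_nhds_iff.1 hfo
  obtain ⟨r2, hr2, h2⟩ := Metric.eventually_nhds_iff.1 hgo
  obtain ⟨r3, hr3, h3⟩ := Metric.eventually_nhds_iff.1 hfg
  obtain ⟨r4, hr4, h4⟩ := Metric.eventually_nhds_iff.1 hΦ
  obtain ⟨r, hr, hrr1, hrr2, hrr3, hrr4⟩ : ∃ r : ℝ, 0 < r ∧ r ≤ r1 ∧ r ≤ r2 ∧ r ≤ r3 ∧ r ≤ r4 :=
    ⟨min (min r1 r2) (min r3 r4), by positivity,
      (min_le_left _ _).trans (min_le_left _ _), (min_le_left _ _).trans (min_le_right _ _),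
      (min_le_right _ _).trans (min_le_left _ _), (min_le_right _ _).trans (min_le_right _ _)⟩
  have A : ∀ p ∈ ball x r, ∀ q ∈ ball x r, ‖f p - f q - b * (p - q)‖ ≤ ε * ‖p - q‖ := by
    intro p hp q hq
    have := @h1 (p, q) (by
      rw [Prod.dist_eq]
      exact max_lt (lt_of_lt_of_le (mem_ball.1 hp) hrr1) (lt_of_lt_of_le (mem_ball.1 hq) hrr1))
    simpa using this
  have B0 : ∀ p ∈ ball x r, ∀ q ∈ ball x r,
      ‖g p - g q - (c * (p - q) + d * (starRingEnd ℂ) (p - q))‖ ≤ ε * ‖p - q‖ := by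
    intro p hp q hq
    have := @h2 (p, q) (by
      rw [Prod.dist_eq]
      exact max_lt (lt_of_lt_of_le (mem_ball.1 hp) hrr2) (lt_of_lt_of_le (mem_ball.1 hq) hrr2))
    simpa using this
  have B : ∀ p ∈ ball x r, ∀ q ∈ ball x r, ‖g p - g q - b * (p - q)‖ ≤ (ε + k) * ‖p - q‖ := by
    intro p hp q hq
    have e1 : g p - g q - b * (p - q) = (g p - g q - (c * (p - q) + d * (starRingEnd ℂ) (p - q))) +
      (c * (p - q) + d * (starRingEnd ℂ) (p - q) - b * (p - q)) := by ring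
    rw [e1]
    refine (norm_add_le _ _).trans ?_
    have := B0 p hp q hq
    have := hk (p - q)
    linarith
  have C : ∀ p ∈ ball x r, ‖p‖ = 1 → f p = g p := by
    intro p hp
    exact @h3 p (lt_of_lt_of_le (mem_ball.1 hp) hrr3)
  have D : ∀ p ∈ ball x r, Φ p = if ‖p‖ ≤ 1 then f p else g p := by
    intro p hp
    exact @h4 p (lt_of_lt_of_le (mem_ball.1 hp) hrr4)
  have mixed : ∀ p ∈ ball x r, ∀ q ∈ ball x r, ‖p‖ ≤ 1 → ¬ ‖q‖ ≤ 1 →
      ‖Φ p - Φ q - b * (p - q)‖ ≤ (ε + k) * ‖p - q‖ := by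
    intro p hp q hq hp1 hq1
    rw [D p hp, D q hq, if_pos hp1, if_neg hq1]
    push Not at hq1
    have hcont : ContinuousOn (fun t : ℝ => ‖p + t • (q - p)‖) (Set.Icc 0 1) := by fun_prop
    have hivt := intermediate_value_Icc (zero_le_one (α := ℝ)) hcont
    have hmem : (1:ℝ) ∈ Set.Icc (‖p + (0:ℝ) • (q - p)‖) (‖p + (1:ℝ) • (q - p)‖) := by
      constructor
      · simpa using hp1
      · simpa using hq1.le
    obtain ⟨t, ht, hte⟩ := hivt hmem
    obtain ⟨e, he⟩ : ∃ e : ℂ, e = p + t • (q - p) := ⟨_, rfl⟩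
    have heb : e ∈ ball x r := by
      rw [he]
      exact (convex_ball x r).add_smul_sub_mem hp hq ht
    have he1 : ‖e‖ = 1 := by rw [he]; exact hte
    have hpe : p - e = (t:ℂ) * (p - q) := by
      rw [he, Complex.real_smul]; ring
    have heq : e - q = ((1 - t : ℝ) : ℂ) * (p - q) := by
      rw [he, Complex.real_smul]; push_cast; ring
    have e1 : f p - g q - b * (p - q) = (f p - f e - b * (p - e)) + (g e - g q - b * (e - q)) := by
      rw [C e heb he1]; ring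
    rw [e1]
    refine (norm_add_le _ _).trans ?_
    have hA := A p hp e heb
    have hB := B e heb q hq
    have n1 : ‖p - e‖ = t * ‖p - q‖ := by
      rw [hpe, norm_mul, Complex.norm_real, Real.norm_of_nonneg ht.1]
    have n2 : ‖e - q‖ = (1 - t) * ‖p - q‖ := by
      rw [heq, norm_mul, Complex.norm_real, Real.norm_of_nonneg (by linarith [ht.2])]
    rw [n1] at hA
    rw [n2] at hB
    have hpq := norm_nonneg (p - q)
    have h5 : 0 ≤ k * (t * ‖p - q‖) := mul_nonneg hk0 (mul_nonneg ht.1 hpq)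
    nlinarith
  refine ⟨ε + k, hεk, ball x r, ball_mem_nhds x hr, ?_⟩
  intro p hp q hq
  by_cases hp1 : ‖p‖ ≤ 1
  · by_cases hq1 : ‖q‖ ≤ 1
    · rw [D p hp, D q hq, if_pos hp1, if_pos hq1]
      refine (A p hp q hq).trans ?_
      have := mul_nonneg hk0 (norm_nonneg (p - q))
      linarith
    · exact mixed p hp q hq hp1 hq1
  · by_cases hq1 : ‖q‖ ≤ 1
    · have := mixed q hq p hp hq1 hp1
      rw [norm_sub_rev q p] at this
      have e1 : Φ p - Φ q - b * (p - q) = -(Φ q - Φ p - b * (q - p)) := by ring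
      rw [e1, norm_neg]
      exact this
    · rw [D p hp, D q hq, if_neg hp1, if_neg hq1]
      exact B p hp q hq
end Pool.Agent.Helper428.John
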