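import Mathlib
open Complex Set Filter Topology Metric
namespace Pool.Agent.Helper428.John
theorem inj_near_infty (f H : ℂ → ℂ) (ρ δ Λ : ℝ) (hρ : 0 < ρ) (hδ : 0 < δ)
    (hf : ∀ x y : ℂ, ‖x‖ < ρ → ‖y‖ < ρ → ‖f x - f y‖ ≤ Λ * ‖x - y‖)
    (hH : ∀ x y : ℂ, ‖x‖ < ρ → ‖y‖ < ρ → ‖H x - H y‖ ≤ Λ * ‖x - y‖)
    (hH0 : ∀ x : ℂ, ‖x‖ < ρ → δ ≤ ‖H x‖) (hH1 : ∀ x : ℂ, ‖x‖ < ρ → ‖H x‖ ≤ Λ) :
    ∃ R : ℝ, ∀ a b : ℂ, R < ‖a‖ → R < ‖b‖ →
      f ((starRingEnd ℂ) a)⁻¹ + H ((starRingEnd ℂ) a)⁻¹ * (a - ((starRingEnd ℂ) a)⁻¹) =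
      f ((starRingEnd ℂ) b)⁻¹ + H ((starRingEnd ℂ) b)⁻¹ * (b - ((starRingEnd ℂ) b)⁻¹) → a = b := by
  have hΛ : 0 < Λ := by
    have h1 := hH0 0 (by simpa using hρ)
    have h2 := hH1 0 (by simpa using hρ)
    linarith
  refine ⟨1 + 1 / ρ + Λ * (3 + ρ) / δ, ?_⟩
  intro a b ha hb heq
  have hρi : 0 < 1 / ρ := by positivity
  have hc : 0 < Λ * (3 + ρ) / δ := by positivity
  have ha1 : 1 < ‖a‖ := by linarith
  have hb1 : 1 < ‖b‖ := by linarith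
  have haρ : 1 / ρ < ‖a‖ := by linarith
  have hbρ : 1 / ρ < ‖b‖ := by linarith
  have hac : Λ * (3 + ρ) / δ < ‖a‖ := by linarith
  have ha0 : a ≠ 0 := by
    intro h
    rw [h, norm_zero] at ha1
    linarith
  have hb0 : b ≠ 0 := by
    intro h
    rw [h, norm_zero] at hb1
    linarith
  set x : ℂ := ((starRingEnd ℂ) a)⁻¹ with hx
  set y : ℂ := ((starRingEnd ℂ) b)⁻¹ with hy
  have hxn : ‖x‖ = ‖a‖⁻¹ := by rw [hx, norm_inv, RCLike.norm_conj]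
  have hyn : ‖y‖ = ‖b‖⁻¹ := by rw [hy, norm_inv, RCLike.norm_conj]
  have hxρ : ‖x‖ < ρ := by
    rw [hxn, inv_lt_comm₀ (by linarith) hρ, ← one_div]
    exact haρ
  have hyρ : ‖y‖ < ρ := by
    rw [hyn, inv_lt_comm₀ (by linarith) hρ, ← one_div]
    exact hbρ
  have hca : (starRingEnd ℂ) a ≠ 0 := by
    intro h
    apply ha0
    simpa using h
  have hcb : (starRingEnd ℂ) b ≠ 0 := by
    intro h
    apply hb0
    simpa using h
  have hxy : ‖x - y‖ * (‖a‖ * ‖b‖) = ‖a - b‖ := by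
    have e1 : x - y = ((starRingEnd ℂ) (b - a)) * (x * y) := by
      rw [hx, hy, map_sub]
      field_simp
    rw [e1, norm_mul, norm_mul, RCLike.norm_conj, hxn, hyn, norm_sub_rev b a]
    have h1 : ‖a‖ ≠ 0 := by linarith
    have h2 : ‖b‖ ≠ 0 := by linarith
    field_simp
  have hid : H x * (a - b) = (f y - f x) + (H y - H x) * b + ((H x - H y) * x + H y * (x - y)) := by
    linear_combination heq
  have h1 : δ * ‖a - b‖ ≤ Λ * ‖x - y‖ * (2 + ρ + ‖b‖) := by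
    calc δ * ‖a - b‖ ≤ ‖H x‖ * ‖a - b‖ := mul_le_mul_of_nonneg_right (hH0 x hxρ) (norm_nonneg _)
      _ = ‖H x * (a - b)‖ := (norm_mul _ _).symm
      _ = ‖(f y - f x) + (H y - H x) * b + ((H x - H y) * x + H y * (x - y))‖ := by rw [hid]
      _ ≤ ‖f y - f x‖ + ‖(H y - H x) * b‖ + (‖(H x - H y) * x‖ + ‖H y * (x - y)‖) := by
          refine le_trans (norm_add_le _ _) (add_le_add (norm_add_le _ _) (norm_add_le _ _))
      _ ≤ Λ * ‖x - y‖ + Λ * ‖x - y‖ * ‖b‖ + (Λ * ‖x - y‖ * ρ + Λ * ‖x - y‖) := by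
          rw [norm_mul, norm_mul, norm_mul]
          have g1 := hf y x hyρ hxρ
          rw [norm_sub_rev y x] at g1
          have g2 := hH y x hyρ hxρ
          rw [norm_sub_rev y x] at g2
          have g3 := hH x y hxρ hyρ
          have g4 := hH1 y hyρ
          refine add_le_add (add_le_add g1 (mul_le_mul_of_nonneg_right g2 (norm_nonneg _)))
            (add_le_add ?_ (mul_le_mul_of_nonneg_right g4 (norm_nonneg _)))
          exact mul_le_mul g3 hxρ.le (norm_nonneg _) (by positivity)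
      _ = Λ * ‖x - y‖ * (2 + ρ + ‖b‖) := by ring
  by_contra hne
  have hab : 0 < ‖a - b‖ := norm_pos_iff.2 (sub_ne_zero.2 hne)
  have hA : 0 < ‖a‖ := by linarith
  have hB : 0 < ‖b‖ := by linarith
  have hxy0 : 0 < ‖x - y‖ := by
    rcases (norm_nonneg (x - y)).lt_or_eq with h | h
    · exact h
    · exfalso
      rw [← h, zero_mul] at hxy
      linarith
  rw [← hxy] at h1
  have h2 : δ * (‖a‖ * ‖b‖) ≤ Λ * (2 + ρ + ‖b‖) := by
    have h3 : ‖x - y‖ * (δ * (‖a‖ * ‖b‖)) ≤ ‖x - y‖ * (Λ * (2 + ρ + ‖b‖)) := by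
      calc ‖x - y‖ * (δ * (‖a‖ * ‖b‖)) = δ * (‖x - y‖ * (‖a‖ * ‖b‖)) := by ring
        _ ≤ Λ * ‖x - y‖ * (2 + ρ + ‖b‖) := h1
        _ = ‖x - y‖ * (Λ * (2 + ρ + ‖b‖)) := by ring
    exact le_of_mul_le_mul_left h3 hxy0
  have h4 : Λ * (3 + ρ) < δ * ‖a‖ := by
    rw [div_lt_iff₀ hδ] at hac
    linarith
  have h5 : Λ * (2 + ρ + ‖b‖) ≤ Λ * (3 + ρ) * ‖b‖ := by
    have h6 : 0 ≤ Λ * (2 + ρ) * (‖b‖ - 1) := by
      apply mul_nonneg (by positivity)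
      linarith
    linarith
  have h7 : Λ * (3 + ρ) * ‖b‖ < δ * ‖a‖ * ‖b‖ := mul_lt_mul_of_pos_right h4 hB
  linarith
end Pool.Agent.Helper428.John
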