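import Mathlib
namespace Pool.Agent.Helper428.John
theorem key_ineq2 (g g1 σ : ℝ) (q : ℂ) (hg1 : 1/2 < g) (hg2 : g < 1) (hs0 : 0 < σ) (hs1 : σ ≤ 1)
    (hq1 : ‖q‖ * g < σ) (hq2 : ‖q‖ * |g + g1| < σ * (2*g - 1)) :
    ‖((σ^2 : ℝ) : ℂ) * (1 - (g:ℂ)) + ((g + g1/2 : ℝ) : ℂ) * q‖ <
      ‖(g : ℂ) - ((g1/2 : ℝ) : ℂ) * (starRingEnd ℂ) q‖ := by
  have hr0 : 0 ≤ ‖q‖ := norm_nonneg q
  have hr2 : ‖q‖ ^ 2 = q.re * q.re + q.im * q.im := by
    rw [Complex.sq_norm, Complex.normSq_apply]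
  have hx := abs_le.1 (Complex.abs_re_le_norm q)
  -- auxiliary inequalities
  have e1 : σ * (2*g - 1) ≤ g - σ^2 * (1 - g) := by
    have : 0 ≤ (1 - σ) * (g + (1 - g) * σ) := by
      apply mul_nonneg (by linarith)
      have : 0 ≤ (1 - g) * σ := mul_nonneg (by linarith) hs0.le
      linarith
    nlinarith [this]
  have e2 : σ ≤ g + σ^2 * (1 - g) := by
    have : 0 ≤ (1 - σ) * (g - (1 - g) * σ) := by
      apply mul_nonneg (by linarith)
      have : (1 - g) * σ ≤ (1 - g) * 1 := mul_le_mul_of_nonneg_left hs1 (by linarith)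
      linarith
    nlinarith [this]
  have hab := abs_le.1 (le_of_eq (rfl : |g + g1| = |g + g1|))
  have h3 : ‖q‖ * (g + g1) ≤ ‖q‖ * |g + g1| := mul_le_mul_of_nonneg_left (le_abs_self _) hr0
  have h4 : -(‖q‖ * |g + g1|) ≤ ‖q‖ * (g + g1) := by
    have := mul_le_mul_of_nonneg_left (neg_abs_le (g + g1)) hr0
    linarith
  have hA1 : 0 < g - σ^2 * (1 - g) - (g + g1) * ‖q‖ := by nlinarith
  have hA2 : 0 < g - σ^2 * (1 - g) + (g + g1) * ‖q‖ := by nlinarith
  have hsb : 0 ≤ σ^2 * (1 - g) := mul_nonneg (by positivity) (by linarith)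
  have hB1 : 0 < g + σ^2 * (1 - g) + g * ‖q‖ := by
    have : 0 ≤ g * ‖q‖ := mul_nonneg (by linarith) hr0
    linarith
  have hB2 : 0 < g + σ^2 * (1 - g) - g * ‖q‖ := by nlinarith
  have hD1 : 0 < (g - σ^2 * (1 - g) - (g + g1) * ‖q‖) * (g + σ^2 * (1 - g) + g * ‖q‖) :=
    mul_pos hA1 hB1
  have hD2 : 0 < (g - σ^2 * (1 - g) + (g + g1) * ‖q‖) * (g + σ^2 * (1 - g) - g * ‖q‖) :=
    mul_pos hA2 hB2
  apply lt_of_pow_lt_pow_left₀ 2 (norm_nonneg _)
  rw [Complex.sq_norm, Complex.sq_norm, Complex.normSq_apply, Complex.normSq_apply]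
  simp only [Complex.add_re, Complex.add_im, Complex.mul_re, Complex.mul_im, Complex.sub_re,
    Complex.sub_im, Complex.ofReal_re, Complex.ofReal_im, Complex.one_re, Complex.one_im,
    Complex.conj_re, Complex.conj_im, zero_mul, mul_zero, sub_zero, add_zero, zero_add, zero_sub]
  rcases hr0.eq_or_lt with h0 | h0
  · have hq : q = 0 := norm_eq_zero.1 h0.symm
    rw [← h0] at hD1
    simp only [hq, Complex.zero_re, Complex.zero_im, mul_zero, add_zero, sub_zero, neg_zero]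
    nlinarith
  · rw [← sub_pos]
    have key : (2 * ‖q‖) * ((g - g1/2 * q.re) * (g - g1/2 * q.re) + (g1/2 * q.im) * (g1/2 * q.im)
        - ((σ^2 * (1 - g) + (g + g1/2) * q.re) * (σ^2 * (1 - g) + (g + g1/2) * q.re)
          + ((g + g1/2) * q.im) * ((g + g1/2) * q.im)))
        = (‖q‖ + q.re) * ((g - σ^2 * (1 - g) - (g + g1) * ‖q‖) * (g + σ^2 * (1 - g) + g * ‖q‖))
          + (‖q‖ - q.re) * ((g - σ^2 * (1 - g) + (g + g1) * ‖q‖) * (g + σ^2 * (1 - g) - g * ‖q‖)) := by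
      have him : q.im * q.im = ‖q‖ ^ 2 - q.re * q.re := by rw [hr2]; ring
      linear_combination (2 * ‖q‖ * ((g1/2)^2 - (g + g1/2)^2)) * him
    have hpos : 0 < (‖q‖ + q.re) * ((g - σ^2 * (1 - g) - (g + g1) * ‖q‖) * (g + σ^2 * (1 - g) + g * ‖q‖))
          + (‖q‖ - q.re) * ((g - σ^2 * (1 - g) + (g + g1) * ‖q‖) * (g + σ^2 * (1 - g) - g * ‖q‖)) := by
      rcases le_total 0 q.re with hc | hc
      · have p1 : 0 < ‖q‖ + q.re := by linarith
        have p2 : 0 ≤ ‖q‖ - q.re := by linarith [hx.2]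
        have := mul_pos p1 hD1
        have := mul_nonneg p2 hD2.le
        linarith
      · have p1 : 0 ≤ ‖q‖ + q.re := by linarith [hx.1]
        have p2 : 0 < ‖q‖ - q.re := by linarith
        have := mul_nonneg p1 hD1.le
        have := mul_pos p2 hD2
        linarith
    rw [← key] at hpos
    have := (mul_pos_iff_of_pos_left (by linarith : (0:ℝ) < 2 * ‖q‖)).1 hpos
    convert this using 1
    ring
end Pool.Agent.Helper428.John
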