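import Mathlib
import Pool.Agent.Helper428.John1
import Pool.Agent.Helper428.John4
import Pool.Agent.Helper428.JohnD
import Pool.Agent.Helper428.JohnF
import Pool.Agent.Helper428.JohnI2

set_option autoImplicit false

open Complex Set Filter Topology Metric

namespace Pool.Agent.Helper428.John

/-- General injectivity criterion on the closed disc, with a multiplier `G(log|f'|)`. -/
theorem injOn_closedBall_G {R : ℝ} (hR : 1 < R) {f f1 f2 : ℂ → ℂ}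
    (hf : ∀ z ∈ ball (0:ℂ) R, HasStrictDerivAt f (f1 z) z)
    (hf1 : ∀ z ∈ ball (0:ℂ) R, HasStrictDerivAt f1 (f2 z) z)
    {G : ℂ → ℂ} {g g' : ℝ → ℝ} {m M₀ : ℝ} (hm : 0 < m)
    (hlow : ∀ z ∈ ball (0:ℂ) R, m ≤ ‖f1 z‖) (hup : ∀ z ∈ ball (0:ℂ) R, ‖f1 z‖ ≤ M₀)
    (hG : ∀ z ∈ ball (0:ℂ) R,
      HasStrictDerivAt G ((g' (Real.log ‖f1 z‖) : ℝ) : ℂ) (lg (f1 z)))
    (hGv : ∀ z ∈ ball (0:ℂ) R, G (lg (f1 z)) = ((g (Real.log ‖f1 z‖) : ℝ) : ℂ))
    (hg1 : ∀ z ∈ ball (0:ℂ) R, 1/2 < g (Real.log ‖f1 z‖))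
    (hg2 : ∀ z ∈ ball (0:ℂ) R, g (Real.log ‖f1 z‖) < 1)
    (hc1 : ∀ z ∈ ball (0:ℂ) 1,
      (1 - ‖z‖ ^ 2) * ‖f2 z / f1 z‖ * g (Real.log ‖f1 z‖) < 1)
    (hc2 : ∀ z ∈ ball (0:ℂ) 1,
      (1 - ‖z‖ ^ 2) * ‖f2 z / f1 z‖ * |g (Real.log ‖f1 z‖) + g' (Real.log ‖f1 z‖)| <
        2 * g (Real.log ‖f1 z‖) - 1) :
    InjOn f (closedBall 0 1) := by
  have hsub : closedBall (0:ℂ) 1 ⊆ ball (0:ℂ) R := closedBall_subset_ball hR
  have hne : ∀ z ∈ ball (0:ℂ) R, f1 z ≠ 0 := fun z hz => by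
    have := hlow z hz
    exact norm_pos_iff.1 (lt_of_lt_of_le hm this)
  -- reflection facts
  have hrefl : ∀ x : ℂ, 1 ≤ ‖x‖ → ((starRingEnd ℂ) x)⁻¹ ∈ closedBall (0:ℂ) 1 := fun x hx => by
    rw [mem_closedBall_zero_iff, norm_inv, Complex.norm_conj]
    exact inv_le_one_of_one_le₀ hx
  have hrefl2 : ∀ x : ℂ, 1 < ‖x‖ → ((starRingEnd ℂ) x)⁻¹ ∈ ball (0:ℂ) 1 := fun x hx => by
    rw [mem_ball_zero_iff, norm_inv, Complex.norm_conj]
    exact inv_lt_one_of_one_lt₀ hx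
  have hconj : ∀ x : ℂ, ((starRingEnd ℂ) (((starRingEnd ℂ) x)⁻¹))⁻¹ = x := fun x => by simp
  -- the glued map
  set Φ : ℂ → ℂ := fun ζ => if ‖ζ‖ ≤ 1 then f ζ else OutG G f f1 ζ with hΦ
  -- local homeomorphism for Out outside the closed disc
  have hLHout : ∀ x : ℂ, 1 < ‖x‖ → LH (OutG G f f1) x := by
    intro x hx
    set w := ((starRingEnd ℂ) x)⁻¹ with hw
    have hwb : w ∈ ball (0:ℂ) 1 := hrefl2 x hx
    have hwR : w ∈ ball (0:ℂ) R := hsub (ball_subset_closedBall hwb)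
    have hw0 : w ≠ 0 := by
      have : x ≠ 0 := by rintro rfl; simp at hx; linarith
      simpa [hw] using this
    have hSD := SD_OutG hw0 (hf w hwR) (hf1 w hwR) (hne w hwR) (hG w hwR)
    have hxw : ((starRingEnd ℂ) w)⁻¹ = x := hconj x
    rw [hxw, hGv w hwR] at hSD
    apply hSD.LH
    have ha : 0 < ‖f1 w‖ := norm_pos_iff.2 (hne w hwR)
    have hG1 := hg1 w hwR
    have hG2 := hg2 w hwR
    have hcr1 := hc1 w hwb
    have hcr2 := hc2 w hwb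
    set gg : ℝ := g (Real.log ‖f1 w‖) with hgg
    set gg' : ℝ := g' (Real.log ‖f1 w‖) with hgg'
    have hwn : ‖w‖ < 1 := mem_ball_zero_iff.1 hwb
    have hwn0 : 0 < ‖w‖ := norm_pos_iff.2 hw0
    have hww : w * (starRingEnd ℂ) w = ((‖w‖ ^ 2 : ℝ) : ℂ) := by
      rw [Complex.mul_conj, Complex.normSq_eq_norm_sq]
    set q : ℂ := (1 - w * (starRingEnd ℂ) w) * w * (f2 w / f1 w) with hq
    have h1mw : ‖(1 : ℂ) - w * (starRingEnd ℂ) w‖ = 1 - ‖w‖ ^ 2 := by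
      rw [hww]
      have : (1 : ℂ) - ((‖w‖ ^ 2 : ℝ) : ℂ) = ((1 - ‖w‖ ^ 2 : ℝ) : ℂ) := by push_cast; ring
      rw [this, Complex.norm_real, Real.norm_of_nonneg]
      nlinarith
    have hqe : ‖q‖ = ‖w‖ * ((1 - ‖w‖ ^ 2) * ‖f2 w / f1 w‖) := by
      rw [hq, norm_mul, norm_mul, h1mw]; ring
    have hq1 : ‖q‖ * gg < ‖w‖ := by
      rw [hqe]
      calc ‖w‖ * ((1 - ‖w‖ ^ 2) * ‖f2 w / f1 w‖) * gg
          = ‖w‖ * ((1 - ‖w‖ ^ 2) * ‖f2 w / f1 w‖ * gg) := by ring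
        _ < ‖w‖ * 1 := mul_lt_mul_of_pos_left hcr1 hwn0
        _ = ‖w‖ := mul_one _
    have hq2 : ‖q‖ * |gg + gg'| < ‖w‖ * (2 * gg - 1) := by
      rw [hqe]
      calc ‖w‖ * ((1 - ‖w‖ ^ 2) * ‖f2 w / f1 w‖) * |gg + gg'|
          = ‖w‖ * ((1 - ‖w‖ ^ 2) * ‖f2 w / f1 w‖ * |gg + gg'|) := by ring
        _ < ‖w‖ * (2 * gg - 1) := mul_lt_mul_of_pos_left hcr2 hwn0
    have key := key_ineq2 gg gg' ‖w‖ q hG1 hG2 hwn0 hwn.le hq1 hq2
    have hc : ‖f1 w * ((gg : ℂ) - (gg' : ℂ) / 2 * (starRingEnd ℂ) q)‖ =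
        ‖f1 w‖ * ‖(gg : ℂ) - ((gg'/2 : ℝ) : ℂ) * (starRingEnd ℂ) q‖ := by
      rw [norm_mul]; congr 2; push_cast; ring
    have hw'0 : (starRingEnd ℂ) w ≠ 0 := by simpa using hw0
    have hd : ‖-(w ^ 2) * f1 w * ((1 - (gg : ℂ)) +
        ((gg : ℂ) + (gg' : ℂ) / 2) * ((1 - w * (starRingEnd ℂ) w) * (f2 w / f1 w)) /
          (starRingEnd ℂ) w)‖ =
        ‖f1 w‖ * ‖((‖w‖ ^ 2 : ℝ) : ℂ) * (1 - (gg:ℂ)) + ((gg + gg'/2 : ℝ) : ℂ) * q‖ := by
      have e1 : -(w ^ 2) * f1 w * ((1 - (gg : ℂ)) +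
        ((gg : ℂ) + (gg' : ℂ) / 2) * ((1 - w * (starRingEnd ℂ) w) * (f2 w / f1 w)) /
          (starRingEnd ℂ) w) =
        -(w / (starRingEnd ℂ) w) * (f1 w * (((‖w‖ ^ 2 : ℝ) : ℂ) * (1 - (gg:ℂ)) +
          ((gg + gg'/2 : ℝ) : ℂ) * q)) := by
        rw [← hww, hq]
        push_cast
        field_simp
      rw [e1, norm_mul, norm_neg, norm_div, Complex.norm_conj, div_self hwn0.ne', one_mul,
        norm_mul]
    rw [hd, hc]
    exact mul_lt_mul_of_pos_left key ha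
  -- continuity of Out etc. comes from LH
  have hLH : ∀ x, LH Φ x := by
    intro x
    rcases lt_trichotomy ‖x‖ 1 with hx | hx | hx
    · -- inside
      have hxR : x ∈ ball (0:ℂ) R := hsub (by rw [mem_closedBall_zero_iff]; exact hx.le)
      have h1 : SD f x (f1 x * 1) (f1 x * 0) := (SD.id x).comp_holo (hf x hxR)
      have h2 : SD Φ x (f1 x * 1) (f1 x * 0) := by
        apply h1.congr_of_eventuallyEq
        have : ∀ᶠ y in 𝓝 x, ‖y‖ < 1 := (continuous_norm.tendsto x).eventually (gt_mem_nhds hx)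
        filter_upwards [this] with y hy
        simp [hΦ, hy.le]
      apply h2.LH
      simpa using hne x hxR
    · -- seam
      have hxR : x ∈ ball (0:ℂ) R := hsub (by rw [mem_closedBall_zero_iff]; exact hx.le)
      have hx0 : x ≠ 0 := by rintro rfl; simp at hx
      have hxx : x * (starRingEnd ℂ) x = 1 := by
        rw [Complex.mul_conj, Complex.normSq_eq_norm_sq, hx]; simp
      have hxinv : ((starRingEnd ℂ) x)⁻¹ = x := inv_eq_of_mul_eq_one_left hxx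
      have hSD := SD_OutG hx0 (hf x hxR) (hf1 x hxR) (hne x hxR) (hG x hxR)
      rw [hxinv, hGv x hxR] at hSD
      have ha : 0 < ‖f1 x‖ := norm_pos_iff.2 (hne x hxR)
      have hG1 := hg1 x hxR
      have hG2 := hg2 x hxR
      set gg : ℝ := g (Real.log ‖f1 x‖) with hgg
      set gg' : ℝ := g' (Real.log ‖f1 x‖) with hgg'
      have h1 : HasStrictFDerivAt f (f1 x • (1 : ℂ →L[ℝ] ℂ)) x := by
        have h1 : SD f x (f1 x * 1) (f1 x * 0) := (SD.id x).comp_holo (hf x hxR)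
        exact HasStrictFDerivAt.congr_fderiv h1 (by ext v; simp)
      have q1 : ∀ v : ℂ, ‖f1 x * ((gg : ℂ) - (gg' : ℂ) / 2 *
            (starRingEnd ℂ) ((1 - x * (starRingEnd ℂ) x) * x * (f2 x / f1 x))) * v +
            -(x ^ 2) * f1 x * ((1 - (gg : ℂ)) +
              ((gg : ℂ) + (gg' : ℂ) / 2) * ((1 - x * (starRingEnd ℂ) x) * (f2 x / f1 x)) /
                (starRingEnd ℂ) x) *
                (starRingEnd ℂ) v - f1 x * v‖ ≤ 2 * (1 - gg) * ‖f1 x‖ * ‖v‖ := by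
        intro v
        rw [hxx]
        have e1 : f1 x * ((gg : ℂ) - (gg' : ℂ) / 2 *
            (starRingEnd ℂ) ((1 - 1) * x * (f2 x / f1 x))) * v +
            -(x ^ 2) * f1 x * ((1 - (gg : ℂ)) +
              ((gg : ℂ) + (gg' : ℂ) / 2) * ((1 - 1) * (f2 x / f1 x)) / (starRingEnd ℂ) x) *
                (starRingEnd ℂ) v - f1 x * v =
            -(f1 x * (1 - (gg : ℂ)) * (v + x ^ 2 * (starRingEnd ℂ) v)) := by
          simp
          ring
        rw [e1, norm_neg, norm_mul, norm_mul]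
        have e2 : ‖(1 : ℂ) - (gg : ℂ)‖ = 1 - gg := by
          have : (1 : ℂ) - (gg : ℂ) = ((1 - gg : ℝ) : ℂ) := by push_cast; ring
          rw [this, Complex.norm_real, Real.norm_of_nonneg (by linarith)]
        have e3 : ‖v + x ^ 2 * (starRingEnd ℂ) v‖ ≤ 2 * ‖v‖ := by
          refine (norm_add_le _ _).trans ?_
          rw [norm_mul, norm_pow, hx, Complex.norm_conj]; linarith
        rw [e2]
        have : 0 ≤ ‖f1 x‖ * (1 - gg) := mul_nonneg ha.le (by linarith)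
        calc ‖f1 x‖ * (1 - gg) * ‖v + x ^ 2 * (starRingEnd ℂ) v‖
            ≤ ‖f1 x‖ * (1 - gg) * (2 * ‖v‖) := mul_le_mul_of_nonneg_left e3 this
          _ = 2 * (1 - gg) * ‖f1 x‖ * ‖v‖ := by ring
      have q2 : 2 * (1 - gg) * ‖f1 x‖ < ‖f1 x‖ := by nlinarith
      have q3 : ∀ᶠ y in 𝓝 x, ‖y‖ = 1 → f y = OutG G f f1 y := by
        filter_upwards with y hy
        have hyy : y * (starRingEnd ℂ) y = 1 := by
          rw [Complex.mul_conj, Complex.normSq_eq_norm_sq, hy]; simp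
        have hyinv : ((starRingEnd ℂ) y)⁻¹ = y := inv_eq_of_mul_eq_one_left hyy
        rw [OutG_eq, hyinv]; ring
      have q4 : ∀ᶠ y in 𝓝 x, Φ y = if ‖y‖ ≤ 1 then f y else OutG G f f1 y := by
        filter_upwards with y
        rfl
      obtain ⟨k', hk', U, hU, hUU⟩ := seam_approx f (OutG G f f1) Φ x (f1 x) _ _
        (2 * (1 - gg) * ‖f1 x‖) h1 hSD q1 q2 q3 q4
      exact LH_of_approx Φ x (f1 x) k' hk' U hU hUU
    · -- outside
      obtain ⟨⟨U, hU, hinj⟩, hmap⟩ := hLHout x hx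
      have hev : ∀ᶠ y in 𝓝 x, 1 < ‖y‖ := (continuous_norm.tendsto x).eventually (lt_mem_nhds hx)
      have heq : Φ =ᶠ[𝓝 x] OutG G f f1 := by
        filter_upwards [hev] with y hy
        simp [hΦ, not_le.2 hy]
      refine ⟨⟨U ∩ {y | 1 < ‖y‖}, inter_mem hU hev, ?_⟩, ?_⟩
      · intro a ha b hb hab
        have ha' : Φ a = OutG G f f1 a := by simp [hΦ, not_le.2 (show 1 < ‖a‖ from ha.2)]
        have hb' : Φ b = OutG G f f1 b := by simp [hΦ, not_le.2 (show 1 < ‖b‖ from hb.2)]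
        rw [ha', hb'] at hab
        exact hinj ha.1 hb.1 hab
      · rw [Filter.map_congr heq, hmap, heq.eq_of_nhds]
  have hcont : Continuous Φ := continuous_iff_continuousAt.2 fun x => (hLH x).2.le
  -- bounds
  have hfc : ContinuousOn f (closedBall (0:ℂ) 1) := fun z hz =>
    (hf z (hsub hz)).hasDerivAt.continuousAt.continuousWithinAt
  obtain ⟨C₀, hC₀⟩ := (isCompact_closedBall (0:ℂ) 1).exists_bound_of_continuousOn hfc
  have hHH : ∀ z ∈ ball (0:ℂ) R, ‖HG G f1 z‖ = g (Real.log ‖f1 z‖) * ‖f1 z‖ := by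
    intro z hz
    unfold HG
    rw [hGv z hz, norm_mul, Complex.norm_real, Real.norm_of_nonneg (by linarith [hg1 z hz])]
  have hHlow : ∀ z ∈ ball (0:ℂ) R, m / 2 ≤ ‖HG G f1 z‖ := by
    intro z hz
    rw [hHH z hz]
    have := hg1 z hz
    have := hlow z hz
    nlinarith
  have hHup : ∀ z ∈ ball (0:ℂ) R, ‖HG G f1 z‖ ≤ ‖f1 z‖ := by
    intro z hz
    rw [hHH z hz]
    have := hg2 z hz
    nlinarith [norm_nonneg (f1 z)]
  have hproper : ∀ C : ℝ, ∃ R' : ℝ, ∀ x, ‖Φ x‖ ≤ C → ‖x‖ ≤ R' := by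
    intro C
    refine ⟨1 + (|C| + |C₀|) / (m / 2), fun x hx => ?_⟩
    have hpos : 0 ≤ (|C| + |C₀|) / (m / 2) := by positivity
    rcases le_or_gt ‖x‖ 1 with h1 | h1
    · linarith
    · have hΦx : Φ x = OutG G f f1 x := by simp [hΦ, not_le.2 h1]
      rw [hΦx, OutG_eq] at hx
      have hwb := hrefl x h1.le
      set w := ((starRingEnd ℂ) x)⁻¹ with hw
      have h2 := hC₀ w hwb
      have h3 := hHlow w (hsub hwb)
      have h4 : ‖x‖ - 1 ≤ ‖x - w‖ := by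
        have := norm_sub_norm_le x w
        have hw1 : ‖w‖ ≤ 1 := mem_closedBall_zero_iff.1 hwb
        linarith
      have h5 : ‖HG G f1 w * (x - w)‖ ≤ C + C₀ := by
        have : HG G f1 w * (x - w) = (f w + HG G f1 w * (x - w)) - f w := by ring
        rw [this]
        refine (norm_sub_le _ _).trans ?_
        linarith
      rw [norm_mul] at h5
      have h6 : (m / 2) * (‖x‖ - 1) ≤ |C| + |C₀| := by
        calc (m / 2) * (‖x‖ - 1) ≤ ‖HG G f1 w‖ * ‖x - w‖ :=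
              mul_le_mul h3 h4 (by linarith) (norm_nonneg _)
          _ ≤ C + C₀ := h5
          _ ≤ |C| + |C₀| := add_le_add (le_abs_self _) (le_abs_self _)
      have h7 : ‖x‖ - 1 ≤ (|C| + |C₀|) / (m / 2) := by
        rw [le_div_iff₀ (by positivity)]; linarith
      linarith
  -- near infinity
  have h0R : (0:ℂ) ∈ ball (0:ℂ) R := hsub (mem_closedBall_self zero_le_one)
  obtain ⟨cH, dH, hSDH⟩ := SD_HG (hne 0 h0R) (hG 0 h0R) (hf1 0 h0R)
  have hSDf : SD f 0 (f1 0 * 1) (f1 0 * 0) := (SD.id 0).comp_holo (hf 0 h0R)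
  obtain ⟨U1, hU1, hb1⟩ := hSDH.approx one_pos
  obtain ⟨U2, hU2, hb2⟩ := hSDf.approx one_pos
  obtain ⟨ρ, hρ, hρb⟩ := Metric.mem_nhds_iff.1 (inter_mem (inter_mem hU1 hU2)
    (isOpen_ball.mem_nhds h0R))
  have lip : ∀ {h : ℂ → ℂ} {c d : ℂ} {U : Set ℂ}, (∀ a ∈ U, ∀ b ∈ U,
      ‖h a - h b - (c * (a - b) + d * (starRingEnd ℂ) (a - b))‖ ≤ 1 * ‖a - b‖) →
      ∀ a ∈ U, ∀ b ∈ U, ‖h a - h b‖ ≤ (‖c‖ + ‖d‖ + 1) * ‖a - b‖ := by
    intro h c d U hh a ha b hb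
    have h1 := hh a ha b hb
    have h2 : h a - h b = (h a - h b - (c * (a - b) + d * (starRingEnd ℂ) (a - b))) +
      (c * (a - b) + d * (starRingEnd ℂ) (a - b)) := by ring
    rw [h2]
    refine (norm_add_le _ _).trans ?_
    have h3 : ‖c * (a - b) + d * (starRingEnd ℂ) (a - b)‖ ≤ (‖c‖ + ‖d‖) * ‖a - b‖ := by
      refine (norm_add_le _ _).trans ?_
      rw [norm_mul, norm_mul, Complex.norm_conj]; linarith
    linarith
  obtain ⟨Λ, hΛ1, hΛ2, hΛ3⟩ : ∃ Λ : ℝ, ‖cH‖ + ‖dH‖ + 1 ≤ Λ ∧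
      ‖f1 0 * 1‖ + ‖f1 0 * 0‖ + 1 ≤ Λ ∧ M₀ ≤ Λ :=
    ⟨max (max (‖cH‖ + ‖dH‖ + 1) (‖f1 0 * 1‖ + ‖f1 0 * 0‖ + 1)) M₀,
      le_max_of_le_left (le_max_left _ _), le_max_of_le_left (le_max_right _ _), le_max_right _ _⟩
  obtain ⟨R₁, hR₁⟩ := inj_near_infty f (HG G f1) ρ (m / 2) Λ hρ (by positivity)
    (fun x y hx hy => by
      have hx' := hρb (mem_ball_zero_iff.2 hx)
      have hy' := hρb (mem_ball_zero_iff.2 hy)
      exact (lip hb2 x hx'.1.2 y hy'.1.2).trans (mul_le_mul_of_nonneg_right hΛ2 (norm_nonneg _)))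
    (fun x y hx hy => by
      have hx' := hρb (mem_ball_zero_iff.2 hx)
      have hy' := hρb (mem_ball_zero_iff.2 hy)
      exact (lip hb1 x hx'.1.1 y hy'.1.1).trans (mul_le_mul_of_nonneg_right hΛ1 (norm_nonneg _)))
    (fun x hx => hHlow x (hρb (mem_ball_zero_iff.2 hx)).2)
    (fun x hx => by
      have hxR := (hρb (mem_ball_zero_iff.2 hx)).2
      exact (hHup x hxR).trans ((hup x hxR).trans hΛ3))
  have huniq : ∃ w, ∀ a b, Φ a = w → Φ b = w → a = b := by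
    obtain ⟨B, hB⟩ := (isCompact_closedBall (0:ℂ) (max R₁ 1)).exists_bound_of_continuousOn
      hcont.continuousOn
    refine ⟨((|B| + 1 : ℝ) : ℂ), fun a b ha hb => ?_⟩
    have hn : ‖((|B| + 1 : ℝ) : ℂ)‖ = |B| + 1 := by
      rw [Complex.norm_real, Real.norm_of_nonneg (by positivity)]
    have large : ∀ a, Φ a = ((|B| + 1 : ℝ) : ℂ) → R₁ < ‖a‖ ∧ 1 < ‖a‖ := by
      intro a ha
      by_contra hcon
      have : a ∈ closedBall (0:ℂ) (max R₁ 1) := by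
        rw [mem_closedBall_zero_iff]
        by_contra h2
        rw [not_le, max_lt_iff] at h2
        exact hcon h2
      have h3 := hB a this
      rw [ha, hn] at h3
      linarith [le_abs_self B]
    obtain ⟨ha1, ha2⟩ := large a ha
    obtain ⟨hb1, hb2⟩ := large b hb
    have ea : Φ a = OutG G f f1 a := by simp [hΦ, not_le.2 ha2]
    have eb : Φ b = OutG G f f1 b := by simp [hΦ, not_le.2 hb2]
    exact hR₁ a b ha1 hb1 (by rw [← OutG_eq, ← OutG_eq, ← ea, ← eb, ha, hb])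
  have hinj := injective_of_LH Φ hcont hLH hproper huniq
  intro a ha b hb hab
  apply hinj
  rw [mem_closedBall_zero_iff] at ha hb
  simp only [hΦ, if_pos ha, if_pos hb]
  exact hab

end Pool.Agent.Helper428.John
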