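import Mathlib
open Complex Set Filter Topology Metric
namespace Pool.Agent.Helper428.John
/-- Schwarz-Pick for maps of the disc into the right half-plane. -/
theorem pick_half (φ : ℂ → ℂ) (hφ : DifferentiableOn ℂ φ (ball 0 1))
    (h : ∀ z ∈ ball (0:ℂ) 1, 0 < (φ z).re) :
    ∀ z ∈ ball (0:ℂ) 1, (1 - ‖z‖^2) * ‖deriv φ z‖ ≤ 2 * (φ z).re := by
  intro a ha
  have ha1 : ‖a‖ < 1 := by simpa using ha
  have hna : Complex.normSq a < 1 := by
    rw [Complex.normSq_eq_norm_sq]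
    nlinarith [norm_nonneg a]
  obtain ⟨b, hb⟩ : ∃ b, b = (starRingEnd ℂ) a := ⟨_, rfl⟩
  have hbn : ‖b‖ = ‖a‖ := by rw [hb]; exact RCLike.norm_conj a
  have hden : ∀ w ∈ ball (0:ℂ) 1, 1 + b * w ≠ 0 := by
    intro w hw h0
    have hw1 : ‖w‖ < 1 := by simpa using hw
    have h1 : b * w = -1 := by linear_combination h0
    have h2 : ‖b * w‖ = 1 := by rw [h1]; simp
    rw [norm_mul, hbn] at h2
    nlinarith [norm_nonneg a, norm_nonneg w]
  have key : ∀ w, Complex.normSq (1 + b * w) - Complex.normSq (w + a) =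
      (1 - Complex.normSq w) * (1 - Complex.normSq a) := by
    intro w
    rw [hb]
    simp [Complex.normSq_apply]
    ring
  obtain ⟨T, hT⟩ : ∃ T : ℂ → ℂ, T = fun w => (w + a) / (1 + b * w) := ⟨_, rfl⟩
  have hTm : ∀ w ∈ ball (0:ℂ) 1, T w ∈ ball (0:ℂ) 1 := by
    intro w hw
    have hw1 : ‖w‖ < 1 := by simpa using hw
    have hnw : Complex.normSq w < 1 := by
      rw [Complex.normSq_eq_norm_sq]
      nlinarith [norm_nonneg w]
    rw [hT, mem_ball_zero_iff, norm_div, div_lt_one (norm_pos_iff.2 (hden w hw))]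
    apply lt_of_pow_lt_pow_left₀ 2 (norm_nonneg _)
    rw [← Complex.normSq_eq_norm_sq, ← Complex.normSq_eq_norm_sq]
    have h1 := key w
    have h2 := mul_pos (sub_pos.2 hnw) (sub_pos.2 hna)
    linarith
  have hTd : HasDerivAt T (1 - a * b) 0 := by
    have h1 : HasDerivAt (fun w : ℂ => w + a) 1 0 := (hasDerivAt_id 0).add_const a
    have h2 : HasDerivAt (fun w : ℂ => 1 + b * w) b 0 := by
      simpa using ((hasDerivAt_id (0:ℂ)).const_mul b).const_add 1
    have h3 := h1.div h2 (by simp)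
    have e3 : (1 - a * b : ℂ) = (1 * (1 + b * 0) - (0 + a) * b) / (1 + b * 0) ^ 2 := by simp
    rw [hT, e3]
    exact h3
  have hT0 : T 0 = a := by simp [hT]
  have h4 : HasDerivAt (fun w => φ (T w)) (deriv φ a * (1 - a * b)) 0 := by
    have h5 := (hφ.differentiableAt (isOpen_ball.mem_nhds ha)).hasDerivAt
    exact HasDerivAt.comp (0:ℂ) (by rw [hT0]; exact h5) hTd
  obtain ⟨c, hc⟩ : ∃ c, c = φ a := ⟨_, rfl⟩
  obtain ⟨c', hc'⟩ : ∃ c', c' = (starRingEnd ℂ) c := ⟨_, rfl⟩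
  have hcre : 0 < c.re := by rw [hc]; exact h a ha
  have hne : ∀ w ∈ ball (0:ℂ) 1, φ (T w) + c' ≠ 0 := by
    intro w hw h0
    have h1 := h (T w) (hTm w hw)
    have h2 := congrArg Complex.re h0
    rw [hc'] at h2
    simp at h2
    linarith
  have h0mem : (0:ℂ) ∈ ball (0:ℂ) 1 := by simp
  obtain ⟨ψ, hψ⟩ : ∃ ψ : ℂ → ℂ, ψ = fun w => (φ (T w) - c) / (φ (T w) + c') := ⟨_, rfl⟩
  have hψ0 : ψ 0 = 0 := by rw [hψ]; simp [hT0, hc]
  have hψd : HasDerivAt ψ (deriv φ a * (1 - a * b) / (c + c')) 0 := by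
    have h5 := (h4.sub_const c).div (h4.add_const c') (hne 0 h0mem)
    have h6 : c + c' ≠ 0 := by
      have := hne 0 h0mem
      rwa [hT0, ← hc] at this
    have e3 : deriv φ a * (1 - a * b) / (c + c') =
        (deriv φ a * (1 - a * b) * (φ (T 0) + c') - (φ (T 0) - c) * (deriv φ a * (1 - a * b))) /
          (φ (T 0) + c') ^ 2 := by
      rw [hT0, ← hc, sub_self, zero_mul, sub_zero]
      field_simp
    rw [hψ, e3]
    exact h5
  have hTdiff : DifferentiableOn ℂ T (ball (0:ℂ) 1) := by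
    rw [hT]
    apply DifferentiableOn.div
    · fun_prop
    · fun_prop
    · exact hden
  have hφT : DifferentiableOn ℂ (fun w => φ (T w)) (ball (0:ℂ) 1) := hφ.comp hTdiff hTm
  have hψdiff : DifferentiableOn ℂ ψ (ball (0:ℂ) 1) := by
    rw [hψ]
    exact (hφT.sub_const c).div (hφT.add_const c') hne
  have hmaps : MapsTo ψ (ball (0:ℂ) 1) (closedBall (ψ 0) 1) := by
    intro w hw
    rw [hψ0, mem_closedBall_zero_iff, hψ]
    show ‖(φ (T w) - c) / (φ (T w) + c')‖ ≤ 1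
    rw [norm_div, div_le_one (norm_pos_iff.2 (hne w hw))]
    refine (pow_le_pow_iff_left₀ (norm_nonneg _) (norm_nonneg _) two_ne_zero).1 ?_
    rw [← Complex.normSq_eq_norm_sq, ← Complex.normSq_eq_norm_sq]
    have h1 := h (T w) (hTm w hw)
    have h2 : Complex.normSq (φ (T w) + c') - Complex.normSq (φ (T w) - c) = 4 * (φ (T w)).re * c.re := by
      rw [hc']
      simp [Complex.normSq_apply]
      ring
    have h3 := mul_pos h1 hcre
    linarith
  have hS := Complex.norm_deriv_le_div_of_mapsTo_ball hψdiff hmaps one_pos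
  rw [hψd.deriv, norm_div, norm_mul, div_one] at hS
  have e1 : (1 : ℂ) - a * b = ((1 - ‖a‖ ^ 2 : ℝ) : ℂ) := by
    rw [hb, Complex.mul_conj, Complex.normSq_eq_norm_sq]
    push_cast
    ring
  have e2 : c + c' = ((2 * c.re : ℝ) : ℂ) := by
    rw [hc', Complex.add_conj]
  have h1a : 0 < 1 - ‖a‖ ^ 2 := by nlinarith [norm_nonneg a]
  rw [e1, e2, Complex.norm_real, Complex.norm_real, Real.norm_eq_abs, Real.norm_eq_abs,
    abs_of_pos h1a, abs_of_pos (by positivity : (0:ℝ) < 2 * c.re), div_le_one (by positivity)] at hS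
  rw [← hc]
  linarith

end Pool.Agent.Helper428.John
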