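import Mathlib
open Complex Set Filter Topology Metric
namespace Pool.Agent.Helper428.John
/-- Schwarz-Pick for maps into a strip, written for `g = e^F` (the half-plane case is given). -/
theorem pick_strip
    (pick_half : ∀ φ : ℂ → ℂ, DifferentiableOn ℂ φ (ball 0 1) →
      (∀ z ∈ ball (0:ℂ) 1, 0 < (φ z).re) →
      ∀ z ∈ ball (0:ℂ) 1, (1 - ‖z‖^2) * ‖deriv φ z‖ ≤ 2 * (φ z).re)
    (g : ℂ → ℂ) (hg : DifferentiableOn ℂ g (ball 0 1)) (L : ℝ) (hL : 0 < L)
    (h : ∀ z ∈ ball (0:ℂ) 1, Real.exp (-(L/2)) < ‖g z‖ ∧ ‖g z‖ < Real.exp (L/2)) :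
    ∀ z ∈ ball (0:ℂ) 1,
      (1 - ‖z‖^2) * ‖deriv g z / g z‖ ≤
        (2*L/Real.pi) * Real.cos (Real.pi * Real.log ‖g z‖ / L) := by
  have hg0 : ∀ z ∈ ball (0:ℂ) 1, g z ≠ 0 := by
    intro z hz h0
    have := (h z hz).1
    rw [h0, norm_zero] at this
    exact absurd this (not_lt.2 (Real.exp_pos _).le)
  have hgd : DifferentiableOn ℂ (deriv g) (ball 0 1) := hg.deriv isOpen_ball
  have hq : DifferentiableOn ℂ (fun z => deriv g z / g z) (ball 0 1) :=
    hgd.div hg hg0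
  obtain ⟨F0, hF0⟩ := hq.isExactOn_ball
  have hgat : ∀ z ∈ ball (0:ℂ) 1, HasDerivAt g (deriv g z) z := fun z hz =>
    (hg.differentiableAt (isOpen_ball.mem_nhds hz)).hasDerivAt
  -- `g * exp (-F0)` is constant
  have hG : ∀ z ∈ ball (0:ℂ) 1, HasDerivAt (fun w => g w * exp (-F0 w)) 0 z := by
    intro z hz
    have h1 := (hgat z hz).mul (hF0 z hz).neg.cexp
    refine h1.congr_deriv ?_
    have := hg0 z hz
    simp only [Pi.neg_apply]
    field_simp
    ring
  have hconst : ∀ z ∈ ball (0:ℂ) 1, g z * exp (-F0 z) = g 0 * exp (-F0 0) := by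
    intro z hz
    have h0 : (0:ℂ) ∈ ball (0:ℂ) 1 := mem_ball_self one_pos
    refine (convex_ball (0:ℂ) 1).is_const_of_fderivWithin_eq_zero (𝕜 := ℂ)
      (f := fun w => g w * exp (-F0 w)) ?_ ?_ hz h0
    · intro w hw
      exact (hG w hw).differentiableAt.differentiableWithinAt
    · intro w hw
      rw [fderivWithin_of_isOpen isOpen_ball hw]
      have := (hG w hw).hasFDerivAt.fderiv
      rw [this]
      ext
      simp
  have h00 : (0:ℂ) ∈ ball (0:ℂ) 1 := mem_ball_self one_pos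
  set C := g 0 * exp (-F0 0) with hC
  have hC0 : C ≠ 0 := mul_ne_zero (hg0 0 h00) (exp_ne_zero _)
  set F : ℂ → ℂ := fun z => F0 z + log C with hF
  have hFd : ∀ z ∈ ball (0:ℂ) 1, HasDerivAt F (deriv g z / g z) z := fun z hz =>
    (hF0 z hz).add_const _
  have hFe : ∀ z ∈ ball (0:ℂ) 1, exp (F z) = g z := by
    intro z hz
    simp only [hF]
    rw [exp_add, exp_log hC0, ← hconst z hz, exp_neg]
    field_simp
  have hre : ∀ z ∈ ball (0:ℂ) 1, (F z).re = Real.log ‖g z‖ := by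
    intro z hz
    rw [← hFe z hz, norm_exp, Real.log_exp]
  set φ : ℂ → ℂ := fun z => exp (I * Real.pi / L * F z) with hφ
  have hφd : ∀ z ∈ ball (0:ℂ) 1,
      HasDerivAt φ (exp (I * Real.pi / L * F z) * (I * Real.pi / L * (deriv g z / g z))) z := by
    intro z hz
    exact ((hFd z hz).const_mul (I * Real.pi / L)).cexp
  have him : ∀ z, (I * Real.pi / L * F z).im = Real.pi * (F z).re / L := by
    intro z
    have : I * Real.pi / L * F z = ((Real.pi / L : ℝ) : ℂ) * (I * F z) := by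
      push_cast; ring
    rw [this, im_ofReal_mul, I_mul_im]; ring
  have hφre : ∀ z ∈ ball (0:ℂ) 1, (φ z).re = ‖φ z‖ * Real.cos (Real.pi * Real.log ‖g z‖ / L) := by
    intro z hz
    simp only [hφ]
    rw [exp_re, norm_exp, him, hre z hz]
  have hlog : ∀ z ∈ ball (0:ℂ) 1, -(L/2) < Real.log ‖g z‖ ∧ Real.log ‖g z‖ < L/2 := by
    intro z hz
    have hpos : 0 < ‖g z‖ := norm_pos_iff.2 (hg0 z hz)
    exact ⟨(Real.lt_log_iff_exp_lt hpos).2 (h z hz).1, (Real.log_lt_iff_lt_exp hpos).2 (h z hz).2⟩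
  have hcos : ∀ z ∈ ball (0:ℂ) 1, 0 < Real.cos (Real.pi * Real.log ‖g z‖ / L) := by
    intro z hz
    apply Real.cos_pos_of_mem_Ioo
    have hpi := Real.pi_pos
    obtain ⟨h1, h2⟩ := hlog z hz
    constructor
    · rw [lt_div_iff₀ hL]; nlinarith
    · rw [div_lt_iff₀ hL]; nlinarith
  intro z hz
  have hφpos : 0 < ‖φ z‖ := norm_pos_iff.2 (exp_ne_zero _)
  have hpi := Real.pi_pos
  have key := pick_half φ (fun w hw => (hφd w hw).differentiableAt.differentiableWithinAt)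
    (fun w hw => by
      rw [hφre w hw]
      exact mul_pos (norm_pos_iff.2 (exp_ne_zero _)) (hcos w hw)) z hz
  rw [(hφd z hz).deriv, hφre z hz, norm_mul, norm_mul] at key
  have hn : ‖I * Real.pi / L‖ = Real.pi / L := by
    rw [norm_div, norm_mul, norm_I, one_mul, Complex.norm_real, Complex.norm_real,
      Real.norm_of_nonneg hpi.le, Real.norm_of_nonneg hL.le]
  rw [hn] at key
  have key2 : (1 - ‖z‖^2) * (Real.pi / L * ‖deriv g z / g z‖) ≤
      2 * Real.cos (Real.pi * Real.log ‖g z‖ / L) := by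
    have : ‖φ z‖ * ((1 - ‖z‖^2) * (Real.pi / L * ‖deriv g z / g z‖)) ≤
        ‖φ z‖ * (2 * Real.cos (Real.pi * Real.log ‖g z‖ / L)) := by
      calc _ = (1 - ‖z‖^2) * (‖exp (I * Real.pi / L * F z)‖ *
            (Real.pi / L * ‖deriv g z / g z‖)) := by simp only [hφ]; ring
        _ ≤ _ := key
        _ = _ := by ring
    exact le_of_mul_le_mul_left this hφpos
  have h3 : (1 - ‖z‖^2) * ‖deriv g z / g z‖ =
      (L / Real.pi) * ((1 - ‖z‖^2) * (Real.pi / L * ‖deriv g z / g z‖)) := by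
    field_simp
  rw [h3]
  calc (L / Real.pi) * ((1 - ‖z‖^2) * (Real.pi / L * ‖deriv g z / g z‖))
      ≤ (L / Real.pi) * (2 * Real.cos (Real.pi * Real.log ‖g z‖ / L)) :=
        mul_le_mul_of_nonneg_left key2 (by positivity)
    _ = _ := by ring
end Pool.Agent.Helper428.John
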