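import Mathlib
namespace Pool.Agent.Helper428.John

theorem cosb2a (x : ℝ) (hx : |x| ≤ 4) : Real.cos x ≤ 1 - x ^ 2 / 2 + x ^ 4 / 24 := by
  have h0 : 0 ≤ |x| := abs_nonneg x
  have hs := Real.sin_ge_sub_cube (x := |x| / 2) (by positivity)
  have hc : Real.cos x = 1 - 2 * Real.sin (|x| / 2) ^ 2 := by
    have h1 : Real.cos x = Real.cos (2 * (|x| / 2)) := by
      rw [mul_div_cancel₀ _ (two_ne_zero), Real.cos_abs]
    rw [h1, Real.cos_two_mul, Real.cos_sq']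
    ring
  set y := |x| with hy
  have hx2 : x ^ 2 = y ^ 2 := by rw [hy, sq_abs]
  have hx4 : x ^ 4 = y ^ 4 := by
    have : x ^ 4 = (x ^ 2) ^ 2 := by ring
    rw [this, hx2]; ring
  rw [hc, hx2, hx4]
  have hp : 0 ≤ y / 2 - (y / 2) ^ 3 / 6 := by
    have : y / 2 - (y / 2) ^ 3 / 6 = y / 2 * (1 - y ^ 2 / 24) := by ring
    rw [this]
    apply mul_nonneg (by positivity)
    nlinarith
  have h2 : (y / 2 - (y / 2) ^ 3 / 6) ^ 2 ≤ Real.sin (y / 2) ^ 2 :=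
    pow_le_pow_left₀ hp hs 2
  have h3 : 0 ≤ y ^ 6 := by positivity
  nlinarith [h2, h3]

/-- first bound: `Q < 1 + h` -/
theorem numeric2a (u : ℝ) (hu : |u| < 761/800) :
    (2*(761/400)/Real.pi) * Real.cos (Real.pi * u / (761/400)) <
      1 + (256/1000 + 506/1000*u + 29/100*u^2) := by
  have hp1 := Real.pi_gt_d6
  have hp2 := Real.pi_lt_d6
  have hp0 : 0 < Real.pi := Real.pi_pos
  obtain ⟨k, hk⟩ : ∃ k, k = Real.pi * (400 / 761) := ⟨_, rfl⟩
  have hk1 : 1.65129 < k := by rw [hk]; norm_num at hp1 ⊢; linarith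
  have hk2 : k < 1.6513 := by rw [hk]; norm_num at hp2 ⊢; linarith
  have hk0 : 0 < k := by norm_num at hk1; linarith
  have e1 : 2 * (761 / 400) / Real.pi = 2 / k := by rw [hk]; field_simp
  have e2 : Real.pi * u / (761 / 400) = k * u := by rw [hk]; field_simp
  rw [e1, e2]
  obtain ⟨hu1, hu2⟩ := abs_lt.mp hu
  have hku : |k * u| ≤ 4 := by
    rw [abs_mul, abs_of_pos hk0]
    norm_num at hk2
    nlinarith [abs_nonneg u]
  have hc := cosb2a (k * u) hku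
  have h1 : 2 / k * Real.cos (k * u) ≤ 2 / k * (1 - (k * u) ^ 2 / 2 + (k * u) ^ 4 / 24) :=
    mul_le_mul_of_nonneg_left hc (by positivity)
  have h2 : 2 / k * (1 - (k * u) ^ 2 / 2 + (k * u) ^ 4 / 24) =
      2 / k - k * u ^ 2 + k ^ 3 * u ^ 4 / 12 := by
    field_simp
    ring
  have h3 : 2 / k < 1.21118 := by
    rw [div_lt_iff₀ hk0]; norm_num at hk1 ⊢; linarith
  have h4 : k ^ 3 < 4.5028 := by
    have : k ^ 3 ≤ 1.6513 ^ 3 := pow_le_pow_left₀ hk0.le hk2.le 3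
    norm_num at this ⊢; linarith
  have hu4 : u ^ 4 ≤ 0.90490 * u ^ 2 := by
    have : u ^ 2 ≤ 0.90490 := by
      norm_num; nlinarith
    have h0 : 0 ≤ u ^ 2 := sq_nonneg u
    have : u ^ 4 = u ^ 2 * u ^ 2 := by ring
    nlinarith
  have h5 : k ^ 3 * u ^ 4 ≤ 4.5028 * u ^ 4 := mul_le_mul_of_nonneg_right h4.le (by positivity)
  have h6 : 1.65129 * u ^ 2 ≤ k * u ^ 2 := mul_le_mul_of_nonneg_right hk1.le (by positivity)
  rw [h2] at h1
  norm_num at h3 h5 h6 hu4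
  nlinarith [sq_nonneg (u + 0.158)]
end Pool.Agent.Helper428.John
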