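import Mathlib
namespace Pool.Agent.Helper428.John

theorem n2b_P0_pos (s t : ℝ) (hs : 0 ≤ s) (ht : 0 ≤ t) : 0 ≤ (4944209562266650624/1953289847228203125) * s^0 * t^6 + (7043575902294596864/651096615742734375) * s^1 * t^5 + (2263758112072739776/130219323148546875) * s^2 * t^4 + (5512037951769051172/390657969445640625) * s^3 * t^3 + (800919773912899474/130219323148546875) * s^4 * t^2 + (14290582226274113699/10417545851883750000) * s^5 * t^1 + (31164572900521751753/250021100445210000000) * s^6 * t^0 := by positivity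

theorem n2b_P0 (u : ℝ) (h1 : (-24/25) ≤ u) (h2 : u ≤ (-21/200)) : (1 - (256/1000 + 506/1000*u + 29/100*u^2)^2 - (121117/100000 - 165129/100000*u^2 + 37523/100000*u^4) * (750/1000 - 74/1000*u + 29/100*u^2)) ≥ (1/1000) := by
  have h := n2b_P0_pos (u - (-24/25)) ((-21/200) - u) (by linarith) (by linarith)
  have e : (4944209562266650624/1953289847228203125) * (u - (-24/25))^0 * ((-21/200) - u)^6 + (7043575902294596864/651096615742734375) * (u - (-24/25))^1 * ((-21/200) - u)^5 + (2263758112072739776/130219323148546875) * (u - (-24/25))^2 * ((-21/200) - u)^4 + (5512037951769051172/390657969445640625) * (u - (-24/25))^3 * ((-21/200) - u)^3 + (800919773912899474/130219323148546875) * (u - (-24/25))^4 * ((-21/200) - u)^2 + (14290582226274113699/10417545851883750000) * (u - (-24/25))^5 * ((-21/200) - u)^1 + (31164572900521751753/250021100445210000000) * (u - (-24/25))^6 * ((-21/200) - u)^0 = (1 - (256/1000 + 506/1000*u + 29/100*u^2)^2 - (121117/100000 - 165129/100000*u^2 + 37523/100000*u^4) * (750/1000 - 74/1000*u + 29/100*u^2))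 - (1/1000) := by ring
  rw [e] at h
  linarith

theorem n2b_P1_pos (s t : ℝ) (hs : 0 ≤ s) (ht : 0 ≤ t) : 0 ≤ (31164572900521751753/3906579694456406250) * s^0 * t^6 + (36331389796468800463/1302193231485468750) * s^1 * t^5 + (40024913734968169673/1041754585188375000) * s^2 * t^4 + (44334952967533574383/1562631877782562500) * s^3 * t^3 + (59894825343800979593/4167018340753500000) * s^4 * t^2 + (122992811030466100303/20835091703767500000) * s^5 * t^1 + (323725094358346901513/250021100445210000000) * s^6 * t^0 := by positivity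

theorem n2b_P1 (u : ℝ) (h1 : (-21/200) ≤ u) (h2 : u ≤ (129/400)) : (1 - (256/1000 + 506/1000*u + 29/100*u^2)^2 - (121117/100000 - 165129/100000*u^2 + 37523/100000*u^4) * (750/1000 - 74/1000*u + 29/100*u^2)) ≥ (1/1000) := by
  have h := n2b_P1_pos (u - (-21/200)) ((129/400) - u) (by linarith) (by linarith)
  have e : (31164572900521751753/3906579694456406250) * (u - (-21/200))^0 * ((129/400) - u)^6 + (36331389796468800463/1302193231485468750) * (u - (-21/200))^1 * ((129/400) - u)^5 + (40024913734968169673/1041754585188375000) * (u - (-21/200))^2 * ((129/400) - u)^4 + (44334952967533574383/1562631877782562500) * (u - (-21/200))^3 * ((129/400) - u)^3 + (59894825343800979593/4167018340753500000) * (u - (-21/200))^4 * ((129/400) - u)^2 + (122992811030466100303/20835091703767500000) * (u - (-21/200))^5 * ((129/400) - u)^1 + (323725094358346901513/250021100445210000000) * (u - (-21/200))^6 * ((129/400) - u)^0 = (1 - (256/1000 + 506/1000*u + 29/100*u^2)^2 - (121117/100000 - 165129/100000*u^2 + 37523/100000*u^4) * (750/1000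 - 74/1000*u + 29/100*u^2)) - (1/1000) := by ring
  rw [e] at h
  linarith

theorem n2b_P2_pos (s t : ℝ) (hs : 0 ≤ s) (ht : 0 ≤ t) : 0 ≤ (323725094358346901513/250021100445210000000) * s^0 * t^6 + (20073228332788080121/2083509170376750000) * s^1 * t^5 + (275268595282431361/8334036681507000) * s^2 * t^4 + (36038473732327186/625052751113025) * s^3 * t^3 + (430463233312978/8334036681507) * s^4 * t^2 + (180178827821200/8334036681507) * s^5 * t^1 + (70665530420000/25002110044521) * s^6 * t^0 := by positivity

theorem n2b_P2 (u : ℝ) (h1 : (129/400) ≤ u) (h2 : u ≤ (3/4)) : (1 - (256/1000 + 506/1000*u + 29/100*u^2)^2 - (121117/100000 - 165129/100000*u^2 + 37523/100000*u^4) * (750/1000 - 74/1000*u + 29/100*u^2)) ≥ (1/1000) := by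
  have h := n2b_P2_pos (u - (129/400)) ((3/4) - u) (by linarith) (by linarith)
  have e : (323725094358346901513/250021100445210000000) * (u - (129/400))^0 * ((3/4) - u)^6 + (20073228332788080121/2083509170376750000) * (u - (129/400))^1 * ((3/4) - u)^5 + (275268595282431361/8334036681507000) * (u - (129/400))^2 * ((3/4) - u)^4 + (36038473732327186/625052751113025) * (u - (129/400))^3 * ((3/4) - u)^3 + (430463233312978/8334036681507) * (u - (129/400))^4 * ((3/4) - u)^2 + (180178827821200/8334036681507) * (u - (129/400))^5 * ((3/4) - u)^1 + (70665530420000/25002110044521) * (u - (129/400))^6 * ((3/4) - u)^0 = (1 - (256/1000 + 506/1000*u + 29/100*u^2)^2 - (121117/100000 - 165129/100000*u^2 + 37523/100000*u^4) * (750/1000 - 74/1000*u + 29/100*u^2)) - (1/1000) := by ring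
  rw [e] at h
  linarith

theorem n2b_G0_pos (s t : ℝ) (hs : 0 ≤ s) (ht : 0 ≤ t) : 0 ≤ (6923897600/671898241) * s^0 * t^4 + (33213196928/671898241) * s^1 * t^3 + (1144086861944/16797456025) * s^2 * t^2 + (2462149539022/83987280125) * s^3 * t^1 + (1665145203479/6718982410000) * s^4 * t^0 := by positivity

theorem n2b_G0 (u : ℝ) (h1 : (3/4) ≤ u) (h2 : u ≤ (761/800)) : (1 - (256/1000 + 506/1000*u + 29/100*u^2)^2 - (761/400 - 2*u) * (750/1000 - 74/1000*u + 29/100*u^2)) ≥ (1/10000) := by
  have h := n2b_G0_pos (u - (3/4)) ((761/800) - u) (by linarith) (by linarith)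
  have e : (6923897600/671898241) * (u - (3/4))^0 * ((761/800) - u)^4 + (33213196928/671898241) * (u - (3/4))^1 * ((761/800) - u)^3 + (1144086861944/16797456025) * (u - (3/4))^2 * ((761/800) - u)^2 + (2462149539022/83987280125) * (u - (3/4))^3 * ((761/800) - u)^1 + (1665145203479/6718982410000) * (u - (3/4))^4 * ((761/800) - u)^0 = (1 - (256/1000 + 506/1000*u + 29/100*u^2)^2 - (761/400 - 2*u) * (750/1000 - 74/1000*u + 29/100*u^2)) - (1/10000) := by ring
  rw [e] at h
  linarith

theorem n2b_P (u : ℝ) (h1 : -(24/25) ≤ u) (h2 : u ≤ 3/4) : (1 - (256/1000 + 506/1000*u + 29/100*u^2)^2 - (121117/100000 - 165129/100000*u^2 + 37523/100000*u^4) * (750/1000 - 74/1000*u + 29/100*u^2)) > 0 := by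
  rcases le_total u ((-21/200)) with h | h
  · have := n2b_P0 u (by linarith) h
    linarith
  rcases le_total u ((129/400)) with h' | h'
  · have := n2b_P1 u h h'
    linarith
  have := n2b_P2 u h' (by linarith)
  linarith

/-- quartic upper bound for the cosine -/
theorem n2b_cos (x : ℝ) (hx : |x| ≤ 2) : Real.cos x ≤ 1 - x^2/2 + x^4/24 := by
  have h0 : 0 ≤ |x| := abs_nonneg x
  have h1 := Real.sin_ge_sub_cube (x := |x|/2) (by linarith)
  have h2 : 0 ≤ |x|/2 - (|x|/2)^3/6 := by
    have : (|x|/2)^2 ≤ 1 := by nlinarith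
    nlinarith
  have h3 : (|x|/2 - (|x|/2)^3/6)^2 ≤ Real.sin (|x|/2)^2 := by
    exact pow_le_pow_left₀ h2 h1 2
  have h4 : Real.cos x = 1 - 2 * Real.sin (|x|/2)^2 := by
    rw [← Real.cos_abs x]
    have := Real.cos_two_mul (|x|/2)
    rw [show 2 * (|x|/2) = |x| by ring] at this
    rw [this]
    have h5 := Real.sin_sq_add_cos_sq (|x|/2)
    linarith
  have h6 : x^2 = |x|^2 := (sq_abs x).symm
  have h7 : x^4 = |x|^4 := by
    have : x^4 = (x^2)^2 := by ring
    rw [this, h6]; ring
  rw [h4, h6, h7]
  have h8 : 0 ≤ |x|^6 := by positivity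
  nlinarith

/-- second bound: `Q |1 + h - h'| < 1 - h²` -/
theorem numeric2b (u : ℝ) (hu : |u| < 761/800) :
    (2*(761/400)/Real.pi) * Real.cos (Real.pi * u / (761/400)) *
      |1 + (256/1000 + 506/1000*u + 29/100*u^2) - (506/1000 + 58/100*u)| <
      1 - (256/1000 + 506/1000*u + 29/100*u^2)^2 := by
  have hp1 := Real.pi_gt_d6
  have hp2 := Real.pi_lt_d6
  have hp : 0 < Real.pi := Real.pi_pos
  have hu1 := (abs_lt.mp hu).1
  have hu2 := (abs_lt.mp hu).2
  have hw : 1 + (256/1000 + 506/1000*u + 29/100*u^2) - (506/1000 + 58/100*u) =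
      (750/1000 - 74/1000*u + 29/100*u^2) := by ring
  have hwpos : 0 < (750/1000 - 74/1000*u + 29/100*u^2) := by nlinarith [sq_nonneg (u - 37/290)]
  rw [hw, abs_of_pos hwpos]
  rcases le_total u (3/4) with h | h
  · have hx : |Real.pi * u / (761/400)| ≤ 2 := by
      rw [abs_div, abs_mul, abs_of_pos hp, abs_of_pos (by norm_num : (0:ℝ) < 761/400),
        div_le_iff₀ (by norm_num)]
      nlinarith [abs_nonneg u]
    have hc := n2b_cos _ hx
    have hQ : (2*(761/400)/Real.pi) * Real.cos (Real.pi * u / (761/400)) ≤ (121117/100000 - 165129/100000*u^2 + 37523/100000*u^4) := by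
      have hpos : 0 < 2*(761/400)/Real.pi := by positivity
      refine (mul_le_mul_of_nonneg_left hc hpos.le).trans ?_
      have e : (2*(761/400)/Real.pi) * (1 - (Real.pi * u / (761/400))^2/2 + (Real.pi * u / (761/400))^4/24)
          = 2*(761/400)/Real.pi - Real.pi/(761/400) * u^2 + Real.pi^3/(12*(761/400)^3) * u^4 := by
        field_simp
        ring
      rw [e]
      have b0 : 2*(761/400)/Real.pi ≤ 121117/100000 := by
        rw [div_le_iff₀ hp]; nlinarith
      have b1 : 165129/100000 ≤ Real.pi/(761/400) := by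
        rw [le_div_iff₀ (by norm_num)]; nlinarith
      have b2 : Real.pi^3/(12*(761/400)^3) ≤ 37523/100000 := by
        rw [div_le_iff₀ (by norm_num)]
        have : Real.pi^3 ≤ 3.141593^3 := pow_le_pow_left₀ hp.le hp2.le 3
        refine this.trans ?_
        norm_num
      have s2 : 0 ≤ u^2 := sq_nonneg u
      have s4 : 0 ≤ u^4 := by positivity
      have t1 := mul_le_mul_of_nonneg_right b1 s2
      have t2 := mul_le_mul_of_nonneg_right b2 s4
      linarith
    have hP := n2b_P u (by linarith) h
    have := mul_le_mul_of_nonneg_right hQ hwpos.le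
    linarith
  · have hQ : (2*(761/400)/Real.pi) * Real.cos (Real.pi * u / (761/400)) ≤ 761/400 - 2*u := by
      have hpos : 0 < 2*(761/400)/Real.pi := by positivity
      have hy : 0 ≤ Real.pi/2 - Real.pi * u / (761/400) := by
        have : Real.pi/2 - Real.pi * u / (761/400) = Real.pi * (1/2 - u/(761/400)) := by ring
        rw [this]
        refine mul_nonneg hp.le ?_
        linarith
      have h1 : Real.cos (Real.pi * u / (761/400)) ≤ Real.pi/2 - Real.pi * u / (761/400) := by
        rw [← Real.sin_pi_div_two_sub]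
        exact Real.sin_le hy
      refine (mul_le_mul_of_nonneg_left h1 hpos.le).trans (le_of_eq ?_)
      field_simp
    have hG := n2b_G0 u (by linarith) (by linarith)
    have := mul_le_mul_of_nonneg_right hQ hwpos.le
    linarith

end Pool.Agent.Helper428.John
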