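import Mathlib
namespace Pool.Agent.Helper428.John
theorem numeric2c (u : ℝ) (hu : |u| < 761/800) :
    0 < (256/1000 + 506/1000*u + 29/100*u^2) ∧ (256/1000 + 506/1000*u + 29/100*u^2) < 1 := by
  obtain ⟨h1, h2⟩ := abs_lt.1 hu
  constructor
  · nlinarith [sq_nonneg (u + 253/290)]
  · have h3 : u ^ 2 < (761/800) ^ 2 := by nlinarith
    norm_num at h3
    linarith
theorem exp_gt_67 : (67/10:ℝ) < Real.exp (761/400) := by
  refine lt_of_lt_of_le ?_ (Real.sum_le_exp_of_nonneg (x := 761/400) (by norm_num) 10)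
  norm_num [Finset.sum_range_succ, Nat.factorial]
end Pool.Agent.Helper428.John
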