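import Mathlib
import Pool.Agent.Helper428.John5
import Pool.Agent.Helper428.JohnA2
import Pool.Agent.Helper428.JohnA3
import Pool.Agent.Helper428.JohnB2
import Pool.Agent.Helper428.JohnB3
import Pool.Agent.Helper428.JohnB4

set_option autoImplicit false

open Complex Set Filter Topology Metric

namespace Pool.Agent.Helper428.John

noncomputable def hq (u : ℝ) : ℝ := 256/1000 + 506/1000*u + 29/100*u^2
noncomputable def hq' (u : ℝ) : ℝ := 506/1000 + 58/100*u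
noncomputable def GG (U : ℂ) : ℂ := (1 + (256/1000 + 506/1000*U + 29/100*U^2))⁻¹

lemma GG_val (u : ℝ) : GG (u : ℂ) = ((1 / (1 + hq u) : ℝ) : ℂ) := by
  unfold GG hq; push_cast; rw [one_div]

lemma GG_deriv (u : ℝ) (h : 0 < hq u) :
    HasStrictDerivAt GG ((-hq' u / (1 + hq u)^2 : ℝ) : ℂ) (u : ℂ) := by
  have hne : (1 + (256/1000 + 506/1000*(u:ℂ) + 29/100*(u:ℂ)^2)) ≠ 0 := by
    have : (1 + (256/1000 + 506/1000*(u:ℂ) + 29/100*(u:ℂ)^2)) = ((1 + hq u : ℝ) : ℂ) := by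
      unfold hq; push_cast; ring
    rw [this]
    have : (0:ℝ) < 1 + hq u := by linarith
    exact_mod_cast this.ne'
  have h1 : HasStrictDerivAt (fun U : ℂ => (1 + (256/1000 + 506/1000*U + 29/100*U^2)))
      (506/1000*1 + 29/100*(2*(u:ℂ)*1)) (u:ℂ) := by
    have e1 := ((hasStrictDerivAt_id (u:ℂ)).const_mul (506/1000 : ℂ)).const_add (256/1000 : ℂ)
    have e2 := ((hasStrictDerivAt_id (u:ℂ)).pow 2).const_mul (29/100 : ℂ)
    have e3 := (e1.add e2).const_add (1:ℂ)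
    refine e3.congr_deriv ?_
    simp
  have h2 := HasStrictDerivAt.comp (u:ℂ) (hasStrictDerivAt_inv hne) h1
  refine h2.congr_deriv ?_
  unfold hq' hq
  push_cast
  ring

theorem injOn_of_ratio (f : ℂ → ℂ) (m M : ℝ) (hf : DifferentiableOn ℂ f (ball (0:ℂ) 1))
    (hm : 0 < m) (hb : ∀ z ∈ ball (0:ℂ) 1, m ≤ ‖deriv f z‖ ∧ ‖deriv f z‖ ≤ M)
    (hM : M ≤ (67/10) * m) : InjOn f (ball (0:ℂ) 1) := by
  intro a ha b hb' hab
  rw [mem_ball_zero_iff] at ha hb'
  obtain ⟨r, hr0, hr1, har, hbr⟩ : ∃ r : ℝ, 0 < r ∧ r < 1 ∧ ‖a‖ ≤ r ∧ ‖b‖ ≤ r := by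
    refine ⟨(1 + max ‖a‖ ‖b‖) / 2, ?_, ?_, ?_, ?_⟩
    · have := le_max_left ‖a‖ ‖b‖
      have := norm_nonneg a
      linarith
    · have : max ‖a‖ ‖b‖ < 1 := max_lt ha hb'
      linarith
    · have := le_max_left ‖a‖ ‖b‖
      linarith
    · have := le_max_right ‖a‖ ‖b‖
      linarith
  set L : ℝ := 761/400 with hL
  have hE := exp_gt_67
  have hEp : Real.exp (L/2) * Real.exp (L/2) = Real.exp L := by rw [← Real.exp_add]; ring_nf
  have hEm : Real.exp (-(L/2)) * Real.exp (L/2) = 1 := by rw [← Real.exp_add]; simp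
  have hE1 : 0 < Real.exp (L/2) := Real.exp_pos _
  have hlt : Real.exp (-(L/2)) < Real.exp (L/2) / (67/10) := by
    rw [lt_div_iff₀ (by norm_num)]
    have : Real.exp (-(L/2)) * (67/10) * Real.exp (L/2) < Real.exp (L/2) * Real.exp (L/2) := by
      calc Real.exp (-(L/2)) * (67/10) * Real.exp (L/2)
          = (67/10) * (Real.exp (-(L/2)) * Real.exp (L/2)) := by ring
        _ = 67/10 := by rw [hEm, mul_one]
        _ < Real.exp L := hE
        _ = _ := hEp.symm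
    exact lt_of_mul_lt_mul_right this hE1.le
  obtain ⟨κ, hκ0, hκ1, hκ2⟩ : ∃ κ : ℝ, 0 < κ ∧ Real.exp (-(L/2)) < κ * m ∧
      κ * m < Real.exp (L/2) / (67/10) := by
    refine ⟨((Real.exp (-(L/2)) + Real.exp (L/2) / (67/10)) / 2) / m, ?_, ?_, ?_⟩
    · have := Real.exp_pos (-(L/2)); positivity
    · rw [div_mul_cancel₀ _ hm.ne']; linarith
    · rw [div_mul_cancel₀ _ hm.ne']; linarith
  -- rescaled function
  have hR : 1 < 1 / r := by rw [lt_div_iff₀ hr0]; linarith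
  have hmap : ∀ z ∈ ball (0:ℂ) (1/r), (r:ℂ) * z ∈ ball (0:ℂ) 1 := by
    intro z hz
    rw [mem_ball_zero_iff] at hz ⊢
    rw [norm_mul, Complex.norm_real, Real.norm_of_nonneg hr0.le]
    rw [lt_div_iff₀ hr0] at hz
    linarith
  have hanf : ∀ z ∈ ball (0:ℂ) 1, HasStrictDerivAt f (deriv f z) z := fun z hz =>
    (hf.analyticAt (isOpen_ball.mem_nhds hz)).hasStrictDerivAt
  have hdf : DifferentiableOn ℂ (deriv f) (ball (0:ℂ) 1) := hf.deriv isOpen_ball
  have hanf1 : ∀ z ∈ ball (0:ℂ) 1, HasStrictDerivAt (deriv f) (deriv (deriv f) z) z :=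
    fun z hz => (hdf.analyticAt (isOpen_ball.mem_nhds hz)).hasStrictDerivAt
  have hlin : ∀ z : ℂ, HasStrictDerivAt (fun z : ℂ => (r:ℂ) * z) (r:ℂ) z := fun z => by
    simpa using (hasStrictDerivAt_id z).const_mul (r:ℂ)
  set F : ℂ → ℂ := fun z => ((κ/r : ℝ) : ℂ) * f ((r:ℂ) * z) with hF
  set F1 : ℂ → ℂ := fun z => (κ : ℂ) * deriv f ((r:ℂ) * z) with hF1
  set F2 : ℂ → ℂ := fun z => (κ : ℂ) * (deriv (deriv f) ((r:ℂ) * z) * r) with hF2
  have hrC : (r : ℂ) ≠ 0 := by exact_mod_cast hr0.ne'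
  have hdF : ∀ z ∈ ball (0:ℂ) (1/r), HasStrictDerivAt F (F1 z) z := by
    intro z hz
    have h1 := ((hanf _ (hmap z hz)).comp z (hlin z)).const_mul ((κ/r : ℝ) : ℂ)
    refine h1.congr_deriv ?_
    simp only [hF1]
    push_cast
    field_simp
  have hdF1 : ∀ z ∈ ball (0:ℂ) (1/r), HasStrictDerivAt F1 (F2 z) z := by
    intro z hz
    exact ((hanf1 _ (hmap z hz)).comp z (hlin z)).const_mul (κ : ℂ)
  have hnF1 : ∀ z, ‖F1 z‖ = κ * ‖deriv f ((r:ℂ) * z)‖ := by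
    intro z
    simp only [hF1]
    rw [norm_mul, Complex.norm_real, Real.norm_of_nonneg hκ0.le]
  have hlow : ∀ z ∈ ball (0:ℂ) (1/r), κ * m ≤ ‖F1 z‖ := by
    intro z hz
    rw [hnF1]
    exact mul_le_mul_of_nonneg_left (hb _ (hmap z hz)).1 hκ0.le
  have hup : ∀ z ∈ ball (0:ℂ) (1/r), ‖F1 z‖ < Real.exp (L/2) := by
    intro z hz
    rw [hnF1]
    have h1 := (hb _ (hmap z hz)).2.trans hM
    calc κ * ‖deriv f ((r:ℂ) * z)‖ ≤ κ * ((67/10) * m) := mul_le_mul_of_nonneg_left h1 hκ0.le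
      _ = (67/10) * (κ * m) := by ring
      _ < (67/10) * (Real.exp (L/2) / (67/10)) := mul_lt_mul_of_pos_left hκ2 (by norm_num)
      _ = Real.exp (L/2) := by ring
  have hlow' : ∀ z ∈ ball (0:ℂ) (1/r), Real.exp (-(L/2)) < ‖F1 z‖ := fun z hz =>
    hκ1.trans_le (hlow z hz)
  have hu : ∀ z ∈ ball (0:ℂ) (1/r), |Real.log ‖F1 z‖| < 761/800 := by
    intro z hz
    have h1 := hlow' z hz
    have h2 := hup z hz
    have h0 : 0 < ‖F1 z‖ := (Real.exp_pos _).trans h1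
    have h3 : -(L/2) < Real.log ‖F1 z‖ := (Real.lt_log_iff_exp_lt h0).2 h1
    have h4 : Real.log ‖F1 z‖ < L/2 := (Real.log_lt_iff_lt_exp h0).2 h2
    rw [abs_lt]
    constructor <;> linarith
  have hsub1 : ball (0:ℂ) 1 ⊆ ball (0:ℂ) (1/r) := ball_subset_ball hR.le
  -- bounds on h
  have hh : ∀ z ∈ ball (0:ℂ) (1/r), 0 < hq (Real.log ‖F1 z‖) ∧ hq (Real.log ‖F1 z‖) < 1 :=
    fun z hz => numeric2c _ (hu z hz)
  -- Schwarz-Pick
  have hpick : ∀ z ∈ ball (0:ℂ) 1, (1 - ‖z‖^2) * ‖F2 z / F1 z‖ ≤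
      (2*(761/400)/Real.pi) * Real.cos (Real.pi * Real.log ‖F1 z‖ / (761/400)) := by
    intro z hz
    have hd : DifferentiableOn ℂ F1 (ball 0 1) := fun y hy =>
      (hdF1 y (hsub1 hy)).hasDerivAt.differentiableAt.differentiableWithinAt
    have h1 := pick_strip pick_half F1 hd L (by norm_num [hL])
      (fun y hy => ⟨hlow' y (hsub1 hy), hup y (hsub1 hy)⟩) z hz
    rw [(hdF1 z (hsub1 hz)).hasDerivAt.deriv] at h1
    exact h1
  have main : InjOn F (closedBall 0 1) := by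
    refine injOn_closedBall_G (g := fun u => 1 / (1 + hq u))
      (g' := fun u => -hq' u / (1 + hq u)^2) (G := GG) (m := κ * m) (M₀ := Real.exp (L/2))
      hR hdF hdF1 (by positivity) hlow (fun z hz => (hup z hz).le) ?_ ?_ ?_ ?_ ?_ ?_
    · intro z hz
      rw [lg_eq]
      exact GG_deriv _ (hh z hz).1
    · intro z hz
      rw [lg_eq]
      exact GG_val _
    · intro z hz
      obtain ⟨h1, h2⟩ := hh z hz
      show 1/2 < 1 / (1 + hq (Real.log ‖F1 z‖))
      rw [lt_div_iff₀ (by linarith)]; linarith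
    · intro z hz
      obtain ⟨h1, h2⟩ := hh z hz
      show 1 / (1 + hq (Real.log ‖F1 z‖)) < 1
      rw [div_lt_one (by linarith)]; linarith
    · intro z hz
      obtain ⟨h1, h2⟩ := hh z (hsub1 hz)
      show (1 - ‖z‖ ^ 2) * ‖F2 z / F1 z‖ * (1 / (1 + hq (Real.log ‖F1 z‖))) < 1
      rw [mul_one_div, div_lt_one (by linarith)]
      exact (hpick z hz).trans_lt (numeric2a _ (hu z (hsub1 hz)))
    · intro z hz
      obtain ⟨h1, h2⟩ := hh z (hsub1 hz)
      have hb3 := numeric2b _ (hu z (hsub1 hz))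
      have hp := hpick z hz
      show (1 - ‖z‖ ^ 2) * ‖F2 z / F1 z‖ * |1 / (1 + hq (Real.log ‖F1 z‖)) +
        -hq' (Real.log ‖F1 z‖) / (1 + hq (Real.log ‖F1 z‖))^2| <
          2 * (1 / (1 + hq (Real.log ‖F1 z‖))) - 1
      generalize Real.log ‖F1 z‖ = u at *
      have hpos : 0 < 1 + hq u := by linarith
      have e1 : 1 / (1 + hq u) + -hq' u / (1 + hq u)^2 = (1 + hq u - hq' u) / (1 + hq u)^2 := by
        field_simp
        ring
      have e2 : 2 * (1 / (1 + hq u)) - 1 = (1 - hq u ^ 2) / (1 + hq u)^2 := by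
        field_simp
        ring
      rw [e1, e2, abs_div, abs_of_pos (by positivity : 0 < (1 + hq u)^2), ← mul_div_assoc]
      apply div_lt_div_of_pos_right _ (by positivity)
      refine lt_of_le_of_lt (mul_le_mul_of_nonneg_right hp (abs_nonneg _)) ?_
      exact hb3
  have e1 : F (a / r) = F (b / r) := by
    simp only [hF]
    rw [mul_div_cancel₀ _ hrC, mul_div_cancel₀ _ hrC, hab]
  have m1 : ∀ c : ℂ, ‖c‖ ≤ r → c / r ∈ closedBall (0:ℂ) 1 := by
    intro c hc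
    rw [mem_closedBall_zero_iff, norm_div, Complex.norm_real, Real.norm_of_nonneg hr0.le]
    exact (div_le_one hr0).2 hc
  have := main (m1 a har) (m1 b hbr) e1
  exact (div_left_inj' hrC).1 this

end Pool.Agent.Helper428.John
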