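import Mathlib

set_option autoImplicit false

namespace Pool.Agent.Helper428.LogIneq

open Finset

lemma mono_help (F F' : ℝ → ℝ) (a b : ℝ) (hab : a ≤ b)
    (hF : ∀ x, a ≤ x → x ≤ b → HasDerivAt F (F' x) x)
    (hF' : ∀ x, a ≤ x → x ≤ b → 0 ≤ F' x) : F a ≤ F b := by
  have h : MonotoneOn F (Set.Icc a b) := by
    apply monotoneOn_of_deriv_nonneg (convex_Icc a b)
    · intro x hx
      exact (hF x hx.1 hx.2).continuousAt.continuousWithinAt
    · intro x hx
      rw [interior_Icc] at hx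
      exact (hF x hx.1.le hx.2.le).differentiableAt.differentiableWithinAt
    · intro x hx
      rw [interior_Icc] at hx
      rw [(hF x hx.1.le hx.2.le).deriv]
      exact hF' x hx.1.le hx.2.le
  exact h (Set.left_mem_Icc.2 hab) (Set.right_mem_Icc.2 hab) hab

/-- `log (1 - y) ≤ - y - y^2 / 2`. -/
lemma log_one_sub_le (y : ℝ) (h0 : 0 ≤ y) (h1 : y < 1) : Real.log (1 - y) ≤ - y - y ^ 2 / 2 := by
  have := mono_help (fun x => - x - x ^ 2 / 2 - Real.log (1 - x)) (fun x => -1 - x + 1 / (1 - x))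
    0 y h0 ?_ ?_
  · simp only [neg_zero, sub_zero, Real.log_one] at this
    norm_num at this
    linarith
  · intro x hx0 hxy
    have hx : 1 - x ≠ 0 := by linarith
    have h2 : HasDerivAt (fun x : ℝ => 1 - x) (-1) x := (hasDerivAt_id' x).const_sub 1
    have h3 := h2.log hx
    have h4 : HasDerivAt (fun x : ℝ => - x - x ^ 2 / 2) (-1 - x) x := by
      have e1 : HasDerivAt (fun x : ℝ => - x) (-1) x := (hasDerivAt_id' x).neg
      have e2 : HasDerivAt (fun x : ℝ => x ^ 2 / 2) x x :=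
        ((hasDerivAt_pow 2 x).div_const 2).congr_deriv (by norm_num)
      exact e1.sub e2
    exact (h4.sub h3).congr_deriv (by ring)
  · intro x hx0 hxy
    have hx : 0 < 1 - x := by linarith
    have : -1 - x + 1 / (1 - x) = x ^ 2 / (1 - x) := by
      field_simp
      ring
    rw [this]
    positivity

/-- Pade bound. -/
lemma log_one_add_le (w : ℝ) (h0 : 0 ≤ w) : Real.log (1 + w) ≤ w * (6 + w) / (6 + 4 * w) := by
  have := mono_help (fun x => x * (6 + x) / (6 + 4 * x) - Real.log (1 + x))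
    (fun x => ((6 + 2 * x) * (6 + 4 * x) - x * (6 + x) * 4) / (6 + 4 * x) ^ 2 - 1 / (1 + x))
    0 w h0 ?_ ?_
  · simp only [zero_mul, zero_div, add_zero, Real.log_one, sub_zero] at this
    linarith
  · intro x hx0 hxw
    have hx : 1 + x ≠ 0 := by linarith
    have h2 : HasDerivAt (fun x : ℝ => 1 + x) 1 x := (hasDerivAt_id' x).const_add 1
    have h3 := h2.log hx
    have e1 : HasDerivAt (fun x : ℝ => x * (6 + x)) (6 + 2 * x) x :=
      ((hasDerivAt_id' x).mul ((hasDerivAt_id' x).const_add 6)).congr_deriv (by ring)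
    have e2 : HasDerivAt (fun x : ℝ => 6 + 4 * x) 4 x :=
      (((hasDerivAt_id' x).const_mul 4).const_add 6).congr_deriv (by ring)
    have h5 : 6 + 4 * x ≠ 0 := by linarith
    exact (e1.div e2 h5).sub h3
  · intro x hx0 hxw
    have h1 : 0 < 1 + x := by linarith
    have h2 : 0 < 6 + 4 * x := by linarith
    have : ((6 + 2 * x) * (6 + 4 * x) - x * (6 + x) * 4) / (6 + 4 * x) ^ 2 - 1 / (1 + x) =
        4 * x ^ 3 / ((6 + 4 * x) ^ 2 * (1 + x)) := by
      field_simp
      ring
    rw [this]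
    positivity

lemma log_ratio_lower (x : ℝ) (h0 : 0 ≤ x) (h1 : x < 1) :
    2 * (x + x ^ 3 / 3) ≤ Real.log (1 + x) - Real.log (1 - x) := by
  have := mono_help (fun x => Real.log (1 + x) - Real.log (1 - x) - 2 * (x + x ^ 3 / 3))
    (fun x => 1 / (1 + x) + 1 / (1 - x) - 2 * (1 + x ^ 2)) 0 x h0 ?_ ?_
  · norm_num at this
    linarith
  · intro y hy0 hyx
    have hy : 1 + y ≠ 0 := by linarith
    have hy' : 1 - y ≠ 0 := by linarith
    have h2 := ((hasDerivAt_id' y).const_add 1).log hy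
    have h3 := ((hasDerivAt_id' y).const_sub 1).log hy'
    have h4 : HasDerivAt (fun x : ℝ => 2 * (x + x ^ 3 / 3)) (2 * (1 + y ^ 2)) y :=
      (((hasDerivAt_id' y).add ((hasDerivAt_pow 3 y).div_const 3)).const_mul 2).congr_deriv
        (by norm_num)
    exact ((h2.sub h3).sub h4).congr_deriv (by ring)
  · intro y hy0 hyx
    have h1 : 0 < 1 + y := by linarith
    have h2 : 0 < 1 - y := by linarith
    have : 1 / (1 + y) + 1 / (1 - y) - 2 * (1 + y ^ 2) = 2 * y ^ 4 / ((1 + y) * (1 - y)) := by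
      field_simp
      ring
    rw [this]
    positivity

lemma log_ratio_upper (x : ℝ) (h0 : 0 ≤ x) (h1 : x < 1) :
    Real.log (1 + x) - Real.log (1 - x) ≤ 2 * (x + x ^ 3 / (3 * (1 - x ^ 2))) := by
  have := mono_help (fun x => 2 * (x + x ^ 3 / (3 * (1 - x ^ 2))) -
      (Real.log (1 + x) - Real.log (1 - x)))
    (fun x => 2 * (1 + (3 * x ^ 2 * (3 * (1 - x ^ 2)) - x ^ 3 * (3 * (- (2 * x))))
      / (3 * (1 - x ^ 2)) ^ 2) - (1 / (1 + x) + 1 / (1 - x))) 0 x h0 ?_ ?_
  · norm_num at this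
    linarith
  · intro y hy0 hyx
    have hy : 1 + y ≠ 0 := by linarith
    have hy' : 1 - y ≠ 0 := by linarith
    have hy2 : 3 * (1 - y ^ 2) ≠ 0 := by nlinarith
    have h2 := ((hasDerivAt_id' y).const_add 1).log hy
    have h3 := ((hasDerivAt_id' y).const_sub 1).log hy'
    have h4 : HasDerivAt (fun x : ℝ => 3 * (1 - x ^ 2)) (3 * (- (2 * y))) y :=
      (((hasDerivAt_pow 2 y).const_sub 1).const_mul 3).congr_deriv (by norm_num)
    have h5 : HasDerivAt (fun x : ℝ => x ^ 3) (3 * y ^ 2) y :=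
      (hasDerivAt_pow 3 y).congr_deriv (by norm_num)
    have h6 := ((hasDerivAt_id' y).add (h5.div h4 hy2)).const_mul 2
    exact (h6.sub (h2.sub h3)).congr_deriv (by ring)
  · intro y hy0 hyx
    have h1 : 0 < 1 + y := by linarith
    have h2 : 0 < 1 - y := by linarith
    have h3 : 1 - y ^ 2 = (1 + y) * (1 - y) := by ring
    have : 2 * (1 + (3 * y ^ 2 * (3 * (1 - y ^ 2)) - y ^ 3 * (3 * (- (2 * y))))
      / (3 * (1 - y ^ 2)) ^ 2) - (1 / (1 + y) + 1 / (1 - y)) =
        4 * y ^ 4 / (3 * ((1 + y) * (1 - y)) ^ 2) := by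
      rw [h3]
      field_simp
      ring
    rw [this]
    positivity

/-- double contact bound on `[0, 1)`. -/
lemma contact (τ b A : ℝ) (hτ1 : τ < 1) (hA : A = 2 * b * τ - 1 / (1 - τ))
    (hG : Real.log (1 - τ) = A * τ - b * τ ^ 2) (hb : 2 * b ≤ 1 / (1 - τ) ^ 2)
    (t : ℝ) (ht0 : 0 ≤ t) (ht1 : t < 1) : Real.log (1 - t) ≤ A * t - b * t ^ 2 := by
  have hder : ∀ x : ℝ, x < 1 → HasDerivAt (fun x => A * x - b * x ^ 2 - Real.log (1 - x))
      ((x - τ) * (1 / ((1 - x) * (1 - τ)) - 2 * b)) x := by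
    intro x hx
    have hx' : 1 - x ≠ 0 := by linarith
    have hτ' : 1 - τ ≠ 0 := by linarith
    have h2 := ((hasDerivAt_id' x).const_sub 1).log hx'
    have h3 : HasDerivAt (fun x : ℝ => A * x - b * x ^ 2) (A - b * (2 * x)) x :=
      (((hasDerivAt_id' x).const_mul A).sub ((hasDerivAt_pow 2 x).const_mul b)).congr_deriv
        (by norm_num)
    refine (h3.sub h2).congr_deriv ?_
    rw [hA]
    field_simp
    ring
  have hmono : ∀ x y : ℝ, x ≤ y → y < 1 →
      1 / ((1 - x) * (1 - τ)) ≤ 1 / ((1 - y) * (1 - τ)) := by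
    intro x y hxy hy
    apply one_div_le_one_div_of_le
    · apply mul_pos <;> linarith
    · apply mul_le_mul_of_nonneg_right <;> linarith
  have hτb : 2 * b ≤ 1 / ((1 - τ) * (1 - τ)) := by
    rw [← sq]; exact hb
  rcases le_total τ t with h | h
  · have := mono_help _ _ τ t h (fun x _ hx => hder x (by linarith)) ?_
    · rw [hG] at this
      linarith
    · intro x hx1 hx2
      have := hmono τ x hx1 (by linarith)
      apply mul_nonneg <;> linarith
  · rcases le_total (1 / ((1 - t) * (1 - τ)) - 2 * b) 0 with h2 | h2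
    · have := mono_help _ _ 0 t ht0 (fun x _ hx => hder x (by linarith)) ?_
      · norm_num at this
        linarith
      · intro x hx1 hx2
        have := hmono x t hx2 ht1
        apply mul_nonneg_of_nonpos_of_nonpos <;> linarith
    · have := mono_help (fun x => -(A * x - b * x ^ 2 - Real.log (1 - x)))
        (fun x => - ((x - τ) * (1 / ((1 - x) * (1 - τ)) - 2 * b))) t τ h
        (fun x _ hx => (hder x (by linarith)).neg) ?_
      · rw [hG] at this
        linarith
      · intro x hx1 hx2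
        have := hmono t x hx1 (by linarith)
        rw [neg_nonneg]
        apply mul_nonpos_of_nonpos_of_nonneg <;> linarith

lemma sigma_lower (m : ℝ) (hm : 2 ≤ m) :
    1 / m + (m + 1) / (3 * m ^ 3) ≤
      (m + 1) / 2 * (Real.log (m + 1) - Real.log (m - 1)) - 1 := by
  have h1 := log_ratio_lower (1 / m) (by positivity) (by
    rw [div_lt_one (by linarith)]; linarith)
  have h2 : Real.log (1 + 1 / m) - Real.log (1 - 1 / m) = Real.log (m + 1) - Real.log (m - 1) := by
    have e1 : 1 + 1 / m = (m + 1) / m := by field_simp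
    have e2 : 1 - 1 / m = (m - 1) / m := by field_simp
    rw [e1, e2, Real.log_div (by linarith) (by linarith), Real.log_div (by linarith) (by linarith)]
    ring
  rw [h2] at h1
  have h3 := mul_le_mul_of_nonneg_left h1 (show (0 : ℝ) ≤ (m + 1) / 2 by linarith)
  have h4 : (m + 1) / 2 * (2 * (1 / m + (1 / m) ^ 3 / 3)) = 1 / m + (m + 1) / (3 * m ^ 3) + 1 := by
    field_simp
    ring
  linarith

lemma sigma_upper (m : ℝ) (hm : 2 ≤ m) :
    (m + 1) / 2 * (Real.log (m + 1) - Real.log (m - 1)) - 1 ≤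
      1 / m + 1 / (3 * m * (m - 1)) := by
  have h1 := log_ratio_upper (1 / m) (by positivity) (by
    rw [div_lt_one (by linarith)]; linarith)
  have h2 : Real.log (1 + 1 / m) - Real.log (1 - 1 / m) = Real.log (m + 1) - Real.log (m - 1) := by
    have e1 : 1 + 1 / m = (m + 1) / m := by field_simp
    have e2 : 1 - 1 / m = (m - 1) / m := by field_simp
    rw [e1, e2, Real.log_div (by linarith) (by linarith), Real.log_div (by linarith) (by linarith)]
    ring
  rw [h2] at h1
  have h3 := mul_le_mul_of_nonneg_left h1 (show (0 : ℝ) ≤ (m + 1) / 2 by linarith)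
  have hm1 : m - 1 ≠ 0 := by linarith
  have hm2 : m + 1 ≠ 0 := by linarith
  have h4 : (m + 1) / 2 * (2 * (1 / m + (1 / m) ^ 3 / (3 * (1 - (1 / m) ^ 2)))) =
      1 / m + 1 / (3 * m * (m - 1)) + 1 := by
    have h5 : 1 - (1 / m) ^ 2 = (m + 1) * (m - 1) / m ^ 2 := by
      field_simp
      ring
    rw [h5]
    field_simp
    ring
  linarith

/-- the small negative range. -/
lemma small_neg (m σ w : ℝ) (hm : 2 ≤ m) (hσ : 1 / m + (m + 1) / (3 * m ^ 3) ≤ σ) (hw : 0 ≤ w)
    (hw2 : w ^ 2 * (m + 13) ≤ 2) :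
    Real.log (1 + w) ≤ (1 + σ) * w - ((m + 1) / (m - 1) - (m + 1) * σ / 2) * w ^ 2 := by
  refine (log_one_add_le w hw).trans ?_
  have hm1 : 0 < m - 1 := by linarith
  have hm0 : 0 < m := by linarith
  have h6 : 0 < 6 + 4 * w := by linarith
  rw [div_le_iff₀ h6]
  -- reduce to a linear inequality in σ
  have key : 0 ≤ 6 * σ + 3 * w + 4 * σ * w -
      ((m + 1) / (m - 1) - (m + 1) * σ / 2) * w * (6 + 4 * w) := by
    set σ0 := 1 / m + (m + 1) / (3 * m ^ 3) with hσ0
    have hlin : 6 * σ0 + 3 * w + 4 * σ0 * w -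
      ((m + 1) / (m - 1) - (m + 1) * σ0 / 2) * w * (6 + 4 * w) ≤
        6 * σ + 3 * w + 4 * σ * w -
      ((m + 1) / (m - 1) - (m + 1) * σ / 2) * w * (6 + 4 * w) := by
      have : 0 ≤ (σ - σ0) * (6 + 4 * w + (m + 1) / 2 * w * (6 + 4 * w)) := by
        apply mul_nonneg
        · linarith
        · positivity
      linarith
    refine le_trans ?_ hlin
    have hid : 6 * σ0 + 3 * w + 4 * σ0 * w -
      ((m + 1) / (m - 1) - (m + 1) * σ0 / 2) * w * (6 + 4 * w) =
        (6 * (3 * m ^ 3 - 2 * m ^ 2 - 1) - w * (12 * m ^ 3 + 14 * m ^ 2 + 3 * m + 7)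
          - 2 * w ^ 2 * (m + 1) * (3 * m ^ 3 + 2 * m ^ 2 + 1)) / (3 * m ^ 3 * (m - 1)) := by
      rw [hσ0]
      field_simp
      ring
    rw [hid]
    apply div_nonneg _ (by positivity)
    have hw3 : w * (m + 13) ≤ (m + 31) / 6 := by
      have : 0 ≤ (3 * w - 1) ^ 2 * (m + 13) := by positivity
      nlinarith
    have hQ1 : 0 ≤ 12 * m ^ 3 + 14 * m ^ 2 + 3 * m + 7 := by positivity
    have hQ2 : 0 ≤ (m + 1) * (3 * m ^ 3 + 2 * m ^ 2 + 1) := by positivity
    have e1 := mul_le_mul_of_nonneg_right hw3 hQ1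
    have e2 := mul_le_mul_of_nonneg_right hw2 hQ2
    have hpoly : 0 ≤ 6 * (3 * m ^ 3 - 2 * m ^ 2 - 1) * (m + 13)
        - (m + 31) / 6 * (12 * m ^ 3 + 14 * m ^ 2 + 3 * m + 7)
        - 4 * ((m + 1) * (3 * m ^ 3 + 2 * m ^ 2 + 1)) := by
      obtain ⟨s, hs⟩ : ∃ s, s = m - 2 := ⟨_, rfl⟩
      have hs0 : 0 ≤ s := by linarith
      have hm' : m = s + 2 := by linarith
      rw [hm']
      have : 6 * (3 * (s + 2) ^ 3 - 2 * (s + 2) ^ 2 - 1) * ((s + 2) + 13)
        - ((s + 2) + 31) / 6 * (12 * (s + 2) ^ 3 + 14 * (s + 2) ^ 2 + 3 * (s + 2) + 7)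
        - 4 * (((s + 2) + 1) * (3 * (s + 2) ^ 3 + 2 * (s + 2) ^ 2 + 1)) =
          4 * s ^ 4 + (509 / 3) * s ^ 3 + (4111 / 6) * s ^ 2 + 806 * s + 93 / 2 := by
        ring
      rw [this]
      positivity
    have hfin : 0 ≤ (6 * (3 * m ^ 3 - 2 * m ^ 2 - 1) - w * (12 * m ^ 3 + 14 * m ^ 2 + 3 * m + 7)
          - 2 * w ^ 2 * (m + 1) * (3 * m ^ 3 + 2 * m ^ 2 + 1)) * (m + 13) := by
      nlinarith
    exact nonneg_of_mul_nonneg_left hfin (by linarith)
  nlinarith [mul_nonneg hw key]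

/-- the large negative range. -/
lemma large_neg (m σ w κ : ℝ) (hm : 2 ≤ m) (hσ : σ ≤ 1 / m + 1 / (3 * m * (m - 1))) (hw : 0 ≤ w)
    (hw2 : 2 ≤ w ^ 2 * (m + 13)) (hκ : 0 ≤ κ) :
    κ * σ ≤ 3 * w ^ 2 / (6 + 4 * w) + (κ + w) ^ 2 / (2 * (m - 1)) := by
  have hm1 : 0 < m - 1 := by linarith
  have hm0 : 0 < m := by linarith
  have h6 : 0 < 6 + 4 * w := by linarith
  have h1 := mul_le_mul_of_nonneg_left hσ hκ
  refine h1.trans ?_
  set σ1 := 1 / m + 1 / (3 * m * (m - 1)) with hσ1
  have hs : σ1 = (3 * m - 2) / (3 * m * (m - 1)) := by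
    rw [hσ1]
    field_simp
    ring
  have hsq : κ * σ1 ≤ (κ + w) ^ 2 / (2 * (m - 1)) + ((m - 1) * σ1 ^ 2 / 2 - σ1 * w) := by
    have : (κ + w) ^ 2 / (2 * (m - 1)) + ((m - 1) * σ1 ^ 2 / 2 - σ1 * w) - κ * σ1
        = (κ + w - (m - 1) * σ1) ^ 2 / (2 * (m - 1)) := by
      field_simp
      ring
    have h2 : 0 ≤ (κ + w - (m - 1) * σ1) ^ 2 / (2 * (m - 1)) := by positivity
    linarith
  suffices hsuff : 0 ≤ 3 * w ^ 2 / (6 + 4 * w) - ((m - 1) * σ1 ^ 2 / 2 - σ1 * w) by linarith
  have hid : 3 * w ^ 2 / (6 + 4 * w) - ((m - 1) * σ1 ^ 2 / 2 - σ1 * w) =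
      (54 * m ^ 2 * (m - 1) * w ^ 2 + (3 * m - 2) * (6 + 4 * w) * (6 * m * w - 3 * m + 2)) /
        (18 * m ^ 2 * (m - 1) * (6 + 4 * w)) := by
    rw [hs]
    field_simp
    ring
  rw [hid]
  apply div_nonneg _ (by positivity)
  -- `w ≥ 12 / (m + 31)`
  have hw3 : 12 ≤ w * (m + 31) := by
    by_contra hcon
    push Not at hcon
    have h3 : (w * (m + 31)) ^ 2 < 12 ^ 2 := by
      apply pow_lt_pow_left₀ hcon (by positivity) (by norm_num)
    have h4 : 2 * (m + 31) ^ 2 ≤ w ^ 2 * (m + 13) * (m + 31) ^ 2 := by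
      apply mul_le_mul_of_nonneg_right hw2 (by positivity)
    nlinarith [sq_nonneg (m - 5)]
  have hpoly : 0 ≤ 108 * m ^ 2 * (m - 1) * (m + 31) + (3 * m - 2) * (48 * m * (m + 31)
      + 12 * (24 * m + 8) * (m + 13) - (18 * m - 12) * ((m + 13) * (m + 31))) := by
    obtain ⟨s, hs⟩ : ∃ s, s = m - 2 := ⟨_, rfl⟩
    have hs0 : 0 ≤ s := by linarith
    have hm' : m = s + 2 := by linarith
    rw [hm']
    ring_nf
    positivity
  have h54 : 0 ≤ 54 * m ^ 2 * (m - 1) + 24 * m * (3 * m - 2) := by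
    have : 0 ≤ 3 * m - 2 := by linarith
    positivity
  have h24 : 0 ≤ (3 * m - 2) * (24 * m + 8) := by
    have : 0 ≤ 3 * m - 2 := by linarith
    positivity
  have e1 := mul_le_mul_of_nonneg_left hw2 h54
  have e2 := mul_le_mul_of_nonneg_left hw3 h24
  have e3 := mul_le_mul_of_nonneg_right e1 (show (0 : ℝ) ≤ m + 31 by linarith)
  have e4 := mul_le_mul_of_nonneg_right e2 (show (0 : ℝ) ≤ m + 13 by linarith)
  have hfin : 0 ≤ (54 * m ^ 2 * (m - 1) * w ^ 2 +
      (3 * m - 2) * (6 + 4 * w) * (6 * m * w - 3 * m + 2)) * ((m + 13) * (m + 31)) := by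
    have : (54 * m ^ 2 * (m - 1) * w ^ 2 +
      (3 * m - 2) * (6 + 4 * w) * (6 * m * w - 3 * m + 2)) * ((m + 13) * (m + 31)) =
      (54 * m ^ 2 * (m - 1) + 24 * m * (3 * m - 2)) * (w ^ 2 * (m + 13)) * (m + 31) +
      (3 * m - 2) * (24 * m + 8) * (w * (m + 31)) * (m + 13) -
      (3 * m - 2) * (18 * m - 12) * ((m + 13) * (m + 31)) := by ring
    rw [this]
    linarith
  exact nonneg_of_mul_nonneg_left hfin (by positivity)

/-- Jensen for `log (1 - t)` in the form needed. -/
lemma jensen {ι : Type*} (s : Finset ι) (hs : 0 < s.card) (t : ι → ℝ) (ht : ∀ a ∈ s, t a < 1)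
    (hT : 0 ≤ ∑ a ∈ s, t a) :
    ∑ a ∈ s, Real.log (1 - t a) ≤ - (∑ a ∈ s, t a) - (∑ a ∈ s, t a) ^ 2 / (2 * s.card) := by
  have hc : (0 : ℝ) < s.card := by exact_mod_cast hs
  obtain ⟨T, hTd⟩ : ∃ T : ℝ, T = ∑ a ∈ s, t a := ⟨_, rfl⟩
  rw [← hTd] at hT ⊢
  have hTlt : T < s.card := by
    rw [hTd]
    calc ∑ a ∈ s, t a < ∑ a ∈ s, (1 : ℝ) := by
          apply Finset.sum_lt_sum_of_nonempty (Finset.card_pos.1 hs) ht
      _ = s.card := by simp
  have hy0 : 0 ≤ T / s.card := by positivity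
  have hy1 : T / s.card < 1 := by
    rw [div_lt_one hc]; exact hTlt
  have hpt : ∀ a ∈ s, Real.log (1 - t a) ≤
      Real.log (1 - T / s.card) + (T / s.card - t a) / (1 - T / s.card) := by
    intro a ha
    have h1 : 0 < 1 - t a := by linarith [ht a ha]
    have h2 : 0 < 1 - T / s.card := by linarith
    have h3 := Real.log_le_sub_one_of_pos (div_pos h1 h2)
    rw [Real.log_div h1.ne' h2.ne'] at h3
    have h4 : (1 - t a) / (1 - T / s.card) - 1 = (T / s.card - t a) / (1 - T / s.card) := by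
      rw [div_sub_one h2.ne']
      congr 1
      ring
    linarith
  have hsum := Finset.sum_le_sum hpt
  have h5 : ∑ a ∈ s, (Real.log (1 - T / s.card) + (T / s.card - t a) / (1 - T / s.card)) =
      s.card * Real.log (1 - T / s.card) := by
    rw [Finset.sum_add_distrib, ← Finset.sum_div, Finset.sum_sub_distrib, ← hTd]
    simp only [Finset.sum_const, nsmul_eq_mul]
    have : (s.card : ℝ) * (T / s.card) - T = 0 := by
      field_simp
      ring
    rw [this]
    simp
  rw [h5] at hsum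
  have h6 := log_one_sub_le (T / s.card) hy0 hy1
  have h7 := mul_le_mul_of_nonneg_left h6 hc.le
  have h8 : (s.card : ℝ) * (-(T / s.card) - (T / s.card) ^ 2 / 2) = -T - T ^ 2 / (2 * s.card) := by
    field_simp
  linarith

theorem main_ineq {ι : Type*} [Fintype ι] [DecidableEq ι] (hcard : 3 ≤ Fintype.card ι)
    (lam : ι → ℝ) (k : ℕ) (S : ℝ) (h1 : ∑ a, lam a = 2 * k)
    (h2 : 4 * k + 2 * S ≤ ∑ a, lam a ^ 2) (h3 : ∑ a, max (- lam a) 0 ≤ S)
    (h4 : ∀ a, lam a ≤ Fintype.card ι) (h5 : ∃ a, lam a = 0) :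
    ∏ a, ((Fintype.card ι : ℝ) - lam a) ≤
      (Fintype.card ι : ℝ) ^ (Fintype.card ι) * (1 - 2 / (Fintype.card ι : ℝ)) ^ k := by
  obtain ⟨n, hn⟩ : ∃ n : ℝ, n = (Fintype.card ι : ℝ) := ⟨_, rfl⟩
  have hn3 : (3 : ℝ) ≤ n := by rw [hn]; exact_mod_cast hcard
  simp only [← hn] at h4 ⊢
  obtain ⟨m, hm⟩ : ∃ m : ℝ, n = m + 1 := ⟨n - 1, by ring⟩
  have hm2 : 2 ≤ m := by linarith
  have hn0 : 0 < n := by linarith
  have hm1 : 0 < m - 1 := by linarith
  have hRpos : 0 < 1 - 2 / n := by
    rw [sub_pos, div_lt_one hn0]; linarith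
  by_cases hex : ∃ a, lam a = n
  · obtain ⟨a, ha⟩ := hex
    rw [Finset.prod_eq_zero (Finset.mem_univ a) (by rw [ha]; ring)]
    positivity
  push Not at hex
  have h4' : ∀ a, lam a < n := fun a => lt_of_le_of_ne (h4 a) (hex a)
  obtain ⟨t, ht⟩ : ∃ t : ι → ℝ, ∀ a, t a = lam a / n := ⟨fun a => lam a / n, fun _ => rfl⟩
  have hlt : ∀ a, lam a = n * t a := by
    intro a; rw [ht]; field_simp
  have ht1 : ∀ a, t a < 1 := by
    intro a
    rw [ht, div_lt_one hn0]
    exact h4' a
  obtain ⟨κ, hκ⟩ : ∃ κ : ℝ, κ = 2 * k / n := ⟨_, rfl⟩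
  have hκ0 : 0 ≤ κ := by rw [hκ]; positivity
  obtain ⟨σ, hσ⟩ : ∃ σ : ℝ, σ = (m + 1) / 2 * (Real.log (m + 1) - Real.log (m - 1)) - 1 := ⟨_, rfl⟩
  have hσl := sigma_lower m hm2
  have hσu := sigma_upper m hm2
  rw [← hσ] at hσl hσu
  have hlogR : Real.log (1 - 2 / n) = - (2 / n) * (1 + σ) := by
    have : 1 - 2 / n = (m - 1) / (m + 1) := by
      rw [hm]
      field_simp
      ring
    rw [this, Real.log_div (by linarith) (by linarith), hσ, hm]
    field_simp
    ring
  have hsumt : ∑ a, t a = κ := by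
    rw [Finset.sum_congr rfl (fun a _ => ht a), ← Finset.sum_div, h1, hκ]
  -- the main logarithmic inequality
  have hmain : ∑ a, Real.log (1 - t a) ≤ - κ * (1 + σ) := by
    by_cases hbig : ∃ a, t a < 0 ∧ 2 ≤ (- t a) ^ 2 * (m + 13)
    · obtain ⟨a1, ha1, ha1'⟩ := hbig
      obtain ⟨a0, ha0⟩ := h5
      have ht0 : t a0 = 0 := by rw [ht, ha0]; simp
      have hne : a0 ≠ a1 := by
        rintro rfl
        rw [ht0] at ha1
        exact lt_irrefl _ ha1
      obtain ⟨s, hs⟩ : ∃ s : Finset ι, s = (Finset.univ.erase a0).erase a1 := ⟨_, rfl⟩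
      have hmem1 : a1 ∈ Finset.univ.erase a0 := Finset.mem_erase.2 ⟨hne.symm, Finset.mem_univ _⟩
      have hscard : s.card + 2 = Fintype.card ι := by
        rw [hs, Finset.card_erase_of_mem hmem1, Finset.card_erase_of_mem (Finset.mem_univ a0),
          Finset.card_univ]
        omega
      have hscard' : (s.card : ℝ) = m - 1 := by
        have : ((s.card + 2 : ℕ) : ℝ) = n := by rw [hscard, hn]
        push_cast at this
        linarith
      have hsplit : ∀ g : ι → ℝ, ∑ a, g a = g a0 + g a1 + ∑ a ∈ s, g a := by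
        intro g
        rw [hs, ← Finset.add_sum_erase Finset.univ g (Finset.mem_univ a0),
          ← Finset.add_sum_erase _ g hmem1]
        ring
      obtain ⟨w, hw⟩ : ∃ w : ℝ, w = - t a1 := ⟨_, rfl⟩
      have hw0 : 0 ≤ w := by linarith
      have hst : ∑ a ∈ s, t a = κ + w := by
        have := hsplit t
        rw [hsumt, ht0] at this
        linarith
      rw [hsplit (fun a => Real.log (1 - t a)), ht0]
      have hj := jensen s (by omega) t (fun a _ => ht1 a) (by rw [hst]; linarith)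
      rw [hst, hscard'] at hj
      have hl := log_one_add_le w hw0
      have h6 : 1 - t a1 = 1 + w := by rw [hw]; ring
      rw [h6]
      rw [← hw] at ha1'
      have hlarge := large_neg m σ w κ hm2 hσu hw0 ha1' hκ0
      have h7 : w * (6 + w) / (6 + 4 * w) = w - 3 * w ^ 2 / (6 + 4 * w) := by
        have : (0 : ℝ) < 6 + 4 * w := by linarith
        field_simp
        ring
      simp only [sub_zero, Real.log_one]
      linarith
    · push Not at hbig
      obtain ⟨b, hb⟩ : ∃ b : ℝ, b = (m + 1) / (m - 1) - (m + 1) * σ / 2 := ⟨_, rfl⟩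
      obtain ⟨A, hA⟩ : ∃ A : ℝ, A = b * (2 / n) - 1 - σ := ⟨_, rfl⟩
      have hτ1 : 2 / n < 1 := by linarith
      have h1τ : 1 / (1 - 2 / n) = (m + 1) / (m - 1) := by
        rw [hm]
        have : m + 1 - 2 ≠ 0 := by linarith
        field_simp
        ring
      have hA' : A = 2 * b * (2 / n) - 1 / (1 - 2 / n) := by
        rw [h1τ, hA, hb, hm]
        field_simp
        ring
      have hσm : 1 / m ≤ σ := by
        have : 0 ≤ (m + 1) / (3 * m ^ 3) := by positivity
        linarith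
      have hb2 : 2 * b ≤ 1 / (1 - 2 / n) ^ 2 := by
        have e1 : 1 / (1 - 2 / n) ^ 2 = ((m + 1) / (m - 1)) ^ 2 := by
          rw [← h1τ, one_div_pow]
        rw [e1, hb]
        have e2 : (m + 1) * (1 / m) / 2 ≤ (m + 1) * σ / 2 := by
          have := mul_le_mul_of_nonneg_left hσm (show (0 : ℝ) ≤ m + 1 by linarith)
          linarith
        have e3 : 2 * ((m + 1) / (m - 1) - (m + 1) * (1 / m) / 2) ≤ ((m + 1) / (m - 1)) ^ 2 := by
          have : ((m + 1) / (m - 1)) ^ 2 - 2 * ((m + 1) / (m - 1) - (m + 1) * (1 / m) / 2) =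
              (m + 1) ^ 2 / (m * (m - 1) ^ 2) := by
            field_simp
            ring
          have h9 : 0 ≤ (m + 1) ^ 2 / (m * (m - 1) ^ 2) := by positivity
          linarith
        linarith
      have hb0 : 0 ≤ b := by
        have e1 : 1 / m + 1 / (3 * m * (m - 1)) ≤ 2 / (m - 1) := by
          have : 2 / (m - 1) - (1 / m + 1 / (3 * m * (m - 1))) =
              (3 * m + 2) / (3 * m * (m - 1)) := by
            field_simp
            ring
          have h9 : 0 ≤ (3 * m + 2) / (3 * m * (m - 1)) := by positivity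
          linarith
        have e2 : (m + 1) * σ / 2 ≤ (m + 1) * (2 / (m - 1)) / 2 := by
          have := mul_le_mul_of_nonneg_left (hσu.trans e1) (show (0 : ℝ) ≤ m + 1 by linarith)
          linarith
        have e3 : (m + 1) * (2 / (m - 1)) / 2 = (m + 1) / (m - 1) := by
          field_simp
        rw [hb]
        linarith
      have hG : Real.log (1 - 2 / n) = A * (2 / n) - b * (2 / n) ^ 2 := by
        rw [hlogR, hA]
        ring
      have hpt : ∀ a, Real.log (1 - t a) ≤ A * t a - b * (t a) ^ 2 + (b * (2 / n)) * max (- t a) 0 := by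
        intro a
        rcases le_or_gt 0 (t a) with h | h
        · rw [max_eq_right (by linarith)]
          have := contact (2 / n) b A hτ1 hA' hG hb2 (t a) h (ht1 a)
          linarith
        · rw [max_eq_left (by linarith)]
          have h6 := hbig a h
          have h7 := small_neg m σ (- t a) hm2 hσl (by linarith) (by linarith)
          rw [← hb] at h7
          have h8 : 1 + - t a = 1 - t a := by ring
          rw [h8] at h7
          rw [hA]
          nlinarith
      have hsum := Finset.sum_le_sum (fun a (_ : a ∈ Finset.univ) => hpt a)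
      rw [Finset.sum_add_distrib, Finset.sum_sub_distrib, ← Finset.mul_sum, ← Finset.mul_sum,
        ← Finset.mul_sum, hsumt] at hsum
      have hneg : ∑ a, max (- t a) 0 ≤ S / n := by
        have : ∀ a, max (- t a) 0 = max (- lam a) 0 / n := by
          intro a
          rw [ht]
          rcases le_total 0 (lam a) with h | h
          · rw [max_eq_right, max_eq_right]
            · simp
            · linarith
            · have : 0 ≤ lam a / n := by positivity
              linarith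
          · rw [max_eq_left, max_eq_left]
            · ring
            · linarith
            · have : lam a / n ≤ 0 := div_nonpos_of_nonpos_of_nonneg h hn0.le
              linarith
        rw [Finset.sum_congr rfl (fun a _ => this a), ← Finset.sum_div]
        exact div_le_div_of_nonneg_right h3 hn0.le
      have hsq : κ * (2 / n) + (2 / n) * (S / n) ≤ ∑ a, t a ^ 2 := by
        have e1 : ∑ a, t a ^ 2 = (∑ a, lam a ^ 2) / n ^ 2 := by
          rw [Finset.sum_div]
          apply Finset.sum_congr rfl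
          intro a _
          rw [ht, div_pow]
        rw [e1]
        have e2 : κ * (2 / n) + (2 / n) * (S / n) = (4 * k + 2 * S) / n ^ 2 := by
          rw [hκ]
          field_simp
          ring
        rw [e2]
        exact div_le_div_of_nonneg_right h2 (by positivity)
      have e5 := mul_le_mul_of_nonneg_left hsq hb0
      have e6 := mul_le_mul_of_nonneg_left hneg (show 0 ≤ b * (2 / n) by positivity)
      have e7 : A * κ = b * (2 / n) * κ - κ * (1 + σ) := by rw [hA]; ring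
      nlinarith
  have hlog : Real.log (∏ a, (1 - t a)) ≤ Real.log ((1 - 2 / n) ^ k) := by
    rw [Real.log_prod (fun a _ => by linarith [ht1 a]), Real.log_pow, hlogR]
    refine hmain.trans (le_of_eq ?_)
    rw [hκ]
    ring
  have hprod : ∏ a, (1 - t a) ≤ (1 - 2 / n) ^ k := by
    rwa [Real.log_le_log_iff (Finset.prod_pos (fun a _ => by linarith [ht1 a])) (by positivity)] at hlog
  have hfac : ∏ a, (n - lam a) = n ^ (Fintype.card ι) * ∏ a, (1 - t a) := by
    have : ∀ a, n - lam a = n * (1 - t a) := by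
      intro a; rw [hlt a]; ring
    rw [Finset.prod_congr rfl (fun a _ => this a), Finset.prod_mul_distrib]
    simp
  rw [hfac]
  exact mul_le_mul_of_nonneg_left hprod (by positivity)

end Pool.Agent.Helper428.LogIneq
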