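import Mathlib

set_option autoImplicit false

namespace Pool.Agent.Helper428.PL

open Complex Filter Topology Set

/-- modulus of the complex sine. -/
lemma norm_sin_sq (z : ℂ) : ‖Complex.sin z‖ ^ 2 = Real.sin z.re ^ 2 + Real.sinh z.im ^ 2 := by
  have h : Complex.sin z = ((Real.sin z.re * Real.cosh z.im : ℝ) : ℂ) +
      ((Real.cos z.re * Real.sinh z.im : ℝ) : ℂ) * I := by
    conv_lhs => rw [← Complex.re_add_im z]
    rw [Complex.sin_add_mul_I]
    push_cast
    ring
  rw [h, ← Complex.normSq_eq_norm_sq, Complex.normSq_add_mul_I]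
  have h1 := Real.sin_sq_add_cos_sq z.re
  have h2 := Real.cosh_sq z.im
  have h3 : Real.cos z.re ^ 2 = 1 - Real.sin z.re ^ 2 := by linarith
  rw [mul_pow, mul_pow, h2, h3]
  ring

lemma sinh_le_norm_sin (z : ℂ) : |Real.sinh (Real.pi * z.im)| ≤ ‖Complex.sin (Real.pi * z)‖ := by
  have h := norm_sin_sq (Real.pi * z)
  have him : ((Real.pi : ℂ) * z).im = Real.pi * z.im := by simp
  rw [him] at h
  apply abs_le_of_sq_le_sq _ (norm_nonneg _)
  rw [h]
  nlinarith [sq_nonneg (Real.sin ((Real.pi : ℂ) * z).re)]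

lemma two_mul_abs_le_sin (t : ℝ) (ht : |t| ≤ 1 / 2) : 2 * |t| ≤ |Real.sin (Real.pi * t)| := by
  have h1 : Real.sin (Real.pi * |t|) = |Real.sin (Real.pi * t)| := by
    rcases le_total 0 t with h | h
    · rw [abs_of_nonneg h, abs_of_nonneg]
      apply Real.sin_nonneg_of_nonneg_of_le_pi (by positivity)
      rw [abs_of_nonneg h] at ht
      nlinarith [Real.pi_pos]
    · rw [abs_of_nonpos h, mul_neg, Real.sin_neg, abs_of_nonpos]
      rw [← neg_nonneg, ← Real.sin_neg, ← mul_neg]
      rw [abs_of_nonpos h] at ht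
      apply Real.sin_nonneg_of_nonneg_of_le_pi
      · apply mul_nonneg Real.pi_pos.le (by linarith)
      · nlinarith [Real.pi_pos]
  rw [← h1]
  have h2 := Real.mul_le_sin (x := Real.pi * |t|) (by positivity) (by nlinarith [Real.pi_pos])
  calc 2 * |t| = 2 / Real.pi * (Real.pi * |t|) := by
        field_simp
    _ ≤ _ := h2

lemma one_le_norm_sin (z : ℂ) (n : ℤ) (h1 : |z.re - n| ≤ 1 / 2) (h2 : 1 / 2 ≤ ‖z - n‖) :
    1 ≤ ‖Complex.sin (Real.pi * z)‖ := by
  have h := norm_sin_sq (Real.pi * z)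
  have him : ((Real.pi : ℂ) * z).im = Real.pi * z.im := by simp
  have hre : ((Real.pi : ℂ) * z).re = Real.pi * z.re := by simp
  rw [him, hre] at h
  have h3 := two_mul_abs_le_sin (z.re - n) h1
  have h4 : Real.sin (Real.pi * z.re) ^ 2 = Real.sin (Real.pi * (z.re - n)) ^ 2 := by
    have : Real.pi * (z.re - n) = Real.pi * z.re - n * Real.pi := by ring
    rw [this, Real.sin_sub_int_mul_pi, mul_pow]
    have h5 : ((-1 : ℝ) ^ n) ^ 2 = 1 := by
      rcases Int.even_or_odd n with he | ho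
      · rw [he.neg_one_zpow]; norm_num
      · rw [ho.neg_one_zpow]; norm_num
    rw [h5, one_mul]
  have h5 : (2 * (z.re - n)) ^ 2 ≤ Real.sin (Real.pi * z.re) ^ 2 := by
    rw [h4, ← sq_abs, ← sq_abs (Real.sin _), abs_mul, abs_of_pos (by norm_num : (0 : ℝ) < 2)]
    exact pow_le_pow_left₀ (by positivity) h3 2
  have h6 : (2 * z.im) ^ 2 ≤ Real.sinh (Real.pi * z.im) ^ 2 := by
    rw [← sq_abs, ← sq_abs (Real.sinh _)]
    apply pow_le_pow_left₀ (abs_nonneg _)
    have h7 : |Real.sinh (Real.pi * z.im)| = Real.sinh |Real.pi * z.im| := by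
      rcases le_total 0 (Real.pi * z.im) with h | h
      · rw [abs_of_nonneg h, abs_of_nonneg (Real.sinh_nonneg_iff.2 h)]
      · rw [abs_of_nonpos h, abs_of_nonpos (Real.sinh_nonpos_iff.2 h), Real.sinh_neg]
    rw [h7]
    have h8 := Real.self_le_sinh_iff.2 (abs_nonneg (Real.pi * z.im))
    refine le_trans ?_ h8
    rw [abs_mul, abs_mul, abs_of_pos Real.pi_pos, abs_of_pos (by norm_num : (0 : ℝ) < 2)]
    apply mul_le_mul_of_nonneg_right _ (abs_nonneg _)
    linarith [Real.pi_gt_three]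
  have h7 : ‖z - n‖ ^ 2 = (z.re - n) ^ 2 + z.im ^ 2 := by
    rw [← Complex.normSq_eq_norm_sq, Complex.normSq_apply]
    simp
    ring
  have h8 : 1 ≤ ‖Complex.sin (Real.pi * z)‖ ^ 2 := by
    rw [h]
    nlinarith [norm_nonneg (z - n)]
  by_contra hcon
  push Not at hcon
  nlinarith [norm_nonneg (Complex.sin (Real.pi * z))]

/-- division of an entire function vanishing at the integers by the sine. -/
lemma exists_div (F : ℂ → ℂ) (hF : Differentiable ℂ F) (h0 : ∀ n : ℤ, F n = 0) :
    ∃ w : ℂ → ℂ, Differentiable ℂ w ∧ ∀ z, F z = w z * Complex.sin (Real.pi * z) := by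
  classical
  set S : ℂ → ℂ := fun z => Complex.sin (Real.pi * z) with hS
  have hSd : Differentiable ℂ S := by
    intro z
    exact (Complex.differentiable_sin _).comp z ((differentiableAt_id).const_mul _)
  have hSderiv : ∀ z, deriv S z = Real.pi * Complex.cos (Real.pi * z) := by
    intro z
    have h1 : HasDerivAt (fun z : ℂ => (Real.pi : ℂ) * z) (Real.pi : ℂ) z := by
      simpa using (hasDerivAt_id z).const_mul (Real.pi : ℂ)
    have := (Complex.hasDerivAt_sin (Real.pi * z)).comp z h1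
    rw [show S = Complex.sin ∘ (fun z : ℂ => (Real.pi : ℂ) * z) from rfl, this.deriv]
    ring
  have hSzero : ∀ z, S z = 0 → ∃ n : ℤ, z = n := by
    intro z hz
    obtain ⟨k, hk⟩ := Complex.sin_eq_zero_iff.1 hz
    refine ⟨k, ?_⟩
    have hpi : (Real.pi : ℂ) ≠ 0 := by exact_mod_cast Real.pi_ne_zero
    have : (Real.pi : ℂ) * z = Real.pi * k := by rw [hk]; ring
    exact mul_left_cancel₀ hpi this
  have hScos : ∀ z, S z = 0 → deriv S z ≠ 0 := by
    intro z hz
    rw [hSderiv]
    have hpi : (Real.pi : ℂ) ≠ 0 := by exact_mod_cast Real.pi_ne_zero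
    apply mul_ne_zero hpi
    intro hc
    have := Complex.sin_sq_add_cos_sq (Real.pi * z)
    rw [hc] at this
    simp only [hS] at hz
    rw [hz] at this
    norm_num at this
  refine ⟨fun z => if S z = 0 then deriv F z / deriv S z else F z / S z, ?_, ?_⟩
  · intro z₀
    by_cases hz : S z₀ = 0
    · -- quotient of slopes
      have hF0 : F z₀ = 0 := by
        obtain ⟨n, hn⟩ := hSzero z₀ hz
        rw [hn]; exact h0 n
      have hdF : DifferentiableAt ℂ (dslope F z₀) z₀ :=
        (((Complex.differentiableOn_dslope (s := univ) univ_mem).2 hF.differentiableOn)).differentiableAt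
          univ_mem
      have hdS : DifferentiableAt ℂ (dslope S z₀) z₀ :=
        (((Complex.differentiableOn_dslope (s := univ) univ_mem).2 hSd.differentiableOn)).differentiableAt
          univ_mem
      have hne : dslope S z₀ z₀ ≠ 0 := by
        rw [dslope_same]
        exact hScos z₀ hz
      have hq : DifferentiableAt ℂ (fun z => dslope F z₀ z / dslope S z₀ z) z₀ := hdF.div hdS hne
      apply hq.congr_of_eventuallyEq
      have hnear : ∀ᶠ z in 𝓝 z₀, dslope S z₀ z ≠ 0 := hdS.continuousAt.eventually_ne hne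
      filter_upwards [hnear] with z hz1
      by_cases hzz : z = z₀
      · subst hzz
        rw [if_pos hz, dslope_same, dslope_same]
      · have e1 : dslope F z₀ z = F z / (z - z₀) := by
          rw [dslope_of_ne _ hzz, slope_def_field, hF0, sub_zero]
        have e2 : dslope S z₀ z = S z / (z - z₀) := by
          rw [dslope_of_ne _ hzz, slope_def_field, hz, sub_zero]
        have hsub : z - z₀ ≠ 0 := sub_ne_zero.2 hzz
        have hSne : S z ≠ 0 := by
          intro h
          rw [e2, h, zero_div] at hz1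
          exact hz1 rfl
        rw [if_neg hSne, e1, e2]
        field_simp
    · have hnear : ∀ᶠ z in 𝓝 z₀, S z ≠ 0 := hSd.continuous.continuousAt.eventually_ne hz
      have hq : DifferentiableAt ℂ (fun z => F z / S z) z₀ := (hF z₀).div (hSd z₀) hz
      apply hq.congr_of_eventuallyEq
      filter_upwards [hnear] with z hz1
      rw [if_neg hz1]
  · intro z
    by_cases hz : S z = 0
    · obtain ⟨n, hn⟩ := hSzero z hz
      have : Complex.sin (Real.pi * z) = 0 := hz
      rw [this, mul_zero, hn]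
      exact h0 n
    · have : Complex.sin (Real.pi * z) = S z := rfl
      simp only [if_neg hz]
      rw [this]
      field_simp

/-- crude bound for the quotient. -/
lemma crude (F w : ℂ → ℂ) (hw : Differentiable ℂ w)
    (hFw : ∀ z, F z = w z * Complex.sin (Real.pi * z)) (B : ℝ) (hB0 : 0 ≤ B)
    (hB : ∀ z, ‖F z‖ ≤ Real.exp (B * ‖z‖ + B)) (z : ℂ) : ‖w z‖ ≤ Real.exp (B * ‖z‖ + 2 * B) := by
  have key : ∀ ζ : ℂ, ‖ζ‖ ≤ ‖z‖ + 1 → 1 ≤ ‖Complex.sin (Real.pi * ζ)‖ →
      ‖w ζ‖ ≤ Real.exp (B * ‖z‖ + 2 * B) := by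
    intro ζ hζ hs
    have h1 := hB ζ
    rw [hFw, norm_mul] at h1
    have h2 : ‖w ζ‖ ≤ ‖w ζ‖ * ‖Complex.sin (Real.pi * ζ)‖ :=
      le_mul_of_one_le_right (norm_nonneg _) hs
    refine (h2.trans h1).trans (Real.exp_le_exp.2 ?_)
    nlinarith
  set n : ℤ := round z.re with hn
  have hre : |z.re - n| ≤ 1 / 2 := abs_sub_round z.re
  by_cases hd : 1 / 2 ≤ ‖z - n‖
  · exact key z (by linarith) (one_le_norm_sin z n hre hd)
  · push Not at hd
    have hball : z ∈ closure (Metric.ball (n : ℂ) (1 / 2)) :=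
      subset_closure (by rw [Metric.mem_ball, dist_eq_norm]; exact hd)
    refine Complex.norm_le_of_forall_mem_frontier_norm_le Metric.isBounded_ball
      (hw.diffContOnCl) ?_ hball
    intro ζ hζ
    have hζ' : ‖ζ - n‖ = 1 / 2 := by
      have := Metric.frontier_ball_subset_sphere hζ
      rwa [Metric.mem_sphere, dist_eq_norm] at this
    apply key
    · calc ‖ζ‖ = ‖(ζ - n) - (z - n) + z‖ := by congr 1; ring
        _ ≤ ‖(ζ - n) - (z - n)‖ + ‖z‖ := norm_add_le _ _
        _ ≤ ‖ζ - n‖ + ‖z - n‖ + ‖z‖ := by gcongr; exact norm_sub_le _ _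
        _ ≤ ‖z‖ + 1 := by linarith
    · apply one_le_norm_sin ζ n _ (by rw [hζ'])
      calc |ζ.re - n| = |(ζ - n).re| := by simp
        _ ≤ ‖ζ - n‖ := Complex.abs_re_le_norm _
        _ = 1 / 2 := hζ'
        _ ≤ 1 / 2 := le_refl _

/-- Phragmen-Lindelof in the sector `|arg z| ≤ π / 4`. -/
lemma sector_bound (w : ℂ → ℂ) (hw : Differentiable ℂ w) (B : ℝ) (hB0 : 0 ≤ B)
    (hB : ∀ z, ‖w z‖ ≤ Real.exp (B * ‖z‖ + B)) (C : ℝ)
    (hray : ∀ z : ℂ, 0 ≤ z.re → |z.im| = z.re → ‖w z‖ ≤ C * Real.exp (√‖z‖ / 8))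
    (x : ℝ) (hx : 0 < x) : ‖w x‖ ≤ C * Real.exp (√x / 4) := by
  have hpi := Real.pi_pos
  set h : ℂ → ℂ := fun ζ => w (Complex.exp ζ) * Complex.exp (-(1 / 4 : ℂ) * Complex.exp (ζ / 2))
    with hh
  have hnorm : ∀ ζ : ℂ, ‖h ζ‖ = ‖w (Complex.exp ζ)‖ *
      Real.exp (-(1 / 4) * (Real.exp (ζ.re / 2) * Real.cos (ζ.im / 2))) := by
    intro ζ
    simp only [hh, norm_mul, Complex.norm_exp]
    congr 2
    have h1 : (Complex.exp (ζ / 2)).re = Real.exp (ζ.re / 2) * Real.cos (ζ.im / 2) := by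
      rw [Complex.exp_re]
      have e1 : (ζ / 2).re = ζ.re / 2 := by simp
      have e2 : (ζ / 2).im = ζ.im / 2 := by simp
      rw [e1, e2]
    have h2 : (-(1 / 4 : ℂ) * Complex.exp (ζ / 2)).re = -(1 / 4) * (Complex.exp (ζ / 2)).re := by
      have : (-(1 / 4 : ℂ)) = ((-(1 / 4) : ℝ) : ℂ) := by push_cast; ring
      rw [this, Complex.re_ofReal_mul]
    rw [h2, h1]
  have hcos : ∀ θ : ℝ, |θ| ≤ Real.pi / 4 → 1 / 2 ≤ Real.cos (θ / 2) := by
    intro θ hθ
    have h1 : |θ / 2| ≤ Real.pi / 3 := by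
      rw [abs_div, abs_of_pos (by norm_num : (0 : ℝ) < 2)]
      linarith
    rw [← Real.cos_pi_div_three, ← Real.cos_abs (θ / 2)]
    exact Real.cos_le_cos_of_nonneg_of_le_pi (abs_nonneg _) (by linarith) h1
  have hsqrt : ∀ r : ℝ, √(Real.exp r) = Real.exp (r / 2) := by
    intro r
    rw [Real.exp_half]
  have hbd : ∀ ζ : ℂ, |ζ.im| = Real.pi / 4 → ‖h ζ‖ ≤ C := by
    intro ζ hζ
    rw [hnorm]
    have hz : |(Complex.exp ζ).im| = (Complex.exp ζ).re := by
      rw [Complex.exp_re, Complex.exp_im, abs_mul, abs_of_pos (Real.exp_pos _)]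
      congr 1
      rcases abs_eq (by positivity : (0 : ℝ) ≤ Real.pi / 4) |>.1 hζ with h1 | h1
      · rw [h1, Real.sin_pi_div_four, Real.cos_pi_div_four, abs_of_pos (by positivity)]
      · rw [h1, Real.sin_neg, Real.cos_neg, Real.sin_pi_div_four, Real.cos_pi_div_four, abs_neg,
          abs_of_pos (by positivity)]
    have hre : 0 ≤ (Complex.exp ζ).re := by rw [← hz]; exact abs_nonneg _
    have h1 := hray _ hre hz
    rw [Complex.norm_exp, hsqrt] at h1
    have hC : 0 ≤ C := by
      by_contra hneg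
      push Not at hneg
      have := (norm_nonneg _).trans h1
      nlinarith [Real.exp_pos (Real.exp (ζ.re / 2) / 8)]
    have h2 : Real.exp (-(1 / 4) * (Real.exp (ζ.re / 2) * Real.cos (ζ.im / 2))) ≤
        Real.exp (-(Real.exp (ζ.re / 2) / 8)) := by
      apply Real.exp_le_exp.2
      have := hcos ζ.im (le_of_eq hζ)
      nlinarith [Real.exp_pos (ζ.re / 2)]
    calc ‖w (Complex.exp ζ)‖ * Real.exp (-(1 / 4) * (Real.exp (ζ.re / 2) * Real.cos (ζ.im / 2)))
        ≤ (C * Real.exp (Real.exp (ζ.re / 2) / 8)) * Real.exp (-(Real.exp (ζ.re / 2) / 8)) := by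
          apply mul_le_mul h1 h2 (Real.exp_pos _).le
          positivity
      _ = C := by
          rw [mul_assoc, ← Real.exp_add]
          simp
  have hmain := PhragmenLindelof.horizontal_strip (a := -(Real.pi / 4)) (b := Real.pi / 4)
    (C := C) (f := h) (z := (Real.log x : ℂ)) ?_ ?_ ?_ ?_ ?_ ?_
  · rw [hnorm] at hmain
    have e1 : Complex.exp (Real.log x : ℂ) = (x : ℂ) := by
      rw [← Complex.ofReal_exp, Real.exp_log hx]
    rw [e1] at hmain
    simp only [Complex.ofReal_re, Complex.ofReal_im, zero_div, Real.cos_zero, mul_one] at hmain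
    rw [← hsqrt, Real.exp_log hx] at hmain
    have h3 : ‖w x‖ = (‖w x‖ * Real.exp (-(1 / 4) * √x)) * Real.exp (√x / 4) := by
      rw [mul_assoc, ← Real.exp_add]
      have : -(1 / 4) * √x + √x / 4 = 0 := by ring
      rw [this, Real.exp_zero, mul_one]
    rw [h3]
    exact mul_le_mul_of_nonneg_right hmain (Real.exp_pos _).le
  · have : Differentiable ℂ h := by
      apply Differentiable.mul
      · exact hw.comp Complex.differentiable_exp
      · apply Complex.differentiable_exp.comp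
        apply Differentiable.const_mul
        exact Complex.differentiable_exp.comp (differentiable_id.div_const 2)
    exact this.diffContOnCl
  · refine ⟨1, ?_, 2 * B, ?_⟩
    · rw [lt_div_iff₀ (by linarith)]
      linarith
    · apply Asymptotics.IsBigO.of_bound 1
      have : ∀ᶠ ζ : ℂ in comap (_root_.abs ∘ re) atTop ⊓ 𝓟 (im ⁻¹' Ioo (-(Real.pi / 4)) (Real.pi / 4)),
          ζ ∈ im ⁻¹' Ioo (-(Real.pi / 4)) (Real.pi / 4) :=
        mem_inf_of_right (mem_principal_self _)
      filter_upwards [this] with ζ hζ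
      have him : |ζ.im| ≤ Real.pi / 4 := by
        rw [abs_le]
        exact ⟨hζ.1.le, hζ.2.le⟩
      rw [hnorm, one_mul, Real.norm_of_nonneg (Real.exp_pos _).le]
      have h1 := hB (Complex.exp ζ)
      rw [Complex.norm_exp] at h1
      have h2 : Real.exp (-(1 / 4) * (Real.exp (ζ.re / 2) * Real.cos (ζ.im / 2))) ≤ 1 := by
        rw [Real.exp_le_one_iff]
        have := hcos ζ.im him
        nlinarith [Real.exp_pos (ζ.re / 2)]
      calc ‖w (Complex.exp ζ)‖ * Real.exp (-(1 / 4) * (Real.exp (ζ.re / 2) * Real.cos (ζ.im / 2)))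
          ≤ ‖w (Complex.exp ζ)‖ * 1 := by gcongr
        _ = ‖w (Complex.exp ζ)‖ := mul_one _
        _ ≤ Real.exp (B * Real.exp ζ.re + B) := h1
        _ ≤ Real.exp (2 * B * Real.exp (1 * |ζ.re|)) := by
            apply Real.exp_le_exp.2
            have e1 : Real.exp ζ.re ≤ Real.exp (1 * |ζ.re|) := by
              rw [one_mul]
              exact Real.exp_le_exp.2 (le_abs_self _)
            have e2 : 1 ≤ Real.exp (1 * |ζ.re|) := by
              rw [one_mul]
              exact Real.one_le_exp (abs_nonneg _)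
            nlinarith
  · intro ζ hζ
    apply hbd
    rw [hζ, abs_neg, abs_of_pos (by positivity)]
  · intro ζ hζ
    apply hbd
    rw [hζ, abs_of_pos (by positivity)]
  · simp only [Complex.ofReal_im]
    linarith
  · simp only [Complex.ofReal_im]
    linarith

/-- the branch of `(ζ + 1)^(1/2)` on the right half plane. -/
noncomputable def rt (ζ : ℂ) : ℂ := Complex.exp (Complex.log (ζ + 1) / 2)

lemma rt_sq (ζ : ℂ) (h : 0 ≤ ζ.re) : rt ζ * rt ζ = ζ + 1 := by
  unfold rt
  rw [← Complex.exp_add, add_halves, Complex.exp_log]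
  intro h0
  have := congrArg Complex.re h0
  simp at this
  linarith

lemma rt_re_nonneg (ζ : ℂ) : 0 ≤ (rt ζ).re := by
  unfold rt
  rw [Complex.exp_re]
  apply mul_nonneg (Real.exp_pos _).le
  apply Real.cos_nonneg_of_mem_Icc
  have h1 := Complex.neg_pi_lt_arg (ζ + 1)
  have h2 := Complex.arg_le_pi (ζ + 1)
  have h3 : (Complex.log (ζ + 1) / 2).im = (ζ + 1).arg / 2 := by
    simp [Complex.log_im]
  rw [h3]
  constructor <;> linarith

lemma rt_norm (ζ : ℂ) (h : 0 ≤ ζ.re) : ‖rt ζ‖ ^ 2 = ‖ζ + 1‖ := by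
  rw [sq, ← norm_mul, rt_sq ζ h]

lemma rt_re_lower (ζ : ℂ) (h : 0 ≤ ζ.re) : √(‖ζ‖ / 2) ≤ (rt ζ).re := by
  apply Real.sqrt_le_iff.2
  refine ⟨rt_re_nonneg ζ, ?_⟩
  have h1 := congrArg Complex.re (rt_sq ζ h)
  rw [Complex.mul_re] at h1
  have h2 := rt_norm ζ h
  rw [← Complex.normSq_eq_norm_sq, Complex.normSq_apply] at h2
  have h3 : ‖ζ‖ ≤ ‖ζ + 1‖ := by
    apply le_of_sq_le_sq _ (norm_nonneg _)
    rw [← Complex.normSq_eq_norm_sq, ← Complex.normSq_eq_norm_sq, Complex.normSq_apply,
      Complex.normSq_apply]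
    simp
    nlinarith
  simp at h1
  nlinarith

lemma rt_re_upper (ζ : ℂ) (h : 0 ≤ ζ.re) : (rt ζ).re ≤ √(‖ζ‖ + 1) := by
  apply Real.le_sqrt_of_sq_le
  have h1 : (rt ζ).re ^ 2 ≤ ‖rt ζ‖ ^ 2 := by
    rw [← Complex.normSq_eq_norm_sq, Complex.normSq_apply]
    nlinarith [mul_self_nonneg (rt ζ).im]
  rw [rt_norm ζ h] at h1
  refine h1.trans ?_
  have := norm_add_le ζ 1
  simpa using this

lemma rt_diff (ζ : ℂ) (h : 0 ≤ ζ.re) : DifferentiableAt ℂ rt ζ := by
  unfold rt
  apply DifferentiableAt.cexp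
  apply DifferentiableAt.div_const
  apply DifferentiableAt.clog
  · exact differentiableAt_id.add_const 1
  · left
    simp
    linarith

/-- Phragmen-Lindelof in the upper half plane for functions of exponential type zero on the
imaginary axis. -/
lemma upper_bound (a : ℂ → ℂ) (ha : Differentiable ℂ a) (B : ℝ)
    (hB : ∀ z, ‖a z‖ ≤ Real.exp (B * ‖z‖ + B)) (C : ℝ)
    (hreal : ∀ x : ℝ, ‖a x‖ ≤ C * Real.exp (√|x| / 4))
    (himag : ∀ η : ℝ, 0 < η → ∃ D : ℝ, ∀ y : ℝ, 0 ≤ y → ‖a (I * y)‖ ≤ D * Real.exp (η * y))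
    (z : ℂ) (hz : 0 ≤ z.im) : ‖a z‖ ≤ C * Real.exp (√(‖z‖ + 1) / 2) := by
  have hC : 0 ≤ C := by
    have := (norm_nonneg _).trans (hreal 0)
    by_contra hneg
    push Not at hneg
    nlinarith [Real.exp_pos (√|(0 : ℝ)| / 4)]
  obtain ⟨ζ, hζ⟩ : ∃ ζ : ℂ, ζ = -I * z := ⟨_, rfl⟩
  have hzζ : z = I * ζ := by
    rw [hζ, ← mul_assoc, mul_neg, I_mul_I]
    ring
  have hζre : 0 ≤ ζ.re := by
    rw [hζ]
    simpa using hz
  have hnormζ : ‖ζ‖ = ‖z‖ := by
    rw [hζ]
    simp
  have hη : ∀ η : ℝ, 0 < η → ‖a (I * ζ)‖ ≤ C * Real.exp (√(‖ζ‖ + 1) / 2) * Real.exp (η * ζ.re) := by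
    intro η hη0
    set H : ℂ → ℂ := fun ξ => a (I * ξ) * Complex.exp (-(η : ℂ) * ξ) *
      Complex.exp (-(1 / 2 : ℂ) * rt ξ) with hH
    have hnorm : ∀ ξ : ℂ, ‖H ξ‖ = ‖a (I * ξ)‖ * Real.exp (-η * ξ.re) *
        Real.exp (-(1 / 2) * (rt ξ).re) := by
      intro ξ
      simp only [hH, norm_mul, Complex.norm_exp]
      have e1 : (-(η : ℂ) * ξ).re = -η * ξ.re := by
        have : (-(η : ℂ)) = ((-η : ℝ) : ℂ) := by push_cast; ring
        rw [this, Complex.re_ofReal_mul]
      have e2 : (-(1 / 2 : ℂ) * rt ξ).re = -(1 / 2) * (rt ξ).re := by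
        have : (-(1 / 2 : ℂ)) = ((-(1 / 2) : ℝ) : ℂ) := by push_cast; ring
        rw [this, Complex.re_ofReal_mul]
      rw [e1, e2]
    have hmain := PhragmenLindelof.right_half_plane_of_bounded_on_real (f := H) (C := C) (z := ζ)
      ?_ ?_ ?_ ?_ hζre
    · rw [hnorm] at hmain
      have h1 := rt_re_upper ζ hζre
      have h2 : ‖a (I * ζ)‖ = (‖a (I * ζ)‖ * Real.exp (-η * ζ.re) *
        Real.exp (-(1 / 2) * (rt ζ).re)) * (Real.exp ((rt ζ).re / 2) * Real.exp (η * ζ.re)) := by
        have e1 : Real.exp (-η * ζ.re) * Real.exp (η * ζ.re) = 1 := by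
          rw [← Real.exp_add]; simp
        have e2 : Real.exp (-(1 / 2) * (rt ζ).re) * Real.exp ((rt ζ).re / 2) = 1 := by
          rw [← Real.exp_add]
          have : -(1 / 2) * (rt ζ).re + (rt ζ).re / 2 = 0 := by ring
          rw [this, Real.exp_zero]
        calc ‖a (I * ζ)‖ = ‖a (I * ζ)‖ * (Real.exp (-η * ζ.re) * Real.exp (η * ζ.re)) *
              (Real.exp (-(1 / 2) * (rt ζ).re) * Real.exp ((rt ζ).re / 2)) := by
                rw [e1, e2]; ring
          _ = _ := by ring
      rw [h2]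
      calc (‖a (I * ζ)‖ * Real.exp (-η * ζ.re) * Real.exp (-(1 / 2) * (rt ζ).re)) *
            (Real.exp ((rt ζ).re / 2) * Real.exp (η * ζ.re))
          ≤ C * (Real.exp (√(‖ζ‖ + 1) / 2) * Real.exp (η * ζ.re)) := by
            apply mul_le_mul hmain _ (by positivity) hC
            apply mul_le_mul_of_nonneg_right _ (Real.exp_pos _).le
            apply Real.exp_le_exp.2
            linarith
        _ = _ := by ring
    · have hcl : closure {z : ℂ | 0 < z.re} ⊆ {z : ℂ | 0 ≤ z.re} := by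
        apply closure_minimal
        · intro ξ hξ
          have hξ1 : 0 < ξ.re := hξ
          exact hξ1.le
        · exact isClosed_le continuous_const Complex.continuous_re
      apply DifferentiableOn.diffContOnCl
      intro ξ hξ
      have hξ' : 0 ≤ ξ.re := hcl hξ
      apply DifferentiableAt.differentiableWithinAt
      apply DifferentiableAt.mul
      · apply DifferentiableAt.mul
        · exact (ha _).comp ξ ((differentiableAt_id).const_mul I)
        · exact (Complex.differentiable_exp _).comp ξ ((differentiableAt_id).const_mul _)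
      · exact (Complex.differentiable_exp _).comp ξ ((rt_diff ξ hξ').const_mul _)
    · refine ⟨1, by norm_num, B, ?_⟩
      apply Asymptotics.IsBigO.of_bound (Real.exp B)
      have : ∀ᶠ ξ : ℂ in Bornology.cobounded ℂ ⊓ 𝓟 {z : ℂ | 0 < z.re}, ξ ∈ {z : ℂ | 0 < z.re} :=
        mem_inf_of_right (mem_principal_self _)
      filter_upwards [this] with ξ hξ
      have hξ' : 0 < ξ.re := hξ
      rw [hnorm, Real.norm_of_nonneg (Real.exp_pos _).le, ← Real.exp_add, Real.rpow_one]
      have h1 := hB (I * ξ)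
      have h2 : ‖I * ξ‖ = ‖ξ‖ := by simp
      rw [h2] at h1
      have h3 : Real.exp (-η * ξ.re) ≤ 1 := by
        rw [Real.exp_le_one_iff]
        nlinarith
      have h4 : Real.exp (-(1 / 2) * (rt ξ).re) ≤ 1 := by
        rw [Real.exp_le_one_iff]
        nlinarith [rt_re_nonneg ξ]
      calc ‖a (I * ξ)‖ * Real.exp (-η * ξ.re) * Real.exp (-(1 / 2) * (rt ξ).re)
          ≤ ‖a (I * ξ)‖ * 1 * 1 := by gcongr
        _ = ‖a (I * ξ)‖ := by ring
        _ ≤ _ := h1
        _ = _ := by rw [add_comm]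
    · obtain ⟨D, hD⟩ := himag η hη0
      refine ⟨D, ?_⟩
      simp only [eventually_map]
      filter_upwards [eventually_ge_atTop (0 : ℝ)] with x hx
      rw [hnorm]
      have h4 : Real.exp (-(1 / 2) * (rt (x : ℂ)).re) ≤ 1 := by
        rw [Real.exp_le_one_iff]
        nlinarith [rt_re_nonneg (x : ℂ)]
      have h5 := hD x hx
      calc ‖a (I * x)‖ * Real.exp (-η * (x : ℂ).re) * Real.exp (-(1 / 2) * (rt (x : ℂ)).re)
          ≤ ‖a (I * x)‖ * Real.exp (-η * (x : ℂ).re) * 1 := by gcongr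
        _ = ‖a (I * x)‖ * Real.exp (-η * x) := by rw [mul_one, Complex.ofReal_re]
        _ ≤ (D * Real.exp (η * x)) * Real.exp (-η * x) := by gcongr
        _ = D := by
          rw [mul_assoc, ← Real.exp_add]
          simp
    · intro t
      rw [hnorm]
      have e1 : I * (t * I) = ((-t : ℝ) : ℂ) := by
        push_cast
        calc I * (t * I) = t * (I * I) := by ring
          _ = -t := by rw [I_mul_I]; ring
      have e2 : ((t : ℂ) * I).re = 0 := by simp
      rw [e1, e2, mul_zero, Real.exp_zero, mul_one]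
      have h1 := hreal (-t)
      rw [abs_neg] at h1
      have h2 := rt_re_lower ((t : ℂ) * I) (by simp)
      have h3 : ‖(t : ℂ) * I‖ = |t| := by simp
      rw [h3] at h2
      have h4 : √|t| / 2 ≤ √(|t| / 2) := by
        apply Real.le_sqrt_of_sq_le
        rw [div_pow, Real.sq_sqrt (abs_nonneg t)]
        linarith [abs_nonneg t]
      calc ‖a ((-t : ℝ) : ℂ)‖ * Real.exp (-(1 / 2) * (rt ((t : ℂ) * I)).re)
          ≤ (C * Real.exp (√|t| / 4)) * Real.exp (-(√|t| / 4)) := by
            apply mul_le_mul h1 _ (Real.exp_pos _).le (by positivity)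
            apply Real.exp_le_exp.2
            linarith
        _ = C := by
            rw [mul_assoc, ← Real.exp_add]
            simp
  rw [hzζ, show ‖I * ζ‖ = ‖ζ‖ by simp]
  have hlim : Tendsto (fun η : ℝ => C * Real.exp (√(‖ζ‖ + 1) / 2) * Real.exp (η * ζ.re)) (𝓝[>] 0)
      (𝓝 (C * Real.exp (√(‖ζ‖ + 1) / 2))) := by
    have h1 : Continuous (fun η : ℝ => C * Real.exp (√(‖ζ‖ + 1) / 2) * Real.exp (η * ζ.re)) := by
      fun_prop
    have h2 := h1.tendsto 0
    simp only [zero_mul, Real.exp_zero, mul_one] at h2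
    exact h2.mono_left nhdsWithin_le_nhds
  apply ge_of_tendsto hlim
  filter_upwards [self_mem_nhdsWithin] with η hη1
  exact hη η hη1

/-- The key estimate: the first component of an element of the submodule is slowly growing. -/
theorem key_bound : ∃ C₁ : ℝ, 1 ≤ C₁ ∧ ∀ a g : ℂ → ℂ, Differentiable ℂ a → Differentiable ℂ g →
    (∀ z : ℂ, ‖a z‖ ≤ Real.exp (max z.re 0 + ‖z‖ / 8)) →
    (∀ z : ℂ, ‖g z‖ ≤ Real.exp (Real.pi * |z.im| + √‖z‖ / 8)) →
    (∀ η : ℝ, 0 < η → ∃ D : ℝ, ∀ z : ℂ, ‖a z‖ ≤ D * Real.exp (max z.re 0 + η * ‖z‖)) →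
    (∀ n : ℤ, a n = g n) → ∀ z : ℂ, ‖a z‖ ≤ C₁ * Real.exp (√(‖z‖ + 1) / 2) := by
  have hpi := Real.pi_pos
  have hpi3 := Real.pi_gt_three
  have hpi4 := Real.pi_le_four
  refine ⟨Real.exp 40 + 1, by linarith [Real.exp_pos 40], ?_⟩
  intro a g ha hg hA hG hη hint
  -- crude bounds
  have hsq : ∀ z : ℂ, √‖z‖ ≤ ‖z‖ + 1 := by
    intro z
    rw [Real.sqrt_le_iff]
    refine ⟨by positivity, ?_⟩
    nlinarith [norm_nonneg z]
  have hmaxre : ∀ z : ℂ, max z.re 0 ≤ ‖z‖ := by
    intro z
    apply max_le _ (norm_nonneg z)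
    exact (le_abs_self _).trans (Complex.abs_re_le_norm z)
  have haB : ∀ z : ℂ, ‖a z‖ ≤ Real.exp (2 * ‖z‖ + 2) := by
    intro z
    refine (hA z).trans (Real.exp_le_exp.2 ?_)
    have := hmaxre z
    nlinarith [norm_nonneg z]
  have hFB : ∀ z : ℂ, ‖a z - g z‖ ≤ Real.exp (6 * ‖z‖ + 6) := by
    intro z
    have h1 : ‖g z‖ ≤ Real.exp (5 * ‖z‖ + 5) := by
      refine (hG z).trans (Real.exp_le_exp.2 ?_)
      have h2 := Complex.abs_im_le_norm z
      have h3 := hsq z
      nlinarith [norm_nonneg z, abs_nonneg z.im]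
    have h2 : ‖a z‖ ≤ Real.exp (5 * ‖z‖ + 5) := by
      refine (haB z).trans (Real.exp_le_exp.2 ?_)
      nlinarith [norm_nonneg z]
    have h3 : (2 : ℝ) ≤ Real.exp 1 := by
      have := Real.add_one_le_exp (1 : ℝ)
      linarith
    calc ‖a z - g z‖ ≤ ‖a z‖ + ‖g z‖ := norm_sub_le _ _
      _ ≤ 2 * Real.exp (5 * ‖z‖ + 5) := by linarith
      _ ≤ Real.exp 1 * Real.exp (5 * ‖z‖ + 5) := by gcongr
      _ = Real.exp (5 * ‖z‖ + 6) := by rw [← Real.exp_add]; congr 1; ring
      _ ≤ _ := by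
        apply Real.exp_le_exp.2
        nlinarith [norm_nonneg z]
  -- the quotient
  obtain ⟨w, hw, hFw⟩ := exists_div (fun z => a z - g z) (ha.sub hg) (by
    intro n
    rw [hint n, sub_self])
  have hwB : ∀ z : ℂ, ‖w z‖ ≤ Real.exp (6 * ‖z‖ + 12) := by
    intro z
    have := crude (fun z => a z - g z) w hw hFw 6 (by norm_num) hFB z
    convert this using 2
    ring
  -- bound on the rays
  have hray : ∀ z : ℂ, |z.im| = |z.re| → ‖w z‖ ≤ Real.exp 40 * Real.exp (√‖z‖ / 8) := by
    intro z hz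
    have hnz : ‖z‖ ^ 2 = 2 * z.im ^ 2 := by
      rw [← Complex.normSq_eq_norm_sq, Complex.normSq_apply]
      have : z.re ^ 2 = z.im ^ 2 := by rw [← sq_abs z.re, ← hz, sq_abs]
      nlinarith
    have hnz2 : ‖z‖ ≤ 2 * |z.im| := by
      apply le_of_sq_le_sq _ (by positivity)
      rw [hnz, mul_pow, sq_abs]
      nlinarith [sq_nonneg z.im]
    rcases le_or_gt |z.im| 1 with h1 | h1
    · have h2 := hwB z
      refine h2.trans ?_
      rw [← Real.exp_add]
      apply Real.exp_le_exp.2
      have := Real.sqrt_nonneg ‖z‖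
      nlinarith
    · have h2 := sinh_le_norm_sin z
      have h3 : Real.exp (Real.pi * |z.im|) / 4 ≤ |Real.sinh (Real.pi * z.im)| := by
        have h4 : |Real.sinh (Real.pi * z.im)| = Real.sinh (Real.pi * |z.im|) := by
          rcases le_total 0 z.im with h | h
          · rw [abs_of_nonneg h, abs_of_nonneg]
            apply Real.sinh_nonneg_iff.2
            positivity
          · rw [abs_of_nonpos h, mul_neg, Real.sinh_neg, abs_of_nonpos]
            apply Real.sinh_nonpos_iff.2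
            nlinarith
        rw [h4, Real.sinh_eq]
        have h5 : Real.exp (-(Real.pi * |z.im|)) ≤ 1 := by
          rw [Real.exp_le_one_iff]
          nlinarith
        have h6 : 2 ≤ Real.exp (Real.pi * |z.im|) := by
          have := Real.add_one_le_exp (Real.pi * |z.im|)
          nlinarith
        linarith
      have h4 : ‖a z - g z‖ ≤ 2 * Real.exp (Real.pi * |z.im| + √‖z‖ / 8) := by
        have h5 : ‖a z‖ ≤ Real.exp (Real.pi * |z.im| + √‖z‖ / 8) := by
          refine (hA z).trans (Real.exp_le_exp.2 ?_)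
          have h6 : max z.re 0 ≤ |z.im| := by
            apply max_le _ (abs_nonneg _)
            rw [hz]
            exact le_abs_self _
          have := Real.sqrt_nonneg ‖z‖
          nlinarith
        have h6 := hG z
        calc ‖a z - g z‖ ≤ ‖a z‖ + ‖g z‖ := norm_sub_le _ _
          _ ≤ _ := by linarith
      have h7 : a z - g z = w z * Complex.sin (Real.pi * z) := hFw z
      rw [h7, norm_mul] at h4
      have h8 : ‖w z‖ * (Real.exp (Real.pi * |z.im|) / 4) ≤
          2 * Real.exp (Real.pi * |z.im| + √‖z‖ / 8) :=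
        (mul_le_mul_of_nonneg_left (h3.trans h2) (norm_nonneg _)).trans h4
      rw [Real.exp_add] at h8
      have h9 : 0 < Real.exp (Real.pi * |z.im|) := Real.exp_pos _
      have h10 : ‖w z‖ ≤ 8 * Real.exp (√‖z‖ / 8) := by
        have : ‖w z‖ * Real.exp (Real.pi * |z.im|) ≤
            (8 * Real.exp (√‖z‖ / 8)) * Real.exp (Real.pi * |z.im|) := by nlinarith
        exact le_of_mul_le_mul_right this h9
      have h11 : (8 : ℝ) ≤ Real.exp 40 := by
        have := Real.add_one_le_exp (40 : ℝ)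
        linarith
      exact h10.trans (by gcongr)
  -- the quotient on the real line
  have hwreal : ∀ x : ℝ, ‖w x‖ ≤ Real.exp 40 * Real.exp (√|x| / 4) := by
    intro x
    rcases lt_trichotomy x 0 with hx | hx | hx
    · have hw' : Differentiable ℂ (fun z => w (-z)) := hw.comp differentiable_neg
      have := sector_bound (fun z => w (-z)) hw' 12 (by norm_num) (by
        intro z
        have := hwB (-z)
        rw [norm_neg] at this
        refine this.trans (Real.exp_le_exp.2 ?_)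
        nlinarith [norm_nonneg z]) (Real.exp 40) (by
        intro z hz1 hz2
        have := hray (-z) (by
          rw [Complex.neg_im, Complex.neg_re, abs_neg, abs_neg, hz2, abs_of_nonneg hz1])
        rwa [norm_neg] at this) (-x) (by linarith)
      simp only [Complex.ofReal_neg, neg_neg] at this
      rw [abs_of_neg hx]
      exact this
    · subst hx
      have := hwB 0
      simp only [norm_zero, mul_zero, zero_add] at this
      simp only [Complex.ofReal_zero, abs_zero, Real.sqrt_zero, zero_div, Real.exp_zero, mul_one]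
      exact this.trans (Real.exp_le_exp.2 (by norm_num))
    · have := sector_bound w hw 12 (by norm_num) (by
        intro z
        refine (hwB z).trans (Real.exp_le_exp.2 ?_)
        nlinarith [norm_nonneg z]) (Real.exp 40) (by
        intro z hz1 hz2
        exact hray z (by rw [hz2, abs_of_nonneg hz1])) x hx
      rw [abs_of_pos hx]
      exact this
  have hareal : ∀ x : ℝ, ‖a x‖ ≤ (Real.exp 40 + 1) * Real.exp (√|x| / 4) := by
    intro x
    have h1 : a x = g x + w x * Complex.sin (Real.pi * x) := by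
      have : a x - g x = w x * Complex.sin (Real.pi * x) := hFw x
      rw [← this]
      ring
    have h2 : ‖Complex.sin (Real.pi * x)‖ ≤ 1 := by
      have : Complex.sin (Real.pi * x) = ((Real.sin (Real.pi * x) : ℝ) : ℂ) := by
        push_cast; rfl
      rw [this, Complex.norm_real]
      exact Real.abs_sin_le_one _
    have h3 := hG x
    simp only [Complex.ofReal_im, abs_zero, mul_zero, zero_add, Complex.norm_real,
      Real.norm_eq_abs] at h3
    have h4 := hwreal x
    rw [h1]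
    have h5 := Real.sqrt_nonneg |x|
    calc ‖g x + w x * Complex.sin (Real.pi * x)‖ ≤ ‖g x‖ + ‖w x‖ * ‖Complex.sin (Real.pi * x)‖ := by
          rw [← norm_mul]; exact norm_add_le _ _
      _ ≤ Real.exp (√|x| / 8) + Real.exp 40 * Real.exp (√|x| / 4) * 1 := by gcongr
      _ ≤ Real.exp (√|x| / 4) + Real.exp 40 * Real.exp (√|x| / 4) * 1 := by
          gcongr ?_ + _
          apply Real.exp_le_exp.2
          linarith
      _ = _ := by ring
  -- the final application
  have hImag : ∀ (b : ℂ → ℂ), (∀ η : ℝ, 0 < η → ∃ D : ℝ, ∀ y : ℝ, ‖b (I * y)‖ ≤ D * Real.exp (η * |y|)) →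
      (∀ η : ℝ, 0 < η → ∃ D : ℝ, ∀ y : ℝ, 0 ≤ y → ‖b (I * y)‖ ≤ D * Real.exp (η * y)) := by
    intro b hb η hη0
    obtain ⟨D, hD⟩ := hb η hη0
    refine ⟨D, fun y hy => ?_⟩
    have := hD y
    rwa [abs_of_nonneg hy] at this
  have hImag1 : ∀ η : ℝ, 0 < η → ∃ D : ℝ, ∀ y : ℝ, ‖a (I * y)‖ ≤ D * Real.exp (η * |y|) := by
    intro η hη0
    obtain ⟨D, hD⟩ := hη η hη0
    refine ⟨D, fun y => ?_⟩
    have := hD (I * y)
    simpa using this
  intro z
  rcases le_total 0 z.im with hz | hz
  · exact upper_bound a ha 2 haB (Real.exp 40 + 1) hareal (hImag a hImag1) z hz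
  · have := upper_bound (fun z => a (-z)) (ha.comp differentiable_neg) 2 (by
      intro z
      have := haB (-z)
      rwa [norm_neg] at this) (Real.exp 40 + 1) (by
      intro x
      have := hareal (-x)
      simpa using this) (hImag (fun z => a (-z)) (by
      intro η hη0
      obtain ⟨D, hD⟩ := hImag1 η hη0
      refine ⟨D, fun y => ?_⟩
      have := hD (-y)
      simpa using this)) (-z) (by simpa using hz)
    simpa using this

end Pool.Agent.Helper428.PL
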