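import Mathlib

set_option autoImplicit false

namespace Pool.Agent.Helper428.Spectral

open Finset Matrix

variable {V : Type*} [Fintype V] [DecidableEq V]

theorem diag_exists (X : Matrix V V ℝ) (hX : ∀ i j, X i j = X j i) :
    ∃ (U : Matrix V V ℝ) (lam : V → ℝ), U * Uᵀ = 1 ∧ Uᵀ * U = 1 ∧
      X = U * Matrix.diagonal lam * Uᵀ := by
  have hH : X.IsHermitian := by
    ext i j
    simp [hX i j]
  have hsp := hH.spectral_theorem
  rw [Unitary.conjStarAlgAut_apply] at hsp
  have h1 : (hH.eigenvectorUnitary : Matrix V V ℝ) * star (hH.eigenvectorUnitary : Matrix V V ℝ) = 1 :=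
    Unitary.coe_mul_star_self _
  have h2 : star (hH.eigenvectorUnitary : Matrix V V ℝ) * (hH.eigenvectorUnitary : Matrix V V ℝ) = 1 :=
    Unitary.coe_star_mul_self _
  have h3 : star (hH.eigenvectorUnitary : Matrix V V ℝ) = (hH.eigenvectorUnitary : Matrix V V ℝ)ᵀ := by
    ext i j
    simp
  refine ⟨(hH.eigenvectorUnitary : Matrix V V ℝ), hH.eigenvalues, ?_, ?_, ?_⟩
  · rw [← h3]; exact h1
  · rw [← h3]; exact h2
  · rw [← h3]
    exact hsp

/-- The spectral data of a real symmetric matrix in coordinates. -/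
theorem spectral (X : Matrix V V ℝ) (hX : ∀ i j, X i j = X j i) :
    ∃ (u : V → V → ℝ) (lam : V → ℝ),
      (∀ i j, ∑ a, u a i * u a j = if i = j then 1 else 0) ∧
      (∀ a, ∑ i, u a i * u a i = 1) ∧
      (∀ a, lam a = ∑ i, ∑ j, X i j * (u a i * u a j)) ∧
      (∑ a, lam a = ∑ i, X i i) ∧
      (∑ a, lam a ^ 2 = ∑ i, ∑ j, X i j ^ 2) ∧
      (∀ c : ℝ, (c • (1 : Matrix V V ℝ) - X).det = ∏ a, (c - lam a)) ∧
      (X * X = (2 : ℝ) • X → ∀ a, lam a ^ 2 = 2 * lam a) := by
  obtain ⟨U, lam, h1, h2, h3⟩ := diag_exists X hX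
  refine ⟨fun a i => U i a, lam, ?_, ?_, ?_, ?_, ?_, ?_, ?_⟩
  · intro i j
    have := congrFun (congrFun h1 i) j
    simpa [Matrix.mul_apply, Matrix.one_apply] using this
  · intro a
    have := congrFun (congrFun h2 a) a
    simpa [Matrix.mul_apply, Matrix.one_apply] using this
  · intro a
    have h4 : Uᵀ * X * U = Matrix.diagonal lam := by
      rw [h3]
      calc Uᵀ * (U * Matrix.diagonal lam * Uᵀ) * U
          = (Uᵀ * U) * Matrix.diagonal lam * (Uᵀ * U) := by simp only [Matrix.mul_assoc]
        _ = Matrix.diagonal lam := by rw [h2]; simp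
    have h5 := congrFun (congrFun h4 a) a
    rw [Matrix.diagonal_apply_eq] at h5
    rw [← h5]
    simp only [Matrix.mul_apply, Matrix.transpose_apply, Finset.sum_mul]
    rw [Finset.sum_comm]
    apply Finset.sum_congr rfl
    intro i _
    apply Finset.sum_congr rfl
    intro j _
    ring
  · have h4 : X.trace = (Matrix.diagonal lam).trace := by
      rw [h3, Matrix.trace_mul_comm, ← Matrix.mul_assoc, h2, Matrix.one_mul]
    rw [Matrix.trace_diagonal] at h4
    rw [← h4]
    rfl
  · have h4 : (X * X).trace = ∑ a, lam a ^ 2 := by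
      have : X * X = U * (Matrix.diagonal lam * Matrix.diagonal lam) * Uᵀ := by
        conv_lhs => rw [h3]
        calc U * Matrix.diagonal lam * Uᵀ * (U * Matrix.diagonal lam * Uᵀ)
            = U * Matrix.diagonal lam * (Uᵀ * U) * Matrix.diagonal lam * Uᵀ := by
              simp only [Matrix.mul_assoc]
          _ = U * (Matrix.diagonal lam * Matrix.diagonal lam) * Uᵀ := by
              rw [h2]; simp only [Matrix.mul_assoc, Matrix.mul_one]
      rw [this, Matrix.trace_mul_comm, ← Matrix.mul_assoc, h2, Matrix.one_mul,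
        Matrix.diagonal_mul_diagonal, Matrix.trace_diagonal]
      apply Finset.sum_congr rfl
      intro a _
      ring
    rw [← h4]
    simp only [Matrix.trace, Matrix.diag, Matrix.mul_apply]
    apply Finset.sum_congr rfl
    intro i _
    apply Finset.sum_congr rfl
    intro j _
    rw [hX j i]
    ring
  · intro c
    have h4 : c • (1 : Matrix V V ℝ) - X = U * Matrix.diagonal (fun a => c - lam a) * Uᵀ := by
      have h5 : Matrix.diagonal (fun a => c - lam a) = c • (1 : Matrix V V ℝ) - Matrix.diagonal lam := by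
        ext i j
        by_cases hij : i = j
        · subst hij
          simp
        · simp [hij]
      rw [h5, Matrix.mul_sub, Matrix.sub_mul, ← h3]
      simp [h1]
    rw [h4, Matrix.det_mul, Matrix.det_mul, Matrix.det_diagonal]
    have h5 : U.det * Uᵀ.det = 1 := by
      rw [← Matrix.det_mul, h1, Matrix.det_one]
    calc (U.det * ∏ i, (c - lam i)) * Uᵀ.det = (U.det * Uᵀ.det) * ∏ i, (c - lam i) := by ring
      _ = _ := by rw [h5, one_mul]
  · intro hXX a
    have h4 : Uᵀ * X * U = Matrix.diagonal lam := by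
      rw [h3]
      calc Uᵀ * (U * Matrix.diagonal lam * Uᵀ) * U
          = (Uᵀ * U) * Matrix.diagonal lam * (Uᵀ * U) := by simp only [Matrix.mul_assoc]
        _ = Matrix.diagonal lam := by rw [h2]; simp
    have h5 : Matrix.diagonal lam * Matrix.diagonal lam = (2 : ℝ) • Matrix.diagonal lam := by
      rw [← h4]
      calc Uᵀ * X * U * (Uᵀ * X * U) = Uᵀ * X * (U * Uᵀ) * X * U := by
            simp only [Matrix.mul_assoc]
        _ = Uᵀ * (X * X) * U := by rw [h1]; simp only [Matrix.mul_assoc, Matrix.mul_one]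
        _ = (2 : ℝ) • (Uᵀ * X * U) := by rw [hXX]; simp
    rw [Matrix.diagonal_mul_diagonal] at h5
    have h6 := congrFun (congrFun h5 a) a
    simp only [Matrix.diagonal_apply_eq, Matrix.smul_apply, smul_eq_mul] at h6
    rw [← h6]
    ring

omit [DecidableEq V] in
/-- quadratic form of a symmetric matrix with zero row sums. -/
lemma quad_form (X : V → V → ℝ) (hsym : ∀ i j, X i j = X j i) (hrow : ∀ i, ∑ j, X i j = 0)
    (u : V → ℝ) : ∑ i, ∑ j, X i j * (u i * u j) = - (1 / 2) * ∑ i, ∑ j, X i j * (u i - u j) ^ 2 := by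
  have h1 : ∑ i, ∑ j, X i j * (u i) ^ 2 = 0 := by
    apply Finset.sum_eq_zero
    intro i _
    rw [← Finset.sum_mul, hrow i, zero_mul]
  have h2 : ∑ i, ∑ j, X i j * (u j) ^ 2 = 0 := by
    rw [Finset.sum_comm]
    apply Finset.sum_eq_zero
    intro j _
    rw [← Finset.sum_mul, Finset.sum_congr rfl (fun i _ => hsym i j), hrow j, zero_mul]
  have h3 : ∑ i, ∑ j, X i j * (u i - u j) ^ 2 =
      ∑ i, ∑ j, X i j * (u i) ^ 2 + ∑ i, ∑ j, X i j * (u j) ^ 2
        - 2 * ∑ i, ∑ j, X i j * (u i * u j) := by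
    rw [Finset.mul_sum, ← Finset.sum_add_distrib, ← Finset.sum_sub_distrib]
    apply Finset.sum_congr rfl
    intro i _
    rw [Finset.mul_sum, ← Finset.sum_add_distrib, ← Finset.sum_sub_distrib]
    apply Finset.sum_congr rfl
    intro j _
    ring
  rw [h3, h1, h2]
  ring

lemma int_sq_ge (z : ℤ) : 2 * max (z : ℝ) 0 - z ≤ (z : ℝ) ^ 2 := by
  rcases lt_trichotomy z 0 with h | h | h
  · have h1 : (z : ℝ) ≤ -1 := by exact_mod_cast (by omega : z ≤ -1)
    rw [max_eq_right (by linarith)]
    nlinarith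
  · subst h
    simp
  · have h1 : (1 : ℝ) ≤ z := by exact_mod_cast (by omega : 1 ≤ z)
    rw [max_eq_left (by linarith)]
    nlinarith

/-- Spectral data of the signed complement of a multigraph with integer weights. -/
theorem bounds [Nonempty V] (w : V → V → ℕ) (hsymm : ∀ i j, w i j = w j i)
    (hdiag : ∀ i, w i i = 0) (P : Matrix V V ℝ)
    (hP : ∀ i j, P i j = (if j = i then ∑ x, (w i x : ℝ) else 0) - w i j + 1) (k : ℝ)
    (htot : ∑ i, ∑ j, (w i j : ℝ) = (Fintype.card V : ℝ) * (Fintype.card V - 1) - 2 * k) :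
    ∃ (lam : V → ℝ) (S : ℝ), ∑ a, lam a = 2 * k ∧ 4 * k + 2 * S ≤ ∑ a, lam a ^ 2 ∧
      ∑ a, max (- lam a) 0 ≤ S ∧ (∀ a, lam a ≤ Fintype.card V) ∧ (∃ a, lam a = 0) ∧
      P.det = ∏ a, ((Fintype.card V : ℝ) - lam a) ∧
      (∀ c : ℝ, (c • (1 : Matrix V V ℝ) - ((Fintype.card V : ℝ) • (1 : Matrix V V ℝ) - P)).det
        = ∏ a, (c - lam a)) ∧
      ((((Fintype.card V : ℝ) • (1 : Matrix V V ℝ) - P) * ((Fintype.card V : ℝ) • (1 : Matrix V V ℝ) - P)
        = (2 : ℝ) • ((Fintype.card V : ℝ) • (1 : Matrix V V ℝ) - P)) → ∀ a, lam a ^ 2 = 2 * lam a) := by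
  obtain ⟨n, hn⟩ : ∃ n : ℝ, n = (Fintype.card V : ℝ) := ⟨_, rfl⟩
  rw [← hn] at htot ⊢
  obtain ⟨X, hXdef⟩ : ∃ X : Matrix V V ℝ, X = n • (1 : Matrix V V ℝ) - P := ⟨_, rfl⟩
  rw [← hXdef]
  have hXoff : ∀ i j, i ≠ j → X i j = w i j - 1 := by
    intro i j hij
    rw [hXdef]
    simp [hP, hij, hij.symm]
    ring
  have hXdiag : ∀ i, X i i = n - 1 - ∑ x, (w i x : ℝ) := by
    intro i
    rw [hXdef]
    simp [hP, hdiag i]
    ring
  have hXsym : ∀ i j, X i j = X j i := by
    intro i j
    by_cases hij : i = j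
    · rw [hij]
    · rw [hXoff i j hij, hXoff j i (Ne.symm hij), hsymm i j]
  have hXall : ∀ i j, X i j = (if j = i then n - ∑ x, (w i x : ℝ) else 0) + ((w i j : ℝ) - 1) := by
    intro i j
    by_cases hij : j = i
    · subst hij
      rw [hXdiag, hdiag]
      simp
      ring
    · rw [hXoff i j (Ne.symm hij)]
      simp [hij]
  have hXrow : ∀ i, ∑ j, X i j = 0 := by
    intro i
    rw [Finset.sum_congr rfl (fun j _ => hXall i j)]
    rw [Finset.sum_add_distrib, Finset.sum_sub_distrib]
    simp [hn]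
  have hXtr : ∑ i, X i i = 2 * k := by
    rw [Finset.sum_congr rfl (fun i _ => hXdiag i), Finset.sum_sub_distrib, htot]
    simp only [Finset.sum_const, Finset.card_univ, nsmul_eq_mul, ← hn]
    ring
  obtain ⟨u, lam, hu1, hu2, hlam, hs1, hs2, hdet, hXX⟩ := spectral X hXsym
  obtain ⟨p, hp⟩ : ∃ p : V → V → ℝ, ∀ i j, p i j = if i = j then 0 else max ((w i j : ℝ) - 1) 0 :=
    ⟨fun i j => if i = j then 0 else max ((w i j : ℝ) - 1) 0, fun _ _ => rfl⟩
  have hp0 : ∀ i j, 0 ≤ p i j := by
    intro i j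
    rw [hp]
    split_ifs
    · exact le_refl _
    · exact le_max_right _ _
  refine ⟨lam, ∑ i, ∑ j, p i j, ?_, ?_, ?_, ?_, ?_, ?_, ?_, ?_⟩
  · rw [hs1, hXtr]
  · rw [hs2]
    have hq : ∀ i j, 2 * p i j + ((if j = i then 2 * X i i else 0) - X i j) ≤ X i j ^ 2 := by
      intro i j
      by_cases hij : j = i
      · subst hij
        rw [hp, if_pos rfl, if_pos rfl]
        have h1 : X j j = (((Fintype.card V : ℤ) - 1 - ∑ x, (w j x : ℤ) : ℤ) : ℝ) := by
          rw [hXdiag, hn]
          push_cast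
          rfl
        have h2 := int_sq_ge (-((Fintype.card V : ℤ) - 1 - ∑ x, (w j x : ℤ)))
        rw [Int.cast_neg, ← h1] at h2
        have h3 := le_max_right (-(X j j)) 0
        nlinarith
      · rw [hp, if_neg (Ne.symm hij), if_neg hij, hXoff i j (Ne.symm hij)]
        have h2 := int_sq_ge ((w i j : ℤ) - 1)
        push_cast at h2
        linarith
    calc 4 * k + 2 * ∑ i, ∑ j, p i j
        = ∑ i, ∑ j, (2 * p i j + ((if j = i then 2 * X i i else 0) - X i j)) := by
          have e1 : ∀ i, ∑ j, (2 * p i j + ((if j = i then 2 * X i i else 0) - X i j)) =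
              2 * ∑ j, p i j + 2 * X i i := by
            intro i
            rw [Finset.sum_add_distrib, Finset.sum_sub_distrib, hXrow i, ← Finset.mul_sum]
            simp
          rw [Finset.sum_congr rfl (fun i _ => e1 i), Finset.sum_add_distrib, ← Finset.mul_sum,
            ← Finset.mul_sum, hXtr]
          ring
      _ ≤ ∑ i, ∑ j, X i j ^ 2 := Finset.sum_le_sum (fun i _ => Finset.sum_le_sum (fun j _ => hq i j))
  · have hneg : ∀ a, max (- lam a) 0 ≤ (1 / 2) * ∑ i, ∑ j, p i j * (u a i - u a j) ^ 2 := by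
      intro a
      apply max_le
      · rw [hlam a, quad_form X hXsym hXrow]
        have : ∑ i, ∑ j, X i j * (u a i - u a j) ^ 2 ≤ ∑ i, ∑ j, p i j * (u a i - u a j) ^ 2 := by
          apply Finset.sum_le_sum
          intro i _
          apply Finset.sum_le_sum
          intro j _
          by_cases hij : i = j
          · subst hij
            simp
          · apply mul_le_mul_of_nonneg_right _ (sq_nonneg _)
            rw [hXoff i j hij, hp, if_neg hij]
            exact le_max_left _ _
        linarith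
      · have : 0 ≤ ∑ i, ∑ j, p i j * (u a i - u a j) ^ 2 := by
          apply Finset.sum_nonneg
          intro i _
          apply Finset.sum_nonneg
          intro j _
          exact mul_nonneg (hp0 i j) (sq_nonneg _)
        linarith
    calc ∑ a, max (- lam a) 0 ≤ ∑ a, (1 / 2) * ∑ i, ∑ j, p i j * (u a i - u a j) ^ 2 :=
          Finset.sum_le_sum (fun a _ => hneg a)
      _ = ∑ i, ∑ j, p i j := by
          rw [← Finset.mul_sum, Finset.sum_comm, Finset.mul_sum]
          apply Finset.sum_congr rfl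
          intro i _
          rw [Finset.sum_comm, Finset.mul_sum]
          apply Finset.sum_congr rfl
          intro j _
          rw [← Finset.mul_sum]
          have e1 : ∑ a, (u a i - u a j) ^ 2 = ∑ a, u a i * u a i + ∑ a, u a j * u a j
              - 2 * ∑ a, u a i * u a j := by
            rw [Finset.mul_sum, ← Finset.sum_add_distrib, ← Finset.sum_sub_distrib]
            apply Finset.sum_congr rfl
            intro a _
            ring
          rw [e1, hu1, hu1, hu1]
          by_cases hij : i = j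
          · rw [hp]
            simp [hij]
          · simp [hij]
            ring
  · intro a
    have h1 := quad_form X hXsym hXrow (u a)
    rw [← hlam a] at h1
    have h2 : ∑ i, ∑ j, ((w i j : ℝ) - 1) * (u a i - u a j) ^ 2 =
        ∑ i, ∑ j, X i j * (u a i - u a j) ^ 2 := by
      apply Finset.sum_congr rfl
      intro i _
      apply Finset.sum_congr rfl
      intro j _
      by_cases hij : i = j
      · subst hij
        simp
      · rw [hXoff i j hij]
    have h3 : ∑ i, ∑ j, (u a i - u a j) ^ 2 = 2 * n - 2 * (∑ i, u a i) ^ 2 := by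
      have e1 : ∀ i, ∑ j, (u a i - u a j) ^ 2 = n * (u a i * u a i) + 1 - 2 * u a i * ∑ j, u a j := by
        intro i
        rw [← hu2 a]
        have : ∀ j, (u a i - u a j) ^ 2 = u a i * u a i + u a j * u a j - 2 * u a i * u a j := by
          intro j; ring
        rw [Finset.sum_congr rfl (fun j _ => this j), Finset.sum_sub_distrib, Finset.sum_add_distrib,
          Finset.mul_sum Finset.univ (fun j => u a j) (2 * u a i)]
        simp only [Finset.sum_const, Finset.card_univ, nsmul_eq_mul, ← hn]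
      rw [Finset.sum_congr rfl (fun i _ => e1 i), Finset.sum_sub_distrib, Finset.sum_add_distrib,
        ← Finset.mul_sum, hu2, ← Finset.sum_mul, ← Finset.mul_sum]
      simp [← hn]
      ring
    have h4 : ∑ i, ∑ j, ((w i j : ℝ) - 1) * (u a i - u a j) ^ 2 =
        ∑ i, ∑ j, (w i j : ℝ) * (u a i - u a j) ^ 2 - ∑ i, ∑ j, (u a i - u a j) ^ 2 := by
      rw [← Finset.sum_sub_distrib]
      apply Finset.sum_congr rfl
      intro i _
      rw [← Finset.sum_sub_distrib]
      apply Finset.sum_congr rfl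
      intro j _
      ring
    have h5 : 0 ≤ ∑ i, ∑ j, (w i j : ℝ) * (u a i - u a j) ^ 2 := by
      apply Finset.sum_nonneg
      intro i _
      apply Finset.sum_nonneg
      intro j _
      exact mul_nonneg (Nat.cast_nonneg _) (sq_nonneg _)
    rw [← h2, h4, h3] at h1
    nlinarith [sq_nonneg (∑ i, u a i)]
  · have h1 := hdet 0
    have h2 : ((0 : ℝ) • (1 : Matrix V V ℝ) - X).det = 0 := by
      rw [← Matrix.exists_mulVec_eq_zero_iff]
      refine ⟨fun _ => 1, ?_, ?_⟩
      · intro h0
        obtain ⟨v⟩ := ‹Nonempty V›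
        have := congrFun h0 v
        simp at this
      · funext i
        simp [Matrix.mulVec, dotProduct, hXrow i]
    rw [h2] at h1
    obtain ⟨a, _, ha⟩ := Finset.prod_eq_zero_iff.1 h1.symm
    exact ⟨a, by linarith⟩
  · rw [← hdet n, hXdef]
    congr 1
    abel
  · exact hdet
  · exact hXX

end Pool.Agent.Helper428.Spectral
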