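import Mathlib

/-!
# Counting colourings of a clique with a star attached (written by helper315)

Vertices: a clique `Fin b`, a centre `none`, leaves `some i`.  The centre is adjacent to all leaves
and to the clique vertices outside `row0`; leaf `i` is adjacent to the clique vertices outside
`row i`; there are no other edges.
-/

set_option autoImplicit false

namespace Pool.Agent.Helper428.StarCount

open Finset Polynomial

variable {I : Type} [Fintype I]

/-- Adjacency of the graph. -/
def adj (b : ℕ) (row0 : Finset (Fin b)) (row : I → Finset (Fin b)) :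
    (Option I ⊕ Fin b) → (Option I ⊕ Fin b) → Prop
  | .inr c, .inr c' => c ≠ c'
  | .inl none, .inl (some _) => True
  | .inl (some _), .inl none => True
  | .inl none, .inl none => False
  | .inl (some _), .inl (some _) => False
  | .inl none, .inr c => c ∉ row0
  | .inr c, .inl none => c ∉ row0
  | .inl (some i), .inr c => c ∉ row i
  | .inr c, .inl (some i) => c ∉ row i

/-- The graph. -/
def starGraph (b : ℕ) (row0 : Finset (Fin b)) (row : I → Finset (Fin b)) :
    SimpleGraph (Option I ⊕ Fin b) where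
  Adj := adj b row0 row
  symm := by
    constructor
    intro v w h
    rcases v with (_ | i) | c <;> rcases w with (_ | j) | c' <;> simp_all [adj]
    exact fun h' => h h'.symm
  loopless := by
    constructor
    intro v h
    rcases v with (_ | i) | c <;> simp_all [adj]

/-- Colourings as triples. -/
def colEquiv (b q : ℕ) (row0 : Finset (Fin b)) (row : I → Finset (Fin b)) :
    (starGraph b row0 row).Coloring (Fin q) ≃
      Σ ι : (Fin b ↪ Fin q), Σ a : {a : Fin q // ∀ c, c ∉ row0 → ι c ≠ a},
        ((i : I) → {x : Fin q // x ≠ a.1 ∧ ∀ c, c ∉ row i → ι c ≠ x}) where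
  toFun f := ⟨⟨fun c => f (.inr c), by
      intro c c' h
      by_contra hne
      exact f.valid (show (starGraph b row0 row).Adj (.inr c) (.inr c') from hne) h⟩,
    ⟨f (.inl none), by
      intro c hc h
      exact f.valid (show (starGraph b row0 row).Adj (.inr c) (.inl none) from hc) h⟩,
    fun i => ⟨f (.inl (some i)), by
      constructor
      · exact f.valid (show (starGraph b row0 row).Adj (.inl (some i)) (.inl none) from trivial)
      · intro c hc h
        exact f.valid (show (starGraph b row0 row).Adj (.inr c) (.inl (some i)) from hc) h⟩⟩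
  invFun t := SimpleGraph.Coloring.mk
    (fun v => match v with
      | .inr c => t.1 c
      | .inl none => t.2.1.1
      | .inl (some i) => (t.2.2 i).1) (by
    intro v w h
    rcases t with ⟨ι, a, x⟩
    rcases v with (_ | i) | c <;> rcases w with (_ | j) | c'
    · exact absurd h (by simp [starGraph, adj])
    · exact (x j).2.1.symm
    · have h' : c' ∉ row0 := h
      exact (a.2 c' h').symm
    · exact (x i).2.1
    · exact absurd h (by simp [starGraph, adj])
    · have h' : c' ∉ row i := h
      exact ((x i).2.2 c' h').symm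
    · have h' : c ∉ row0 := h
      exact a.2 c h'
    · have h' : c ∉ row j := h
      exact (x j).2.2 c h'
    · have h' : c ≠ c' := h
      exact fun h'' => h' (ι.injective h''))
  left_inv f := by
    ext v
    rcases v with (_ | i) | c <;> rfl
  right_inv t := by
    rcases t with ⟨ι, a, x⟩
    rfl

lemma card_leaf {b q : ℕ} (R : Finset (Fin b)) (ι : Fin b ↪ Fin q) (a : Fin q) :
    (Nat.card {x : Fin q // x ≠ a ∧ ∀ c, c ∉ R → ι c ≠ x} : ℤ) =
      (q : ℤ) - b + R.card - (if ∃ c, c ∉ R ∧ ι c = a then 0 else 1) := by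
  classical
  have h1 : Nat.card {x : Fin q // x ≠ a ∧ ∀ c, c ∉ R → ι c ≠ x} =
      ((insert a ((Rᶜ).map ι))ᶜ : Finset (Fin q)).card := by
    rw [Nat.card_eq_fintype_card, Fintype.card_subtype]
    congr 1
    ext x
    simp only [mem_filter, mem_univ, true_and, mem_compl, mem_insert, mem_map, not_or, not_exists,
      not_and]
  have h2 : (insert a ((Rᶜ).map ι)).card + ((insert a ((Rᶜ).map ι))ᶜ : Finset (Fin q)).card = q := by
    rw [Finset.card_add_card_compl, Fintype.card_fin]
  have h3 : (insert a ((Rᶜ).map ι)).card =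
      (Rᶜ).card + (if ∃ c, c ∉ R ∧ ι c = a then 0 else 1) := by
    rw [Finset.card_insert_eq_ite, Finset.card_map]
    by_cases h : ∃ c, c ∉ R ∧ ι c = a
    · have : a ∈ (Rᶜ).map ι := by
        obtain ⟨c, hc, hca⟩ := h
        exact mem_map.2 ⟨c, mem_compl.2 hc, hca⟩
      simp [this, h]
    · have : a ∉ (Rᶜ).map ι := by
        intro ha
        obtain ⟨c, hc, hca⟩ := mem_map.1 ha
        exact h ⟨c, mem_compl.1 hc, hca⟩
      simp only [this, h, if_false]
  have h4 : R.card + (Rᶜ).card = b := by
    rw [Finset.card_add_card_compl, Fintype.card_fin]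
  rw [h1]
  split_ifs at h3 ⊢ <;> push_cast at * <;> omega

/-- The number of colourings of the star part when the clique is coloured by `ι`. -/
lemma card_fibre {b q : ℕ} (row0 : Finset (Fin b)) (row : I → Finset (Fin b))
    (ι : Fin b ↪ Fin q) :
    (Nat.card (Σ a : {a : Fin q // ∀ c, c ∉ row0 → ι c ≠ a},
        ((i : I) → {x : Fin q // x ≠ a.1 ∧ ∀ c, c ∉ row i → ι c ≠ x})) : ℤ) =
      ((q : ℤ) - b) * ∏ i, ((q : ℤ) - b + (row i).card - 1) +
      ∑ c ∈ row0, ∏ i, ((q : ℤ) - b + (row i).card - (if c ∈ row i then 1 else 0)) := by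
  classical
  rw [Nat.card_sigma]
  push_cast
  have h1 : ∀ a : {a : Fin q // ∀ c, c ∉ row0 → ι c ≠ a},
      (Nat.card ((i : I) → {x : Fin q // x ≠ a.1 ∧ ∀ c, c ∉ row i → ι c ≠ x}) : ℤ) =
      ∏ i, ((q : ℤ) - b + (row i).card - (if ∃ c, c ∉ row i ∧ ι c = a.1 then 0 else 1)) := by
    intro a
    rw [Nat.card_pi]
    push_cast
    exact Finset.prod_congr rfl fun i _ => card_leaf (row i) ι a.1
  rw [Finset.sum_congr rfl fun a _ => h1 a]
  set F : Fin q → ℤ := fun a => ∏ i, ((q : ℤ) - b + (row i).card -
    (if ∃ c, c ∉ row i ∧ ι c = a then 0 else 1)) with hF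
  have h2 : (∑ a : {a : Fin q // ∀ c, c ∉ row0 → ι c ≠ a}, F a.1) =
      ∑ a ∈ univ.filter (fun a : Fin q => ∀ c, c ∉ row0 → ι c ≠ a), F a := by
    rw [← Finset.sum_subtype (univ.filter (fun a : Fin q => ∀ c, c ∉ row0 → ι c ≠ a))
      (fun x => by simp) F]
  have h3 : univ.filter (fun a : Fin q => ∀ c, c ∉ row0 → ι c ≠ a) =
      ((univ : Finset (Fin b)).map ι)ᶜ ∪ row0.map ι := by
    ext a
    simp only [mem_filter, mem_univ, true_and, mem_union, mem_compl, mem_map]
    constructor
    · intro h
      by_cases ha : ∃ c, ι c = a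
      · right
        obtain ⟨c, hc⟩ := ha
        refine ⟨c, ?_, hc⟩
        by_contra hc'
        exact h c hc' hc
      · left; exact ha
    · rintro (h | ⟨c, hc, rfl⟩) c' hc' hcc
      · exact h ⟨c', hcc⟩
      · exact hc' (by rw [ι.injective hcc]; exact hc)
  have h4 : Disjoint (((univ : Finset (Fin b)).map ι)ᶜ) (row0.map ι) := by
    rw [Finset.disjoint_left]
    intro a ha ha'
    obtain ⟨c, _, hc⟩ := mem_map.1 ha'
    exact (mem_compl.1 ha) (mem_map.2 ⟨c, mem_univ _, hc⟩)
  have h5 : ∑ a ∈ ((univ : Finset (Fin b)).map ι)ᶜ, F a =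
      ((q : ℤ) - b) * ∏ i, ((q : ℤ) - b + (row i).card - 1) := by
    have h6 : ∀ a ∈ ((univ : Finset (Fin b)).map ι)ᶜ,
        F a = ∏ i, ((q : ℤ) - b + (row i).card - 1) := by
      intro a ha
      refine Finset.prod_congr rfl fun i _ => ?_
      rw [if_neg]
      rintro ⟨c, _, hc⟩
      exact (mem_compl.1 ha) (mem_map.2 ⟨c, mem_univ _, hc⟩)
    rw [Finset.sum_congr rfl h6, Finset.sum_const, nsmul_eq_mul]
    congr 1
    have h7 := Finset.card_add_card_compl ((univ : Finset (Fin b)).map ι)
    rw [Finset.card_map, Finset.card_univ, Fintype.card_fin, Fintype.card_fin] at h7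
    push_cast [← h7]
    ring
  have h8 : ∑ a ∈ row0.map ι, F a =
      ∑ c ∈ row0, ∏ i, ((q : ℤ) - b + (row i).card - (if c ∈ row i then 1 else 0)) := by
    rw [Finset.sum_map]
    refine Finset.sum_congr rfl fun c _ => Finset.prod_congr rfl fun i _ => ?_
    by_cases hc : c ∈ row i
    · rw [if_pos hc, if_neg]
      rintro ⟨c', hc', h⟩
      exact hc' (by rw [ι.injective h]; exact hc)
    · rw [if_neg hc, if_pos ⟨c, hc, rfl⟩]
  rw [h2, h3, Finset.sum_union h4, h5, h8]

/-- The number of proper `q`-colourings. -/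
theorem card_coloring (b q : ℕ) (row0 : Finset (Fin b)) (row : I → Finset (Fin b)) :
    (Nat.card ((starGraph b row0 row).Coloring (Fin q)) : ℤ) =
      (q.descFactorial b : ℤ) *
      (((q : ℤ) - b) * ∏ i, ((q : ℤ) - b + (row i).card - 1) +
      ∑ c ∈ row0, ∏ i, ((q : ℤ) - b + (row i).card - (if c ∈ row i then 1 else 0))) := by
  classical
  rw [Nat.card_congr (colEquiv b q row0 row), Nat.card_sigma]
  push_cast
  rw [Finset.sum_congr rfl fun ι _ => card_fibre row0 row ι, Finset.sum_const, nsmul_eq_mul]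
  congr 2
  rw [Finset.card_univ, Fintype.card_embedding_eq, Fintype.card_fin, Fintype.card_fin]

/-- The chromatic polynomial. -/
noncomputable def starPoly (b : ℕ) (row0 : Finset (Fin b)) (row : I → Finset (Fin b)) : ℤ[X] :=
  descPochhammer ℤ b *
    ((X - C (b : ℤ)) * ∏ i, (X - C (b : ℤ) + C ((row i).card : ℤ) - 1) +
      ∑ c ∈ row0, ∏ i, (X - C (b : ℤ) + C ((row i).card : ℤ) - C (if c ∈ row i then (1 : ℤ) else 0)))

theorem starPoly_eval (b q : ℕ) (row0 : Finset (Fin b)) (row : I → Finset (Fin b)) :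
    (starPoly b row0 row).eval (q : ℤ) = (Nat.card ((starGraph b row0 row).Coloring (Fin q)) : ℤ) := by
  rw [card_coloring, starPoly]
  simp only [eval_mul, eval_add, eval_sub, eval_X, eval_C, eval_prod, eval_finsetSum, eval_one]
  rw [descPochhammer_eval_eq_descFactorial]

/-- The same graph on `Fin m`. -/
theorem exists_fin_graph (b : ℕ) (row0 : Finset (Fin b)) (row : I → Finset (Fin b)) :
    ∃ m : ℕ, ∃ G : SimpleGraph (Fin m), ∀ q : ℕ,
      (starPoly b row0 row).eval (q : ℤ) = (Nat.card (G.Coloring (Fin q)) : ℤ) := by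
  classical
  refine ⟨Fintype.card (Option I ⊕ Fin b),
    (starGraph b row0 row).map (Fintype.equivFin (Option I ⊕ Fin b)).toEmbedding, fun q => ?_⟩
  rw [starPoly_eval]
  have e : (starGraph b row0 row) ≃g
      (starGraph b row0 row).map (Fintype.equivFin (Option I ⊕ Fin b)).toEmbedding :=
    SimpleGraph.Iso.map (Fintype.equivFin (Option I ⊕ Fin b)) (starGraph b row0 row)
  congr 1
  refine Nat.card_congr ⟨fun f => f.comp e.symm.toHom, fun f => f.comp e.toHom, ?_, ?_⟩
  · intro f
    ext v
    simp
  · intro f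
    ext v
    simp

/-- Values of the polynomial at a complex number. -/
theorem starPoly_aeval (b : ℕ) (row0 : Finset (Fin b)) (row : I → Finset (Fin b)) (z : ℂ) :
    aeval z (starPoly b row0 row) =
      aeval z (descPochhammer ℤ b) *
      ((z - b) * ∏ i, (z - b + (row i).card - 1) +
        ∑ c ∈ row0, ∏ i, (z - b + (row i).card - (if c ∈ row i then 1 else 0))) := by
  rw [starPoly]
  simp only [map_mul, map_add, map_sub, map_prod, map_sum, aeval_X, aeval_C, map_one]
  have h1 : ((algebraMap ℤ ℂ) (b : ℤ)) = (b : ℂ) := by simp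
  have h2 : ∀ i, ((algebraMap ℤ ℂ) ((row i).card : ℤ)) = ((row i).card : ℂ) := by intro i; simp
  have h3 : ∀ (c : Fin b) (i : I), ((algebraMap ℤ ℂ) (if c ∈ row i then (1 : ℤ) else 0)) =
      (if c ∈ row i then (1 : ℂ) else 0) := by
    intro c i
    split_ifs <;> simp
  simp only [h1, h2, h3]

end Pool.Agent.Helper428.StarCount
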