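import Pool.Agent.Helper428.MatrixTree
import Pool.Agent.Helper428.Spectral
import Pool.Agent.Helper428.LogIneq

set_option autoImplicit false

namespace Pool.Agent.Helper428.TreeMax

open Finset Matrix

lemma handshake {V : Type*} [Fintype V] [DecidableEq V] (w : Sym2 V → ℝ)
    (hw : ∀ e : Sym2 V, e.IsDiag → w e = 0) :
    ∑ i, ∑ j, w s(i, j) = 2 * ∑ e, w e := by
  have h1 : ∑ i, ∑ j, w s(i, j) = ∑ p : V × V, w s(p.1, p.2) := by
    rw [Fintype.sum_prod_type]
  rw [h1, ← Finset.sum_fiberwise (Finset.univ : Finset (V × V)) (fun p => s(p.1, p.2)),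
    Finset.mul_sum]
  apply Finset.sum_congr rfl
  intro e _
  have h2 : ∑ p ∈ (Finset.univ : Finset (V × V)).filter (fun p => s(p.1, p.2) = e), w s(p.1, p.2)
      = ∑ p ∈ (Finset.univ : Finset (V × V)).filter (fun p => s(p.1, p.2) = e), w e := by
    apply Finset.sum_congr rfl
    intro p hp
    rw [(Finset.mem_filter.1 hp).2]
  rw [h2, Finset.sum_const, nsmul_eq_mul]
  induction e using Sym2.ind with
  | _ a b =>
    by_cases hab : a = b
    · rw [hw s(a, b) (by simpa using hab)]
      simp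
    · have h3 : (Finset.univ : Finset (V × V)).filter (fun p => s(p.1, p.2) = s(a, b)) =
          {(a, b), (b, a)} := by
        ext ⟨x, y⟩
        simp only [Finset.mem_filter, Finset.mem_univ, true_and, Sym2.eq_iff, Finset.mem_insert,
          Finset.mem_singleton, Prod.mk.injEq]
      rw [h3, Finset.card_pair (by simp [hab])]
      norm_num

section
variable {n : ℕ} (M : Finset (Sym2 (Fin n)))

/-- indicator of the matching. -/
def cM (i j : Fin n) : ℝ := if s(i, j) ∈ M then 1 else 0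

/-- weights of the complete graph minus the matching. -/
def wM (i j : Fin n) : ℕ := if i = j ∨ s(i, j) ∈ M then 0 else 1

variable {M}

lemma cM_symm (i j : Fin n) : cM M i j = cM M j i := by
  unfold cM
  rw [Sym2.eq_swap]

lemma wM_eq (hM1 : ∀ e ∈ M, ¬ e.IsDiag) (i j : Fin n) :
    (wM M i j : ℝ) = 1 - (if j = i then 1 else 0) - cM M i j := by
  unfold wM cM
  by_cases hij : i = j
  · subst hij
    have : s(i, i) ∉ M := fun h => hM1 _ h (by simp)
    simp [this]
  · by_cases h : s(i, j) ∈ M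
    · simp [h, Ne.symm hij]
    · simp [h, hij, Ne.symm hij]

lemma cM_unique (hM2 : ∀ e ∈ M, ∀ f ∈ M, e ≠ f → ∀ v : Fin n, v ∈ e → v ∉ f)
    {i j l : Fin n} (h1 : s(i, j) ∈ M) (h2 : s(i, l) ∈ M) : j = l := by
  by_contra hne
  have h3 : s(i, j) ≠ s(i, l) := by
    intro h
    rw [Sym2.congr_right] at h
    exact hne h
  exact hM2 _ h1 _ h2 h3 i (by simp) (by simp)

lemma cM_sq (hM2 : ∀ e ∈ M, ∀ f ∈ M, e ≠ f → ∀ v : Fin n, v ∈ e → v ∉ f) (i j : Fin n) :
    ∑ l, cM M i l * cM M l j = if i = j then ∑ l, cM M i l else 0 := by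
  by_cases hij : i = j
  · subst hij
    rw [if_pos rfl]
    apply Finset.sum_congr rfl
    intro l _
    rw [cM_symm l i]
    unfold cM
    split_ifs <;> simp
  · rw [if_neg hij]
    apply Finset.sum_eq_zero
    intro l _
    unfold cM
    by_cases h1 : s(i, l) ∈ M
    · by_cases h2 : s(l, j) ∈ M
      · exfalso
        rw [Sym2.eq_swap] at h1
        exact hij (cM_unique hM2 h1 h2)
      · simp [h2]
    · simp [h1]

lemma cM_deg_le (hM2 : ∀ e ∈ M, ∀ f ∈ M, e ≠ f → ∀ v : Fin n, v ∈ e → v ∉ f) (i : Fin n) :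
    ∑ l, cM M i l ≤ 1 := by
  by_cases h : ∃ j, s(i, j) ∈ M
  · obtain ⟨j, hj⟩ := h
    have : ∀ l, cM M i l = if l = j then 1 else 0 := by
      intro l
      unfold cM
      by_cases hl : l = j
      · simp [hl, hj]
      · rw [if_neg hl, if_neg]
        intro h2
        exact hl (cM_unique hM2 h2 hj)
    rw [Finset.sum_congr rfl (fun l _ => this l)]
    simp
  · push Not at h
    have : ∀ l, cM M i l = 0 := by
      intro l
      unfold cM
      rw [if_neg (h l)]
    rw [Finset.sum_congr rfl (fun l _ => this l)]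
    simp

lemma cM_deg_mul (hM2 : ∀ e ∈ M, ∀ f ∈ M, e ≠ f → ∀ v : Fin n, v ∈ e → v ∉ f) (i j : Fin n) :
    (∑ l, cM M i l) * cM M i j = cM M i j := by
  by_cases h : s(i, j) ∈ M
  · have : ∀ l, cM M i l = if l = j then 1 else 0 := by
      intro l
      unfold cM
      by_cases hl : l = j
      · simp [hl, h]
      · rw [if_neg hl, if_neg]
        intro h2
        exact hl (cM_unique hM2 h2 h)
    rw [Finset.sum_congr rfl (fun l _ => this l)]
    simp
  · unfold cM
    simp [h]

lemma cM_total (hM1 : ∀ e ∈ M, ¬ e.IsDiag) : ∑ i, ∑ j, cM M i j = 2 * (M.card : ℝ) := by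
  have h := handshake (fun e : Sym2 (Fin n) => if e ∈ M then (1 : ℝ) else 0) (by
    intro e he
    rw [if_neg]
    exact fun h => hM1 e h he)
  unfold cM
  rw [h]
  simp

lemma two_card_le (hM1 : ∀ e ∈ M, ¬ e.IsDiag)
    (hM2 : ∀ e ∈ M, ∀ f ∈ M, e ≠ f → ∀ v : Fin n, v ∈ e → v ∉ f) : 2 * M.card ≤ n := by
  have h1 := cM_total hM1
  have h2 : ∑ i, ∑ j, cM M i j ≤ ∑ i : Fin n, (1 : ℝ) :=
    Finset.sum_le_sum (fun i _ => cM_deg_le hM2 i)
  rw [h1] at h2
  simp only [Finset.sum_const, Finset.card_univ, Fintype.card_fin, nsmul_eq_mul, mul_one] at h2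
  exact_mod_cast h2

lemma wM_total (hM1 : ∀ e ∈ M, ¬ e.IsDiag) :
    ∑ i, ∑ j, (wM M i j : ℝ) = (Fintype.card (Fin n) : ℝ) * (Fintype.card (Fin n) - 1) - 2 * (M.card : ℝ) := by
  have h1 : ∀ i, ∑ j, (wM M i j : ℝ) = (n : ℝ) - 1 - ∑ j, cM M i j := by
    intro i
    rw [Finset.sum_congr rfl (fun j _ => wM_eq hM1 i j), Finset.sum_sub_distrib,
      Finset.sum_sub_distrib]
    simp
  rw [Finset.sum_congr rfl (fun i _ => h1 i), Finset.sum_sub_distrib, cM_total hM1]
  simp
  ring

lemma wM_quad (hM1 : ∀ e ∈ M, ¬ e.IsDiag)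
    (hM2 : ∀ e ∈ M, ∀ f ∈ M, e ≠ f → ∀ v : Fin n, v ∈ e → v ∉ f) (P : Matrix (Fin n) (Fin n) ℝ)
    (hP : ∀ i j, P i j = (if j = i then ∑ x, (wM M i x : ℝ) else 0) - wM M i j + 1) :
    (((Fintype.card (Fin n) : ℝ) • (1 : Matrix (Fin n) (Fin n) ℝ) - P) *
      ((Fintype.card (Fin n) : ℝ) • (1 : Matrix (Fin n) (Fin n) ℝ) - P)
        = (2 : ℝ) • ((Fintype.card (Fin n) : ℝ) • (1 : Matrix (Fin n) (Fin n) ℝ) - P)) := by
  obtain ⟨X, hX⟩ : ∃ X, X = ((Fintype.card (Fin n) : ℝ) • (1 : Matrix (Fin n) (Fin n) ℝ) - P) :=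
    ⟨_, rfl⟩
  rw [← hX]
  have hXe : ∀ i j, X i j = (if i = j then ∑ x, cM M i x else 0) - cM M i j := by
    intro i j
    have h1 : ∑ j, (wM M i j : ℝ) = (n : ℝ) - 1 - ∑ j, cM M i j := by
      rw [Finset.sum_congr rfl (fun j _ => wM_eq hM1 i j), Finset.sum_sub_distrib,
        Finset.sum_sub_distrib]
      simp
    rw [hX]
    simp only [Matrix.sub_apply, Matrix.smul_apply, Matrix.one_apply, smul_eq_mul, hP, h1,
      wM_eq hM1 i j, Fintype.card_fin]
    by_cases hij : i = j
    · subst hij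
      simp
      ring
    · simp [hij, Ne.symm hij]
  ext i j
  simp only [Matrix.mul_apply, Matrix.smul_apply, smul_eq_mul]
  have h1 : ∀ l, X i l * X l j = (if i = l then (∑ x, cM M i x) * X i j else 0)
      - cM M i l * (if l = j then ∑ x, cM M l x else 0) + cM M i l * cM M l j := by
    intro l
    rw [hXe i l, hXe l j]
    by_cases hil : i = l
    · subst hil
      simp only [if_true]
      rw [hXe i j]
      ring
    · simp only [if_neg hil]
      ring
  rw [Finset.sum_congr rfl (fun l _ => h1 l), Finset.sum_add_distrib, Finset.sum_sub_distrib,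
    cM_sq hM2]
  have h2 : ∑ l, cM M i l * (if l = j then ∑ x, cM M l x else 0) = cM M i j := by
    have : ∀ l, cM M i l * (if l = j then ∑ x, cM M l x else 0) =
        if l = j then (∑ x, cM M j x) * cM M j i else 0 := by
      intro l
      by_cases hl : l = j
      · subst hl
        simp only [if_true]
        rw [cM_symm i l]
        ring
      · simp [hl]
    rw [Finset.sum_congr rfl (fun l _ => this l)]
    simp only [Finset.sum_ite_eq', Finset.mem_univ, if_true]
    rw [cM_deg_mul hM2, cM_symm]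
  rw [h2]
  simp only [Finset.sum_ite_eq, Finset.mem_univ, if_true]
  rw [hXe i j]
  have h3 := cM_deg_mul hM2 i j
  by_cases hij : i = j
  · subst hij
    have h4 : (∑ x, cM M i x) * (∑ x, cM M i x) = ∑ x, cM M i x := by
      rw [Finset.mul_sum]
      apply Finset.sum_congr rfl
      intro x _
      exact cM_deg_mul hM2 i x
    simp only [if_true]
    linarith
  · simp only [if_neg hij]
    linarith

lemma det_matching (hn : 0 < n) (hM1 : ∀ e ∈ M, ¬ e.IsDiag)
    (hM2 : ∀ e ∈ M, ∀ f ∈ M, e ≠ f → ∀ v : Fin n, v ∈ e → v ∉ f) (P : Matrix (Fin n) (Fin n) ℝ)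
    (hP : ∀ i j, P i j = (if j = i then ∑ x, (wM M i x : ℝ) else 0) - wM M i j + 1) :
    P.det = (n : ℝ) ^ n * (1 - 2 / (n : ℝ)) ^ M.card := by
  have : Nonempty (Fin n) := ⟨⟨0, hn⟩⟩
  have hsymm : ∀ i j, wM M i j = wM M j i := by
    intro i j
    unfold wM
    rw [Sym2.eq_swap]
    simp only [eq_comm]
  obtain ⟨lam, S, h1, _, _, _, _, h6, _, h8⟩ := Spectral.bounds (wM M) hsymm
    (by intro i; simp [wM]) P hP (M.card : ℝ) (wM_total hM1)
  have h9 := h8 (wM_quad hM1 hM2 P hP)
  rw [h6]
  simp only [Fintype.card_fin]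
  have hn0 : (n : ℝ) ≠ 0 := by
    have : (0 : ℝ) < n := by exact_mod_cast hn
    exact this.ne'
  have h10 : ∀ a, lam a = if lam a = 2 then 2 else 0 := by
    intro a
    have h := h9 a
    have h' : lam a * (lam a - 2) = 0 := by linarith
    rcases mul_eq_zero.1 h' with h0 | h0
    · rw [h0]; simp
    · have : lam a = 2 := by linarith
      rw [this]; simp
  have hcard : ((Finset.univ.filter (fun a => lam a = 2)).card : ℝ) = M.card := by
    have h11 : ∑ a, lam a = ∑ a, (if lam a = 2 then (2 : ℝ) else 0) :=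
      Finset.sum_congr rfl (fun a _ => h10 a)
    rw [h1, ← Finset.sum_filter, Finset.sum_const, nsmul_eq_mul] at h11
    linarith
  have hcard' : (Finset.univ.filter (fun a => lam a = 2)).card = M.card := by exact_mod_cast hcard
  have h12 : ∀ a, (n : ℝ) - lam a = n * (if lam a = 2 then (1 - 2 / (n : ℝ)) else 1) := by
    intro a
    by_cases h : lam a = 2
    · rw [if_pos h, h]
      field_simp
    · have := h10 a
      rw [if_neg h] at this
      rw [if_neg h, this]
      ring
  rw [Finset.prod_congr rfl (fun a _ => h12 a), Finset.prod_mul_distrib]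
  congr 1
  · simp
  · rw [← Finset.prod_filter, Finset.prod_const, hcard']

end

open Classical in
theorem tree_max (n : ℕ) (M : Finset (Sym2 (Fin n))) (hM1 : ∀ e ∈ M, ¬ e.IsDiag)
    (hM2 : ∀ e ∈ M, ∀ f ∈ M, e ≠ f → ∀ v : Fin n, v ∈ e → v ∉ f)
    (mult : Sym2 (Fin n) → ℕ) (hd : ∀ e : Sym2 (Fin n), e.IsDiag → mult e = 0)
    (htot : ∑ e : Sym2 (Fin n), mult e = n.choose 2 - M.card) (r : Sym2 (Fin n) → ℕ)
    (hr : ∀ e, r e = if e.IsDiag ∨ e ∈ M then 0 else 1) :
    ∑ T ∈ (Finset.univ : Finset (Finset (Sym2 (Fin n)))).filter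
      (fun T : Finset (Sym2 (Fin n)) =>
        (SimpleGraph.fromEdgeSet (T : Set (Sym2 (Fin n)))).IsTree), ∏ e ∈ T, mult e ≤
    ∑ T ∈ (Finset.univ : Finset (Finset (Sym2 (Fin n)))).filter
      (fun T : Finset (Sym2 (Fin n)) =>
        (SimpleGraph.fromEdgeSet (T : Set (Sym2 (Fin n)))).IsTree), ∏ e ∈ T, r e := by
  by_cases hn : n ≤ 2
  · -- small cases: termwise
    have hc : n.choose 2 ≤ 1 := by
      interval_cases n <;> simp
    have hle : ∀ e, mult e ≤ r e := by
      intro e
      have h1 : mult e ≤ ∑ e : Sym2 (Fin n), mult e :=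
        Finset.single_le_sum (fun _ _ => Nat.zero_le _) (Finset.mem_univ e)
      rw [htot] at h1
      rw [hr]
      split_ifs with h
      · rcases h with h | h
        · rw [hd e h]
        · have : 0 < M.card := Finset.card_pos.2 ⟨e, h⟩
          omega
      · omega
    apply Finset.sum_le_sum
    intro T _
    exact Finset.prod_le_prod' (fun e _ => hle e)
  · push Not at hn
    have hn0 : 0 < n := by omega
    have : Nonempty (Fin n) := ⟨⟨0, hn0⟩⟩
    have hk := two_card_le hM1 hM2
    have hchoose : (n.choose 2 : ℝ) = n * (n - 1) / 2 := Nat.cast_choose_two ℝ n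
    have hkc : M.card ≤ n.choose 2 := by
      have h1 : n ≤ n.choose 2 := by
        rw [Nat.choose_two_right, Nat.le_div_iff_mul_le (by norm_num)]
        apply Nat.mul_le_mul_left
        omega
      omega
    have htotR : ∑ e : Sym2 (Fin n), (mult e : ℝ) = n * (n - 1) / 2 - M.card := by
      have : ((∑ e : Sym2 (Fin n), mult e : ℕ) : ℝ) = ((n.choose 2 - M.card : ℕ) : ℝ) := by
        rw [htot]
      rw [Nat.cast_sub hkc, hchoose] at this
      push_cast at this
      exact this
    -- matrix tree for both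
    have hL := MatrixTree.matrix_tree (fun e : Sym2 (Fin n) => (mult e : ℝ))
      (fun e he => by rw [hd e he]; simp)
    have hR := MatrixTree.matrix_tree (fun e : Sym2 (Fin n) => (r e : ℝ))
      (fun e he => by rw [hr e, if_pos (Or.inl he)]; simp)
    -- left determinant bound
    obtain ⟨lam, S, h1, h2, h3, h4, h5, h6, _, _⟩ := Spectral.bounds
      (fun i j => mult s(i, j)) (fun i j => by rw [Sym2.eq_swap])
      (fun i => hd _ (by simp)) (MatrixTree.PL (fun i j : Fin n => (mult s(i, j) : ℝ)))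
      (fun _ _ => rfl) (M.card : ℝ) (by
        rw [handshake (fun e : Sym2 (Fin n) => (mult e : ℝ)) (fun e he => by rw [hd e he]; simp),
          htotR]
        simp only [Fintype.card_fin]
        ring)
    have h7 := LogIneq.main_ineq (by rw [Fintype.card_fin]; omega) lam M.card S h1 h2 h3 h4 h5
    rw [← h6] at h7
    -- right determinant
    have h8 : (MatrixTree.PL (fun i j : Fin n => (r s(i, j) : ℝ))).det =
        (n : ℝ) ^ n * (1 - 2 / (n : ℝ)) ^ M.card := by
      apply det_matching hn0 hM1 hM2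
      have hrw : ∀ i j : Fin n, r s(i, j) = wM M i j := by
        intro i j
        rw [hr]
        unfold wM
        simp
      intro i j
      simp only [MatrixTree.PL, hrw]
    rw [h8] at hR
    rw [hL] at h7
    simp only [Fintype.card_fin] at h7 hR
    rw [hR] at h7
    have hn2 : (0 : ℝ) < (n : ℝ) ^ 2 := by positivity
    have h9 := le_of_mul_le_mul_left h7 hn2
    exact_mod_cast h9

end Pool.Agent.Helper428.TreeMax
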