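import Mathlib

set_option autoImplicit false

namespace Pool.Agent.Helper428.UMR

open Finset Filter Topology
open Classical

variable {n : ℕ}

/-- The all-terminal reliability of `G`: the probability that the spanning subgraph formed by
keeping each edge independently with probability `p` is connected. -/
noncomputable def rel (G : SimpleGraph (Fin n)) (p : ℝ) : ℝ :=
  ∑ A ∈ G.edgeFinset.powerset,
    if (SimpleGraph.fromEdgeSet (A : Set (Sym2 (Fin n)))).Connected
    then p ^ A.card * (1 - p) ^ (G.edgeFinset.card - A.card) else 0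

/-- `G` is uniformly most reliable among the graphs with the same vertex set and the same number of
edges. -/
def IsUMR (G : SimpleGraph (Fin n)) : Prop :=
  ∀ H : SimpleGraph (Fin n), H.edgeFinset.card = G.edgeFinset.card →
    ∀ p : ℝ, 0 ≤ p → p ≤ 1 → rel H p ≤ rel G p

/-- number of connected spanning edge sets of size `i`. -/
noncomputable def eta (G : SimpleGraph (Fin n)) (i : ℕ) : ℕ :=
  ((G.edgeFinset.powersetCard i).filter
    (fun A : Finset (Sym2 (Fin n)) =>
      (SimpleGraph.fromEdgeSet (A : Set (Sym2 (Fin n)))).Connected)).card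

/-- number of disconnecting edge sets of size `i`. -/
noncomputable def dis (G : SimpleGraph (Fin n)) (i : ℕ) : ℕ :=
  ((G.edgeFinset.powersetCard i).filter
    (fun B : Finset (Sym2 (Fin n)) =>
      ¬ (SimpleGraph.fromEdgeSet ((G.edgeFinset \ B : Finset (Sym2 (Fin n))) :
        Set (Sym2 (Fin n)))).Connected)).card

lemma rel_eq_eta (G : SimpleGraph (Fin n)) (p : ℝ) :
    rel G p = ∑ i ∈ range (G.edgeFinset.card + 1),
      (eta G i : ℝ) * p ^ i * (1 - p) ^ (G.edgeFinset.card - i) := by
  unfold rel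
  rw [Finset.sum_powerset]
  apply Finset.sum_congr rfl
  intro i _
  rw [← Finset.sum_filter]
  have : ∀ A ∈ (G.edgeFinset.powersetCard i).filter
    (fun A : Finset (Sym2 (Fin n)) =>
      (SimpleGraph.fromEdgeSet (A : Set (Sym2 (Fin n)))).Connected),
      p ^ A.card * (1 - p) ^ (G.edgeFinset.card - A.card) =
      p ^ i * (1 - p) ^ (G.edgeFinset.card - i) := by
    intro A hA
    have := (Finset.mem_powersetCard.1 (Finset.mem_filter.1 hA).1).2
    rw [this]
  rw [Finset.sum_congr rfl this, Finset.sum_const, nsmul_eq_mul, mul_assoc]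
  rfl

lemma one_sub_rel (G : SimpleGraph (Fin n)) (p : ℝ) :
    1 - rel G p = ∑ i ∈ range (G.edgeFinset.card + 1),
      (dis G i : ℝ) * (1 - p) ^ i * p ^ (G.edgeFinset.card - i) := by
  have h1 : (1 : ℝ) = ∑ A ∈ G.edgeFinset.powerset,
      p ^ A.card * (1 - p) ^ (G.edgeFinset.card - A.card) := by
    rw [Finset.sum_pow_mul_eq_add_pow]
    simp
  have h2 : 1 - rel G p = ∑ A ∈ G.edgeFinset.powerset,
      if ¬ (SimpleGraph.fromEdgeSet (A : Set (Sym2 (Fin n)))).Connected
      then p ^ A.card * (1 - p) ^ (G.edgeFinset.card - A.card) else 0 := by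
    conv_lhs => rw [h1]
    unfold rel
    rw [← Finset.sum_sub_distrib]
    apply Finset.sum_congr rfl
    intro A _
    by_cases h : (SimpleGraph.fromEdgeSet (A : Set (Sym2 (Fin n)))).Connected
    · simp [h]
    · simp [h]
  have h3 : (∑ A ∈ G.edgeFinset.powerset,
      if ¬ (SimpleGraph.fromEdgeSet (A : Set (Sym2 (Fin n)))).Connected
      then p ^ A.card * (1 - p) ^ (G.edgeFinset.card - A.card) else 0) =
      ∑ B ∈ G.edgeFinset.powerset,
      if ¬ (SimpleGraph.fromEdgeSet ((G.edgeFinset \ B : Finset (Sym2 (Fin n))) :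
        Set (Sym2 (Fin n)))).Connected
      then (1 - p) ^ B.card * p ^ (G.edgeFinset.card - B.card) else 0 := by
    refine Finset.sum_nbij' (fun A => G.edgeFinset \ A) (fun B => G.edgeFinset \ B) ?_ ?_ ?_ ?_ ?_
    · intro A _
      exact Finset.mem_powerset.2 Finset.sdiff_subset
    · intro A _
      exact Finset.mem_powerset.2 Finset.sdiff_subset
    · intro A hA
      exact Finset.sdiff_sdiff_eq_self (Finset.mem_powerset.1 hA)
    · intro A hA
      exact Finset.sdiff_sdiff_eq_self (Finset.mem_powerset.1 hA)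
    · intro A hA
      have hA' := Finset.mem_powerset.1 hA
      rw [Finset.sdiff_sdiff_eq_self hA', Finset.card_sdiff_of_subset hA']
      have hle := Finset.card_le_card hA'
      have : G.edgeFinset.card - (G.edgeFinset.card - A.card) = A.card := by omega
      rw [this, mul_comm (p ^ A.card)]
  rw [h2, h3, Finset.sum_powerset]
  apply Finset.sum_congr rfl
  intro i _
  rw [← Finset.sum_filter]
  have : ∀ B ∈ (G.edgeFinset.powersetCard i).filter
    (fun B : Finset (Sym2 (Fin n)) =>
      ¬ (SimpleGraph.fromEdgeSet ((G.edgeFinset \ B : Finset (Sym2 (Fin n))) :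
        Set (Sym2 (Fin n)))).Connected),
      (1 - p) ^ B.card * p ^ (G.edgeFinset.card - B.card) =
      (1 - p) ^ i * p ^ (G.edgeFinset.card - i) := by
    intro A hA
    have := (Finset.mem_powersetCard.1 (Finset.mem_filter.1 hA).1).2
    rw [this]
  rw [Finset.sum_congr rfl this, Finset.sum_const, nsmul_eq_mul, mul_assoc]
  rfl

lemma pos_small (m i : ℕ) (c : ℕ → ℝ) (hi : i ≤ m) (h0 : ∀ j < i, c j = 0) (hpos : 0 < c i) :
    ∃ x : ℝ, 0 < x ∧ x < 1 ∧ 0 < ∑ j ∈ range (m + 1), c j * x ^ j * (1 - x) ^ (m - j) := by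
  set g : ℝ → ℝ := fun x => ∑ j ∈ range (m + 1), c j * x ^ (j - i) * (1 - x) ^ (m - j) with hg
  have hgc : Continuous g := by
    apply continuous_finsetSum
    intro j _
    fun_prop
  have hg0 : g 0 = c i := by
    rw [hg]
    simp only
    rw [Finset.sum_eq_single i]
    · simp
    · intro j _ hji
      rcases lt_or_gt_of_ne hji with h | h
      · rw [h0 j h]; simp
      · have : j - i ≠ 0 := by omega
        rw [zero_pow this]; simp
    · intro h
      exact absurd (Finset.mem_range.2 (by omega)) h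
  have hev : ∀ᶠ x in 𝓝[>] (0 : ℝ), 0 < g x := by
    have : ∀ᶠ x in 𝓝 (0 : ℝ), 0 < g x := by
      apply hgc.continuousAt.eventually
      rw [hg0]
      exact lt_mem_nhds hpos
    exact this.filter_mono nhdsWithin_le_nhds
  have hev2 : ∀ᶠ x in 𝓝[>] (0 : ℝ), x < 1 := by
    have : ∀ᶠ x in 𝓝 (0 : ℝ), x < 1 := gt_mem_nhds one_pos
    exact this.filter_mono nhdsWithin_le_nhds
  have hev3 : ∀ᶠ x in 𝓝[>] (0 : ℝ), 0 < x := self_mem_nhdsWithin
  obtain ⟨x, hx1, hx2, hx3⟩ := (hev.and (hev2.and hev3)).exists
  refine ⟨x, hx3, hx2, ?_⟩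
  have hfac : ∑ j ∈ range (m + 1), c j * x ^ j * (1 - x) ^ (m - j) = x ^ i * g x := by
    rw [hg]
    simp only
    rw [Finset.mul_sum]
    apply Finset.sum_congr rfl
    intro j _
    rcases lt_or_ge j i with h | h
    · rw [h0 j h]; simp
    · have : x ^ j = x ^ i * x ^ (j - i) := by rw [← pow_add]; congr 1; omega
      rw [this]; ring
  rw [hfac]
  positivity

/-- near `p = 1`. -/
lemma umr_dis {G G' : SimpleGraph (Fin n)} (hG : IsUMR G)
    (hm : G'.edgeFinset.card = G.edgeFinset.card) (i : ℕ)
    (hle : ∀ j < i, dis G' j ≤ dis G j) : dis G i ≤ dis G' i := by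
  by_contra hcon
  push Not at hcon
  -- first index with a difference
  have hex : ∃ j, dis G' j ≠ dis G j := ⟨i, hcon.ne⟩
  obtain ⟨k, hk⟩ : ∃ k, k = Nat.find hex := ⟨_, rfl⟩
  have hk1 : dis G' k ≠ dis G k := by rw [hk]; exact Nat.find_spec hex
  have hk2 : ∀ j < k, dis G' j = dis G j := by
    intro j hj
    rw [hk] at hj
    have := Nat.find_min hex hj
    push Not at this
    exact this
  have hki : k ≤ i := by rw [hk]; exact Nat.find_min' hex hcon.ne
  have hlt : dis G' k < dis G k := by
    rcases lt_or_eq_of_le hki with h | h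
    · exact lt_of_le_of_ne (hle k h) hk1
    · rw [h]; exact hcon
  have hkm : k ≤ G.edgeFinset.card := by
    by_contra hgt
    push Not at hgt
    have : dis G k = 0 := by
      unfold dis
      rw [Finset.powersetCard_eq_empty.2 hgt]
      simp
    omega
  obtain ⟨x, hx0, hx1, hx⟩ := pos_small G.edgeFinset.card k
    (fun j => (dis G j : ℝ) - dis G' j) hkm (by
      intro j hj
      simp [hk2 j hj]) (by
      have : (dis G' k : ℝ) < dis G k := by exact_mod_cast hlt
      linarith)
  have h1 := one_sub_rel G (1 - x)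
  have h2 := one_sub_rel G' (1 - x)
  rw [hm] at h2
  have h3 := hG G' hm (1 - x) (by linarith) (by linarith)
  have h4 : (1 - rel G (1 - x)) - (1 - rel G' (1 - x)) =
      ∑ j ∈ range (G.edgeFinset.card + 1), ((dis G j : ℝ) - dis G' j) * x ^ j *
        (1 - x) ^ (G.edgeFinset.card - j) := by
    rw [h1, h2, ← Finset.sum_sub_distrib]
    apply Finset.sum_congr rfl
    intro j _
    have : 1 - (1 - x) = x := by ring
    rw [this]
    ring
  linarith

/-- near `p = 0`. -/
lemma umr_eta {G G' : SimpleGraph (Fin n)} (hG : IsUMR G)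
    (hm : G'.edgeFinset.card = G.edgeFinset.card) (i : ℕ)
    (heq : ∀ j < i, eta G' j = 0 ∧ eta G j = 0) : eta G' i ≤ eta G i := by
  by_contra hcon
  push Not at hcon
  have him : i ≤ G.edgeFinset.card := by
    by_contra hgt
    push Not at hgt
    have : eta G' i = 0 := by
      unfold eta
      rw [Finset.powersetCard_eq_empty.2 (by rw [hm]; exact hgt)]
      simp
    omega
  obtain ⟨x, hx0, hx1, hx⟩ := pos_small G.edgeFinset.card i
    (fun j => (eta G' j : ℝ) - eta G j) him (by
      intro j hj
      simp [heq j hj]) (by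
      have : (eta G i : ℝ) < eta G' i := by exact_mod_cast hcon
      linarith)
  have h1 := rel_eq_eta G x
  have h2 := rel_eq_eta G' x
  rw [hm] at h2
  have h3 := hG G' hm x hx0.le hx1.le
  have h4 : rel G' x - rel G x =
      ∑ j ∈ range (G.edgeFinset.card + 1), ((eta G' j : ℝ) - eta G j) * x ^ j *
        (1 - x) ^ (G.edgeFinset.card - j) := by
    rw [h1, h2, ← Finset.sum_sub_distrib]
    apply Finset.sum_congr rfl
    intro j _
    ring
  linarith

end Pool.Agent.Helper428.UMR
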