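import Mathlib

set_option autoImplicit false

namespace Pool.Agent.Helper428.UMR

open Matrix

variable {T : Type*} [Fintype T] [DecidableEq T]

lemma inv_facts (N : Matrix T T ℝ) (hs : Nᵀ = N)
    (hpos : ∀ x : T → ℝ, x ⬝ᵥ x ≤ x ⬝ᵥ (N *ᵥ x)) :
    0 < N.det ∧ (∀ i, 0 < N⁻¹ i i ∧ N⁻¹ i i ≤ 1) ∧
      ∀ i j, N⁻¹ i j = N⁻¹ j i ∧ 0 ≤ N⁻¹ i i + N⁻¹ j j + 2 * N⁻¹ i j := by
  have hPD : N.PosDef := by
    apply Matrix.PosDef.of_dotProduct_mulVec_pos
    · rw [Matrix.IsHermitian, Matrix.conjTranspose_eq_transpose_of_trivial]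
      exact hs
    · intro x hx
      have h1 := hpos x
      have h2 : 0 < x ⬝ᵥ x := by
        have := dotProduct_star_self_pos_iff.2 hx
        simpa using this
      simp only [star_trivial]
      linarith
  have hdet : 0 < N.det := hPD.det_pos
  have hunit : IsUnit N.det := hdet.ne'.isUnit
  have hmul : N * N⁻¹ = 1 := Matrix.mul_nonsing_inv N hunit
  have hsym : (N⁻¹)ᵀ = N⁻¹ := by
    rw [Matrix.transpose_nonsing_inv, hs]
  have hq : ∀ y : T → ℝ, (N⁻¹ *ᵥ y) ⬝ᵥ (N⁻¹ *ᵥ y) ≤ y ⬝ᵥ (N⁻¹ *ᵥ y) := by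
    intro y
    have h := hpos (N⁻¹ *ᵥ y)
    rw [Matrix.mulVec_mulVec, hmul, Matrix.one_mulVec, dotProduct_comm (N⁻¹ *ᵥ y) y] at h
    exact h
  refine ⟨hdet, ?_, ?_⟩
  · intro i
    have h := hq (Pi.single i 1)
    rw [Matrix.mulVec_single_one, single_one_dotProduct] at h
    simp only [Matrix.col_apply] at h
    have h2 : (N⁻¹ i i) ^ 2 ≤ (N⁻¹.col i) ⬝ᵥ (N⁻¹.col i) := by
      unfold dotProduct
      have : (N⁻¹ i i) ^ 2 = N⁻¹.col i i * N⁻¹.col i i := by
        simp [Matrix.col_apply, sq]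
      rw [this]
      exact Finset.single_le_sum (f := fun k => N⁻¹.col i k * N⁻¹.col i k)
        (fun k _ => mul_self_nonneg _) (Finset.mem_univ i)
    have h3 : 0 < (N⁻¹.col i) ⬝ᵥ (N⁻¹.col i) := by
      have hne : N⁻¹.col i ≠ 0 := by
        intro h0
        have h4 : (N * N⁻¹) i i = 1 := by rw [hmul]; simp
        rw [Matrix.mul_apply] at h4
        have h5 : ∀ k, N⁻¹ k i = 0 := fun k => by
          have := congrFun h0 k
          simpa [Matrix.col_apply] using this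
        simp [h5] at h4
      have := dotProduct_star_self_pos_iff.2 hne
      simpa using this
    constructor
    · linarith
    · by_contra hcon
      push Not at hcon
      nlinarith
  · intro i j
    have hij : N⁻¹ i j = N⁻¹ j i := by
      have := congrFun (congrFun hsym i) j
      rw [Matrix.transpose_apply] at this
      exact this.symm
    refine ⟨hij, ?_⟩
    have h := hq (Pi.single i 1 + Pi.single j 1)
    have h0 : 0 ≤ (N⁻¹ *ᵥ (Pi.single i 1 + Pi.single j 1)) ⬝ᵥ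
        (N⁻¹ *ᵥ (Pi.single i 1 + Pi.single j 1)) := by
      have := dotProduct_star_self_nonneg (N⁻¹ *ᵥ (Pi.single i 1 + Pi.single j 1))
      simpa using this
    have h1 : (Pi.single i 1 + Pi.single j 1) ⬝ᵥ (N⁻¹ *ᵥ (Pi.single i 1 + Pi.single j 1)) =
        N⁻¹ i i + N⁻¹ j j + 2 * N⁻¹ i j := by
      rw [Matrix.mulVec_add, Matrix.mulVec_single_one, Matrix.mulVec_single_one, add_dotProduct,
        single_one_dotProduct, single_one_dotProduct]
      simp only [Pi.add_apply, Matrix.col_apply]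
      rw [← hij]
      ring
    linarith

lemma poly_ineq (β g1 g2 h : ℝ) (hβ : 3 ≤ β) (h1 : 0 < g1) (h1' : g1 ≤ 1) (h2 : 0 < g2)
    (h2' : g2 ≤ 1) (hh : 0 ≤ g1 + g2 + 2 * h) :
    (β * (β * (β - g1) * (β - g2) - (β - g1) - (β - g2) - 2 * h - β * h ^ 2)) <
    ((β - 1) ^ 2 * ((β + 1 - g1) * (β + 1 - g2) - h ^ 2)) := by
  have key : ((β - 1) ^ 2 * ((β + 1 - g1) * (β + 1 - g2) - h ^ 2)) -
      (β * (β * (β - g1) * (β - g2) - (β - g1) - (β - g2) - 2 * h - β * h ^ 2)) =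
      β * (g1 + g2 + 2 * h) + (β ^ 2 - 3 * β) * (g1 + g2) + 2 * β * (g1 * (1 - g2) + g2 * (1 - g1) + g1 * g2)
      + (1 - g1) * (1 - g2) + (2 * β - 1) * h ^ 2 := by ring
  have a1 : 0 ≤ β * (g1 + g2 + 2 * h) := mul_nonneg (by linarith) hh
  have a2 : 0 ≤ (β ^ 2 - 3 * β) * (g1 + g2) := mul_nonneg (by nlinarith) (by linarith)
  have a3 : 0 ≤ g1 * (1 - g2) := mul_nonneg h1.le (by linarith)
  have a4 : 0 ≤ g2 * (1 - g1) := mul_nonneg h2.le (by linarith)
  have a5 : 0 < g1 * g2 := mul_pos h1 h2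
  have a6 : 0 < 2 * β * (g1 * (1 - g2) + g2 * (1 - g1) + g1 * g2) := by
    apply mul_pos (by linarith)
    linarith
  have a7 : 0 ≤ (1 - g1) * (1 - g2) := mul_nonneg (by linarith) (by linarith)
  have a8 : 0 ≤ (2 * β - 1) * h ^ 2 := mul_nonneg (by linarith) (sq_nonneg h)
  linarith

end Pool.Agent.Helper428.UMR
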