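import Mathlib
import Pool.Agent.Helper428.UMRDet

set_option autoImplicit false
set_option linter.unusedSimpArgs false
set_option linter.style.haveILetI false

namespace Pool.Agent.Helper428.UMR

open Matrix

variable {T : Type*} [Fintype T] [DecidableEq T]

lemma BNB (N : Matrix T T ℝ) {ι : Type*} (b : ι → T → ℝ) (i j : ι) :
    ((Matrix.of b) * N⁻¹ * (Matrix.of b)ᵀ) i j = (b i) ⬝ᵥ (N⁻¹ *ᵥ (b j)) := by
  rw [Matrix.mul_assoc, Matrix.mul_apply]
  unfold dotProduct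
  apply Finset.sum_congr rfl
  intro t _
  rw [Matrix.of_apply, Matrix.mul_apply]
  rfl

/-- the couplings of the special vertices in `H`. -/
def b1 (u' w' : T) : Fin 3 ⊕ Fin 2 → T → ℝ :=
  Sum.elim ![Pi.single u' 1, 0, Pi.single w' 1] ![0, 0]

/-- the couplings of the special vertices in `H''`. -/
def b2 (u' w' : T) : Fin 3 ⊕ Fin 2 → T → ℝ :=
  Sum.elim ![0, 0, 0] ![Pi.single u' 1, Pi.single w' 1]

def A1 (β : ℝ) : Matrix (Fin 3 ⊕ Fin 2) (Fin 3 ⊕ Fin 2) ℝ :=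
  Matrix.fromBlocks !![β, 1, 0; 1, β, 1; 0, 1, β] 0 0 !![β + 1, 1; 1, β + 1]

def A2 (β : ℝ) : Matrix (Fin 3 ⊕ Fin 2) (Fin 3 ⊕ Fin 2) ℝ :=
  Matrix.fromBlocks !![β, 1, 1; 1, β, 1; 1, 1, β] 0 0 !![β + 1, 0; 0, β + 1]

lemma det1 (N : Matrix T T ℝ) (hN : IsUnit N.det) (u' w' : T) (β : ℝ)
    (hsym : N⁻¹ u' w' = N⁻¹ w' u') :
    (Matrix.fromBlocks (A1 β) (Matrix.of (b1 u' w')) (Matrix.of (b1 u' w'))ᵀ N).det =
      N.det * ((β * (β - N⁻¹ u' u') * (β - N⁻¹ w' w') - (β - N⁻¹ u' u') - (β - N⁻¹ w' w')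
        - 2 * N⁻¹ u' w' - β * (N⁻¹ u' w') ^ 2) * (β * (β + 2))) := by
  haveI : Invertible N := Matrix.invertibleOfIsUnitDet N hN
  rw [Matrix.det_fromBlocks₂₂, Matrix.invOf_eq_nonsing_inv]
  have h : A1 β - Matrix.of (b1 u' w') * N⁻¹ * (Matrix.of (b1 u' w'))ᵀ =
      Matrix.fromBlocks !![β - N⁻¹ u' u', 1, -N⁻¹ u' w'; 1, β, 1; -N⁻¹ u' w', 1, β - N⁻¹ w' w'] 0 0
        !![β + 1, 1; 1, β + 1] := by
    ext i j
    rw [Matrix.sub_apply, BNB]
    rcases i with i | i <;> rcases j with j | j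
    · fin_cases i <;> fin_cases j <;>
        simp [A1, b1, Matrix.mulVec_single_one, single_one_dotProduct, Matrix.col_apply, hsym]
    · fin_cases i <;> fin_cases j <;>
        simp [A1, b1, Matrix.mulVec_single_one, single_one_dotProduct, Matrix.col_apply]
    · fin_cases i <;> fin_cases j <;>
        simp [A1, b1, Matrix.mulVec_single_one, single_one_dotProduct, Matrix.col_apply]
    · fin_cases i <;> fin_cases j <;>
        simp [A1, b1, Matrix.mulVec_single_one, single_one_dotProduct, Matrix.col_apply]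
  rw [h, Matrix.det_fromBlocks_zero₂₁, Matrix.det_fin_three, Matrix.det_fin_two]
  congr 1
  simp
  ring

lemma det2 (N : Matrix T T ℝ) (hN : IsUnit N.det) (u' w' : T) (β : ℝ)
    (hsym : N⁻¹ u' w' = N⁻¹ w' u') :
    (Matrix.fromBlocks (A2 β) (Matrix.of (b2 u' w')) (Matrix.of (b2 u' w'))ᵀ N).det =
      N.det * (((β - 1) ^ 2 * (β + 2)) * ((β + 1 - N⁻¹ u' u') * (β + 1 - N⁻¹ w' w')
        - (N⁻¹ u' w') ^ 2)) := by
  haveI : Invertible N := Matrix.invertibleOfIsUnitDet N hN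
  rw [Matrix.det_fromBlocks₂₂, Matrix.invOf_eq_nonsing_inv]
  have h : A2 β - Matrix.of (b2 u' w') * N⁻¹ * (Matrix.of (b2 u' w'))ᵀ =
      Matrix.fromBlocks !![β, 1, 1; 1, β, 1; 1, 1, β] 0 0
        !![β + 1 - N⁻¹ u' u', -N⁻¹ u' w'; -N⁻¹ u' w', β + 1 - N⁻¹ w' w'] := by
    ext i j
    rw [Matrix.sub_apply, BNB]
    rcases i with i | i <;> rcases j with j | j
    · fin_cases i <;> fin_cases j <;>
        simp [A2, b2, Matrix.mulVec_single_one, single_one_dotProduct, Matrix.col_apply]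
    · fin_cases i <;> fin_cases j <;>
        simp [A2, b2, Matrix.mulVec_single_one, single_one_dotProduct, Matrix.col_apply]
    · fin_cases i <;> fin_cases j <;>
        simp [A2, b2, Matrix.mulVec_single_one, single_one_dotProduct, Matrix.col_apply]
    · fin_cases i <;> fin_cases j <;>
        simp [A2, b2, Matrix.mulVec_single_one, single_one_dotProduct, Matrix.col_apply, hsym]
  rw [h, Matrix.det_fromBlocks_zero₂₁, Matrix.det_fin_three, Matrix.det_fin_two]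
  congr 1
  simp
  ring

/-- **The determinant comparison.** -/
theorem det_lt (N : Matrix T T ℝ) (hs : Nᵀ = N)
    (hpos : ∀ x : T → ℝ, x ⬝ᵥ x ≤ x ⬝ᵥ (N *ᵥ x)) (u' w' : T) (β : ℝ) (hβ : 3 ≤ β) :
    (Matrix.fromBlocks (A1 β) (Matrix.of (b1 u' w')) (Matrix.of (b1 u' w'))ᵀ N).det <
    (Matrix.fromBlocks (A2 β) (Matrix.of (b2 u' w')) (Matrix.of (b2 u' w'))ᵀ N).det := by
  obtain ⟨h1, h2, h3⟩ := inv_facts N hs hpos
  have hN : IsUnit N.det := h1.ne'.isUnit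
  have hsym := (h3 u' w').1
  rw [det1 N hN u' w' β hsym, det2 N hN u' w' β hsym]
  have hp := poly_ineq β (N⁻¹ u' u') (N⁻¹ w' w') (N⁻¹ u' w') hβ (h2 u').1 (h2 u').2 (h2 w').1
    (h2 w').2 (h3 u' w').2
  have hfac : (0 : ℝ) < N.det * (β + 2) := mul_pos h1 (by linarith)
  have := mul_lt_mul_of_pos_left hp hfac
  nlinarith [this]

end Pool.Agent.Helper428.UMR
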