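import Mathlib
import Pool.Agent.Helper428.UMRBasic

set_option autoImplicit false

namespace Pool.Agent.Helper428.UMR

open Finset
open Classical

variable {n : ℕ}

/-- edges of `G` with exactly one end in `S`. -/
noncomputable def cut (G : SimpleGraph (Fin n)) (S : Finset (Fin n)) : Finset (Sym2 (Fin n)) :=
  G.edgeFinset.filter (fun e => ∃ x ∈ S, ∃ y, y ∉ S ∧ e = s(x, y))

lemma mem_cut {G : SimpleGraph (Fin n)} {S : Finset (Fin n)} {x y : Fin n} (hx : x ∈ S)
    (hy : y ∉ S) : s(x, y) ∈ cut G S ↔ G.Adj x y := by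
  unfold cut
  rw [Finset.mem_filter, SimpleGraph.mem_edgeFinset, SimpleGraph.mem_edgeSet]
  constructor
  · intro h; exact h.1
  · intro h; exact ⟨h, x, hx, y, hy, rfl⟩

lemma not_mem_cut_of_mem {G : SimpleGraph (Fin n)} {S : Finset (Fin n)} {x y : Fin n} (hx : x ∈ S)
    (hy : y ∈ S) : s(x, y) ∉ cut G S := by
  unfold cut
  rw [Finset.mem_filter]
  rintro ⟨-, a, ha, b, hb, h⟩
  rcases Sym2.eq_iff.1 h with ⟨h1, h2⟩ | ⟨h1, h2⟩
  · exact hb (h2 ▸ hy)
  · exact hb (h1 ▸ hx)

lemma not_mem_cut_of_not_mem {G : SimpleGraph (Fin n)} {S : Finset (Fin n)} {x y : Fin n}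
    (hx : x ∉ S) (hy : y ∉ S) : s(x, y) ∉ cut G S := by
  unfold cut
  rw [Finset.mem_filter]
  rintro ⟨-, a, ha, b, hb, h⟩
  rcases Sym2.eq_iff.1 h with ⟨h1, h2⟩ | ⟨h1, h2⟩
  · exact hx (h1 ▸ ha)
  · exact hy (h2 ▸ ha)

lemma exists_of_mem_cut {G : SimpleGraph (Fin n)} {S : Finset (Fin n)} {e : Sym2 (Fin n)}
    (h : e ∈ cut G S) : ∃ x ∈ S, ∃ y, y ∉ S ∧ e = s(x, y) ∧ G.Adj x y := by
  unfold cut at h
  rw [Finset.mem_filter] at h
  obtain ⟨h1, x, hx, y, hy, rfl⟩ := h
  exact ⟨x, hx, y, hy, rfl, by simpa using h1⟩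

lemma cut_subset (G : SimpleGraph (Fin n)) (S : Finset (Fin n)) : cut G S ⊆ G.edgeFinset :=
  Finset.filter_subset _ _

lemma cut_compl (G : SimpleGraph (Fin n)) (S : Finset (Fin n)) : cut G Sᶜ = cut G S := by
  unfold cut
  apply Finset.filter_congr
  intro e _
  constructor
  · rintro ⟨x, hx, y, hy, rfl⟩
    exact ⟨y, by simpa using hy, x, by simpa using hx, Sym2.eq_swap⟩
  · rintro ⟨x, hx, y, hy, rfl⟩
    exact ⟨y, by simpa using hy, x, by simpa using hx, Sym2.eq_swap⟩

lemma cut_card (G : SimpleGraph (Fin n)) (S : Finset (Fin n)) :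
    (cut G S).card = ((S ×ˢ Sᶜ).filter (fun p => G.Adj p.1 p.2)).card := by
  symm
  apply Finset.card_bij (fun p _ => s(p.1, p.2))
  · intro p hp
    rw [Finset.mem_filter, Finset.mem_product, Finset.mem_compl] at hp
    exact (mem_cut hp.1.1 hp.1.2).2 hp.2
  · intro p hp q hq h
    rw [Finset.mem_filter, Finset.mem_product, Finset.mem_compl] at hp hq
    rcases Sym2.eq_iff.1 h with ⟨h1, h2⟩ | ⟨h1, h2⟩
    · exact Prod.ext h1 h2
    · exact absurd (h1 ▸ hp.1.1) hq.1.2
  · intro e he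
    unfold cut at he
    rw [Finset.mem_filter] at he
    obtain ⟨he, x, hx, y, hy, rfl⟩ := he
    refine ⟨(x, y), ?_, rfl⟩
    rw [Finset.mem_filter, Finset.mem_product, Finset.mem_compl]
    exact ⟨⟨hx, hy⟩, by simpa using he⟩

lemma cut_add {G H : SimpleGraph (Fin n)} (hH : ∀ u v, H.Adj u v ↔ u ≠ v ∧ ¬ G.Adj u v)
    (S : Finset (Fin n)) : (cut G S).card + (cut H S).card = S.card * (n - S.card) := by
  rw [cut_card, cut_card]
  have h : (S ×ˢ Sᶜ).filter (fun p => H.Adj p.1 p.2) =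
      (S ×ˢ Sᶜ).filter (fun p => ¬ G.Adj p.1 p.2) := by
    apply Finset.filter_congr
    intro p hp
    rw [Finset.mem_product, Finset.mem_compl] at hp
    rw [hH]
    constructor
    · intro h; exact h.2
    · intro h
      refine ⟨?_, h⟩
      intro heq
      exact hp.2 (heq ▸ hp.1)
  rw [h, Finset.card_filter_add_card_filter_not, Finset.card_product, Finset.card_compl,
    Fintype.card_fin]

lemma cut_le_deg (H : SimpleGraph (Fin n)) (S : Finset (Fin n)) :
    (cut H S).card ≤ ∑ v ∈ S, H.degree v := by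
  rw [cut_card]
  have : (S ×ˢ Sᶜ).filter (fun p => H.Adj p.1 p.2) ⊆
      S.biUnion (fun v => (H.neighborFinset v).image (fun w => (v, w))) := by
    intro p hp
    rw [Finset.mem_filter, Finset.mem_product] at hp
    rw [Finset.mem_biUnion]
    refine ⟨p.1, hp.1.1, ?_⟩
    rw [Finset.mem_image]
    exact ⟨p.2, by simpa using hp.2, rfl⟩
  refine (Finset.card_le_card this).trans (Finset.card_biUnion_le.trans ?_)
  apply Finset.sum_le_sum
  intro v _
  exact Finset.card_image_le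

lemma cut_singleton (G : SimpleGraph (Fin n)) (v : Fin n) : (cut G {v}).card = G.degree v := by
  rw [cut_card, ← SimpleGraph.card_neighborFinset_eq_degree]
  apply Finset.card_bij (fun p _ => p.2)
  · intro p hp
    rw [Finset.mem_filter, Finset.mem_product, Finset.mem_singleton] at hp
    rw [SimpleGraph.mem_neighborFinset, ← hp.1.1]
    exact hp.2
  · intro p hp q hq h
    rw [Finset.mem_filter, Finset.mem_product, Finset.mem_singleton] at hp hq
    exact Prod.ext (hp.1.1.trans hq.1.1.symm) h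
  · intro w hw
    rw [SimpleGraph.mem_neighborFinset] at hw
    refine ⟨(v, w), ?_, rfl⟩
    rw [Finset.mem_filter, Finset.mem_product]
    simp only [Finset.mem_singleton, Finset.mem_compl, true_and]
    exact ⟨hw.ne', hw⟩

lemma not_connected_iff (hn : 0 < n) (G : SimpleGraph (Fin n)) (B : Finset (Sym2 (Fin n))) :
    (¬ (SimpleGraph.fromEdgeSet ((G.edgeFinset \ B : Finset (Sym2 (Fin n))) :
        Set (Sym2 (Fin n)))).Connected) ↔ ∃ S : Finset (Fin n), S.Nonempty ∧ Sᶜ.Nonempty ∧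
          cut G S ⊆ B := by
  have hne : Nonempty (Fin n) := ⟨⟨0, hn⟩⟩
  constructor
  · intro h
    have h2 : ¬ (SimpleGraph.fromEdgeSet ((G.edgeFinset \ B : Finset (Sym2 (Fin n))) :
        Set (Sym2 (Fin n)))).Preconnected := by
      intro h3
      exact h { preconnected := h3 }
    unfold SimpleGraph.Preconnected at h2
    push Not at h2
    obtain ⟨u, v, huv⟩ := h2
    refine ⟨Finset.univ.filter (fun x => (SimpleGraph.fromEdgeSet
      ((G.edgeFinset \ B : Finset (Sym2 (Fin n))) : Set (Sym2 (Fin n)))).Reachable u x),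
      ⟨u, by simp⟩, ⟨v, by simpa using huv⟩, ?_⟩
    intro e he
    unfold cut at he
    rw [Finset.mem_filter] at he
    obtain ⟨he, x, hx, y, hy, rfl⟩ := he
    by_contra hB
    rw [Finset.mem_filter] at hx hy
    apply hy
    refine ⟨Finset.mem_univ _, ?_⟩
    refine hx.2.trans (SimpleGraph.Adj.reachable ?_)
    rw [SimpleGraph.fromEdgeSet_adj]
    refine ⟨?_, ?_⟩
    · rw [Finset.mem_coe, Finset.mem_sdiff]
      exact ⟨he, hB⟩
    · rw [SimpleGraph.mem_edgeFinset, SimpleGraph.mem_edgeSet] at he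
      exact he.ne
  · rintro ⟨S, ⟨x, hx⟩, ⟨y, hy⟩, hS⟩ hcon
    rw [Finset.mem_compl] at hy
    obtain ⟨w⟩ := hcon.preconnected x y
    obtain ⟨d, hd, hd1, hd2⟩ := w.exists_boundary_dart (S : Set (Fin n)) (by simpa using hx)
      (by simpa using hy)
    have hadj := d.adj
    rw [SimpleGraph.fromEdgeSet_adj, Finset.mem_coe, Finset.mem_sdiff] at hadj
    rw [Finset.mem_coe] at hd1 hd2
    apply hadj.1.2
    apply hS
    rw [mem_cut hd1 hd2]
    simpa using hadj.1.1

end Pool.Agent.Helper428.UMR
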