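import Mathlib
import Pool.Agent.Helper428.UMRCuts

set_option autoImplicit false

namespace Pool.Agent.Helper428.UMR

open Finset
open Classical

variable {n : ℕ}

/-- number of `i`-subsets of an `m`-set containing a given `δ`-subset. -/
def FF (m δ i : ℕ) : ℕ := if δ ≤ i then (m - δ).choose (i - δ) else 0

lemma card_super {α : Type*} (E T : Finset α) (hT : T ⊆ E) (i : ℕ) :
    ((E.powersetCard i).filter (fun B => T ⊆ B)).card = FF E.card T.card i := by
  unfold FF
  split_ifs with h
  · rw [← Finset.card_sdiff_of_subset hT, ← Finset.card_powersetCard]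
    apply Finset.card_bij (fun B _ => B \ T)
    · intro B hB
      rw [Finset.mem_filter, Finset.mem_powersetCard] at hB
      rw [Finset.mem_powersetCard]
      refine ⟨Finset.sdiff_subset_sdiff hB.1.1 (Finset.Subset.refl _), ?_⟩
      rw [Finset.card_sdiff_of_subset hB.2, hB.1.2]
    · intro B hB C hC hBC
      rw [Finset.mem_filter, Finset.mem_powersetCard] at hB hC
      have h1 : B = (B \ T) ∪ T := by rw [Finset.sdiff_union_of_subset hB.2]
      have h2 : C = (C \ T) ∪ T := by rw [Finset.sdiff_union_of_subset hC.2]
      rw [h1, h2, hBC]
    · intro C hC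
      rw [Finset.mem_powersetCard] at hC
      have hd : Disjoint C T := by
        rw [Finset.disjoint_left]
        intro x hx hxT
        exact (Finset.mem_sdiff.1 (hC.1 hx)).2 hxT
      refine ⟨C ∪ T, ?_, ?_⟩
      · rw [Finset.mem_filter, Finset.mem_powersetCard]
        refine ⟨⟨Finset.union_subset (hC.1.trans Finset.sdiff_subset) hT, ?_⟩,
          Finset.subset_union_right⟩
        rw [Finset.card_union_of_disjoint hd, hC.2]
        omega
      · rw [Finset.union_sdiff_right, Finset.sdiff_eq_self_of_disjoint hd]
  · rw [Finset.card_eq_zero, Finset.filter_eq_empty_iff]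
    intro B hB hTB
    rw [Finset.mem_powersetCard] at hB
    have := Finset.card_le_card hTB
    omega

/-- The graph of `G`-adjacent pairs of vertices of degree `n - 3`. -/
def Qg (G : SimpleGraph (Fin n)) : SimpleGraph (Fin n) where
  Adj u v := G.Adj u v ∧ G.degree u + 3 = n ∧ G.degree v + 3 = n
  symm := by
    constructor
    intro u v h
    exact ⟨h.1.symm, h.2.2, h.2.1⟩
  loopless := by
    constructor
    intro u h
    exact h.1.ne rfl

/-- minimum degree at least `n - 3`. -/
structure Good0 (G : SimpleGraph (Fin n)) : Prop where
  hn : 7 ≤ n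
  hdeg : ∀ v, n ≤ G.degree v + 3

/-- the hypotheses under which small cuts are stars or pair cuts. -/
structure Good (G : SimpleGraph (Fin n)) : Prop extends Good0 G where
  hcut : ∀ S : Finset (Fin n), 3 ≤ S.card → S.card + 3 ≤ n → 2 * n ≤ (cut G S).card + 7

lemma cut_pair (G : SimpleGraph (Fin n)) {x y : Fin n} (hxy : x ≠ y) :
    (cut G {x, y}).card + (if G.Adj x y then 2 else 0) = G.degree x + G.degree y := by
  have hx : cut G {x, y} = (cut G {x}).erase s(x, y) ∪ (cut G {y}).erase s(x, y) := by
    ext e
    induction e with
    | h a b =>
      by_cases ha : a ∈ ({x, y} : Finset (Fin n)) <;> by_cases hb : b ∈ ({x, y} : Finset (Fin n))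
      · have h1 := not_mem_cut_of_mem (G := G) ha hb
        simp only [h1, false_iff, Finset.mem_union, Finset.mem_erase, not_or, not_and]
        rw [Finset.mem_insert, Finset.mem_singleton] at ha hb
        rcases ha with rfl | rfl <;> rcases hb with rfl | rfl
        · constructor
          · intro _; exact not_mem_cut_of_mem (Finset.mem_singleton_self _) (Finset.mem_singleton_self _)
          · intro _; exact not_mem_cut_of_not_mem (by simpa using hxy) (by simpa using hxy)
        · simp
        · rw [Sym2.eq_swap]; simp
        · constructor
          · intro _; exact not_mem_cut_of_not_mem (by simpa using hxy.symm) (by simpa using hxy.symm)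
          · intro _; exact not_mem_cut_of_mem (Finset.mem_singleton_self _) (Finset.mem_singleton_self _)
      · rw [mem_cut ha hb]
        have hb1 : b ≠ x := by rintro rfl; simp at hb
        have hb2 : b ≠ y := by rintro rfl; simp at hb
        have hne : s(a, b) ≠ s(x, y) := by
          intro h
          rcases Sym2.eq_iff.1 h with ⟨h1, h2⟩ | ⟨h1, h2⟩
          · exact hb2 h2
          · exact hb1 h2
        simp only [Finset.mem_union, Finset.mem_erase, ne_eq, hne, not_false_iff, true_and]
        rw [Finset.mem_insert, Finset.mem_singleton] at ha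
        rcases ha with rfl | rfl
        · rw [mem_cut (Finset.mem_singleton_self _) (by simpa using hb1)]
          have := not_mem_cut_of_not_mem (G := G) (S := {y}) (x := a) (y := b) (by simpa using hxy)
            (by simpa using hb2)
          simp [this]
        · rw [mem_cut (S := {a}) (Finset.mem_singleton_self _) (by simpa using hb2)]
          have := not_mem_cut_of_not_mem (G := G) (S := {x}) (x := a) (y := b)
            (by simpa using hxy.symm) (by simpa using hb1)
          simp [this]
      · rw [Sym2.eq_swap, mem_cut hb ha]
        have hb1 : a ≠ x := by rintro rfl; simp at ha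
        have hb2 : a ≠ y := by rintro rfl; simp at ha
        have hne : s(b, a) ≠ s(x, y) := by
          intro h
          rcases Sym2.eq_iff.1 h with ⟨h1, h2⟩ | ⟨h1, h2⟩
          · exact hb2 h2
          · exact hb1 h2
        simp only [Finset.mem_union, Finset.mem_erase, ne_eq, hne, not_false_iff, true_and]
        rw [Finset.mem_insert, Finset.mem_singleton] at hb
        rcases hb with rfl | rfl
        · rw [mem_cut (Finset.mem_singleton_self _) (by simpa using hb1)]
          have := not_mem_cut_of_not_mem (G := G) (S := {y}) (x := b) (y := a) (by simpa using hxy)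
            (by simpa using hb2)
          simp [this]
        · rw [mem_cut (S := {b}) (Finset.mem_singleton_self _) (by simpa using hb2)]
          have := not_mem_cut_of_not_mem (G := G) (S := {x}) (x := b) (y := a)
            (by simpa using hxy.symm) (by simpa using hb1)
          simp [this]
      · have h1 := not_mem_cut_of_not_mem (G := G) ha hb
        simp only [h1, false_iff, Finset.mem_union, Finset.mem_erase, not_or, not_and]
        rw [Finset.mem_insert, Finset.mem_singleton, not_or] at ha hb
        constructor
        · intro _; exact not_mem_cut_of_not_mem (by simpa using ha.1) (by simpa using hb.1)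
        · intro _; exact not_mem_cut_of_not_mem (by simpa using ha.2) (by simpa using hb.2)
  have hdisj : Disjoint ((cut G {x}).erase s(x, y)) ((cut G {y}).erase s(x, y)) := by
    rw [Finset.disjoint_left]
    intro e h1 h2
    rw [Finset.mem_erase] at h1 h2
    obtain ⟨h1a, h1b⟩ := h1
    obtain ⟨a, ha, b, hb, rfl, -⟩ := exists_of_mem_cut h1b
    obtain ⟨c, hc, d, hd, h, -⟩ := exists_of_mem_cut h2.2
    rw [Finset.mem_singleton] at ha hc
    subst ha hc
    apply h1a
    rcases Sym2.eq_iff.1 h with ⟨h3, h4⟩ | ⟨h3, h4⟩
    · exact absurd h3 hxy
    · rw [h4]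
  rw [hx, Finset.card_union_of_disjoint hdisj]
  by_cases hG : G.Adj x y
  · have h1 : s(x, y) ∈ cut G {x} := (mem_cut (by simp) (by simpa using hxy.symm)).2 hG
    have h2 : s(x, y) ∈ cut G {y} := by
      rw [Sym2.eq_swap]
      exact (mem_cut (by simp) (by simpa using hxy)).2 hG.symm
    rw [Finset.card_erase_of_mem h1, Finset.card_erase_of_mem h2, cut_singleton, cut_singleton,
      if_pos hG]
    have p1 : 0 < G.degree x := by
      rw [← cut_singleton]; exact Finset.card_pos.2 ⟨_, h1⟩
    have p2 : 0 < G.degree y := by
      rw [← cut_singleton]; exact Finset.card_pos.2 ⟨_, h2⟩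
    omega
  · have h1 : s(x, y) ∉ cut G {x} := by
      rw [mem_cut (by simp) (by simpa using hxy.symm)]; exact hG
    have h2 : s(x, y) ∉ cut G {y} := by
      rw [Sym2.eq_swap, mem_cut (by simp) (by simpa using hxy)]
      intro h; exact hG h.symm
    rw [Finset.erase_eq_of_notMem h1, Finset.erase_eq_of_notMem h2, cut_singleton, cut_singleton,
      if_neg hG]
    rfl

end Pool.Agent.Helper428.UMR
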