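import Mathlib
import Pool.Agent.Helper428.UMRCount

set_option autoImplicit false

namespace Pool.Agent.Helper428.UMR

open Finset
open Classical

variable {n : ℕ}

lemma pair_card_ge {G : SimpleGraph (Fin n)} (hG : Good G) {x y : Fin n} (hxy : x ≠ y) :
    2 * n ≤ (cut G {x, y}).card + 8 := by
  have h := cut_pair G hxy
  have h1 := hG.hdeg x
  have h2 := hG.hdeg y
  split_ifs at h <;> omega

lemma pair_card_eq {G : SimpleGraph (Fin n)} (hG : Good G) {x y : Fin n} (hxy : x ≠ y)
    (h8 : (cut G {x, y}).card + 8 ≤ 2 * n) : (Qg G).Adj x y := by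
  have h := cut_pair G hxy
  have h1 := hG.hdeg x
  have h2 := hG.hdeg y
  have hn := hG.hn
  split_ifs at h with hadj
  · exact ⟨hadj, by omega, by omega⟩
  · omega

lemma pair_card_Q {G : SimpleGraph (Fin n)} {x y : Fin n}
    (h : (Qg G).Adj x y) : (cut G {x, y}).card + 8 = 2 * n := by
  have h0 := cut_pair G h.1.ne
  rw [if_pos h.1] at h0
  have h1 := h.2.1
  have h2 := h.2.2
  omega

/-- the family of `i`-sets containing the star at `v` -/
noncomputable def Av (G : SimpleGraph (Fin n)) (i : ℕ) (v : Fin n) : Finset (Finset (Sym2 (Fin n))) :=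
  (G.edgeFinset.powersetCard i).filter (fun B => cut G {v} ⊆ B)

noncomputable def As (G : SimpleGraph (Fin n)) (i : ℕ) : Finset (Finset (Sym2 (Fin n))) :=
  if i + 8 = 2 * n then (Qg G).edgeFinset.image (fun e => cut G e.toFinset) else ∅

lemma card_Av (G : SimpleGraph (Fin n)) (i : ℕ) (v : Fin n) :
    (Av G i v).card = FF G.edgeFinset.card (G.degree v) i := by
  unfold Av
  have h := card_super G.edgeFinset (cut G {v}) (cut_subset G {v}) i
  rw [cut_singleton] at h
  rw [← h]
  congr

lemma upper {G : SimpleGraph (Fin n)} (hG : Good G) (i : ℕ) (hi : i + 8 ≤ 2 * n) :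
    dis G i ≤ ∑ v, FF G.edgeFinset.card (G.degree v) i +
      (if i + 8 = 2 * n then (Qg G).edgeFinset.card else 0) := by
  have hn := hG.hn
  have hsub : (G.edgeFinset.powersetCard i).filter
    (fun B : Finset (Sym2 (Fin n)) =>
      ¬ (SimpleGraph.fromEdgeSet ((G.edgeFinset \ B : Finset (Sym2 (Fin n))) :
        Set (Sym2 (Fin n)))).Connected) ⊆
      (Finset.univ.biUnion (fun v => Av G i v)) ∪ As G i := by
    intro B hB
    rw [Finset.mem_filter, not_connected_iff (by omega)] at hB
    obtain ⟨hB1, S, hS1, hS2, hS3⟩ := hB
    have hBcard := (Finset.mem_powersetCard.1 hB1).2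
    -- reduce to sets and complements
    have key : ∀ S' : Finset (Fin n), cut G S' ⊆ B → (S'.card = 1 ∨ S'.card = 2) →
        B ∈ (Finset.univ.biUnion (fun v => Av G i v)) ∪ As G i := by
      intro S' hS' hc
      rcases hc with hc | hc
      · obtain ⟨v, rfl⟩ := Finset.card_eq_one.1 hc
        apply Finset.mem_union_left
        rw [Finset.mem_biUnion]
        exact ⟨v, Finset.mem_univ _, Finset.mem_filter.2 ⟨hB1, hS'⟩⟩
      · obtain ⟨x, y, hxy, rfl⟩ := Finset.card_eq_two.1 hc
        have h1 := pair_card_ge hG hxy
        have h2 := Finset.card_le_card hS'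
        have h3 : cut G {x, y} = B := Finset.eq_of_subset_of_card_le hS' (by omega)
        have h4 : i + 8 = 2 * n := by omega
        apply Finset.mem_union_right
        unfold As
        rw [if_pos h4, Finset.mem_image]
        refine ⟨s(x, y), ?_, ?_⟩
        · rw [SimpleGraph.mem_edgeFinset, SimpleGraph.mem_edgeSet]
          exact pair_card_eq hG hxy (by omega)
        · rw [Sym2.toFinset_mk_eq]; exact h3
    have hSc := Finset.card_compl S
    rw [Fintype.card_fin] at hSc
    have hp1 := Finset.card_pos.2 hS1
    have hp2 := Finset.card_pos.2 hS2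
    by_cases h1 : S.card ≤ 2
    · exact key S hS3 (by omega)
    · by_cases h2 : Sᶜ.card ≤ 2
      · exact key Sᶜ (by rw [cut_compl]; exact hS3) (by omega)
      · exfalso
        have h3 := hG.hcut S (by omega) (by omega)
        have h4 := Finset.card_le_card hS3
        omega
  refine (Finset.card_le_card hsub).trans ((Finset.card_union_le _ _).trans ?_)
  apply Nat.add_le_add
  · refine Finset.card_biUnion_le.trans (Finset.sum_le_sum ?_)
    intro v _
    rw [card_Av]
  · unfold As
    split_ifs
    · exact Finset.card_image_le
    · simp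

lemma exists_nbr_avoid (G : SimpleGraph (Fin n)) (v : Fin n) (T : Finset (Fin n))
    (h : T.card < G.degree v) : ∃ w, G.Adj v w ∧ w ∉ T := by
  by_contra hcon
  push Not at hcon
  have : G.neighborFinset v ⊆ T := by
    intro w hw
    rw [SimpleGraph.mem_neighborFinset] at hw
    exact hcon w hw
  have := Finset.card_le_card this
  rw [SimpleGraph.card_neighborFinset_eq_degree] at this
  omega

lemma lower {G : SimpleGraph (Fin n)} (hG : Good0 G) (i : ℕ) (hi : i + 8 ≤ 2 * n) :
    ∑ v, FF G.edgeFinset.card (G.degree v) i +
      (if i + 8 = 2 * n then (Qg G).edgeFinset.card else 0) ≤ dis G i := by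
  have hn := hG.hn
  have hsub : (Finset.univ.biUnion (fun v => Av G i v)) ∪ As G i ⊆
    (G.edgeFinset.powersetCard i).filter
    (fun B : Finset (Sym2 (Fin n)) =>
      ¬ (SimpleGraph.fromEdgeSet ((G.edgeFinset \ B : Finset (Sym2 (Fin n))) :
        Set (Sym2 (Fin n)))).Connected) := by
    intro B hB
    rw [Finset.mem_filter, not_connected_iff (by omega)]
    rw [Finset.mem_union, Finset.mem_biUnion] at hB
    rcases hB with ⟨v, -, hv⟩ | hB
    · unfold Av at hv
      rw [Finset.mem_filter] at hv
      refine ⟨hv.1, {v}, Finset.singleton_nonempty _, ?_, hv.2⟩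
      rw [← Finset.card_pos, Finset.card_compl, Fintype.card_fin, Finset.card_singleton]
      omega
    · unfold As at hB
      split_ifs at hB with h8
      · rw [Finset.mem_image] at hB
        obtain ⟨e, he, rfl⟩ := hB
        induction e with
        | h x y =>
          rw [SimpleGraph.mem_edgeFinset, SimpleGraph.mem_edgeSet] at he
          rw [Sym2.toFinset_mk_eq]
          have := pair_card_Q he
          refine ⟨?_, {x, y}, ⟨x, by simp⟩, ?_, Finset.Subset.refl _⟩
          · rw [Finset.mem_powersetCard]
            exact ⟨cut_subset _ _, by omega⟩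
          · rw [← Finset.card_pos, Finset.card_compl, Fintype.card_fin]
            have := Finset.card_le_two (a := x) (b := y)
            omega
      · simp at hB
  have hinj : Set.InjOn (fun e : Sym2 (Fin n) => cut G e.toFinset) (Qg G).edgeFinset := by
    have aux : ∀ x y x' y' : Fin n, (Qg G).Adj x y → cut G {x, y} = cut G {x', y'} →
        x ∈ ({x', y'} : Finset (Fin n)) := by
      intro x y x' y' hxy hcut
      by_contra hx
      obtain ⟨w, hw1, hw2⟩ := exists_nbr_avoid G x {y, x', y'} (by
        have := Finset.card_le_three (a := y) (b := x') (c := y')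
        have := hG.hdeg x
        omega)
      simp only [Finset.mem_insert, Finset.mem_singleton, not_or] at hw2 hx
      have h1 : s(x, w) ∈ cut G {x, y} := by
        rw [mem_cut (by simp)]
        · exact hw1
        · simp only [Finset.mem_insert, Finset.mem_singleton, not_or]
          exact ⟨hw1.ne', hw2.1⟩
      rw [hcut] at h1
      exact not_mem_cut_of_not_mem (by simp [hx]) (by simp [hw2]) h1
    intro e he f hf hef
    simp only at hef
    induction e with
    | h x y =>
      induction f with
      | h x' y' =>
        rw [Finset.mem_coe, SimpleGraph.mem_edgeFinset, SimpleGraph.mem_edgeSet] at he hf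
        rw [Sym2.toFinset_mk_eq, Sym2.toFinset_mk_eq] at hef
        have h1 := aux x y x' y' he hef
        have h2 := aux y x x' y' he.symm (by rw [Finset.pair_comm]; exact hef)
        simp only [Finset.mem_insert, Finset.mem_singleton] at h1 h2
        have h3 := he.1.ne
        rcases h1 with h1 | h1 <;> rcases h2 with h2 | h2
        · exact absurd (h1.trans h2.symm) h3
        · rw [h1, h2]
        · rw [h1, h2, Sym2.eq_swap]
        · exact absurd (h1.trans h2.symm) h3
  have hdisj1 : ∀ u v : Fin n, u ≠ v → Disjoint (Av G i u) (Av G i v) := by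
    intro u v huv
    rw [Finset.disjoint_left]
    intro B h1 h2
    unfold Av at h1 h2
    rw [Finset.mem_filter, Finset.mem_powersetCard] at h1 h2
    have hun : cut G {u} ∪ cut G {v} ⊆ B := Finset.union_subset h1.2 h2.2
    have h3 := Finset.card_le_card hun
    have h4 := Finset.card_union_add_card_inter (cut G {u}) (cut G {v})
    have h5 : (cut G {u} ∩ cut G {v}).card ≤ 1 := by
      rw [Finset.card_le_one]
      have aux : ∀ e ∈ cut G {u} ∩ cut G {v}, e = s(u, v) := by
        intro e he
        rw [Finset.mem_inter] at he
        obtain ⟨a, ha, b, hb, rfl, -⟩ := exists_of_mem_cut he.1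
        obtain ⟨c, hc, d, hd, h, -⟩ := exists_of_mem_cut he.2
        rw [Finset.mem_singleton] at ha hc
        subst ha hc
        rcases Sym2.eq_iff.1 h with ⟨h3, h4⟩ | ⟨h3, h4⟩
        · exact absurd h3 huv
        · rw [h4]
      intro e he f hf
      rw [aux e he, aux f hf]
    rw [cut_singleton, cut_singleton] at h4
    have := hG.hdeg u
    have := hG.hdeg v
    omega
  have hdisj2 : Disjoint (Finset.univ.biUnion (fun v => Av G i v)) (As G i) := by
    rw [Finset.disjoint_left]
    intro B h1 h2
    rw [Finset.mem_biUnion] at h1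
    obtain ⟨v, -, hv⟩ := h1
    unfold Av at hv
    rw [Finset.mem_filter] at hv
    unfold As at h2
    split_ifs at h2 with h8
    · rw [Finset.mem_image] at h2
      obtain ⟨e, he, rfl⟩ := h2
      induction e with
      | h x y =>
        rw [SimpleGraph.mem_edgeFinset, SimpleGraph.mem_edgeSet] at he
        rw [Sym2.toFinset_mk_eq] at hv
        have hv2 := hv.2
        by_cases hvx : v = x
        · subst hvx
          have h3 : s(v, y) ∈ cut G {v} := (mem_cut (by simp) (by simpa using he.1.ne')).2 he.1
          exact not_mem_cut_of_mem (by simp) (by simp) (hv2 h3)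
        · by_cases hvy : v = y
          · subst hvy
            have h3 : s(v, x) ∈ cut G {v} :=
              (mem_cut (by simp) (by simpa using he.1.ne)).2 he.1.symm
            exact not_mem_cut_of_mem (by simp) (by simp) (hv2 h3)
          · obtain ⟨w, hw1, hw2⟩ := exists_nbr_avoid G v {x, y} (by
              have := Finset.card_le_two (a := x) (b := y)
              have := hG.hdeg v
              omega)
            have h3 : s(v, w) ∈ cut G {v} := (mem_cut (by simp) (by simpa using hw1.ne')).2 hw1
            exact not_mem_cut_of_not_mem (by simp [hvx, hvy]) hw2 (hv2 h3)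
    · simp at h2
  have hcard := Finset.card_le_card hsub
  rw [Finset.card_union_of_disjoint hdisj2, Finset.card_biUnion (by
    intro u _ v _ huv
    exact hdisj1 u v huv)] at hcard
  unfold dis
  refine le_trans ?_ hcard
  apply Nat.add_le_add
  · apply Finset.sum_le_sum
    intro v _
    rw [card_Av]
  · unfold As
    split_ifs
    · rw [Finset.card_image_of_injOn hinj]
    · simp

end Pool.Agent.Helper428.UMR
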