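import Mathlib
import Pool.Agent.Helper428.UMRBlock

set_option autoImplicit false
set_option linter.unusedSimpArgs false

namespace Pool.Agent.Helper428.UMR

open Matrix Finset
open Classical

variable {n : ℕ}

/-- `nI - L_H`. -/
noncomputable def KK (H : SimpleGraph (Fin n)) : Matrix (Fin n) (Fin n) ℝ := fun i j =>
  if i = j then (n : ℝ) - H.degree i else if H.Adj i j then 1 else 0

/-- local configuration: a path `u' u v w w'` of vertices, `u` and `w` of degree two, `v` of degree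
two, and an isolated edge `x y`. -/
structure Conf (H : SimpleGraph (Fin n)) (u v w x y u' w' : Fin n) : Prop where
  hu : ∀ z, H.Adj u z ↔ z = v ∨ z = u'
  hv : ∀ z, H.Adj v z ↔ z = u ∨ z = w
  hw : ∀ z, H.Adj w z ↔ z = v ∨ z = w'
  hx : ∀ z, H.Adj x z ↔ z = y
  hy : ∀ z, H.Adj y z ↔ z = x
  uv : u ≠ v
  uw : u ≠ w
  ux : u ≠ x
  uy : u ≠ y
  vw : v ≠ w
  vx : v ≠ x
  vy : v ≠ y
  wx : w ≠ x
  wy : w ≠ y
  xy : x ≠ y
  u'u : u' ≠ u
  u'v : u' ≠ v
  u'w : u' ≠ w
  u'x : u' ≠ x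
  u'y : u' ≠ y
  w'u : w' ≠ u
  w'v : w' ≠ v
  w'w : w' ≠ w
  w'x : w' ≠ x
  w'y : w' ≠ y

variable {H : SimpleGraph (Fin n)} {u v w x y u' w' : Fin n}

/-- the swapped graph -/
def swapG (H : SimpleGraph (Fin n)) (u w x y u' w' : Fin n) : SimpleGraph (Fin n) :=
  SimpleGraph.fromEdgeSet ((H.edgeSet \ {s(u, u'), s(w, w'), s(x, y)}) ∪
    {s(u, w), s(x, u'), s(y, w')})

lemma indicator_swap {α : Type*} (E : Set α) (e1 e2 e3 f1 f2 f3 : α) (h1 : e1 ∈ E) (h2 : e2 ∈ E)
    (h3 : e3 ∈ E) (h12 : e1 ≠ e2) (h13 : e1 ≠ e3) (h23 : e2 ≠ e3) (k1 : f1 ∉ E) (k2 : f2 ∉ E)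
    (k3 : f3 ∉ E) (k12 : f1 ≠ f2) (k13 : f1 ≠ f3) (k23 : f2 ≠ f3) (e : α) :
    (if e ∈ (E \ {e1, e2, e3}) ∪ {f1, f2, f3} then (1 : ℝ) else 0) =
      (if e ∈ E then 1 else 0) - (if e = e1 then 1 else 0) - (if e = e2 then 1 else 0)
      - (if e = e3 then 1 else 0) + (if e = f1 then 1 else 0) + (if e = f2 then 1 else 0)
      + (if e = f3 then 1 else 0) := by
  have g11 : e1 ≠ f1 := fun h => k1 (h ▸ h1)
  have g12 : e1 ≠ f2 := fun h => k2 (h ▸ h1)
  have g13 : e1 ≠ f3 := fun h => k3 (h ▸ h1)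
  have g21 : e2 ≠ f1 := fun h => k1 (h ▸ h2)
  have g22 : e2 ≠ f2 := fun h => k2 (h ▸ h2)
  have g23 : e2 ≠ f3 := fun h => k3 (h ▸ h2)
  have g31 : e3 ≠ f1 := fun h => k1 (h ▸ h3)
  have g32 : e3 ≠ f2 := fun h => k2 (h ▸ h3)
  have g33 : e3 ≠ f3 := fun h => k3 (h ▸ h3)
  by_cases c1 : e = e1
  · subst c1; simp [h1, h12, h13, g11, g12, g13]
  by_cases c2 : e = e2
  · subst c2; simp [h2, h12.symm, h23, g21, g22, g23, c1]
  by_cases c3 : e = e3
  · subst c3; simp [h3, g31, g32, g33, c1, c2]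
  by_cases d1 : e = f1
  · subst d1; simp [k1, k12, k13, c1, c2, c3]
  by_cases d2 : e = f2
  · subst d2; simp [k2, k23, c1, c2, c3, d1]
  by_cases d3 : e = f3
  · subst d3; simp [k3, c1, c2, c3, d1, d2]
  simp [c1, c2, c3, d1, d2, d3]

lemma sum_ind (i a b : Fin n) (hab : a ≠ b) :
    ∑ j, (if s(i, j) = s(a, b) then (1 : ℝ) else 0) = (if i = a then 1 else 0) +
      (if i = b then 1 else 0) := by
  have : ∀ j, (if s(i, j) = s(a, b) then (1 : ℝ) else 0) =
      (if i = a then (if j = b then 1 else 0) else 0) +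
      (if i = b then (if j = a then 1 else 0) else 0) := by
    intro j
    by_cases h1 : i = a
    · subst h1
      have h3 : i ≠ b := hab
      simp [h3, Sym2.eq_iff]
    · by_cases h2 : i = b
      · subst h2
        simp [h1, Sym2.eq_iff]
      · simp [h1, h2, Sym2.eq_iff]
  rw [Finset.sum_congr rfl (fun j _ => this j), Finset.sum_add_distrib]
  congr 1
  · split_ifs <;> simp
  · split_ifs <;> simp

lemma Conf.adj_swap (C : Conf H u v w x y u' w') (i j : Fin n) (hij : i ≠ j) :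
    (if (swapG H u w x y u' w').Adj i j then (1 : ℝ) else 0) =
      (if H.Adj i j then 1 else 0) - (if s(i, j) = s(u, u') then 1 else 0)
      - (if s(i, j) = s(w, w') then 1 else 0)
      - (if s(i, j) = s(x, y) then 1 else 0) + (if s(i, j) = s(u, w) then 1 else 0)
      + (if s(i, j) = s(x, u') then 1 else 0)
      + (if s(i, j) = s(y, w') then 1 else 0) := by
  have h := indicator_swap H.edgeSet s(u, u') s(w, w') s(x, y) s(u, w) s(x, u') s(y, w')
    ((C.hu u').2 (Or.inr rfl)) ((C.hw w').2 (Or.inr rfl)) ((C.hx y).2 rfl)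
    (by
      intro h
      rcases Sym2.eq_iff.1 h with ⟨h1, h2⟩ | ⟨h1, h2⟩
      · exact C.uw h1
      · exact C.w'u h1.symm)
    (by
      intro h
      rcases Sym2.eq_iff.1 h with ⟨h1, h2⟩ | ⟨h1, h2⟩
      · exact C.ux h1
      · exact C.uy h1)
    (by
      intro h
      rcases Sym2.eq_iff.1 h with ⟨h1, h2⟩ | ⟨h1, h2⟩
      · exact C.wx h1
      · exact C.wy h1)
    (by
      intro h
      rcases (C.hu w).1 h with h1 | h1
      · exact C.vw h1.symm
      · exact C.u'w h1.symm)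
    (by
      intro h
      exact C.u'y ((C.hx u').1 h))
    (by
      intro h
      exact C.w'x ((C.hy w').1 h))
    (by
      intro h
      rcases Sym2.eq_iff.1 h with ⟨h1, h2⟩ | ⟨h1, h2⟩
      · exact C.ux h1
      · exact C.wx h2)
    (by
      intro h
      rcases Sym2.eq_iff.1 h with ⟨h1, h2⟩ | ⟨h1, h2⟩
      · exact C.uy h1
      · exact C.wy h2)
    (by
      intro h
      rcases Sym2.eq_iff.1 h with ⟨h1, h2⟩ | ⟨h1, h2⟩
      · exact C.xy h1
      · exact C.w'x h1.symm) s(i, j)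
  have e1 : (swapG H u w x y u' w').Adj i j ↔ s(i, j) ∈ (H.edgeSet \ {s(u, u'), s(w, w'), s(x, y)}) ∪
      {s(u, w), s(x, u'), s(y, w')} := by
    unfold swapG
    rw [SimpleGraph.fromEdgeSet_adj]
    exact and_iff_left hij
  have e2 : H.Adj i j ↔ s(i, j) ∈ H.edgeSet := Iff.rfl
  simp only [e1, e2]
  convert h

lemma deg_eq_sum (H : SimpleGraph (Fin n)) (i : Fin n) :
    (H.degree i : ℝ) = ∑ j, (if H.Adj i j then (1 : ℝ) else 0) := by
  rw [← SimpleGraph.card_neighborFinset_eq_degree, SimpleGraph.neighborFinset_eq_filter,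
    Finset.card_filter]
  push_cast
  rfl

lemma Conf.deg_swap (C : Conf H u v w x y u' w') (i : Fin n) :
    (swapG H u w x y u' w').degree i = H.degree i := by
  have h : ((swapG H u w x y u' w').degree i : ℝ) = H.degree i := by
    rw [deg_eq_sum, deg_eq_sum]
    have h1 : ∀ j, (if (swapG H u w x y u' w').Adj i j then (1 : ℝ) else 0) =
      (if H.Adj i j then 1 else 0) - (if s(i, j) = s(u, u') then 1 else 0)
      - (if s(i, j) = s(w, w') then 1 else 0)
      - (if s(i, j) = s(x, y) then 1 else 0) + (if s(i, j) = s(u, w) then 1 else 0)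
      + (if s(i, j) = s(x, u') then 1 else 0)
      + (if s(i, j) = s(y, w') then 1 else 0) := by
      intro j
      by_cases hij : i = j
      · subst hij
        have n1 : ∀ a b : Fin n, a ≠ b → s(i, i) ≠ s(a, b) := by
          intro a b hab h
          rcases Sym2.eq_iff.1 h with ⟨h1, h2⟩ | ⟨h1, h2⟩
          · exact hab (h1.symm.trans h2)
          · exact hab (h2.symm.trans h1)
        rw [if_neg (SimpleGraph.irrefl _), if_neg (SimpleGraph.irrefl _), if_neg (n1 _ _ C.u'u.symm),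
          if_neg (n1 _ _ C.w'w.symm), if_neg (n1 _ _ C.xy), if_neg (n1 _ _ C.uw),
          if_neg (n1 _ _ C.u'x.symm), if_neg (n1 _ _ C.w'y.symm)]
        ring
      · exact C.adj_swap i j hij
    rw [Finset.sum_congr rfl (fun j _ => h1 j)]
    rw [Finset.sum_add_distrib, Finset.sum_add_distrib, Finset.sum_add_distrib,
      Finset.sum_sub_distrib, Finset.sum_sub_distrib, Finset.sum_sub_distrib,
      sum_ind i _ _ C.u'u.symm, sum_ind i _ _ C.w'w.symm, sum_ind i _ _ C.xy, sum_ind i _ _ C.uw,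
      sum_ind i _ _ C.u'x.symm, sum_ind i _ _ C.w'y.symm]
    ring
  exact_mod_cast h

lemma Conf.edges_swap (C : Conf H u v w x y u' w') :
    (swapG H u w x y u' w').edgeFinset.card = H.edgeFinset.card := by
  have h1 := (swapG H u w x y u' w').sum_degrees_eq_twice_card_edges
  have h2 := H.sum_degrees_eq_twice_card_edges
  have h3 : ∑ i, (swapG H u w x y u' w').degree i = ∑ i, H.degree i :=
    Finset.sum_congr rfl (fun i _ => C.deg_swap i)
  omega

/-- the special vertices -/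
def spv (u v w x y : Fin n) : Fin 3 ⊕ Fin 2 → Fin n := Sum.elim ![u, v, w] ![x, y]

/-- the remaining vertices -/
abbrev Rest (u v w x y : Fin n) : Type := {z : Fin n // z ≠ u ∧ z ≠ v ∧ z ≠ w ∧ z ≠ x ∧ z ≠ y}

lemma Conf.bij (C : Conf H u v w x y u' w') :
    Function.Bijective (Sum.elim (spv u v w x y) (Subtype.val : Rest u v w x y → Fin n)) := by
  have c1 := C.uv
  have c2 := C.uw
  have c3 := C.ux
  have c4 := C.uy
  have c5 := C.vw
  have c6 := C.vx
  have c7 := C.vy
  have c8 := C.wx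
  have c9 := C.wy
  have c10 := C.xy
  constructor
  · intro a b hab
    rcases a with (a | a) | a <;> rcases b with (b | b) | b
    · fin_cases a <;> fin_cases b <;> simp_all [spv, eq_comm]
    · fin_cases a <;> fin_cases b <;> simp_all [spv, eq_comm]
    · have := b.2
      fin_cases a <;> simp_all [spv, eq_comm]
    · fin_cases a <;> fin_cases b <;> simp_all [spv, eq_comm]
    · fin_cases a <;> fin_cases b <;> simp_all [spv, eq_comm]
    · have := b.2
      fin_cases a <;> simp_all [spv, eq_comm]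
    · have := a.2
      fin_cases b <;> simp_all [spv, eq_comm]
    · have := a.2
      fin_cases b <;> simp_all [spv, eq_comm]
    · simp only [Sum.elim_inr] at hab
      exact congrArg Sum.inr (Subtype.ext hab)
  · intro z
    by_cases h1 : z = u
    · exact ⟨Sum.inl (Sum.inl 0), by simp [spv, h1]⟩
    by_cases h2 : z = v
    · exact ⟨Sum.inl (Sum.inl 1), by simp [spv, h2]⟩
    by_cases h3 : z = w
    · exact ⟨Sum.inl (Sum.inl 2), by simp [spv, h3]⟩
    by_cases h4 : z = x
    · exact ⟨Sum.inl (Sum.inr 0), by simp [spv, h4]⟩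
    by_cases h5 : z = y
    · exact ⟨Sum.inl (Sum.inr 1), by simp [spv, h5]⟩
    exact ⟨Sum.inr ⟨z, h1, h2, h3, h4, h5⟩, rfl⟩

noncomputable def Conf.eqv (C : Conf H u v w x y u' w') :
    (Fin 3 ⊕ Fin 2) ⊕ Rest u v w x y ≃ Fin n := Equiv.ofBijective _ C.bij

end Pool.Agent.Helper428.UMR
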