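import Mathlib
import Pool.Agent.Helper428.UMRSwap

set_option autoImplicit false
set_option linter.unusedSimpArgs false

namespace Pool.Agent.Helper428.UMR

open Matrix Finset
open Classical

variable {n : ℕ}
variable {H : SimpleGraph (Fin n)} {u v w x y u' w' : Fin n}

lemma swap_adj_iff (i j : Fin n) : (swapG H u w x y u' w').Adj i j ↔
    ((H.Adj i j ∧ ¬ (s(i, j) = s(u, u') ∨ s(i, j) = s(w, w') ∨ s(i, j) = s(x, y))) ∨
      (s(i, j) = s(u, w) ∨ s(i, j) = s(x, u') ∨ s(i, j) = s(y, w'))) ∧ i ≠ j := by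
  unfold swapG
  rw [SimpleGraph.fromEdgeSet_adj]
  simp only [Set.mem_union, Set.mem_sdiff, Set.mem_insert_iff, Set.mem_singleton_iff,
    SimpleGraph.mem_edgeSet]

lemma Conf.swap_u (C : Conf H u v w x y u' w') (z : Fin n) :
    (swapG H u w x y u' w').Adj u z ↔ z = v ∨ z = w := by
  rw [swap_adj_iff, C.hu]
  simp only [Sym2.eq_iff]
  have c1 := C.uv
  have c2 := C.uw
  have c3 := C.ux
  have c4 := C.uy
  have c5 := C.vw
  have c6 := C.u'u
  have c7 := C.u'v
  have c8 := C.w'u
  constructor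
  · rintro ⟨(⟨h1, h2⟩ | h1), h3⟩
    · rcases h1 with h1 | h1
      · left; exact h1
      · subst h1
        exfalso
        exact h2 (Or.inl (Or.inl ⟨trivial, rfl⟩))
    · rcases h1 with (h1 | h1) | (h1 | h1) | (h1 | h1)
      · right; exact h1.2
      · exact absurd h1.1 c2
      · exact absurd h1.1 c3
      · exact absurd h1.1.symm c6
      · exact absurd h1.1 c4
      · exact absurd h1.1.symm c8
  · rintro (h | h)
    · subst h
      refine ⟨Or.inl ⟨Or.inl rfl, ?_⟩, c1⟩
      rintro ((h | h) | (h | h) | (h | h))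
      · exact c7 h.2.symm
      · exact c6 h.1.symm
      · exact c2 h.1
      · exact c8 h.1.symm
      · exact c3 h.1
      · exact c4 h.1
    · subst h
      exact ⟨Or.inr (Or.inl (Or.inl ⟨trivial, rfl⟩)), c2⟩

lemma Conf.swap_v (C : Conf H u v w x y u' w') (z : Fin n) :
    (swapG H u w x y u' w').Adj v z ↔ z = u ∨ z = w := by
  rw [swap_adj_iff, C.hv]
  simp only [Sym2.eq_iff]
  have c1 := C.uv
  have c5 := C.vw
  have c6 := C.vx
  have c9 := C.vy
  have c7 := C.u'v
  have c8 := C.w'v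
  constructor
  · rintro ⟨(⟨h1, h2⟩ | h1), h3⟩
    · exact h1
    · exfalso
      rcases h1 with (h1 | h1) | (h1 | h1) | (h1 | h1)
      · exact c1 h1.1.symm
      · exact c5 h1.1
      · exact c6 h1.1
      · exact c7 h1.1.symm
      · exact c9 h1.1
      · exact c8 h1.1.symm
  · intro h
    refine ⟨Or.inl ⟨h, ?_⟩, ?_⟩
    · rintro ((h1 | h1) | (h1 | h1) | (h1 | h1))
      · exact c1 h1.1.symm
      · exact c7 h1.1.symm
      · exact c5 h1.1
      · exact c8 h1.1.symm
      · exact c6 h1.1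
      · exact c9 h1.1
    · rcases h with h | h
      · rw [h]; exact c1.symm
      · rw [h]; exact c5

lemma Conf.swap_w (C : Conf H u v w x y u' w') (z : Fin n) :
    (swapG H u w x y u' w').Adj w z ↔ z = v ∨ z = u := by
  rw [swap_adj_iff, C.hw]
  simp only [Sym2.eq_iff]
  have c1 := C.vw
  have c2 := C.uw
  have c3 := C.wx
  have c4 := C.wy
  have c6 := C.w'w
  have c7 := C.w'v
  have c8 := C.u'w
  constructor
  · rintro ⟨(⟨h1, h2⟩ | h1), h3⟩
    · rcases h1 with h1 | h1
      · left; exact h1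
      · subst h1
        exfalso
        exact h2 (Or.inr (Or.inl (Or.inl ⟨trivial, rfl⟩)))
    · rcases h1 with (h1 | h1) | (h1 | h1) | (h1 | h1)
      · exact absurd h1.1.symm c2
      · right; exact h1.2
      · exact absurd h1.1 c3
      · exact absurd h1.1.symm c8
      · exact absurd h1.1 c4
      · exact absurd h1.1.symm c6
  · rintro (h | h)
    · subst h
      refine ⟨Or.inl ⟨Or.inl rfl, ?_⟩, c1.symm⟩
      rintro ((h | h) | (h | h) | (h | h))
      · exact c2 h.1.symm
      · exact c8 h.1.symm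
      · exact c7 h.2.symm
      · exact c6 h.1.symm
      · exact c3 h.1
      · exact c4 h.1
    · subst h
      exact ⟨Or.inr (Or.inl (Or.inr ⟨trivial, rfl⟩)), c2.symm⟩

lemma Conf.swap_x (C : Conf H u v w x y u' w') (z : Fin n) :
    (swapG H u w x y u' w').Adj x z ↔ z = u' := by
  rw [swap_adj_iff, C.hx]
  simp only [Sym2.eq_iff]
  have c1 := C.xy
  have c2 := C.ux
  have c3 := C.wx
  have c6 := C.u'x
  have c7 := C.w'x
  constructor
  · rintro ⟨(⟨h1, h2⟩ | h1), h3⟩
    · subst h1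
      exfalso
      exact h2 (Or.inr (Or.inr (Or.inl ⟨trivial, rfl⟩)))
    · rcases h1 with (h1 | h1) | (h1 | h1) | (h1 | h1)
      · exact absurd h1.1.symm c2
      · exact absurd h1.1.symm c3
      · exact h1.2
      · exact absurd h1.1.symm c6
      · exact absurd h1.1 c1
      · exact absurd h1.1.symm c7
  · intro h
    subst h
    exact ⟨Or.inr (Or.inr (Or.inl (Or.inl ⟨trivial, rfl⟩))), c6.symm⟩

lemma Conf.swap_y (C : Conf H u v w x y u' w') (z : Fin n) :
    (swapG H u w x y u' w').Adj y z ↔ z = w' := by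
  rw [swap_adj_iff, C.hy]
  simp only [Sym2.eq_iff]
  have c1 := C.xy
  have c2 := C.uy
  have c3 := C.wy
  have c6 := C.u'y
  have c7 := C.w'y
  constructor
  · rintro ⟨(⟨h1, h2⟩ | h1), h3⟩
    · subst h1
      exfalso
      exact h2 (Or.inr (Or.inr (Or.inr ⟨trivial, rfl⟩)))
    · rcases h1 with (h1 | h1) | (h1 | h1) | (h1 | h1)
      · exact absurd h1.1.symm c2
      · exact absurd h1.1.symm c3
      · exact absurd h1.1.symm c1
      · exact absurd h1.1.symm c6
      · exact h1.2
      · exact absurd h1.1.symm c7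
  · intro h
    subst h
    exact ⟨Or.inr (Or.inr (Or.inr (Or.inl ⟨trivial, rfl⟩))), c7.symm⟩

lemma Conf.swap_rest (_C : Conf H u v w x y u' w') (s t : Rest u v w x y) :
    (swapG H u w x y u' w').Adj s.1 t.1 ↔ H.Adj s.1 t.1 := by
  rw [swap_adj_iff]
  simp only [Sym2.eq_iff]
  obtain ⟨s, s1, s2, s3, s4, s5⟩ := s
  obtain ⟨t, t1, t2, t3, t4, t5⟩ := t
  constructor
  · rintro ⟨(⟨h1, h2⟩ | h1), h3⟩
    · exact h1
    · exfalso
      rcases h1 with (h1 | h1) | (h1 | h1) | (h1 | h1)
      · exact s1 h1.1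
      · exact t1 h1.2
      · exact s4 h1.1
      · exact t4 h1.2
      · exact s5 h1.1
      · exact t5 h1.2
  · intro h
    refine ⟨Or.inl ⟨h, ?_⟩, h.ne⟩
    rintro ((h1 | h1) | (h1 | h1) | (h1 | h1))
    · exact s1 h1.1
    · exact t1 h1.2
    · exact s3 h1.1
    · exact t3 h1.2
    · exact s4 h1.1
    · exact t4 h1.2

lemma deg_two_of {K : SimpleGraph (Fin n)} {a b c : Fin n} (hbc : b ≠ c)
    (h : ∀ z, K.Adj a z ↔ z = b ∨ z = c) : K.degree a = 2 := by
  have : K.neighborFinset a = {b, c} := by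
    ext z; rw [SimpleGraph.mem_neighborFinset, h]; simp
  rw [← SimpleGraph.card_neighborFinset_eq_degree, this, Finset.card_pair hbc]

lemma deg_one_of {K : SimpleGraph (Fin n)} {a b : Fin n}
    (h : ∀ z, K.Adj a z ↔ z = b) : K.degree a = 1 := by
  have : K.neighborFinset a = {b} := by
    ext z; rw [SimpleGraph.mem_neighborFinset, h]; simp
  rw [← SimpleGraph.card_neighborFinset_eq_degree, this, Finset.card_singleton]

lemma KK_symm (K : SimpleGraph (Fin n)) (i j : Fin n) : KK K i j = KK K j i := by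
  unfold KK
  by_cases h : i = j
  · subst h; rfl
  · rw [if_neg h, if_neg (Ne.symm h), SimpleGraph.adj_comm]

lemma KK_row {K : SimpleGraph (Fin n)} (i j : Fin n) (hij : i ≠ j) :
    KK K i j = if K.Adj i j then 1 else 0 := by
  unfold KK
  rw [if_neg hij]

lemma KK_diag {K : SimpleGraph (Fin n)} (i : Fin n) : KK K i i = (n : ℝ) - K.degree i := by
  unfold KK
  rw [if_pos rfl]

/-- the matrix of `H` in block form -/
lemma Conf.block1 (C : Conf H u v w x y u' w') :
    (KK H).submatrix C.eqv C.eqv = Matrix.fromBlocks (A1 ((n : ℝ) - 2))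
      (Matrix.of (b1 (T := Rest u v w x y) ⟨u', C.u'u, C.u'v, C.u'w, C.u'x, C.u'y⟩
        ⟨w', C.w'u, C.w'v, C.w'w, C.w'x, C.w'y⟩))
      (Matrix.of (b1 (T := Rest u v w x y) ⟨u', C.u'u, C.u'v, C.u'w, C.u'x, C.u'y⟩
        ⟨w', C.w'u, C.w'v, C.w'w, C.w'x, C.w'y⟩))ᵀ
      ((KK H).submatrix (Subtype.val : Rest u v w x y → Fin n) Subtype.val) := by
  have c1 := C.uv
  have c2 := C.uw
  have c3 := C.ux
  have c4 := C.uy
  have c5 := C.vw
  have c6 := C.vx
  have c7 := C.vy
  have c8 := C.wx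
  have c9 := C.wy
  have c10 := C.xy
  have d1 := C.u'u
  have d2 := C.u'v
  have d3 := C.u'w
  have d4 := C.u'x
  have d5 := C.u'y
  have d6 := C.w'u
  have d7 := C.w'v
  have d8 := C.w'w
  have d9 := C.w'x
  have d10 := C.w'y
  have dg1 : (H.degree u : ℝ) = 2 := by rw [deg_two_of d2.symm C.hu]; norm_num
  have dg2 : (H.degree v : ℝ) = 2 := by rw [deg_two_of c2 C.hv]; norm_num
  have dg3 : (H.degree w : ℝ) = 2 := by rw [deg_two_of d7.symm C.hw]; norm_num
  have dg4 : (H.degree x : ℝ) = 1 := by rw [deg_one_of C.hx]; norm_num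
  have dg5 : (H.degree y : ℝ) = 1 := by rw [deg_one_of C.hy]; norm_num
  have hB : ∀ (i : Fin 3 ⊕ Fin 2) (t : Rest u v w x y), KK H (spv u v w x y i) t.1 =
      b1 (T := Rest u v w x y) ⟨u', C.u'u, C.u'v, C.u'w, C.u'x, C.u'y⟩
        ⟨w', C.w'u, C.w'v, C.w'w, C.w'x, C.w'y⟩ i t := by
    intro i t
    obtain ⟨t, t1, t2, t3, t4, t5⟩ := t
    rcases i with i | i
    · fin_cases i
      · show KK H u t = (Pi.single (M := fun _ => ℝ) _ 1 : Rest u v w x y → ℝ) _
        rw [KK_row u t (Ne.symm t1), C.hu, Pi.single_apply]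
        simp [t2]
      · show KK H v t = 0
        rw [KK_row v t (Ne.symm t2), C.hv]
        simp [t1, t3]
      · show KK H w t = (Pi.single (M := fun _ => ℝ) _ 1 : Rest u v w x y → ℝ) _
        rw [KK_row w t (Ne.symm t3), C.hw, Pi.single_apply]
        simp [t2]
    · fin_cases i
      · show KK H x t = 0
        rw [KK_row x t (Ne.symm t4), C.hx]
        simp [t5]
      · show KK H y t = 0
        rw [KK_row y t (Ne.symm t5), C.hy]
        simp [t4]
  ext i j
  rcases i with i | i <;> rcases j with j | j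
  · show KK H (spv u v w x y i) (spv u v w x y j) = A1 ((n : ℝ) - 2) i j
    have hdiag : ∀ k : Fin n, KK H k k = (n : ℝ) - H.degree k := fun k => KK_diag k
    rcases i with i | i <;> rcases j with j | j
    · fin_cases i <;> fin_cases j
      · simp [spv, A1, hdiag, dg1]
      · simp [spv, A1, KK_row u v c1, C.hu]
      · simp [spv, A1, KK_row u w c2, C.hu, c5.symm, d3.symm]
      · simp [spv, A1, KK_row v u c1.symm, C.hv]
      · simp [spv, A1, hdiag, dg2]
      · simp [spv, A1, KK_row v w c5, C.hv]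
      · simp [spv, A1, KK_row w u c2.symm, C.hw, c1, d6.symm]
      · simp [spv, A1, KK_row w v c5.symm, C.hw]
      · simp [spv, A1, hdiag, dg3]
    · fin_cases i <;> fin_cases j
      · simp [spv, A1, KK_row u x c3, C.hu, c6.symm, d4.symm]
      · simp [spv, A1, KK_row u y c4, C.hu, c7.symm, d5.symm]
      · simp [spv, A1, KK_row v x c6, C.hv, c3.symm, c8.symm]
      · simp [spv, A1, KK_row v y c7, C.hv, c4.symm, c9.symm]
      · simp [spv, A1, KK_row w x c8, C.hw, c6.symm, d9.symm]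
      · simp [spv, A1, KK_row w y c9, C.hw, c7.symm, d10.symm]
    · fin_cases i <;> fin_cases j
      · simp [spv, A1, KK_row x u c3.symm, C.hx, c4]
      · simp [spv, A1, KK_row x v c6.symm, C.hx, c7]
      · simp [spv, A1, KK_row x w c8.symm, C.hx, c9]
      · simp [spv, A1, KK_row y u c4.symm, C.hy, c3]
      · simp [spv, A1, KK_row y v c7.symm, C.hy, c6]
      · simp [spv, A1, KK_row y w c9.symm, C.hy, c8]
    · fin_cases i <;> fin_cases j
      · simp [spv, A1, hdiag, dg4]; ring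
      · simp [spv, A1, KK_row x y c10, C.hx]
      · simp [spv, A1, KK_row y x c10.symm, C.hy]
      · simp [spv, A1, hdiag, dg5]; ring
  · show KK H (spv u v w x y i) j.1 = _
    rw [hB]
    rfl
  · show KK H i.1 (spv u v w x y j) = _
    rw [KK_symm, hB]
    rfl
  · rfl

/-- the matrix of the swapped graph in block form -/
lemma Conf.block2 (C : Conf H u v w x y u' w') :
    (KK (swapG H u w x y u' w')).submatrix C.eqv C.eqv = Matrix.fromBlocks (A2 ((n : ℝ) - 2))
      (Matrix.of (b2 (T := Rest u v w x y) ⟨u', C.u'u, C.u'v, C.u'w, C.u'x, C.u'y⟩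
        ⟨w', C.w'u, C.w'v, C.w'w, C.w'x, C.w'y⟩))
      (Matrix.of (b2 (T := Rest u v w x y) ⟨u', C.u'u, C.u'v, C.u'w, C.u'x, C.u'y⟩
        ⟨w', C.w'u, C.w'v, C.w'w, C.w'x, C.w'y⟩))ᵀ
      ((KK H).submatrix (Subtype.val : Rest u v w x y → Fin n) Subtype.val) := by
  have c1 := C.uv
  have c2 := C.uw
  have c3 := C.ux
  have c4 := C.uy
  have c5 := C.vw
  have c6 := C.vx
  have c7 := C.vy
  have c8 := C.wx
  have c9 := C.wy
  have c10 := C.xy
  have d1 := C.u'u
  have d2 := C.u'v
  have d3 := C.u'w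
  have d4 := C.u'x
  have d5 := C.u'y
  have d6 := C.w'u
  have d7 := C.w'v
  have d8 := C.w'w
  have d9 := C.w'x
  have d10 := C.w'y
  have dg1 : (H.degree u : ℝ) = 2 := by rw [deg_two_of d2.symm C.hu]; norm_num
  have dg2 : (H.degree v : ℝ) = 2 := by rw [deg_two_of c2 C.hv]; norm_num
  have dg3 : (H.degree w : ℝ) = 2 := by rw [deg_two_of d7.symm C.hw]; norm_num
  have dg4 : (H.degree x : ℝ) = 1 := by rw [deg_one_of C.hx]; norm_num
  have dg5 : (H.degree y : ℝ) = 1 := by rw [deg_one_of C.hy]; norm_num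
  have hB : ∀ (i : Fin 3 ⊕ Fin 2) (t : Rest u v w x y),
      KK (swapG H u w x y u' w') (spv u v w x y i) t.1 =
      b2 (T := Rest u v w x y) ⟨u', C.u'u, C.u'v, C.u'w, C.u'x, C.u'y⟩
        ⟨w', C.w'u, C.w'v, C.w'w, C.w'x, C.w'y⟩ i t := by
    intro i t
    obtain ⟨t, t1, t2, t3, t4, t5⟩ := t
    rcases i with i | i
    · fin_cases i
      · show KK (swapG H u w x y u' w') u t = 0
        rw [KK_row u t (Ne.symm t1), C.swap_u]
        simp [t2, t3]
      · show KK (swapG H u w x y u' w') v t = 0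
        rw [KK_row v t (Ne.symm t2), C.swap_v]
        simp [t1, t3]
      · show KK (swapG H u w x y u' w') w t = 0
        rw [KK_row w t (Ne.symm t3), C.swap_w]
        simp [t2, t1]
    · fin_cases i
      · show KK (swapG H u w x y u' w') x t = (Pi.single (M := fun _ => ℝ) _ 1 : Rest u v w x y → ℝ) _
        rw [KK_row x t (Ne.symm t4), C.swap_x, Pi.single_apply]
        simp
      · show KK (swapG H u w x y u' w') y t = (Pi.single (M := fun _ => ℝ) _ 1 : Rest u v w x y → ℝ) _
        rw [KK_row y t (Ne.symm t5), C.swap_y, Pi.single_apply]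
        simp
  ext i j
  rcases i with i | i <;> rcases j with j | j
  · show KK (swapG H u w x y u' w') (spv u v w x y i) (spv u v w x y j) = A2 ((n : ℝ) - 2) i j
    have hdiag : ∀ k : Fin n, KK (swapG H u w x y u' w') k k = (n : ℝ) - H.degree k := fun k => by
      rw [KK_diag k, C.deg_swap]
    rcases i with i | i <;> rcases j with j | j
    · fin_cases i <;> fin_cases j
      · simp [spv, A2, hdiag, dg1]
      · simp [spv, A2, KK_row u v c1, C.swap_u]
      · simp [spv, A2, KK_row u w c2, C.swap_u]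
      · simp [spv, A2, KK_row v u c1.symm, C.swap_v]
      · simp [spv, A2, hdiag, dg2]
      · simp [spv, A2, KK_row v w c5, C.swap_v]
      · simp [spv, A2, KK_row w u c2.symm, C.swap_w]
      · simp [spv, A2, KK_row w v c5.symm, C.swap_w]
      · simp [spv, A2, hdiag, dg3]
    · fin_cases i <;> fin_cases j
      · simp [spv, A2, KK_row u x c3, C.swap_u, c6.symm, c8.symm]
      · simp [spv, A2, KK_row u y c4, C.swap_u, c7.symm, c9.symm]
      · simp [spv, A2, KK_row v x c6, C.swap_v, c3.symm, c8.symm]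
      · simp [spv, A2, KK_row v y c7, C.swap_v, c4.symm, c9.symm]
      · simp [spv, A2, KK_row w x c8, C.swap_w, c6.symm, c3.symm]
      · simp [spv, A2, KK_row w y c9, C.swap_w, c7.symm, c4.symm]
    · fin_cases i <;> fin_cases j
      · simp [spv, A2, KK_row x u c3.symm, C.swap_x, d1.symm]
      · simp [spv, A2, KK_row x v c6.symm, C.swap_x, d2.symm]
      · simp [spv, A2, KK_row x w c8.symm, C.swap_x, d3.symm]
      · simp [spv, A2, KK_row y u c4.symm, C.swap_y, d6.symm]
      · simp [spv, A2, KK_row y v c7.symm, C.swap_y, d7.symm]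
      · simp [spv, A2, KK_row y w c9.symm, C.swap_y, d8.symm]
    · fin_cases i <;> fin_cases j
      · simp [spv, A2, hdiag, dg4]; ring
      · simp [spv, A2, KK_row x y c10, C.swap_x, d5.symm]
      · simp [spv, A2, KK_row y x c10.symm, C.swap_y, d9.symm]
      · simp [spv, A2, hdiag, dg5]; ring
  · show KK (swapG H u w x y u' w') (spv u v w x y i) j.1 = _
    rw [hB]
    rfl
  · show KK (swapG H u w x y u' w') i.1 (spv u v w x y j) = _
    rw [KK_symm, hB]
    rfl
  · show KK (swapG H u w x y u' w') i.1 j.1 = KK H i.1 j.1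
    by_cases hij : i.1 = j.1
    · rw [hij, KK_diag, KK_diag, C.deg_swap]
    · rw [KK_row _ _ hij, KK_row _ _ hij]
      simp only [C.swap_rest]

/-- positivity of `nI - L_H` when `H` has maximum degree at most two and `5 ≤ n`. -/
lemma KK_pos (hn : 5 ≤ n) (hd : ∀ v, H.degree v ≤ 2) (z : Fin n → ℝ) :
    z ⬝ᵥ z ≤ z ⬝ᵥ ((KK H) *ᵥ z) := by
  have h1 : z ⬝ᵥ ((KK H) *ᵥ z) = ∑ i, ((n : ℝ) - H.degree i) * z i ^ 2 +
      ∑ i, ∑ j, (if H.Adj i j then (1 : ℝ) else 0) * (z i * z j) := by
    rw [← Finset.sum_add_distrib]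
    unfold dotProduct
    apply Finset.sum_congr rfl
    intro i _
    unfold Matrix.mulVec
    unfold dotProduct
    rw [Finset.mul_sum]
    have : ∀ j, z i * (KK H i j * z j) = (if i = j then ((n : ℝ) - H.degree i) * z i ^ 2 else 0) +
        (if H.Adj i j then (1 : ℝ) else 0) * (z i * z j) := by
      intro j
      by_cases hij : i = j
      · subst hij
        rw [KK_diag]
        simp
        ring
      · rw [KK_row _ _ hij]
        simp [hij]
    rw [Finset.sum_congr rfl (fun j _ => this j), Finset.sum_add_distrib]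
    simp
  have h2 : ∑ i, ∑ j, (if H.Adj i j then (1 : ℝ) else 0) * (z i * z j) ≥
      - ∑ i, (H.degree i : ℝ) * z i ^ 2 := by
    have e1 : ∑ i, (H.degree i : ℝ) * z i ^ 2 =
        ∑ i, ∑ j, (if H.Adj i j then (1 : ℝ) else 0) * z i ^ 2 := by
      apply Finset.sum_congr rfl
      intro i _
      rw [deg_eq_sum, Finset.sum_mul]
    have e2 : ∑ i, ∑ j, (if H.Adj i j then (1 : ℝ) else 0) * z i ^ 2 =
        ∑ i, ∑ j, (if H.Adj i j then (1 : ℝ) else 0) * z j ^ 2 := by
      rw [Finset.sum_comm]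
      apply Finset.sum_congr rfl
      intro i _
      apply Finset.sum_congr rfl
      intro j _
      rw [SimpleGraph.adj_comm]
    have e3 : 0 ≤ ∑ i, ∑ j, (if H.Adj i j then (1 : ℝ) else 0) * (z i + z j) ^ 2 := by
      apply Finset.sum_nonneg
      intro i _
      apply Finset.sum_nonneg
      intro j _
      split_ifs
      · rw [one_mul]; positivity
      · simp
    have e4 : ∑ i, ∑ j, (if H.Adj i j then (1 : ℝ) else 0) * (z i + z j) ^ 2 =
        ∑ i, ∑ j, (if H.Adj i j then (1 : ℝ) else 0) * z i ^ 2 +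
        ∑ i, ∑ j, (if H.Adj i j then (1 : ℝ) else 0) * z j ^ 2 +
        2 * ∑ i, ∑ j, (if H.Adj i j then (1 : ℝ) else 0) * (z i * z j) := by
      rw [Finset.mul_sum, ← Finset.sum_add_distrib, ← Finset.sum_add_distrib]
      apply Finset.sum_congr rfl
      intro i _
      rw [Finset.mul_sum, ← Finset.sum_add_distrib, ← Finset.sum_add_distrib]
      apply Finset.sum_congr rfl
      intro j _
      ring
    rw [e4, ← e2, ← e1] at e3
    linarith
  rw [h1]
  have h3 : ∑ i, ((n : ℝ) - H.degree i) * z i ^ 2 - ∑ i, (H.degree i : ℝ) * z i ^ 2 ≥ z ⬝ᵥ z := by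
    unfold dotProduct
    rw [← Finset.sum_sub_distrib]
    apply Finset.sum_le_sum
    intro i _
    have hn' : (5 : ℝ) ≤ n := by exact_mod_cast hn
    have hd' : (H.degree i : ℝ) ≤ 2 := by exact_mod_cast hd i
    nlinarith [sq_nonneg (z i)]
  linarith

/-- **The swap increases the determinant.** -/
theorem Conf.det_lt (C : Conf H u v w x y u' w') (hn : 5 ≤ n) (hd : ∀ v, H.degree v ≤ 2) :
    (KK H).det < (KK (swapG H u w x y u' w')).det := by
  rw [← Matrix.det_submatrix_equiv_self C.eqv (KK H),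
    ← Matrix.det_submatrix_equiv_self C.eqv (KK (swapG H u w x y u' w')), C.block1, C.block2]
  apply Pool.Agent.Helper428.UMR.det_lt
  · ext s t
    rw [Matrix.transpose_apply, Matrix.submatrix_apply, Matrix.submatrix_apply, KK_symm]
  · intro z
    obtain ⟨zf, hzf1, hzf2⟩ : ∃ zf : Fin n → ℝ, (∀ t : Rest u v w x y, zf t.1 = z t) ∧
        ∀ i, ¬ (i ≠ u ∧ i ≠ v ∧ i ≠ w ∧ i ≠ x ∧ i ≠ y) → zf i = 0 := by
      refine ⟨fun i => if h : (i ≠ u ∧ i ≠ v ∧ i ≠ w ∧ i ≠ x ∧ i ≠ y) then z ⟨i, h⟩ else 0, ?_, ?_⟩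
      · intro t
        exact dif_pos t.2
      · intro i hi
        exact dif_neg hi
    have key : ∀ f : Fin n → ℝ, (∀ i, ¬ (i ≠ u ∧ i ≠ v ∧ i ≠ w ∧ i ≠ x ∧ i ≠ y) → f i = 0) →
        ∑ i, f i = ∑ t : Rest u v w x y, f t.1 := by
      intro f hf
      rw [← Fintype.sum_subtype_add_sum_subtype
        (fun i => (i ≠ u ∧ i ≠ v ∧ i ≠ w ∧ i ≠ x ∧ i ≠ y)) f]
      have : ∑ i : {x_1 // ¬ (x_1 ≠ u ∧ x_1 ≠ v ∧ x_1 ≠ w ∧ x_1 ≠ x ∧ x_1 ≠ y)}, f i = 0 := by
        apply Finset.sum_eq_zero
        intro i _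
        exact hf i.1 i.2
      rw [this, add_zero]
    have h := KK_pos (H := H) hn hd zf
    unfold dotProduct Matrix.mulVec dotProduct at h
    unfold dotProduct Matrix.mulVec dotProduct
    rw [key _ (fun i hi => by rw [hzf2 i hi, mul_zero]),
      key _ (fun i hi => by rw [hzf2 i hi, zero_mul])] at h
    have h5 : ∀ t : Rest u v w x y, zf t.1 * ∑ j, KK H t.1 j * zf j =
        z t * ∑ s : Rest u v w x y, (KK H).submatrix Subtype.val Subtype.val t s * z s := by
      intro t
      rw [hzf1 t, key _ (fun i hi => by rw [hzf2 i hi, mul_zero])]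
      congr 1
      apply Finset.sum_congr rfl
      intro s _
      rw [hzf1 s]
      rfl
    rw [Finset.sum_congr rfl (fun t _ => h5 t)] at h
    rw [Finset.sum_congr rfl (fun t _ => by rw [hzf1 t] : ∀ t ∈ Finset.univ,
      zf (t : Rest u v w x y).1 * zf t.1 = z t * z t)] at h
    exact h
  · have : (5 : ℝ) ≤ n := by exact_mod_cast hn
    linarith

end Pool.Agent.Helper428.UMR
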