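import Mathlib
import Pool.Agent.Helper428.UMRBounds

set_option autoImplicit false

namespace Pool.Agent.Helper428.UMR

open Finset
open Classical

variable {n : ℕ}

/-- a cycle of length `a` together with a perfect matching on the remaining vertices. -/
lemma competitor (n a : ℕ) (ha : 3 ≤ a) (han : a ≤ n) (hpar : 2 ∣ n - a) :
    ∃ H : SimpleGraph (Fin n), (∀ v : Fin n, v.val < a → H.degree v = 2) ∧
      (∀ v : Fin n, a ≤ v.val → H.degree v = 1) ∧
      (∀ u v : Fin n, H.Adj u v → (u.val < a ↔ v.val < a)) ∧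
      (∀ u v : Fin n, u.val + 1 = v.val → v.val < a → H.Adj u v) ∧
      (∀ u v : Fin n, u.val = 0 → v.val + 1 = a → H.Adj u v) := by
  obtain ⟨H, hadj⟩ : ∃ H : SimpleGraph (Fin n), ∀ i j, H.Adj i j ↔ (i ≠ j ∧
      ((i.val < a ∧ j.val < a ∧ (i.val + 1 = j.val ∨
      j.val + 1 = i.val ∨ (i.val = 0 ∧ j.val + 1 = a) ∨ (j.val = 0 ∧ i.val + 1 = a))) ∨
        (a ≤ i.val ∧ a ≤ j.val ∧ (i.val - a) / 2 = (j.val - a) / 2))) := by
    refine ⟨
    { Adj := fun i j => i ≠ j ∧ ((i.val < a ∧ j.val < a ∧ (i.val + 1 = j.val ∨ j.val + 1 = i.val ∨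
        (i.val = 0 ∧ j.val + 1 = a) ∨ (j.val = 0 ∧ i.val + 1 = a))) ∨
        (a ≤ i.val ∧ a ≤ j.val ∧ (i.val - a) / 2 = (j.val - a) / 2))
      symm := ?_
      loopless := ?_ }, fun i j => Iff.rfl⟩
    · constructor
      intro i j h
      refine ⟨h.1.symm, ?_⟩
      rcases h.2 with h | h
      · left
        refine ⟨h.2.1, h.1, ?_⟩
        omega
      · right
        exact ⟨h.2.1, h.1, h.2.2.symm⟩
    · constructor
      intro i h
      exact h.1 rfl
  refine ⟨H, ?_, ?_, ?_, ?_, ?_⟩
  · intro v hv
    obtain ⟨s, hs⟩ : ∃ s : Fin n, s.val = if v.val + 1 = a then 0 else v.val + 1 :=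
      ⟨⟨if v.val + 1 = a then 0 else v.val + 1, by split_ifs <;> omega⟩, rfl⟩
    obtain ⟨p, hp⟩ : ∃ p : Fin n, p.val = if v.val = 0 then a - 1 else v.val - 1 :=
      ⟨⟨if v.val = 0 then a - 1 else v.val - 1, by split_ifs <;> omega⟩, rfl⟩
    have hset : H.neighborFinset v = {s, p} := by
      ext w
      rw [SimpleGraph.mem_neighborFinset, hadj, Finset.mem_insert, Finset.mem_singleton,
        Fin.ext_iff, Fin.ext_iff, hs, hp, ne_eq, Fin.ext_iff]
      split_ifs <;> omega
    have hne : s ≠ p := by
      rw [ne_eq, Fin.ext_iff, hs, hp]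
      split_ifs <;> omega
    rw [← SimpleGraph.card_neighborFinset_eq_degree, hset, Finset.card_pair hne]
  · intro v hv
    obtain ⟨s, hs⟩ : ∃ s : Fin n, s.val = if (v.val - a) % 2 = 0 then v.val + 1 else v.val - 1 :=
      ⟨⟨if (v.val - a) % 2 = 0 then v.val + 1 else v.val - 1, by split_ifs <;> omega⟩, rfl⟩
    have hset : H.neighborFinset v = {s} := by
      ext w
      rw [SimpleGraph.mem_neighborFinset, hadj, Finset.mem_singleton,
        Fin.ext_iff, hs, ne_eq, Fin.ext_iff]
      split_ifs <;> omega
    rw [← SimpleGraph.card_neighborFinset_eq_degree, hset, Finset.card_singleton]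
  · intro u v huv
    rw [hadj] at huv
    omega
  · intro u v huv hv
    rw [hadj, ne_eq, Fin.ext_iff]
    omega
  · intro u v huv hv
    rw [hadj, ne_eq, Fin.ext_iff]
    omega

lemma deg_add {G H : SimpleGraph (Fin n)} (hH : ∀ u v, H.Adj u v ↔ u ≠ v ∧ ¬ G.Adj u v)
    (v : Fin n) : G.degree v + H.degree v + 1 = n := by
  have h := cut_add hH {v}
  rw [cut_singleton, cut_singleton, Finset.card_singleton, one_mul] at h
  have := v.isLt
  omega

lemma edges_add {G H : SimpleGraph (Fin n)} (hH : ∀ u v, H.Adj u v ↔ u ≠ v ∧ ¬ G.Adj u v) :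
    2 * G.edgeFinset.card + 2 * H.edgeFinset.card + n = n * n := by
  rw [← SimpleGraph.sum_degrees_eq_twice_card_edges, ← SimpleGraph.sum_degrees_eq_twice_card_edges,
    ← Finset.sum_add_distrib]
  have h1 : ∑ v : Fin n, (G.degree v + H.degree v + 1) = ∑ v : Fin n, n :=
    Finset.sum_congr rfl (fun v _ => deg_add hH v)
  rw [Finset.sum_add_distrib] at h1
  simp at h1
  exact h1

lemma good_of {G H : SimpleGraph (Fin n)} (hH : ∀ u v, H.Adj u v ↔ u ≠ v ∧ ¬ G.Adj u v)
    (hn : 7 ≤ n) (he : H.edgeFinset.card + 2 ≤ n ∨ (8 ≤ n ∧ H.edgeFinset.card + 1 ≤ n))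
    (hd : ∀ v, H.degree v ≤ 2) : Good G where
  hn := hn
  hdeg v := by
    have := deg_add hH v
    have := hd v
    omega
  hcut S h3 h3' := by
    have h1 := cut_add hH S
    have h2 : (cut H S).card ≤ H.edgeFinset.card := Finset.card_le_card (cut_subset H S)
    have h4 : (cut H S).card ≤ 2 * S.card := by
      refine (cut_le_deg H S).trans ?_
      refine (Finset.sum_le_sum (fun v _ => hd v)).trans ?_
      simp [mul_comm]
    have h5 : (cut H S).card ≤ 2 * (n - S.card) := by
      rw [← cut_compl]
      refine (cut_le_deg H Sᶜ).trans ?_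
      refine (Finset.sum_le_sum (fun v _ => hd v)).trans ?_
      simp [mul_comm, Finset.card_compl]
    obtain ⟨s, hs⟩ : ∃ s, s = S.card := ⟨_, rfl⟩
    rw [← hs] at h1 h3 h3' h4 h5
    obtain ⟨t, ht⟩ : ∃ t, n = s + t := ⟨n - s, by omega⟩
    have ht2 : n - s = t := by omega
    rw [ht2] at h1 h5
    have ht3 : 3 ≤ t := by omega
    rcases he with he | ⟨hn8, he⟩
    · obtain ⟨s', rfl⟩ : ∃ s', s = s' + 3 := ⟨s - 3, by omega⟩
      obtain ⟨t', rfl⟩ : ∃ t', t = t' + 3 := ⟨t - 3, by omega⟩
      have : 3 * s' + 3 * t' + 9 ≤ (s' + 3) * (t' + 3) := by nlinarith [Nat.zero_le (s' * t')]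
      omega
    · rcases Nat.eq_or_lt_of_le h3 with h | h
      · subst h
        omega
      · rcases Nat.eq_or_lt_of_le ht3 with h' | h'
        · subst h'
          omega
        · obtain ⟨s', rfl⟩ : ∃ s', s = s' + 4 := ⟨s - 4, by omega⟩
          obtain ⟨t', rfl⟩ : ∃ t', t = t' + 4 := ⟨t - 4, by omega⟩
          have : 4 * s' + 4 * t' + 16 ≤ (s' + 4) * (t' + 4) := by nlinarith [Nat.zero_le (s' * t')]
          omega

lemma good0_of {G H : SimpleGraph (Fin n)} (hH : ∀ u v, H.Adj u v ↔ u ≠ v ∧ ¬ G.Adj u v)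
    (hn : 7 ≤ n) (hd : ∀ v, H.degree v ≤ 2) : Good0 G where
  hn := hn
  hdeg v := by
    have := deg_add hH v
    have := hd v
    omega

/-- the case `n = 7` with six missing edges containing a five-cycle. -/
lemma good_seven {G H : SimpleGraph (Fin n)} (hH : ∀ u v, H.Adj u v ↔ u ≠ v ∧ ¬ G.Adj u v)
    (hn : n = 7) (he : H.edgeFinset.card = 6)
    (hd : ∀ v, H.degree v ≤ 2) (h1 : ∀ u v : Fin n, u.val + 1 = v.val → v.val < 5 → H.Adj u v)
    (h2 : ∀ u v : Fin n, u.val = 0 → v.val + 1 = 5 → H.Adj u v) : Good G where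
  hn := by omega
  hdeg := (good0_of hH (by omega) hd).hdeg
  hcut S h3 h3' := by
    subst hn
    have h4 := cut_add hH S
    have h5 : (cut H S).card ≤ H.edgeFinset.card := Finset.card_le_card (cut_subset H S)
    have h6 : (cut H S).card ≠ 6 := by
      intro h6
      have heq : cut H S = H.edgeFinset := Finset.eq_of_subset_of_card_le (cut_subset H S)
        (by omega)
      have hx : ∀ u v : Fin 7, H.Adj u v → (u ∈ S ↔ v ∉ S) := by
        intro u v huv
        have hm : s(u, v) ∈ cut H S := by
          rw [heq, SimpleGraph.mem_edgeFinset, SimpleGraph.mem_edgeSet]; exact huv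
        by_cases hu : u ∈ S <;> by_cases hv : v ∈ S
        · exact absurd hm (not_mem_cut_of_mem hu hv)
        · simp [hu, hv]
        · simp [hu, hv]
        · exact absurd hm (not_mem_cut_of_not_mem hu hv)
      have a1 := hx 0 1 (h1 0 1 rfl (by norm_num))
      have a2 := hx 1 2 (h1 1 2 rfl (by norm_num))
      have a3 := hx 2 3 (h1 2 3 rfl (by norm_num))
      have a4 := hx 3 4 (h1 3 4 rfl (by norm_num))
      have a5 := hx 0 4 (h2 0 4 rfl rfl)
      tauto
    have h7 : S.card = 3 ∨ S.card = 4 := by omega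
    rcases h7 with h7 | h7 <;> rw [h7] at h4 <;> omega

lemma FF_zero {m δ i : ℕ} (h : i < δ) : FF m δ i = 0 := by
  unfold FF
  rw [if_neg (by omega)]

lemma FF_self (m δ : ℕ) : FF m δ δ = 1 := by
  unfold FF
  rw [if_pos le_rfl]
  simp

/-- **Structure near `p = 1`.** -/
theorem structure_near_one {G H : SimpleGraph (Fin n)}
    (hH : ∀ u v, H.Adj u v ↔ u ≠ v ∧ ¬ G.Adj u v)
    (hU : IsUMR G) (a : ℕ) (ha : 3 ≤ a) (hedge : 2 * H.edgeFinset.card = n + a)
    (hn : 7 ≤ n) (he : H.edgeFinset.card + 2 ≤ n ∨ (8 ≤ n ∧ H.edgeFinset.card + 1 ≤ n) ∨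
      (n = 7 ∧ a = 5)) :
    (∀ v, H.degree v = 1 ∨ H.degree v = 2) ∧
    (Finset.univ.filter (fun v => H.degree v = 2)).card = a ∧
    (∀ u v, H.Adj u v → H.degree u = 2 → H.degree v = 2) := by
  have han : a + 2 ≤ n := by omega
  -- the competitor
  obtain ⟨H', hH'1, hH'2, hH'3, hH'4, hH'5⟩ := competitor n a ha (by omega) (by omega)
  obtain ⟨G', hG'⟩ : ∃ G' : SimpleGraph (Fin n), G' = H'ᶜ := ⟨_, rfl⟩
  have hc' : ∀ u v, H'.Adj u v ↔ u ≠ v ∧ ¬ G'.Adj u v := by
    intro u v
    rw [hG', SimpleGraph.compl_adj]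
    constructor
    · intro h; exact ⟨h.ne, fun h2 => h2.2 h⟩
    · rintro ⟨h1, h2⟩
      by_contra h3
      exact h2 ⟨h1, h3⟩
  have hd' : ∀ v, H'.degree v ≤ 2 := by
    intro v
    rcases lt_or_ge v.val a with h | h
    · rw [hH'1 v h]
    · rw [hH'2 v h]; norm_num
  have hcount : (Finset.univ.filter (fun v : Fin n => v.val < a)).card = a := by
    have : (Finset.univ.filter (fun v : Fin n => v.val < a)) =
        (Finset.univ.filter (fun v : Fin n => v < ⟨a, by omega⟩)) := by
      ext v; simp [Fin.lt_def]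
    rw [this, Finset.filter_gt_eq_Iio, Fin.card_Iio]
  have hsumv : ∀ f : Fin n → ℕ, ∑ v, f v = ∑ v ∈ Finset.univ.filter (fun v : Fin n => v.val < a), f v
      + ∑ v ∈ Finset.univ.filter (fun v : Fin n => ¬ v.val < a), f v := fun f =>
    (Finset.sum_filter_add_sum_filter_not _ _ _).symm
  have hcount2 : (Finset.univ.filter (fun v : Fin n => ¬ v.val < a)).card = n - a := by
    have := Finset.card_filter_add_card_filter_not (s := (Finset.univ : Finset (Fin n)))
      (fun v : Fin n => v.val < a)
    rw [hcount, Finset.card_univ, Fintype.card_fin] at this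
    omega
  have hsum' : ∀ g : ℕ → ℕ, ∑ v, g (H'.degree v) = a * g 2 + (n - a) * g 1 := by
    intro g
    rw [hsumv]
    have e1 : ∑ v ∈ Finset.univ.filter (fun v : Fin n => v.val < a), g (H'.degree v) =
        ∑ v ∈ Finset.univ.filter (fun v : Fin n => v.val < a), g 2 := by
      apply Finset.sum_congr rfl
      intro v hv
      rw [hH'1 v (Finset.mem_filter.1 hv).2]
    have e2 : ∑ v ∈ Finset.univ.filter (fun v : Fin n => ¬ v.val < a), g (H'.degree v) =
        ∑ v ∈ Finset.univ.filter (fun v : Fin n => ¬ v.val < a), g 1 := by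
      apply Finset.sum_congr rfl
      intro v hv
      rw [hH'2 v (not_lt.1 (Finset.mem_filter.1 hv).2)]
    rw [e1, e2, Finset.sum_const, Finset.sum_const, hcount, hcount2, smul_eq_mul, smul_eq_mul]
  have hedge' : 2 * H'.edgeFinset.card = n + a := by
    rw [← SimpleGraph.sum_degrees_eq_twice_card_edges]
    rw [hsum' (fun x => x)]
    omega
  have hm : G'.edgeFinset.card = G.edgeFinset.card := by
    have h1 := edges_add hH
    have h2 := edges_add hc'
    omega
  have hgood' : Good G' := by
    rcases he with he | he | ⟨he1, he2⟩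
    · exact good_of hc' hn (by omega) hd'
    · exact good_of hc' hn (by omega) hd'
    · subst he2
      exact good_seven hc' he1 (by omega) hd' hH'4 hH'5
  obtain ⟨m, hmdef⟩ : ∃ m, m = G.edgeFinset.card := ⟨_, rfl⟩
  have hdegG' : ∀ v, G'.degree v = n - 1 - H'.degree v := by
    intro v
    have := deg_add hc' v
    omega
  have hdegG : ∀ v, G.degree v = n - 1 - H.degree v := by
    intro v
    have := deg_add hH v
    omega
  have hdis0 : ∀ j < n - 3, dis G' j = 0 := by
    intro j hj
    have h1 := upper hgood' j (by omega)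
    rw [if_neg (by omega), add_zero] at h1
    have h2 : ∑ v, FF G'.edgeFinset.card (G'.degree v) j = 0 := by
      apply Finset.sum_eq_zero
      intro v _
      apply FF_zero
      have := hd' v
      have := hdegG' v
      omega
    omega
  -- Step 1
  have hd : ∀ v, H.degree v ≤ 2 := by
    intro v
    by_contra hcon
    push Not at hcon
    have h1 := hdegG v
    have h2 := umr_dis hU hm (G.degree v) (by
      intro j hj
      rw [hdis0 j (by omega)]
      exact Nat.zero_le _)
    have hlt := deg_add hH v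
    rw [hdis0 (G.degree v) (by omega)] at h2
    have h3 : 0 < dis G (G.degree v) := by
      unfold dis
      rw [Finset.card_pos]
      refine ⟨cut G {v}, ?_⟩
      rw [Finset.mem_filter, not_connected_iff (by omega), Finset.mem_powersetCard]
      refine ⟨⟨cut_subset _ _, cut_singleton _ _⟩, {v}, Finset.singleton_nonempty _, ?_,
        Finset.Subset.refl _⟩
      rw [← Finset.card_pos, Finset.card_compl, Fintype.card_fin, Finset.card_singleton]
      omega
    omega
  have hgood : Good0 G := good0_of hH hn hd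
  -- Step 2
  have hstep2 : (Finset.univ.filter (fun v => H.degree v = 2)).card ≤ a := by
    have h1 := umr_dis hU hm (n - 3) (by
      intro j hj
      rw [hdis0 j hj]
      exact Nat.zero_le _)
    have h2 := lower hgood (n - 3) (by omega)
    have h3 := upper hgood' (n - 3) (by omega)
    rw [if_neg (by omega), add_zero] at h2 h3
    have h4 : ∑ v, FF G'.edgeFinset.card (G'.degree v) (n - 3) =
        ∑ v, FF m (n - 1 - H'.degree v) (n - 3) := by
      apply Finset.sum_congr rfl
      intro v _
      rw [hdegG' v, hm, hmdef]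
    have h4' := hsum' (fun x => FF m (n - 1 - x) (n - 3))
    rw [h4, h4'] at h3
    have e1 : n - 1 - 2 = n - 3 := by omega
    rw [e1, FF_self, FF_zero (by omega : n - 3 < n - 1 - 1), mul_one, mul_zero, add_zero] at h3
    have h5 : (Finset.univ.filter (fun v => H.degree v = 2)).card ≤
        ∑ v, FF G.edgeFinset.card (G.degree v) (n - 3) := by
      rw [Finset.card_filter]
      apply Finset.sum_le_sum
      intro v _
      split_ifs with h
      · rw [hdegG v, h, e1, FF_self]
      · exact Nat.zero_le _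
    omega
  -- Step 3
  have hpt : ∀ v, H.degree v = 1 + (if H.degree v = 2 then 1 else 0) := by
    have hle : ∀ v ∈ (Finset.univ : Finset (Fin n)),
        H.degree v ≤ 1 + (if H.degree v = 2 then 1 else 0) := by
      intro v _
      have := hd v
      split_ifs <;> omega
    have hsum := Finset.sum_le_sum hle
    rw [SimpleGraph.sum_degrees_eq_twice_card_edges, hedge, Finset.sum_add_distrib,
      ← Finset.card_filter] at hsum
    have hones : ∑ v : Fin n, 1 = n := by simp
    rw [hones] at hsum
    have heq : ∑ v, H.degree v = ∑ v : Fin n, (1 + (if H.degree v = 2 then 1 else 0)) := by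
      rw [SimpleGraph.sum_degrees_eq_twice_card_edges, hedge, Finset.sum_add_distrib,
        ← Finset.card_filter, hones]
      omega
    intro v
    exact (Finset.sum_eq_sum_iff_of_le hle).1 heq v (Finset.mem_univ _)
  have hdeg12 : ∀ v, H.degree v = 1 ∨ H.degree v = 2 := by
    intro v
    have h1 := hpt v
    have h2 := hd v
    split_ifs at h1 <;> omega
  have hcard2 : (Finset.univ.filter (fun v => H.degree v = 2)).card = a := by
    have h1 : ∑ v, H.degree v = ∑ v : Fin n, (1 + (if H.degree v = 2 then 1 else 0)) :=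
      Finset.sum_congr rfl (fun v _ => hpt v)
    have hones : ∑ v : Fin n, 1 = n := by simp
    rw [SimpleGraph.sum_degrees_eq_twice_card_edges, hedge, Finset.sum_add_distrib,
        ← Finset.card_filter, hones] at h1
    omega
  have hcard1 : (Finset.univ.filter (fun v => ¬ H.degree v = 2)).card = n - a := by
    have := Finset.card_filter_add_card_filter_not (s := (Finset.univ : Finset (Fin n)))
      (fun v : Fin n => H.degree v = 2)
    rw [hcard2, Finset.card_univ, Fintype.card_fin] at this
    omega
  have hsumH : ∀ g : ℕ → ℕ, ∑ v, g (H.degree v) = a * g 2 + (n - a) * g 1 := by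
    intro g
    rw [← Finset.sum_filter_add_sum_filter_not Finset.univ (fun v => H.degree v = 2)]
    have e1 : ∑ v ∈ Finset.univ.filter (fun v : Fin n => H.degree v = 2), g (H.degree v) =
        ∑ v ∈ Finset.univ.filter (fun v : Fin n => H.degree v = 2), g 2 := by
      apply Finset.sum_congr rfl
      intro v hv
      rw [(Finset.mem_filter.1 hv).2]
    have e2 : ∑ v ∈ Finset.univ.filter (fun v : Fin n => ¬ H.degree v = 2), g (H.degree v) =
        ∑ v ∈ Finset.univ.filter (fun v : Fin n => ¬ H.degree v = 2), g 1 := by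
      apply Finset.sum_congr rfl
      intro v hv
      have h1 := (Finset.mem_filter.1 hv).2
      have h2 := hdeg12 v
      have h3 : H.degree v = 1 := by tauto
      rw [h3]
    rw [e1, e2, Finset.sum_const, Finset.sum_const, hcard2, hcard1, smul_eq_mul, smul_eq_mul]
  refine ⟨hdeg12, hcard2, ?_⟩
  -- Step 4
  have hsums : ∀ i, ∑ v, FF G'.edgeFinset.card (G'.degree v) i =
      ∑ v, FF G.edgeFinset.card (G.degree v) i := by
    intro i
    have h4 : ∑ v, FF G'.edgeFinset.card (G'.degree v) i =
        ∑ v, FF m (n - 1 - H'.degree v) i := by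
      apply Finset.sum_congr rfl
      intro v _
      rw [hdegG' v, hm, hmdef]
    have h5 : ∑ v, FF G.edgeFinset.card (G.degree v) i =
        ∑ v, FF m (n - 1 - H.degree v) i := by
      apply Finset.sum_congr rfl
      intro v _
      rw [hdegG v, hmdef]
    have h6 := hsum' (fun x => FF m (n - 1 - x) i)
    have h7 := hsumH (fun x => FF m (n - 1 - x) i)
    rw [h4, h5, h6, h7]
  have hQ : (Qg G).edgeFinset.card ≤ (Qg G').edgeFinset.card := by
    have h1 := umr_dis hU hm (2 * n - 8) (by
      intro j hj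
      have h2 := lower hgood j (by omega)
      have h3 := upper hgood' j (by omega)
      rw [if_neg (by omega), add_zero] at h2 h3
      rw [hsums] at h3
      omega)
    have h2 := lower hgood (2 * n - 8) (by omega)
    have h3 := upper hgood' (2 * n - 8) (by omega)
    rw [if_pos (by omega)] at h2 h3
    rw [hsums] at h3
    omega
  -- degrees in Q
  have hQdeg : ∀ (K L : SimpleGraph (Fin n)), (∀ u v, L.Adj u v ↔ u ≠ v ∧ ¬ K.Adj u v) →
      ∀ v, L.degree v = 2 → (Qg K).degree v + 1 +
        ((L.neighborFinset v).filter (fun w => L.degree w = 2)).card =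
        (Finset.univ.filter (fun v => L.degree v = 2)).card := by
    intro K L hKL v hv
    have hdK : ∀ w, K.degree w + 3 = n ↔ L.degree w = 2 := by
      intro w
      have := deg_add hKL w
      omega
    have h1 : (Qg K).neighborFinset v = (Finset.univ.filter (fun w => L.degree w = 2)).filter
        (fun w => w ≠ v ∧ ¬ L.Adj v w) := by
      ext w
      rw [SimpleGraph.mem_neighborFinset, Finset.mem_filter, Finset.mem_filter]
      constructor
      · intro h
        have h2 : K.Adj v w := h.1
        refine ⟨⟨Finset.mem_univ _, (hdK w).1 h.2.2⟩, h2.ne', ?_⟩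
        rw [hKL]
        intro h3
        exact h3.2 h2
      · rintro ⟨⟨-, h2⟩, h3, h4⟩
        refine ⟨?_, (hdK v).2 hv, (hdK w).2 h2⟩
        rw [hKL] at h4
        by_contra h5
        exact h4 ⟨h3.symm, h5⟩
    have h2 : (Finset.univ.filter (fun w => L.degree w = 2)).filter
        (fun w => ¬ (w ≠ v ∧ ¬ L.Adj v w)) =
        insert v ((L.neighborFinset v).filter (fun w => L.degree w = 2)) := by
      ext w
      rw [Finset.mem_filter, Finset.mem_filter, Finset.mem_insert, Finset.mem_filter,
        SimpleGraph.mem_neighborFinset]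
      constructor
      · rintro ⟨⟨-, h3⟩, h4⟩
        by_cases hwv : w = v
        · left; exact hwv
        · right
          refine ⟨?_, h3⟩
          by_contra h5
          exact h4 ⟨hwv, h5⟩
      · rintro (h3 | ⟨h3, h4⟩)
        · subst h3
          exact ⟨⟨Finset.mem_univ _, hv⟩, fun h => h.1 rfl⟩
        · exact ⟨⟨Finset.mem_univ _, h4⟩, fun h => h.2 h3⟩
    have h3 := Finset.card_filter_add_card_filter_not
      (s := Finset.univ.filter (fun w => L.degree w = 2)) (fun w => w ≠ v ∧ ¬ L.Adj v w)
    rw [h2, ← h1, Finset.card_insert_of_notMem (by simp),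
      SimpleGraph.card_neighborFinset_eq_degree] at h3
    omega
  have hQdeg0 : ∀ (K L : SimpleGraph (Fin n)), (∀ u v, L.Adj u v ↔ u ≠ v ∧ ¬ K.Adj u v) →
      ∀ v, L.degree v ≠ 2 → (Qg K).degree v = 0 := by
    intro K L hKL v hv
    rw [← SimpleGraph.card_neighborFinset_eq_degree, Finset.card_eq_zero,
      Finset.eq_empty_iff_forall_notMem]
    intro w hw
    rw [SimpleGraph.mem_neighborFinset] at hw
    have h1 : K.degree v + 3 = n := hw.2.1
    have := deg_add hKL v
    omega
  have hsumQ' : 2 * (Qg G').edgeFinset.card = a * (a - 3) := by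
    rw [← SimpleGraph.sum_degrees_eq_twice_card_edges, hsumv]
    have hf : (Finset.univ.filter (fun v : Fin n => v.val < a)) =
        (Finset.univ.filter (fun v => H'.degree v = 2)) := by
      ext v
      rw [Finset.mem_filter, Finset.mem_filter]
      constructor
      · rintro ⟨h1, h2⟩; exact ⟨h1, hH'1 v h2⟩
      · rintro ⟨h1, h2⟩
        refine ⟨h1, ?_⟩
        by_contra h3
        rw [hH'2 v (by omega)] at h2
        omega
    have e1 : ∑ v ∈ Finset.univ.filter (fun v : Fin n => v.val < a), (Qg G').degree v =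
        ∑ v ∈ Finset.univ.filter (fun v : Fin n => v.val < a), (a - 3) := by
      apply Finset.sum_congr rfl
      intro v hv
      have hv' := (Finset.mem_filter.1 hv).2
      have h1 := hQdeg G' H' hc' v (hH'1 v hv')
      rw [← hf, hcount] at h1
      have h2 : (H'.neighborFinset v).filter (fun w => H'.degree w = 2) = H'.neighborFinset v := by
        rw [Finset.filter_eq_self]
        intro w hw
        rw [SimpleGraph.mem_neighborFinset] at hw
        exact hH'1 w ((hH'3 v w hw).1 hv')
      rw [h2, SimpleGraph.card_neighborFinset_eq_degree, hH'1 v hv'] at h1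
      omega
    have e2 : ∑ v ∈ Finset.univ.filter (fun v : Fin n => ¬ v.val < a), (Qg G').degree v = 0 := by
      apply Finset.sum_eq_zero
      intro v hv
      have hv' := (Finset.mem_filter.1 hv).2
      apply hQdeg0 G' H' hc' v
      rw [hH'2 v (by omega)]
      norm_num
    rw [e1, e2, Finset.sum_const, hcount, smul_eq_mul, add_zero]
  have hsumQ : 2 * (Qg G).edgeFinset.card =
      ∑ v ∈ Finset.univ.filter (fun v : Fin n => H.degree v = 2), (Qg G).degree v := by
    rw [← SimpleGraph.sum_degrees_eq_twice_card_edges,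
      ← Finset.sum_filter_add_sum_filter_not Finset.univ (fun v => H.degree v = 2)]
    have e2 : ∑ v ∈ Finset.univ.filter (fun v : Fin n => ¬ H.degree v = 2), (Qg G).degree v = 0 := by
      apply Finset.sum_eq_zero
      intro v hv
      exact hQdeg0 G H hH v (Finset.mem_filter.1 hv).2
    rw [e2, add_zero]
  have hlow : ∀ v ∈ Finset.univ.filter (fun v : Fin n => H.degree v = 2),
      a - 3 ≤ (Qg G).degree v := by
    intro v hv
    have hv' := (Finset.mem_filter.1 hv).2
    have h1 := hQdeg G H hH v hv'
    rw [hcard2] at h1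
    have h2 : ((H.neighborFinset v).filter (fun w => H.degree w = 2)).card ≤ 2 := by
      refine (Finset.card_filter_le _ _).trans ?_
      rw [SimpleGraph.card_neighborFinset_eq_degree, hv']
    omega
  have heqs : ∀ v ∈ Finset.univ.filter (fun v : Fin n => H.degree v = 2),
      a - 3 = (Qg G).degree v := by
    rw [← Finset.sum_eq_sum_iff_of_le hlow]
    apply le_antisymm (Finset.sum_le_sum hlow)
    rw [← hsumQ, Finset.sum_const, hcard2, smul_eq_mul, ← hsumQ']
    omega
  intro u v huv hu
  have hu' : u ∈ Finset.univ.filter (fun v : Fin n => H.degree v = 2) := by simp [hu]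
  have h1 := hQdeg G H hH u hu
  rw [hcard2, ← heqs u hu'] at h1
  have h2 : ((H.neighborFinset u).filter (fun w => H.degree w = 2)) = H.neighborFinset u := by
    apply Finset.eq_of_subset_of_card_le (Finset.filter_subset _ _)
    rw [SimpleGraph.card_neighborFinset_eq_degree, hu]
    omega
  rw [Finset.filter_eq_self] at h2
  exact h2 v (by rw [SimpleGraph.mem_neighborFinset]; exact huv)

end Pool.Agent.Helper428.UMR
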