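import Mathlib
import Pool.Agent.Helper428.MatrixTree
import Pool.Agent.Helper428.UMRStruct
import Pool.Agent.Helper428.UMRIdent

set_option autoImplicit false
set_option linter.unusedSimpArgs false

namespace Pool.Agent.Helper428.UMR

open Matrix Finset
open Classical

variable {n : ℕ}

lemma fes_edgeSet {G : SimpleGraph (Fin n)} {A : Finset (Sym2 (Fin n))} (hA : A ⊆ G.edgeFinset) :
    (SimpleGraph.fromEdgeSet (A : Set (Sym2 (Fin n)))).edgeSet = (A : Set (Sym2 (Fin n))) := by
  rw [SimpleGraph.edgeSet_fromEdgeSet]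
  ext e
  simp only [Set.mem_sdiff, Finset.mem_coe]
  constructor
  · intro h; exact h.1
  · intro h
    refine ⟨h, ?_⟩
    have := hA h
    rw [SimpleGraph.mem_edgeFinset] at this
    exact SimpleGraph.not_isDiag_of_mem_edgeSet G this

lemma eta_zero (G : SimpleGraph (Fin n)) (j : ℕ) (hj : j + 1 < n) : eta G j = 0 := by
  unfold eta
  rw [Finset.card_eq_zero, Finset.filter_eq_empty_iff]
  intro A hA hcon
  rw [Finset.mem_powersetCard] at hA
  have h := hcon.card_vert_le_card_edgeSet_add_one
  rw [fes_edgeSet hA.1] at h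
  simp at h
  omega

lemma eta_tree {G H : SimpleGraph (Fin n)} (hH : ∀ u v, H.Adj u v ↔ u ≠ v ∧ ¬ G.Adj u v)
    (hn : 0 < n) : (KK H).det = (n : ℝ) ^ 2 * (eta G (n - 1) : ℝ) := by
  haveI : Nonempty (Fin n) := ⟨⟨0, hn⟩⟩
  have h := MatrixTree.matrix_tree (V := Fin n) (fun e => if e ∈ G.edgeSet then (1 : ℝ) else 0)
    (by
      intro e he
      rw [if_neg]
      intro h
      exact SimpleGraph.not_isDiag_of_mem_edgeSet G h he)
  rw [Fintype.card_fin] at h
  have h1 : MatrixTree.PL (fun i j : Fin n => if s(i, j) ∈ G.edgeSet then (1 : ℝ) else 0) = KK H := by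
    ext i j
    unfold MatrixTree.PL KK
    simp only [SimpleGraph.mem_edgeSet]
    by_cases hij : i = j
    · subst hij
      simp only [if_true, SimpleGraph.irrefl, if_false]
      rw [← deg_eq_sum]
      have := deg_add hH i
      have h2 : (G.degree i : ℝ) + H.degree i + 1 = n := by exact_mod_cast this
      linarith
    · rw [if_neg (Ne.symm hij), if_neg hij]
      by_cases hG : G.Adj i j
      · have : ¬ H.Adj i j := by rw [hH]; tauto
        simp [hG, this]
      · have : H.Adj i j := by rw [hH]; tauto
        simp [hG, this]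
  rw [h1] at h
  rw [h]
  congr 1
  have h2 : ∀ T : Finset (Sym2 (Fin n)), ∏ e ∈ T, (if e ∈ G.edgeSet then (1 : ℝ) else 0) =
      if T ⊆ G.edgeFinset then 1 else 0 := by
    intro T
    by_cases hT : T ⊆ G.edgeFinset
    · rw [if_pos hT]
      apply Finset.prod_eq_one
      intro e he
      rw [if_pos]
      have := hT he
      rwa [SimpleGraph.mem_edgeFinset] at this
    · rw [if_neg hT]
      rw [Finset.not_subset] at hT
      obtain ⟨e, he1, he2⟩ := hT
      apply Finset.prod_eq_zero he1
      rw [if_neg]
      rwa [SimpleGraph.mem_edgeFinset] at he2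
  rw [Finset.sum_congr rfl (fun T _ => h2 T), ← Finset.sum_filter, Finset.sum_const, nsmul_eq_mul,
    mul_one]
  unfold eta
  congr 2
  ext A
  rw [Finset.mem_filter, Finset.mem_filter, Finset.mem_filter, Finset.mem_powersetCard]
  constructor
  · rintro ⟨⟨-, h3⟩, h4⟩
    rw [SimpleGraph.isTree_iff_connected_and_card, fes_edgeSet h4] at h3
    refine ⟨⟨h4, ?_⟩, h3.1⟩
    have := h3.2
    simp at this
    omega
  · rintro ⟨⟨h3, h4⟩, h5⟩
    refine ⟨⟨Finset.mem_univ _, ?_⟩, h3⟩
    rw [SimpleGraph.isTree_iff_connected_and_card, fes_edgeSet h3]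
    refine ⟨h5, ?_⟩
    simp
    omega

lemma nbr_two {H : SimpleGraph (Fin n)} {v u w : Fin n} (hd : H.degree v = 2) (hu : H.Adj v u)
    (hw : H.Adj v w) (huw : u ≠ w) (z : Fin n) : H.Adj v z ↔ z = u ∨ z = w := by
  have hsub : ({u, w} : Finset (Fin n)) ⊆ H.neighborFinset v := by
    intro z hz
    rw [SimpleGraph.mem_neighborFinset]
    rw [Finset.mem_insert, Finset.mem_singleton] at hz
    rcases hz with rfl | rfl
    · exact hu
    · exact hw
  have heq := Finset.eq_of_subset_of_card_le hsub (by
    rw [SimpleGraph.card_neighborFinset_eq_degree, hd, Finset.card_pair huw])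
  rw [← SimpleGraph.mem_neighborFinset, ← heq, Finset.mem_insert, Finset.mem_singleton]

lemma nbr_other {H : SimpleGraph (Fin n)} {v u : Fin n} (hd : H.degree v = 2) (hu : H.Adj v u) :
    ∃ w, w ≠ u ∧ H.Adj v w := by
  obtain ⟨w, h1, h2⟩ := exists_nbr_avoid H v {u} (by rw [hd]; simp)
  exact ⟨w, by simpa using h2, h1⟩

/-- **Main structure theorem.** -/
theorem structure_full {G H : SimpleGraph (Fin n)}
    (hH : ∀ u v, H.Adj u v ↔ u ≠ v ∧ ¬ G.Adj u v)
    (hU : IsUMR G) (a : ℕ) (ha : 3 ≤ a) (hedge : 2 * H.edgeFinset.card = n + a)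
    (hn : 7 ≤ n) (he : H.edgeFinset.card + 2 ≤ n ∨ (8 ≤ n ∧ H.edgeFinset.card + 1 ≤ n) ∨
      (n = 7 ∧ a = 5)) :
    (∀ v, H.degree v = 1 ∨ H.degree v = 2) ∧
    (Finset.univ.filter (fun v => H.degree v = 2)).card = a ∧
    (∀ u v w, H.Adj u v → H.Adj v w → u ≠ w → H.Adj u w) := by
  obtain ⟨h12, hcard, hcl⟩ := structure_near_one hH hU a ha hedge hn he
  refine ⟨h12, hcard, ?_⟩
  intro u v w huv hvw huw
  by_contra hnot
  -- degrees
  have hv2 : H.degree v = 2 := by
    rcases h12 v with h | h
    · exfalso
      have hsub : ({u, w} : Finset (Fin n)) ⊆ H.neighborFinset v := by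
        intro z hz
        rw [SimpleGraph.mem_neighborFinset]
        rw [Finset.mem_insert, Finset.mem_singleton] at hz
        rcases hz with rfl | rfl
        · exact huv.symm
        · exact hvw
      have := Finset.card_le_card hsub
      rw [SimpleGraph.card_neighborFinset_eq_degree, h, Finset.card_pair huw] at this
      omega
    · exact h
  have hu2 : H.degree u = 2 := hcl v u huv.symm hv2
  have hw2 : H.degree w = 2 := hcl v w hvw hv2
  obtain ⟨u', hu'v, hu'⟩ := nbr_other hu2 huv
  obtain ⟨w', hw'v, hw'⟩ := nbr_other hw2 hvw.symm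
  have hu'2 : H.degree u' = 2 := hcl u u' hu' hu2
  have hw'2 : H.degree w' = 2 := hcl w w' hw' hw2
  -- an isolated edge
  have hex : ∃ x, H.degree x = 1 := by
    by_contra hno
    push Not at hno
    have hall : Finset.univ.filter (fun v => H.degree v = 2) = Finset.univ := by
      rw [Finset.filter_eq_self]
      intro z _
      rcases h12 z with h | h
      · exact absurd h (hno z)
      · exact h
    rw [hall, Finset.card_univ, Fintype.card_fin] at hcard
    omega
  obtain ⟨x, hx1⟩ := hex
  obtain ⟨y, hxy, -⟩ := exists_nbr_avoid H x ∅ (by rw [hx1]; simp)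
  have hy1 : H.degree y = 1 := by
    rcases h12 y with h | h
    · exact h
    · have := hcl y x hxy.symm h
      omega
  have nbr_one : ∀ p q : Fin n, H.degree p = 1 → H.Adj p q → ∀ z, H.Adj p z ↔ z = q := by
    intro p q hp hpq z
    have hsub : ({q} : Finset (Fin n)) ⊆ H.neighborFinset p := by
      intro z hz
      rw [Finset.mem_singleton] at hz
      rw [SimpleGraph.mem_neighborFinset, hz]
      exact hpq
    have heq := Finset.eq_of_subset_of_card_le hsub (by
      rw [SimpleGraph.card_neighborFinset_eq_degree, hp, Finset.card_singleton])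
    rw [← SimpleGraph.mem_neighborFinset, ← heq, Finset.mem_singleton]
  have dne : ∀ p q : Fin n, H.degree p = 2 → H.degree q = 1 → p ≠ q := by
    intro p q h1 h2 h3
    rw [h3] at h1
    omega
  have C : Conf H u v w x y u' w' :=
    { hu := nbr_two hu2 huv hu' hu'v.symm
      hv := nbr_two hv2 huv.symm hvw huw
      hw := nbr_two hw2 hvw.symm hw' hw'v.symm
      hx := nbr_one x y hx1 hxy
      hy := nbr_one y x hy1 hxy.symm
      uv := huv.ne
      uw := huw
      ux := dne _ _ hu2 hx1
      uy := dne _ _ hu2 hy1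
      vw := hvw.ne
      vx := dne _ _ hv2 hx1
      vy := dne _ _ hv2 hy1
      wx := dne _ _ hw2 hx1
      wy := dne _ _ hw2 hy1
      xy := hxy.ne
      u'u := hu'.ne'
      u'v := hu'v
      u'w := by rintro rfl; exact hnot hu'
      u'x := dne _ _ hu'2 hx1
      u'y := dne _ _ hu'2 hy1
      w'u := by rintro rfl; exact hnot hw'.symm
      w'v := hw'v
      w'w := hw'.ne'
      w'x := dne _ _ hw'2 hx1
      w'y := dne _ _ hw'2 hy1 }
  obtain ⟨K, hK⟩ : ∃ K : SimpleGraph (Fin n), K = swapG H u w x y u' w' := ⟨_, rfl⟩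
  have hlt := C.det_lt (by omega) (fun z => by rcases h12 z with h | h <;> omega)
  have hedges := C.edges_swap
  rw [← hK] at hlt hedges
  obtain ⟨G', hG'⟩ : ∃ G' : SimpleGraph (Fin n), G' = Kᶜ := ⟨_, rfl⟩
  have hc' : ∀ u v, K.Adj u v ↔ u ≠ v ∧ ¬ G'.Adj u v := by
    intro u v
    rw [hG', SimpleGraph.compl_adj]
    constructor
    · intro h; exact ⟨h.ne, fun h2 => h2.2 h⟩
    · rintro ⟨h1, h2⟩
      by_contra h3
      exact h2 ⟨h1, h3⟩
  have hm : G'.edgeFinset.card = G.edgeFinset.card := by
    have h1 := edges_add hH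
    have h2 := edges_add hc'
    omega
  have heta := umr_eta hU hm (n - 1) (by
    intro j hj
    exact ⟨eta_zero _ _ (by omega), eta_zero _ _ (by omega)⟩)
  rw [eta_tree hH (by omega), eta_tree hc' (by omega)] at hlt
  have hn0 : (0 : ℝ) < (n : ℝ) ^ 2 := by
    have : (0 : ℝ) < n := by exact_mod_cast (by omega : 0 < n)
    positivity
  have h5 := lt_of_mul_lt_mul_left hlt hn0.le
  have h6 : eta G (n - 1) < eta G' (n - 1) := by exact_mod_cast h5
  omega

/-- the number of vertices of degree two is divisible by three. -/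
theorem three_dvd {H : SimpleGraph (Fin n)}
    (htr : ∀ u v w, H.Adj u v → H.Adj v w → u ≠ w → H.Adj u w) :
    3 ∣ (Finset.univ.filter (fun v => H.degree v = 2)).card := by
  -- closed neighbourhoods of degree two vertices
  have hcn : ∀ u v, H.Adj u v → insert u (H.neighborFinset u) = insert v (H.neighborFinset v) := by
    have aux : ∀ u v, H.Adj u v → insert u (H.neighborFinset u) ⊆ insert v (H.neighborFinset v) := by
      intro u v huv z hz
      rw [Finset.mem_insert, SimpleGraph.mem_neighborFinset] at hz ⊢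
      rcases hz with rfl | hz
      · right; exact huv.symm
      · by_cases hzv : z = v
        · left; exact hzv
        · right
          exact htr v u z huv.symm hz (Ne.symm hzv)
    intro u v huv
    exact le_antisymm (aux u v huv) (aux v u huv.symm)
  rw [Finset.card_eq_sum_card_image (fun v => insert v (H.neighborFinset v))]
  apply Finset.dvd_sum
  intro c hc
  rw [Finset.mem_image] at hc
  obtain ⟨v, hv, rfl⟩ := hc
  have hv2 := (Finset.mem_filter.1 hv).2
  have hcard : ∀ z, (insert z (H.neighborFinset z)).card = H.degree z + 1 := by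
    intro z
    rw [Finset.card_insert_of_notMem (by simp), SimpleGraph.card_neighborFinset_eq_degree]
  have : (Finset.univ.filter (fun v => H.degree v = 2)).filter
      (fun z => insert z (H.neighborFinset z) = insert v (H.neighborFinset v)) =
      insert v (H.neighborFinset v) := by
    ext z
    rw [Finset.mem_filter, Finset.mem_filter]
    constructor
    · rintro ⟨-, h⟩
      rw [← h]
      exact Finset.mem_insert_self _ _
    · intro h
      have h2 : insert z (H.neighborFinset z) = insert v (H.neighborFinset v) := by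
        rw [Finset.mem_insert] at h
        rcases h with rfl | h
        · rfl
        · rw [SimpleGraph.mem_neighborFinset] at h
          exact (hcn v z h).symm
      refine ⟨⟨Finset.mem_univ _, ?_⟩, h2⟩
      have h3 := hcard z
      rw [h2, hcard v] at h3
      omega
  rw [this, hcard v, hv2]

end Pool.Agent.Helper428.UMR
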